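import Mathlib

/-!
# Truncated Voronoi cells of a 2-separated set of centres

For a set `C` of points of `ℂ` with pairwise distances at least `2` we attach to each centre a
measurable set of area at least `π (13/12)² - 7 · 19/360`, contained in the ball of radius `13/12`,
such that the sets of different centres are disjoint.
-/

namespace Pool.Agent.R151.Cell

open MeasureTheory Metric Complex

/-- two points of the annulus `2 ≤ ‖z‖ ≤ 13/6` with close arguments are at distance `< 2` -/
lemma norm_sub_lt_two {z w : ℂ} (hz : 2 ≤ ‖z‖) (hz' : ‖z‖ ≤ 13 / 6) (hw : 2 ≤ ‖w‖)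
    (hw' : ‖w‖ ≤ 13 / 6) (h : |arg z - arg w| ≤ 2 * Real.pi / 7) : ‖z - w‖ < 2 := by
  have hcos : 1 - (arg z - arg w) ^ 2 / 2 ≤ Real.cos (arg z - arg w) :=
    Real.one_sub_sq_div_two_le_cos
  have hsq : (arg z - arg w) ^ 2 ≤ (9 / 10) ^ 2 := by
    have hpi := Real.pi_lt_d2
    have : |arg z - arg w| ≤ 9 / 10 := by linarith
    exact sq_le_sq' (by linarith [abs_le.mp this]) (abs_le.mp this).2
  have hc : 119 / 200 ≤ Real.cos (arg z - arg w) := by linarith
  have key : ‖z - w‖ ^ 2 = ‖z‖ ^ 2 + ‖w‖ ^ 2 - 2 * ‖z‖ * ‖w‖ * Real.cos (arg z - arg w) := by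
    have e1 : z.re = ‖z‖ * Real.cos (arg z) := (norm_mul_cos_arg z).symm
    have e2 : z.im = ‖z‖ * Real.sin (arg z) := (norm_mul_sin_arg z).symm
    have e3 : w.re = ‖w‖ * Real.cos (arg w) := (norm_mul_cos_arg w).symm
    have e4 : w.im = ‖w‖ * Real.sin (arg w) := (norm_mul_sin_arg w).symm
    have e5 : ‖z - w‖ ^ 2 = (z.re - w.re) ^ 2 + (z.im - w.im) ^ 2 := by
      rw [← Complex.normSq_eq_norm_sq, Complex.normSq_apply]
      simp only [Complex.sub_re, Complex.sub_im]; ring
    rw [e5, e1, e2, e3, e4, Real.cos_sub]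
    have s1 := Real.sin_sq_add_cos_sq (arg z)
    have s2 := Real.sin_sq_add_cos_sq (arg w)
    linear_combination (‖z‖ ^ 2) * s1 + (‖w‖ ^ 2) * s2
  have h4 : ‖z - w‖ ^ 2 < 2 ^ 2 := by
    rw [key]
    have h1 : 2 * ‖z‖ * ‖w‖ * (119 / 200) ≤ 2 * ‖z‖ * ‖w‖ * Real.cos (arg z - arg w) := by
      apply mul_le_mul_of_nonneg_left hc; positivity
    nlinarith [mul_nonneg (sub_nonneg.2 hz) (sub_nonneg.2 hw'),
      mul_nonneg (sub_nonneg.2 hw) (sub_nonneg.2 hz'),
      mul_nonneg (sub_nonneg.2 hz) (sub_nonneg.2 hz'),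
      mul_nonneg (sub_nonneg.2 hw) (sub_nonneg.2 hw')]
  exact lt_of_pow_lt_pow_left₀ 2 (by norm_num) h4

/-- at most seven points in the annulus -/
lemma card_le_seven (S : Finset ℂ) (h1 : ∀ z ∈ S, 2 ≤ ‖z‖) (h2 : ∀ z ∈ S, ‖z‖ ≤ 13 / 6)
    (h3 : ∀ z ∈ S, ∀ w ∈ S, z ≠ w → 2 ≤ ‖z - w‖) : S.card ≤ 7 := by
  have hpi := Real.pi_pos
  set f : ℂ → ℤ := fun z => ⌈(arg z + Real.pi) * (7 / (2 * Real.pi))⌉ with hf
  have hmaps : ∀ z ∈ S, f z ∈ Finset.Icc (1 : ℤ) 7 := by
    intro z _
    have ha := neg_pi_lt_arg z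
    have hb := arg_le_pi z
    rw [Finset.mem_Icc]
    constructor
    · have : 0 < (arg z + Real.pi) * (7 / (2 * Real.pi)) := by
        apply mul_pos <;> [linarith; positivity]
      have := Int.ceil_pos.mpr this
      exact this
    · apply Int.ceil_le.mpr
      push_cast
      calc (arg z + Real.pi) * (7 / (2 * Real.pi)) ≤ (2 * Real.pi) * (7 / (2 * Real.pi)) := by
            apply mul_le_mul_of_nonneg_right _ (by positivity); linarith
        _ = 7 := by field_simp
  have hinj : Set.InjOn f S := by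
    intro z hz w hw hzw
    by_contra hne
    have h := h3 z hz w hw hne
    refine absurd (norm_sub_lt_two (h1 z hz) (h2 z hz) (h1 w hw) (h2 w hw) ?_) (not_lt.2 h)
    have a1 := Int.le_ceil ((arg z + Real.pi) * (7 / (2 * Real.pi)))
    have a2 := Int.ceil_lt_add_one ((arg z + Real.pi) * (7 / (2 * Real.pi)))
    have b1 := Int.le_ceil ((arg w + Real.pi) * (7 / (2 * Real.pi)))
    have b2 := Int.ceil_lt_add_one ((arg w + Real.pi) * (7 / (2 * Real.pi)))
    have hzw' : ((⌈(arg z + Real.pi) * (7 / (2 * Real.pi))⌉ : ℤ) : ℝ) =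
      ((⌈(arg w + Real.pi) * (7 / (2 * Real.pi))⌉ : ℤ) : ℝ) := by exact_mod_cast hzw
    have hd : |(arg z - arg w) * (7 / (2 * Real.pi))| ≤ 1 := by
      rw [abs_le]; constructor <;> nlinarith
    rw [abs_mul, abs_of_pos (by positivity : (0:ℝ) < 7 / (2 * Real.pi))] at hd
    rw [le_div_iff₀ (by norm_num : (0:ℝ) < 7)]
    have : |arg z - arg w| * (7 / (2 * Real.pi)) * (2 * Real.pi) ≤ 1 * (2 * Real.pi) :=
      mul_le_mul_of_nonneg_right hd (by positivity)
    have e : |arg z - arg w| * (7 / (2 * Real.pi)) * (2 * Real.pi) = |arg z - arg w| * 7 := by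
      field_simp
    linarith
  calc S.card ≤ (Finset.Icc (1 : ℤ) 7).card := Finset.card_le_card_of_injOn f hmaps hinj
    _ = 7 := by simp

/-- the cap in standard position -/
def cap0 : Set ℂ := {z | ‖z‖ ≤ 13 / 12 ∧ 1 ≤ z.re}

lemma measurableSet_cap0 : MeasurableSet cap0 := by
  apply IsClosed.measurableSet
  apply IsClosed.inter
  · exact isClosed_le continuous_norm continuous_const
  · exact isClosed_le continuous_const Complex.continuous_re

lemma integral_aux : ∫ x in Set.Icc (1:ℝ) (13/12), (24 / 5) * (169 / 144 - x) = 19 / 360 := by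
  rw [integral_Icc_eq_integral_Ioc, ← intervalIntegral.integral_of_le (by norm_num)]
  rw [intervalIntegral.integral_const_mul, intervalIntegral.integral_sub (by simp) (by simp)]
  simp
  norm_num

lemma volume_cap0 : volume cap0 ≤ ENNReal.ofReal (19 / 360) := by
  have hmp := Complex.volume_preserving_equiv_real_prod
  have hs : MeasurableSet (Complex.measurableEquivRealProd '' cap0) :=
    (MeasurableEquiv.measurableSet_image _).2 measurableSet_cap0
  have e : volume cap0 = volume (Complex.measurableEquivRealProd '' cap0) := by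
    rw [← hmp.measure_preimage hs.nullMeasurableSet]
    congr 1
    exact (Set.preimage_image_eq _ Complex.measurableEquivRealProd.injective).symm
  rw [e, Measure.volume_eq_prod, Measure.prod_apply hs]
  have hbound : ∀ x : ℝ, volume (Prod.mk x ⁻¹' (Complex.measurableEquivRealProd '' cap0)) ≤
      (Set.Icc (1:ℝ) (13/12)).indicator (fun x => ENNReal.ofReal ((24 / 5) * (169 / 144 - x))) x := by
    intro x
    have himg : ∀ y : ℝ, (x, y) ∈ Complex.measurableEquivRealProd '' cap0 →
        x ^ 2 + y ^ 2 ≤ (13 / 12) ^ 2 ∧ 1 ≤ x := by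
      rintro y ⟨z, hz, hzy⟩
      have hx : z.re = x := by
        have := congrArg Prod.fst hzy; simpa using this
      have hy : z.im = y := by
        have := congrArg Prod.snd hzy; simpa using this
      subst hx hy
      refine ⟨?_, hz.2⟩
      have h1 := hz.1
      have : ‖z‖ ^ 2 ≤ (13 / 12) ^ 2 := by gcongr
      rw [← Complex.normSq_eq_norm_sq, Complex.normSq_apply] at this
      linarith
    by_cases hx : x ∈ Set.Icc (1:ℝ) (13/12)
    · rw [Set.indicator_of_mem hx]
      have hsub : (Prod.mk x ⁻¹' (Complex.measurableEquivRealProd '' cap0)) ⊆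
          Set.Icc (-((12 / 5) * (169 / 144 - x))) ((12 / 5) * (169 / 144 - x)) := by
        intro y hy
        obtain ⟨h1, h2⟩ := himg y hy
        rw [Set.mem_Icc]
        constructor <;> nlinarith [sq_nonneg (y * 12 - 5 * x), sq_nonneg (y * 12 + 5 * x),
          sq_nonneg (y - 5 / 12), sq_nonneg (y + 5 / 12), sq_nonneg (x - 1), hx.1, hx.2]
      refine le_trans (measure_mono hsub) ?_
      rw [Real.volume_Icc]
      apply ENNReal.ofReal_le_ofReal
      linarith
    · rw [Set.indicator_of_notMem hx]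
      have : (Prod.mk x ⁻¹' (Complex.measurableEquivRealProd '' cap0)) = ∅ := by
        apply Set.eq_empty_of_forall_notMem
        intro y hy
        obtain ⟨h1, h2⟩ := himg y hy
        apply hx
        refine ⟨h2, ?_⟩
        nlinarith [sq_nonneg y]
      rw [this]; simp
  refine le_trans (lintegral_mono hbound) ?_
  rw [lintegral_indicator measurableSet_Icc]
  rw [← ofReal_integral_eq_lintegral_ofReal, integral_aux]
  · apply Continuous.integrableOn_Icc; fun_prop
  · filter_upwards [ae_restrict_mem measurableSet_Icc] with x hx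
    have := hx.2
    simp only [Pi.zero_apply]
    nlinarith [hx.1, hx.2]

/-- The cap of the disk around `c` cut off by the bisector of `c` and `j`. -/
def cap (c j : ℂ) : Set ℂ := {z | dist z c ≤ 13 / 12 ∧ dist z j ≤ dist z c}

lemma measurableSet_cap (c j : ℂ) : MeasurableSet (cap c j) := by
  apply IsClosed.measurableSet
  apply IsClosed.inter
  · exact isClosed_le (continuous_id.dist continuous_const) continuous_const
  · exact isClosed_le (continuous_id.dist continuous_const) (continuous_id.dist continuous_const)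

lemma volume_cap (c j : ℂ) (h : 2 ≤ dist j c) : volume (cap c j) ≤ ENNReal.ofReal (19 / 360) := by
  have hj : 2 ≤ ‖j - c‖ := by rwa [dist_eq_norm] at h
  have hpos : 0 < ‖j - c‖ := by linarith
  -- the unit vector
  set u : ℂ := (j - c) / (‖j - c‖ : ℂ) with hu
  have hnu : ‖u‖ = 1 := by
    rw [hu, norm_div, Complex.norm_real, norm_norm, div_self hpos.ne']
  set v : Circle := ⟨(starRingEnd ℂ) u, by
    rw [Submonoid.unitSphere, Submonoid.mem_mk, Subsemigroup.mem_mk, mem_sphere_zero_iff_norm, RCLike.norm_conj, hnu]⟩ with hv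
  have hmp : MeasurePreserving (fun z : ℂ => rotation v (z - c)) volume volume :=
    (LinearIsometryEquiv.measurePreserving (rotation v)).comp (measurePreserving_sub_right volume c)
  have hsub : cap c j ⊆ (fun z : ℂ => rotation v (z - c)) ⁻¹' cap0 := by
    intro z hz
    obtain ⟨h1, h2⟩ := hz
    rw [Set.mem_preimage]
    constructor
    · rw [LinearIsometryEquiv.norm_map]; rwa [dist_eq_norm] at h1
    · have h3 : ‖z - j‖ ^ 2 ≤ ‖z - c‖ ^ 2 := by
        rw [dist_eq_norm, dist_eq_norm] at h2
        gcongr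
      rw [← Complex.normSq_eq_norm_sq, ← Complex.normSq_eq_norm_sq, Complex.normSq_apply,
        Complex.normSq_apply] at h3
      simp only [Complex.sub_re, Complex.sub_im] at h3
      have h4 : ‖j - c‖ ^ 2 = (j.re - c.re) ^ 2 + (j.im - c.im) ^ 2 := by
        rw [← Complex.normSq_eq_norm_sq, Complex.normSq_apply]
        simp only [Complex.sub_re, Complex.sub_im]; ring
      have h5 : (rotation v (z - c)).re =
          ((z.re - c.re) * (j.re - c.re) + (z.im - c.im) * (j.im - c.im)) / ‖j - c‖ := by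
        rw [rotation_apply, hv]
        simp only [hu]
        rw [map_div₀, Complex.conj_ofReal, div_mul_eq_mul_div, Complex.div_ofReal_re]
        simp only [Complex.mul_re, Complex.conj_re, Complex.conj_im, Complex.sub_re, Complex.sub_im]
        ring
      rw [h5, le_div_iff₀ hpos]
      nlinarith
  calc volume (cap c j) ≤ volume ((fun z : ℂ => rotation v (z - c)) ⁻¹' cap0) := measure_mono hsub
    _ = volume cap0 := hmp.measure_preimage measurableSet_cap0.nullMeasurableSet
    _ ≤ _ := volume_cap0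

/-- The neighbours of `c` in `C`. -/
def nbrs (C : Set ℂ) (c : ℂ) : Set ℂ := {j | j ∈ C ∧ j ≠ c ∧ dist j c ≤ 13 / 6}

lemma nbrs_card_le {C : Set ℂ} (hC : ∀ x ∈ C, ∀ y ∈ C, x ≠ y → 2 ≤ dist x y) {c : ℂ} (hc : c ∈ C)
    (S : Finset ℂ) (hS : (S : Set ℂ) ⊆ nbrs C c) : S.card ≤ 7 := by
  have hinj : Function.Injective (fun z : ℂ => z - c) := sub_left_injective
  rw [← Finset.card_image_of_injective S hinj]
  apply card_le_seven
  · intro z hz
    obtain ⟨w, hw, rfl⟩ := Finset.mem_image.mp hz
    have h := hS hw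
    rw [← dist_eq_norm]
    exact hC w h.1 c hc h.2.1
  · intro z hz
    obtain ⟨w, hw, rfl⟩ := Finset.mem_image.mp hz
    have h := hS hw
    rw [← dist_eq_norm]
    exact h.2.2
  · intro z hz w hw hne
    obtain ⟨z', hz', rfl⟩ := Finset.mem_image.mp hz
    obtain ⟨w', hw', rfl⟩ := Finset.mem_image.mp hw
    have h1 := hS hz'
    have h2 := hS hw'
    have h3 : z' ≠ w' := fun h => hne (by rw [h])
    have := hC z' h1.1 w' h2.1 h3
    simpa [dist_eq_norm] using this

lemma nbrs_finite {C : Set ℂ} (hC : ∀ x ∈ C, ∀ y ∈ C, x ≠ y → 2 ≤ dist x y) {c : ℂ} (hc : c ∈ C) :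
    (nbrs C c).Finite := by
  by_contra hinf
  obtain ⟨S, hS, hcard⟩ := Set.Infinite.exists_subset_card_eq hinf 8
  have := nbrs_card_le hC hc S hS
  omega

/-- The truncated cell. -/
def cell (C : Set ℂ) (c : ℂ) : Set ℂ := closedBall c (13 / 12) \ ⋃ j ∈ nbrs C c, cap c j

lemma measurableSet_cell {C : Set ℂ} (hC : ∀ x ∈ C, ∀ y ∈ C, x ≠ y → 2 ≤ dist x y) {c : ℂ}
    (hc : c ∈ C) : MeasurableSet (cell C c) := by
  apply MeasurableSet.diff measurableSet_closedBall
  exact (nbrs_finite hC hc).measurableSet_biUnion fun j _ => measurableSet_cap c j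

lemma cell_disjoint {C : Set ℂ} {c d : ℂ} (hc : c ∈ C) (hd : d ∈ C) (hne : c ≠ d) :
    Disjoint (cell C c) (cell C d) := by
  rw [Set.disjoint_left]
  intro z hz hz'
  obtain ⟨h1, h2⟩ := hz
  obtain ⟨h3, h4⟩ := hz'
  rw [mem_closedBall] at h1 h3
  have hcd : dist c d ≤ 13 / 6 := by
    have := dist_triangle_left c d z
    linarith
  simp only [Set.mem_iUnion, not_exists] at h2 h4
  rcases le_total (dist z c) (dist z d) with h | h
  · exact h4 c ⟨hc, hne, hcd⟩ ⟨h3, h⟩
  · exact h2 d ⟨hd, hne.symm, by rwa [dist_comm]⟩ ⟨h1, h⟩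

lemma cell_volume {C : Set ℂ} (hC : ∀ x ∈ C, ∀ y ∈ C, x ≠ y → 2 ≤ dist x y) {c : ℂ}
    (hc : c ∈ C) : ENNReal.ofReal (663 / 200) < volume (cell C c) := by
  have hfin := nbrs_finite hC hc
  have hU : volume (⋃ j ∈ nbrs C c, cap c j) ≤ ENNReal.ofReal (133 / 360) := by
    have e : (⋃ j ∈ nbrs C c, cap c j) = ⋃ j ∈ hfin.toFinset, cap c j := by simp
    rw [e]
    refine le_trans (measure_biUnion_finset_le _ _) ?_
    have hcard : hfin.toFinset.card ≤ 7 := nbrs_card_le hC hc _ (by simp)
    calc ∑ j ∈ hfin.toFinset, volume (cap c j)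
        ≤ ∑ j ∈ hfin.toFinset, ENNReal.ofReal (19 / 360) := by
          apply Finset.sum_le_sum
          intro j hj
          have hj' : j ∈ nbrs C c := by simpa using hj
          exact volume_cap c j (hC j hj'.1 c hc hj'.2.1)
      _ = (hfin.toFinset.card : ENNReal) * ENNReal.ofReal (19 / 360) := by
          rw [Finset.sum_const, nsmul_eq_mul]
      _ ≤ (7 : ENNReal) * ENNReal.ofReal (19 / 360) := by
          gcongr
          exact_mod_cast hcard
      _ = ENNReal.ofReal (133 / 360) := by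
          rw [show (7 : ENNReal) = ENNReal.ofReal 7 by norm_num, ← ENNReal.ofReal_mul (by norm_num)]
          norm_num
  have hball : volume (closedBall c (13 / 12)) = ENNReal.ofReal (169 / 144 * Real.pi) := by
    rw [Complex.volume_closedBall]
    rw [← ENNReal.ofReal_pow (by norm_num)]
    rw [← ENNReal.ofReal_coe_nnreal, NNReal.coe_real_pi, ← ENNReal.ofReal_mul (by norm_num)]
    norm_num
  have hle : volume (closedBall c (13 / 12)) ≤
      volume (cell C c) + volume (⋃ j ∈ nbrs C c, cap c j) := by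
    calc volume (closedBall c (13 / 12)) ≤ volume (cell C c ∪ ⋃ j ∈ nbrs C c, cap c j) := by
          apply measure_mono
          intro z hz
          by_cases h : z ∈ ⋃ j ∈ nbrs C c, cap c j
          · exact Or.inr h
          · exact Or.inl ⟨hz, h⟩
      _ ≤ _ := measure_union_le _ _
  by_contra hcon
  push Not at hcon
  have : ENNReal.ofReal (169 / 144 * Real.pi) ≤ ENNReal.ofReal (663 / 200 + 133 / 360) := by
    rw [← hball, ENNReal.ofReal_add (by norm_num) (by norm_num)]
    exact le_trans hle (add_le_add hcon hU)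
  rw [ENNReal.ofReal_le_ofReal_iff (by norm_num)] at this
  have hpi := Real.pi_gt_d2
  norm_num at this
  linarith

end Pool.Agent.R151.Cell
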