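import Mathlib

/-!
# A deletion argument

If few functions `Fin N → Q` are bad on a `(k+1)`-subset, there is a large index set without bad
`(k+1)`-subsets.
-/

namespace Pool.Agent.R151.Deletion

open Finset

/-- deletion: if at most `m` sets of `𝒯` are bad, there are at least `N - m` indices without a
bad set. -/
lemma exists_good_subset {N m : ℕ} (Bad : Finset (Finset (Fin N))) (hne : ∀ T ∈ Bad, T.Nonempty)
    (hcard : Bad.card ≤ m) :
    ∃ G : Finset (Fin N), N - m ≤ G.card ∧ ∀ T ∈ Bad, ¬ T ⊆ G := by
  classical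
  rcases isEmpty_or_nonempty (Fin N) with hemp | hnon
  · refine ⟨univ, by rw [card_univ, Fintype.card_fin]; omega, fun T hT _ => ?_⟩
    obtain ⟨i, _⟩ := hne T hT
    exact hemp.elim i
  choose! pick hpick using hne
  refine ⟨univ \ Bad.image pick, ?_, ?_⟩
  · rw [card_sdiff_of_subset (subset_univ _), card_univ, Fintype.card_fin]
    have := card_image_le (s := Bad) (f := pick)
    omega
  · intro T hT hsub
    have h1 := hsub (hpick T hT)
    rw [mem_sdiff] at h1
    exact h1.2 (mem_image_of_mem _ hT)

/-- number of the functions with prescribed values at `a`, `b` and restricted values on `T'` -/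
lemma card_restricted {N : ℕ} {Q : Type*} [Fintype Q] [DecidableEq Q] (T : Finset (Fin N))
    (a b : Fin N) (ha : a ∈ T) (hb : b ∈ T) (hab : a ≠ b) (S : Q → Q → Finset Q) (s : ℕ)
    (hS : ∀ x y, (S x y).card ≤ s) :
    (univ.filter fun f : Fin N → Q => ∀ c ∈ T, c ≠ a → c ≠ b → f c ∈ S (f a) (f b)).card ≤
      Fintype.card Q ^ 2 * (s ^ (T.card - 2) * Fintype.card Q ^ (N - T.card)) := by
  classical
  have hsub : (univ.filter fun f : Fin N → Q => ∀ c ∈ T, c ≠ a → c ≠ b → f c ∈ S (f a) (f b)) ⊆
      (univ : Finset (Q × Q)).biUnion fun xy => Fintype.piFinset fun i =>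
        if i = a then {xy.1} else if i = b then {xy.2} else if i ∈ T then S xy.1 xy.2 else univ := by
    intro f hf
    rw [mem_filter] at hf
    rw [mem_biUnion]
    refine ⟨(f a, f b), mem_univ _, ?_⟩
    rw [Fintype.mem_piFinset]
    intro i
    by_cases h1 : i = a
    · simp [h1]
    · by_cases h2 : i = b
      · simp [h2, hab.symm]
      · by_cases h3 : i ∈ T
        · simp only [h1, h2, h3, if_false, if_true]
          exact hf.2 i h3 h1 h2
        · simp [h1, h2, h3]
  refine le_trans (card_le_card hsub) (le_trans card_biUnion_le ?_)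
  have hone : ∀ xy : Q × Q, (Fintype.piFinset fun i : Fin N =>
        if i = a then ({xy.1} : Finset Q) else if i = b then {xy.2} else
          if i ∈ T then S xy.1 xy.2 else univ).card ≤ s ^ (T.card - 2) * Fintype.card Q ^ (N - T.card) := by
    intro xy
    rw [Fintype.card_piFinset]
    -- bound each factor
    have hbound : ∀ i : Fin N, (if i = a then ({xy.1} : Finset Q) else if i = b then {xy.2} else
          if i ∈ T then S xy.1 xy.2 else univ).card ≤
        (if i ∈ (T.erase a).erase b then s else 1) * (if i ∈ T then 1 else Fintype.card Q) := by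
      intro i
      by_cases h1 : i = a
      · simp [h1, ha]
      · by_cases h2 : i = b
        · simp [h2, hb, hab.symm]
        · by_cases h3 : i ∈ T
          · simp [h1, h2, h3, hS]
          · simp [h1, h2, h3]
    refine le_trans (prod_le_prod' fun i _ => hbound i) ?_
    rw [prod_mul_distrib, prod_ite, prod_ite]
    simp only [prod_const, one_pow, mul_one, one_mul]
    have e1 : (univ.filter fun i => i ∈ (T.erase a).erase b).card = T.card - 2 := by
      rw [show (univ.filter fun i => i ∈ (T.erase a).erase b) = (T.erase a).erase b by ext; simp,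
        card_erase_of_mem (by simp [hab.symm, hb]), card_erase_of_mem ha]
      omega
    have e2 : (univ.filter fun i => ¬ i ∈ T).card = N - T.card := by
      rw [show (univ.filter fun i => ¬ i ∈ T) = univ \ T by ext; simp,
        card_sdiff_of_subset (subset_univ _), card_univ, Fintype.card_fin]
    rw [e1, e2]
  calc ∑ xy : Q × Q, (Fintype.piFinset fun i : Fin N =>
        if i = a then ({xy.1} : Finset Q) else if i = b then {xy.2} else
          if i ∈ T then S xy.1 xy.2 else univ).card
      ≤ ∑ _xy : Q × Q, s ^ (T.card - 2) * Fintype.card Q ^ (N - T.card) :=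
        sum_le_sum fun xy _ => hone xy
    _ = _ := by
      rw [sum_const, card_univ, Fintype.card_prod, smul_eq_mul, pow_two]

/-- a bad set of indices -/
def IsBad {N : ℕ} {Q : Type*} (S : Q → Q → Finset Q) (f : Fin N → Q) (T : Finset (Fin N)) : Prop :=
  ∃ a ∈ T, ∃ b ∈ T, a ≠ b ∧ ∀ c ∈ T, c ≠ a → c ≠ b → f c ∈ S (f a) (f b)

open Classical in
lemma card_bad {N k : ℕ} {Q : Type*} [Fintype Q] (T : Finset (Fin N))
    (hT : T.card = k + 1) (S : Q → Q → Finset Q) (s : ℕ) (hS : ∀ x y, (S x y).card ≤ s) :
    (univ.filter fun f : Fin N → Q => IsBad S f T).card ≤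
      (k + 1) ^ 2 * (Fintype.card Q ^ 2 * (s ^ (k - 1) * Fintype.card Q ^ (N - (k + 1)))) := by
  have hsub : (univ.filter fun f : Fin N → Q => IsBad S f T) ⊆
      (T ×ˢ T).biUnion fun ab => if ab.1 = ab.2 then ∅ else
        univ.filter fun f : Fin N → Q => ∀ c ∈ T, c ≠ ab.1 → c ≠ ab.2 → f c ∈ S (f ab.1) (f ab.2) := by
    intro f hf
    rw [mem_filter] at hf
    obtain ⟨a, ha, b, hb, hab, h⟩ := hf.2
    rw [mem_biUnion]
    refine ⟨(a, b), mem_product.2 ⟨ha, hb⟩, ?_⟩
    rw [if_neg hab, mem_filter]
    exact ⟨mem_univ _, h⟩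
  refine le_trans (card_le_card hsub) (le_trans card_biUnion_le ?_)
  calc ∑ ab ∈ T ×ˢ T, (if ab.1 = ab.2 then (∅ : Finset (Fin N → Q)) else
        univ.filter fun f : Fin N → Q => ∀ c ∈ T, c ≠ ab.1 → c ≠ ab.2 → f c ∈ S (f ab.1) (f ab.2)).card
      ≤ ∑ _ab ∈ T ×ˢ T, Fintype.card Q ^ 2 * (s ^ (k - 1) * Fintype.card Q ^ (N - (k + 1))) := by
        apply sum_le_sum
        rintro ⟨a, b⟩ hab
        rw [mem_product] at hab
        by_cases h : a = b
        · simp [h]
        · rw [if_neg h]
          have := card_restricted T a b hab.1 hab.2 h S s hS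
          rw [hT, show k + 1 - 2 = k - 1 by omega] at this
          exact this
    _ = _ := by
        rw [sum_const, card_product, hT, smul_eq_mul]; ring

open Classical in
/-- the existence result -/
theorem exists_good {N k : ℕ} (hk : 1 ≤ k) {Q : Type*} [Fintype Q] [Nonempty Q]
    (S : Q → Q → Finset Q) (s : ℕ) (hS : ∀ x y, (S x y).card ≤ s)
    (hsmall : 2 * (k + 1) ^ 2 * N ^ k * s ^ (k - 1) ≤ Fintype.card Q ^ (k - 1)) :
    ∃ f : Fin N → Q, ∃ G : Finset (Fin N), N ≤ 2 * G.card ∧
      ∀ T : Finset (Fin N), T.card = k + 1 → T ⊆ G → ¬ IsBad S f T := by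
  have hQ : 0 < Fintype.card Q := Fintype.card_pos
  rcases Nat.lt_or_ge N (k + 1) with hN | hN
  · refine ⟨fun _ => Classical.arbitrary Q, univ, by rw [card_univ, Fintype.card_fin]; omega, fun T hT _ => ?_⟩
    have := card_le_univ T
    rw [Fintype.card_fin] at this
    omega
  · by_contra hcon
    push Not at hcon
    have hall : ∀ f : Fin N → Q,
        N < 2 * ((powersetCard (k + 1) (univ : Finset (Fin N))).filter fun T => IsBad S f T).card := by
      intro f
      by_contra hle
      push Not at hle
      obtain ⟨G, hG1, hG2⟩ := exists_good_subset (m := N / 2)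
        ((powersetCard (k + 1) (univ : Finset (Fin N))).filter fun T => IsBad S f T)
        (fun T hT => by
          rw [mem_filter, mem_powersetCard] at hT
          exact card_pos.1 (by omega)) (by omega)
      obtain ⟨T, hT1, hT2, hT3⟩ := hcon f G (by omega)
      apply hG2 T _ hT2
      rw [mem_filter, mem_powersetCard]
      exact ⟨⟨subset_univ _, hT1⟩, hT3⟩
    have hsum : ∑ f : Fin N → Q,
        ((powersetCard (k + 1) (univ : Finset (Fin N))).filter fun T => IsBad S f T).card =
        ∑ T ∈ powersetCard (k + 1) (univ : Finset (Fin N)),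
          (univ.filter fun f : Fin N → Q => IsBad S f T).card := by
      simp only [card_filter]
      exact sum_comm
    have hub : ∑ T ∈ powersetCard (k + 1) (univ : Finset (Fin N)),
          (univ.filter fun f : Fin N → Q => IsBad S f T).card ≤
        N ^ (k + 1) * ((k + 1) ^ 2 * (Fintype.card Q ^ 2 *
          (s ^ (k - 1) * Fintype.card Q ^ (N - (k + 1))))) := by
      refine le_trans (sum_le_card_nsmul _ _ _ fun T hT =>
        card_bad T (mem_powersetCard.1 hT).2 S s hS) ?_
      rw [smul_eq_mul, card_powersetCard, card_univ, Fintype.card_fin]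
      exact Nat.mul_le_mul_right _ (Nat.choose_le_pow N (k + 1))
    have hlb : Fintype.card Q ^ N * N < 2 * ∑ f : Fin N → Q,
        ((powersetCard (k + 1) (univ : Finset (Fin N))).filter fun T => IsBad S f T).card := by
      rw [mul_sum]
      have e : Fintype.card Q ^ N * N = ∑ _f : Fin N → Q, N := by
        rw [sum_const, card_univ, Fintype.card_fun, Fintype.card_fin, smul_eq_mul]
      rw [e]
      apply sum_lt_sum_of_nonempty univ_nonempty
      intro f _
      exact hall f
    rw [hsum] at hlb
    have h1 := lt_of_lt_of_le hlb (Nat.mul_le_mul_left 2 hub)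
    have e2 : 2 * (N ^ (k + 1) * ((k + 1) ^ 2 * (Fintype.card Q ^ 2 *
          (s ^ (k - 1) * Fintype.card Q ^ (N - (k + 1)))))) =
        (2 * (k + 1) ^ 2 * N ^ k * s ^ (k - 1)) * (N * (Fintype.card Q ^ 2 *
          Fintype.card Q ^ (N - (k + 1)))) := by
      rw [pow_succ N k]; ring
    have h2 : 2 * (N ^ (k + 1) * ((k + 1) ^ 2 * (Fintype.card Q ^ 2 *
          (s ^ (k - 1) * Fintype.card Q ^ (N - (k + 1)))))) ≤ Fintype.card Q ^ N * N := by
      rw [e2]
      refine le_trans (Nat.mul_le_mul_right _ hsmall) (le_of_eq ?_)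
      have : Fintype.card Q ^ N = Fintype.card Q ^ (k - 1) * (Fintype.card Q ^ 2 *
          Fintype.card Q ^ (N - (k + 1))) := by
        rw [← pow_add, ← pow_add]; congr 1; omega
      rw [this]; ring
    exact absurd h1 (not_lt.2 h2)

end Pool.Agent.R151.Deletion
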