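import Mathlib
/-!
Common definitions and basic lemmas for MP_ae0293_ag (heat flow of nonnegative trivariate quartics).
-/
open MvPolynomial
namespace HQ151

/-- real polynomials in three variables -/
abbrev P3 := MvPolynomial (Fin 3) ℝ

/-- nonnegative on `ℝ³` -/
def Psd (F : P3) : Prop := ∀ x : Fin 3 → ℝ, 0 ≤ eval x F

/-- finite sum of squares of quadratic forms -/
def SosQ (F : P3) : Prop :=
  ∃ (n : ℕ) (q : Fin n → P3), (∀ i, (q i).IsHomogeneous 2) ∧ F = ∑ i, q i ^ 2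

/-- finite sum of squares of polynomials -/
def SOS (F : P3) : Prop := ∃ (n : ℕ) (g : Fin n → P3), F = ∑ i, g i ^ 2

/-- `q` is a quadratic form with `q² ≤ C F` on `ℝ³` for some constant `C`. -/
def Dom (F q : P3) : Prop :=
  q.IsHomogeneous 2 ∧ ∃ C : ℝ, ∀ x : Fin 3 → ℝ, (eval x q) ^ 2 ≤ C * eval x F

/-- span of all products `q * l`, with `q` dominated by `F` and `l` a linear form -/
noncomputable def GLs (F : P3) : Submodule ℝ P3 :=
  Submodule.span ℝ {p | ∃ q l : P3, Dom F q ∧ l.IsHomogeneous 1 ∧ p = q * l}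

/-- squared euclidean norm -/
def nsq (x : Fin 3 → ℝ) : ℝ := x 0 ^ 2 + x 1 ^ 2 + x 2 ^ 2

/-- linear substitution `(lsub A F)(x) = F(A x)` -/
noncomputable def lsub (A : Matrix (Fin 3) (Fin 3) ℝ) : P3 →ₐ[ℝ] P3 :=
  aeval (fun i => ∑ j, C (A i j) * X j)

theorem eval_lsub (A : Matrix (Fin 3) (Fin 3) ℝ) (F : P3) (x : Fin 3 → ℝ) :
    eval x (lsub A F) = eval (A.mulVec x) F := by
  unfold lsub
  induction F using MvPolynomial.induction_on with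
  | C a => simp
  | add p q hp hq => simp only [map_add, hp, hq]
  | mul_X p i hp =>
    simp only [map_mul, hp, aeval_X, eval_X, map_sum, eval_C]
    rfl

theorem lsub_hom (A : Matrix (Fin 3) (Fin 3) ℝ) {F : P3} {n : ℕ} (h : F.IsHomogeneous n) :
    (lsub A F).IsHomogeneous n := by
  have := h.aeval (fun i => ∑ j, C (A i j) * (X j : P3)) (n := 1) (fun i => by
    refine IsHomogeneous.sum _ _ _ (fun j _ => ?_)
    simpa using (isHomogeneous_C (Fin 3) (A i j)).mul (isHomogeneous_X ℝ j))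
  simpa [lsub] using this

theorem lsub_lsub (A B : Matrix (Fin 3) (Fin 3) ℝ) (F : P3) :
    lsub A (lsub B F) = lsub (B * A) F := by
  apply MvPolynomial.funext
  intro x
  rw [eval_lsub, eval_lsub, eval_lsub, Matrix.mulVec_mulVec]

theorem lsub_one (F : P3) : lsub 1 F = F := by
  apply MvPolynomial.funext
  intro x
  rw [eval_lsub, Matrix.one_mulVec]

theorem lsub_inv {A : Matrix (Fin 3) (Fin 3) ℝ} (hA : IsUnit A.det) (F : P3) :
    lsub A (lsub A⁻¹ F) = F := by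
  rw [lsub_lsub, Matrix.nonsing_inv_mul _ hA, lsub_one]

theorem lsub_inv' {A : Matrix (Fin 3) (Fin 3) ℝ} (hA : IsUnit A.det) (F : P3) :
    lsub A⁻¹ (lsub A F) = F := by
  rw [lsub_lsub, Matrix.mul_nonsing_inv _ hA, lsub_one]

theorem monomial_eq3 (d : Fin 3 →₀ ℕ) (r : ℝ) :
    (monomial d r : P3) = C r * (X 0 ^ d 0 * X 1 ^ d 1 * X 2 ^ d 2) := by
  rw [monomial_eq, Finsupp.prod_fintype _ _ (by intro i; simp), Fin.prod_univ_three]

theorem hom_rep {n : ℕ} {F : P3} (h : F.IsHomogeneous n) (P : P3 → Prop)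
    (h0 : P 0) (hadd : ∀ a b, P a → P b → P (a + b))
    (hm : ∀ (i j k : ℕ) (r : ℝ), i + j + k = n → P (C r * (X 0 ^ i * X 1 ^ j * X 2 ^ k))) :
    P F := by
  rw [F.as_sum]
  refine Finset.sum_induction _ P hadd h0 (fun d hd => ?_)
  rw [monomial_eq3]
  apply hm
  have := h (mem_support_iff.1 hd)
  rw [← this, Finsupp.weight_apply, Finsupp.sum_fintype _ _ (by intro i; simp),
    Fin.sum_univ_three]
  simp

theorem hom1_rep {F : P3} (h : F.IsHomogeneous 1) :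
    ∃ a : Fin 3 → ℝ, F = C (a 0) * X 0 + C (a 1) * X 1 + C (a 2) * X 2 := by
  refine hom_rep h (fun F => ∃ a : Fin 3 → ℝ, F = C (a 0) * X 0 + C (a 1) * X 1 + C (a 2) * X 2)
    ⟨fun _ => 0, by simp⟩ ?_ ?_
  · rintro _ _ ⟨a, rfl⟩ ⟨b, rfl⟩
    exact ⟨a + b, by simp only [Pi.add_apply, map_add]; ring⟩
  · intro i j k r hijk
    have hi : i ≤ 1 := by omega
    have hj : j ≤ 1 := by omega
    obtain rfl : k = 1 - i - j := by omega
    interval_cases i <;> interval_cases j <;> (try omega)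
    · exact ⟨![0, 0, r], by simp⟩
    · exact ⟨![0, r, 0], by simp⟩
    · exact ⟨![r, 0, 0], by simp⟩

theorem hom2_rep {F : P3} (h : F.IsHomogeneous 2) :
    ∃ a : Fin 6 → ℝ, F = C (a 0) * X 0 ^ 2 + C (a 1) * (X 0 * X 1) + C (a 2) * (X 0 * X 2)
      + C (a 3) * X 1 ^ 2 + C (a 4) * (X 1 * X 2) + C (a 5) * X 2 ^ 2 := by
  refine hom_rep h (fun F => ∃ a : Fin 6 → ℝ, F = C (a 0) * X 0 ^ 2 + C (a 1) * (X 0 * X 1)
      + C (a 2) * (X 0 * X 2)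
      + C (a 3) * X 1 ^ 2 + C (a 4) * (X 1 * X 2) + C (a 5) * X 2 ^ 2)
    ⟨fun _ => 0, by simp⟩ ?_ ?_
  · rintro _ _ ⟨a, rfl⟩ ⟨b, rfl⟩
    exact ⟨a + b, by simp only [Pi.add_apply, map_add]; ring⟩
  · intro i j k r hijk
    have hi : i ≤ 2 := by omega
    have hj : j ≤ 2 := by omega
    obtain rfl : k = 2 - i - j := by omega
    interval_cases i <;> interval_cases j <;> (try omega)
    · exact ⟨![0, 0, 0, 0, 0, r], by simp⟩
    · exact ⟨![0, 0, 0, 0, r, 0], by simp⟩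
    · exact ⟨![0, 0, 0, r, 0, 0], by simp⟩
    · exact ⟨![0, 0, r, 0, 0, 0], by simp⟩
    · exact ⟨![0, r, 0, 0, 0, 0], by simp⟩
    · exact ⟨![r, 0, 0, 0, 0, 0], by simp⟩

theorem hom3_rep {F : P3} (h : F.IsHomogeneous 3) :
    ∃ a : Fin 10 → ℝ, F = C (a 0) * X 0 ^ 3 + C (a 1) * (X 0 ^ 2 * X 1) + C (a 2) * (X 0 ^ 2 * X 2)
      + C (a 3) * (X 0 * X 1 ^ 2) + C (a 4) * (X 0 * X 1 * X 2) + C (a 5) * (X 0 * X 2 ^ 2)
      + C (a 6) * X 1 ^ 3 + C (a 7) * (X 1 ^ 2 * X 2) + C (a 8) * (X 1 * X 2 ^ 2)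
      + C (a 9) * X 2 ^ 3 := by
  refine hom_rep h (fun F => ∃ a : Fin 10 → ℝ, F = C (a 0) * X 0 ^ 3 + C (a 1) * (X 0 ^ 2 * X 1)
      + C (a 2) * (X 0 ^ 2 * X 2)
      + C (a 3) * (X 0 * X 1 ^ 2) + C (a 4) * (X 0 * X 1 * X 2) + C (a 5) * (X 0 * X 2 ^ 2)
      + C (a 6) * X 1 ^ 3 + C (a 7) * (X 1 ^ 2 * X 2) + C (a 8) * (X 1 * X 2 ^ 2)
      + C (a 9) * X 2 ^ 3)
    ⟨fun _ => 0, by simp⟩ ?_ ?_
  · rintro _ _ ⟨a, rfl⟩ ⟨b, rfl⟩
    exact ⟨a + b, by simp only [Pi.add_apply, map_add]; ring⟩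
  · intro i j k r hijk
    have hi : i ≤ 3 := by omega
    have hj : j ≤ 3 := by omega
    obtain rfl : k = 3 - i - j := by omega
    interval_cases i <;> interval_cases j <;> (try omega)
    · exact ⟨![0, 0, 0, 0, 0, 0, 0, 0, 0, r], by simp⟩
    · exact ⟨![0, 0, 0, 0, 0, 0, 0, 0, r, 0], by simp⟩
    · exact ⟨![0, 0, 0, 0, 0, 0, 0, r, 0, 0], by simp⟩
    · exact ⟨![0, 0, 0, 0, 0, 0, r, 0, 0, 0], by simp⟩
    · exact ⟨![0, 0, 0, 0, 0, r, 0, 0, 0, 0], by simp⟩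
    · exact ⟨![0, 0, 0, 0, r, 0, 0, 0, 0, 0], by simp [mul_assoc]⟩
    · exact ⟨![0, 0, 0, r, 0, 0, 0, 0, 0, 0], by simp⟩
    · exact ⟨![0, 0, r, 0, 0, 0, 0, 0, 0, 0], by simp⟩
    · exact ⟨![0, r, 0, 0, 0, 0, 0, 0, 0, 0], by simp⟩
    · exact ⟨![r, 0, 0, 0, 0, 0, 0, 0, 0, 0], by simp⟩

/-- quartic form with coefficients `a`, as a function -/
def qv (a : Fin 15 → ℝ) (x y z : ℝ) : ℝ :=
  a 0 * x ^ 4 + a 1 * (x ^ 3 * y) + a 2 * (x ^ 3 * z)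
      + a 3 * (x ^ 2 * y ^ 2) + a 4 * (x ^ 2 * y * z) + a 5 * (x ^ 2 * z ^ 2)
      + a 6 * (x * y ^ 3) + a 7 * (x * y ^ 2 * z) + a 8 * (x * y * z ^ 2)
      + a 9 * (x * z ^ 3)
      + a 10 * y ^ 4 + a 11 * (y ^ 3 * z) + a 12 * (y ^ 2 * z ^ 2)
      + a 13 * (y * z ^ 3) + a 14 * z ^ 4

/-- quartic form with coefficients `a`, as a polynomial -/
noncomputable def qp (a : Fin 15 → ℝ) : P3 :=
  C (a 0) * X 0 ^ 4 + C (a 1) * (X 0 ^ 3 * X 1) + C (a 2) * (X 0 ^ 3 * X 2)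
      + C (a 3) * (X 0 ^ 2 * X 1 ^ 2) + C (a 4) * (X 0 ^ 2 * X 1 * X 2)
      + C (a 5) * (X 0 ^ 2 * X 2 ^ 2)
      + C (a 6) * (X 0 * X 1 ^ 3) + C (a 7) * (X 0 * X 1 ^ 2 * X 2)
      + C (a 8) * (X 0 * X 1 * X 2 ^ 2)
      + C (a 9) * (X 0 * X 2 ^ 3)
      + C (a 10) * X 1 ^ 4 + C (a 11) * (X 1 ^ 3 * X 2) + C (a 12) * (X 1 ^ 2 * X 2 ^ 2)
      + C (a 13) * (X 1 * X 2 ^ 3) + C (a 14) * X 2 ^ 4

theorem eval_qp (a : Fin 15 → ℝ) (x : Fin 3 → ℝ) : eval x (qp a) = qv a (x 0) (x 1) (x 2) := by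
  simp [qp, qv]

theorem hom4_rep {F : P3} (h : F.IsHomogeneous 4) : ∃ a : Fin 15 → ℝ, F = qp a := by
  refine hom_rep h (fun F => ∃ a : Fin 15 → ℝ, F = qp a)
    ⟨fun _ => 0, by simp [qp]⟩ ?_ ?_
  · rintro _ _ ⟨a, rfl⟩ ⟨b, rfl⟩
    exact ⟨a + b, by simp only [qp, Pi.add_apply, map_add]; ring⟩
  · intro i j k r hijk
    have hi : i ≤ 4 := by omega
    have hj : j ≤ 4 := by omega
    obtain rfl : k = 4 - i - j := by omega
    interval_cases i <;> interval_cases j <;> (try omega)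
    · exact ⟨fun m => if m = 14 then r else 0, by simp [qp]⟩
    · exact ⟨fun m => if m = 13 then r else 0, by simp [qp]⟩
    · exact ⟨fun m => if m = 12 then r else 0, by simp [qp]⟩
    · exact ⟨fun m => if m = 11 then r else 0, by simp [qp]⟩
    · exact ⟨fun m => if m = 10 then r else 0, by simp [qp]⟩
    · exact ⟨fun m => if m = 9 then r else 0, by simp [qp]⟩
    · exact ⟨fun m => if m = 8 then r else 0, by simp [qp, mul_assoc]⟩
    · exact ⟨fun m => if m = 7 then r else 0, by simp [qp, mul_assoc]⟩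
    · exact ⟨fun m => if m = 6 then r else 0, by simp [qp, mul_assoc]⟩
    · exact ⟨fun m => if m = 5 then r else 0, by simp [qp, mul_assoc]⟩
    · exact ⟨fun m => if m = 4 then r else 0, by simp [qp, mul_assoc]⟩
    · exact ⟨fun m => if m = 3 then r else 0, by simp [qp, mul_assoc]⟩
    · exact ⟨fun m => if m = 2 then r else 0, by simp [qp, mul_assoc]⟩
    · exact ⟨fun m => if m = 1 then r else 0, by simp [qp, mul_assoc]⟩
    · exact ⟨fun m => if m = 0 then r else 0, by simp [qp, mul_assoc]⟩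

/-- quadratic form with coefficients `a`, as a polynomial -/
noncomputable def p2 (a : Fin 6 → ℝ) : P3 :=
  C (a 0) * X 0 ^ 2 + C (a 1) * (X 0 * X 1) + C (a 2) * (X 0 * X 2)
      + C (a 3) * X 1 ^ 2 + C (a 4) * (X 1 * X 2) + C (a 5) * X 2 ^ 2

/-- linear form with coefficients `a`, as a polynomial -/
noncomputable def p1 (a : Fin 3 → ℝ) : P3 := C (a 0) * X 0 + C (a 1) * X 1 + C (a 2) * X 2

theorem p1_hom (a : Fin 3 → ℝ) : (p1 a).IsHomogeneous 1 := by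
  unfold p1
  exact (((isHomogeneous_X ℝ 0).C_mul _).add ((isHomogeneous_X ℝ 1).C_mul _)).add
    ((isHomogeneous_X ℝ 2).C_mul _)

theorem p2_hom (a : Fin 6 → ℝ) : (p2 a).IsHomogeneous 2 := by
  unfold p2
  exact (((((((isHomogeneous_X ℝ 0).pow 2).C_mul _).add
    (((isHomogeneous_X ℝ 0).mul (isHomogeneous_X ℝ 1)).C_mul _)).add
    (((isHomogeneous_X ℝ 0).mul (isHomogeneous_X ℝ 2)).C_mul _)).add
    (((isHomogeneous_X ℝ 1).pow 2).C_mul _)).add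
    (((isHomogeneous_X ℝ 1).mul (isHomogeneous_X ℝ 2)).C_mul _)).add
    (((isHomogeneous_X ℝ 2).pow 2).C_mul _)

theorem eval_p1 (a : Fin 3 → ℝ) (x : Fin 3 → ℝ) :
    eval x (p1 a) = a 0 * x 0 + a 1 * x 1 + a 2 * x 2 := by simp [p1]

theorem eval_p2 (a : Fin 6 → ℝ) (x : Fin 3 → ℝ) :
    eval x (p2 a) = a 0 * x 0 ^ 2 + a 1 * (x 0 * x 1) + a 2 * (x 0 * x 2)
      + a 3 * x 1 ^ 2 + a 4 * (x 1 * x 2) + a 5 * x 2 ^ 2 := by simp [p2]

theorem hom2_p2 {F : P3} (h : F.IsHomogeneous 2) : ∃ a : Fin 6 → ℝ, F = p2 a := hom2_rep h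

theorem hom1_p1 {F : P3} (h : F.IsHomogeneous 1) : ∃ a : Fin 3 → ℝ, F = p1 a := hom1_rep h

theorem p2_eq_zero {a : Fin 6 → ℝ} (h : p2 a = 0) : a = 0 := by
  have e : ∀ x y z : ℝ, a 0 * x ^ 2 + a 1 * (x * y) + a 2 * (x * z)
      + a 3 * y ^ 2 + a 4 * (y * z) + a 5 * z ^ 2 = 0 := by
    intro x y z
    have := eval_p2 a ![x, y, z]
    rw [h] at this
    simpa using this.symm
  have h0 := e 1 0 0
  have h3 := e 0 1 0
  have h5 := e 0 0 1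
  have h1 := e 1 1 0
  have h2 := e 1 0 1
  have h4 := e 0 1 1
  norm_num at h0 h3 h5 h1 h2 h4
  funext i
  fin_cases i <;> simp <;> linarith

/-- a form of degree `n` scales -/
theorem eval_smul_hom {F : P3} {n : ℕ} (h : F.IsHomogeneous n) (t : ℝ) (x : Fin 3 → ℝ) :
    eval (t • x) F = t ^ n * eval x F := by
  refine hom_rep h (fun F => eval (t • x) F = t ^ n * eval x F) (by simp) ?_ ?_
  · intro a b ha hb
    rw [map_add, ha, hb, map_add]; ring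
  · intro i j k r hijk
    simp only [map_mul, eval_C, map_pow, eval_X, Pi.smul_apply, smul_eq_mul, ← hijk, pow_add,
      mul_pow]
    ring

/-- A1: two zeros, positive definite `f`. -/
def KeyTwoStmt : Prop := ∀ f0 f1 f2 g0 g1 g2 h0 h1 h2 : ℝ,
  (∀ y z : ℝ, (y ≠ 0 ∨ z ≠ 0) → 0 < f0 * y ^ 2 + f1 * (y * z) + f2 * z ^ 2) →
  (∀ x y z : ℝ, 0 ≤ x ^ 2 * (f0 * y ^ 2 + f1 * (y * z) + f2 * z ^ 2)
    + 2 * (x * z) * (g0 * y ^ 2 + g1 * (y * z) + g2 * z ^ 2)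
    + z ^ 2 * (h0 * y ^ 2 + h1 * (y * z) + h2 * z ^ 2)) →
  ∃ a : Fin 6 → ℝ, a ≠ 0 ∧ ∀ x y z : ℝ,
    (a 0 * x ^ 2 + a 1 * (x * y) + a 2 * (x * z) + a 3 * y ^ 2 + a 4 * (y * z) + a 5 * z ^ 2) ^ 2
    ≤ x ^ 2 * (f0 * y ^ 2 + f1 * (y * z) + f2 * z ^ 2)
    + 2 * (x * z) * (g0 * y ^ 2 + g1 * (y * z) + g2 * z ^ 2)
    + z ^ 2 * (h0 * y ^ 2 + h1 * (y * z) + h2 * z ^ 2)

/-- A2: every nonzero nonnegative ternary quartic form dominates a nonzero square. -/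
def KeyStmt : Prop := ∀ F : P3, F.IsHomogeneous 4 → F ≠ 0 → Psd F →
  ∃ q : P3, q.IsHomogeneous 2 ∧ q ≠ 0 ∧ ∀ x : Fin 3 → ℝ, (eval x q) ^ 2 ≤ eval x F

/-- B: Hilbert's theorem on ternary quartics. -/
def HilbertStmt : Prop := ∀ F : P3, F.IsHomogeneous 4 → Psd F → SosQ F

/-- cubic forms `c` with `c² ≤ C F |x|²` -/
def Cub (F c : P3) : Prop :=
  c.IsHomogeneous 3 ∧ ∃ K : ℝ, ∀ x : Fin 3 → ℝ, (eval x c) ^ 2 ≤ K * (eval x F * nsq x)

/-- C2: if two dominated quadratic forms are coprime on the plane spanned by `u, v`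
(nonzero resultant), then `c ∈ GLs F`. -/
def PairStmt : Prop := ∀ F c q₁ q₂ : P3, F.IsHomogeneous 4 → Psd F → Cub F c →
  Dom F q₁ → Dom F q₂ → ∀ u v : Fin 3 → ℝ, LinearIndependent ℝ ![u, v] →
  ∀ a₁ b₁ c₁ a₂ b₂ c₂ : ℝ,
    (∀ s t : ℝ, eval (s • u + t • v) q₁ = a₁ * s ^ 2 + b₁ * (s * t) + c₁ * t ^ 2) →
    (∀ s t : ℝ, eval (s • u + t • v) q₂ = a₂ * s ^ 2 + b₂ * (s * t) + c₂ * t ^ 2) →
    (a₁ * c₂ - a₂ * c₁) ^ 2 - (a₁ * b₂ - a₂ * b₁) * (b₁ * c₂ - b₂ * c₁) ≠ 0 →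
    c ∈ GLs F

/-- C1: step two. -/
def StepTwoStmt : Prop := ∀ F c : P3, F.IsHomogeneous 4 → Psd F → Cub F c → c ∈ GLs F

/-- invariance in direction `v` -/
def Inv (F : P3) (v : Fin 3 → ℝ) : Prop := ∀ (x : Fin 3 → ℝ) (s : ℝ), eval (x + s • v) F = eval x F

/-- E: if the top form is invariant in some direction, then `f` is already a sum of squares. -/
def DegStmt : Prop := ∀ f : P3, f.totalDegree ≤ 4 → Psd f →
  ∀ v : Fin 3 → ℝ, v ≠ 0 → Inv (homogeneousComponent 4 f) v → SOS f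

/-! invariance under linear substitutions -/

theorem Dom_lsub {F q : P3} (M : Matrix (Fin 3) (Fin 3) ℝ) (h : Dom F q) :
    Dom (lsub M F) (lsub M q) := by
  obtain ⟨h1, K, hK⟩ := h
  exact ⟨lsub_hom M h1, K, fun x => by rw [eval_lsub, eval_lsub]; exact hK _⟩

theorem Dom_lsub' {F q : P3} {M : Matrix (Fin 3) (Fin 3) ℝ} (hM : IsUnit M.det)
    (h : Dom (lsub M F) q) : Dom F (lsub M⁻¹ q) := by
  have := Dom_lsub M⁻¹ h
  rwa [lsub_inv' hM] at this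

theorem nsq_nonneg (x : Fin 3 → ℝ) : 0 ≤ nsq x := by unfold nsq; positivity

theorem nsq_mulVec (M : Matrix (Fin 3) (Fin 3) ℝ) :
    ∃ K : ℝ, 0 ≤ K ∧ ∀ x : Fin 3 → ℝ, nsq (M.mulVec x) ≤ K * nsq x := by
  refine ⟨∑ i, ∑ j, 3 * M i j ^ 2, by positivity, fun x => ?_⟩
  have key : ∀ i : Fin 3, (M.mulVec x i) ^ 2 ≤ (∑ j, 3 * M i j ^ 2) * nsq x := by
    intro i
    simp only [Matrix.mulVec, dotProduct, Fin.sum_univ_three, nsq]
    nlinarith [sq_nonneg (M i 0 * x 1 - M i 1 * x 0), sq_nonneg (M i 0 * x 2 - M i 2 * x 0),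
      sq_nonneg (M i 1 * x 2 - M i 2 * x 1), sq_nonneg (M i 0 * x 0), sq_nonneg (M i 0 * x 1),
      sq_nonneg (M i 0 * x 2), sq_nonneg (M i 1 * x 0), sq_nonneg (M i 1 * x 1),
      sq_nonneg (M i 1 * x 2), sq_nonneg (M i 2 * x 0), sq_nonneg (M i 2 * x 1),
      sq_nonneg (M i 2 * x 2)]
  have h0 := key 0
  have h1 := key 1
  have h2 := key 2
  rw [Fin.sum_univ_three, show nsq (M.mulVec x) = M.mulVec x 0 ^ 2 + M.mulVec x 1 ^ 2
    + M.mulVec x 2 ^ 2 from rfl]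
  linarith

theorem Psd_lsub {F : P3} (M : Matrix (Fin 3) (Fin 3) ℝ) (h : Psd F) : Psd (lsub M F) :=
  fun x => by rw [eval_lsub]; exact h _

theorem Cub_lsub {F c : P3} (M : Matrix (Fin 3) (Fin 3) ℝ) (hF : Psd F) (h : Cub F c) :
    Cub (lsub M F) (lsub M c) := by
  obtain ⟨h1, K, hK⟩ := h
  obtain ⟨L, hL, hL2⟩ := nsq_mulVec M
  refine ⟨lsub_hom M h1, |K| * L, fun x => ?_⟩
  rw [eval_lsub, eval_lsub]
  have e1 := hK (M.mulVec x)
  have e2 := hL2 x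
  have e3 := hF (M.mulVec x)
  have e4 := nsq_nonneg x
  have e5 := nsq_nonneg (M.mulVec x)
  calc (eval (M.mulVec x) c) ^ 2 ≤ K * (eval (M.mulVec x) F * nsq (M.mulVec x)) := e1
    _ ≤ |K| * (eval (M.mulVec x) F * nsq (M.mulVec x)) :=
        mul_le_mul_of_nonneg_right (le_abs_self K) (mul_nonneg e3 e5)
    _ ≤ |K| * (eval (M.mulVec x) F * (L * nsq x)) := by gcongr
    _ = |K| * L * (eval (M.mulVec x) F * nsq x) := by ring

theorem GLs_lsub' {F p : P3} {M : Matrix (Fin 3) (Fin 3) ℝ} (hM : IsUnit M.det)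
    (h : p ∈ GLs (lsub M F)) : lsub M⁻¹ p ∈ GLs F := by
  unfold GLs at h ⊢
  induction h using Submodule.span_induction with
  | mem p hp =>
    obtain ⟨q, l, hq, hl, rfl⟩ := hp
    refine Submodule.subset_span ⟨lsub M⁻¹ q, lsub M⁻¹ l, Dom_lsub' hM hq, lsub_hom _ hl, ?_⟩
    rw [map_mul]
  | zero => rw [map_zero]; exact Submodule.zero_mem _
  | add p q _ _ hp hq => rw [map_add]; exact Submodule.add_mem _ hp hq
  | smul a p _ hp => rw [map_smul]; exact Submodule.smul_mem _ _ hp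

/-- to prove `c ∈ GLs F` one may first apply an invertible linear substitution -/
theorem GLs_of_lsub {F c : P3} {M : Matrix (Fin 3) (Fin 3) ℝ} (hM : IsUnit M.det)
    (h : lsub M c ∈ GLs (lsub M F)) : c ∈ GLs F := by
  have := GLs_lsub' hM h
  rwa [lsub_inv' hM] at this

end HQ151
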