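import Pool.Agent.R151.HQ
/-!
More statements (as Props) of the pieces of the proof for MP_ae0293_ag.
-/
open MvPolynomial
namespace HQ151

/-- A0: a nonzero nonnegative binary quartic dominates a nonzero square. -/
def BinStmt : Prop := ∀ h0 h1 h2 h3 h4 : ℝ,
  (∀ y z : ℝ, 0 ≤ h0 * y ^ 4 + h1 * (y ^ 3 * z) + h2 * (y ^ 2 * z ^ 2) + h3 * (y * z ^ 3)
    + h4 * z ^ 4) →
  (∃ y z : ℝ, h0 * y ^ 4 + h1 * (y ^ 3 * z) + h2 * (y ^ 2 * z ^ 2) + h3 * (y * z ^ 3)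
    + h4 * z ^ 4 ≠ 0) →
  ∃ a b c : ℝ, (a ≠ 0 ∨ b ≠ 0 ∨ c ≠ 0) ∧ ∀ y z : ℝ, (a * y ^ 2 + b * (y * z) + c * z ^ 2) ^ 2
    ≤ h0 * y ^ 4 + h1 * (y ^ 3 * z) + h2 * (y ^ 2 * z ^ 2) + h3 * (y * z ^ 3) + h4 * z ^ 4

/-- A3: the case of a zero at `(1,0,0)`. -/
def OneZeroStmt : Prop := ∀ f0 f1 f2 g0 g1 g2 g3 h0 h1 h2 h3 h4 : ℝ,
  (∀ x y z : ℝ, 0 ≤ x ^ 2 * (f0 * y ^ 2 + f1 * (y * z) + f2 * z ^ 2)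
    + 2 * x * (g0 * y ^ 3 + g1 * (y ^ 2 * z) + g2 * (y * z ^ 2) + g3 * z ^ 3)
    + (h0 * y ^ 4 + h1 * (y ^ 3 * z) + h2 * (y ^ 2 * z ^ 2) + h3 * (y * z ^ 3) + h4 * z ^ 4)) →
  (∃ x y z : ℝ, x ^ 2 * (f0 * y ^ 2 + f1 * (y * z) + f2 * z ^ 2)
    + 2 * x * (g0 * y ^ 3 + g1 * (y ^ 2 * z) + g2 * (y * z ^ 2) + g3 * z ^ 3)
    + (h0 * y ^ 4 + h1 * (y ^ 3 * z) + h2 * (y ^ 2 * z ^ 2) + h3 * (y * z ^ 3) + h4 * z ^ 4)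
      ≠ 0) →
  ∃ a : Fin 6 → ℝ, a ≠ 0 ∧ ∀ x y z : ℝ,
    (a 0 * x ^ 2 + a 1 * (x * y) + a 2 * (x * z) + a 3 * y ^ 2 + a 4 * (y * z) + a 5 * z ^ 2) ^ 2
    ≤ x ^ 2 * (f0 * y ^ 2 + f1 * (y * z) + f2 * z ^ 2)
    + 2 * x * (g0 * y ^ 3 + g1 * (y ^ 2 * z) + g2 * (y * z ^ 2) + g3 * z ^ 3)
    + (h0 * y ^ 4 + h1 * (y ^ 3 * z) + h2 * (y ^ 2 * z ^ 2) + h3 * (y * z ^ 3) + h4 * z ^ 4)

/-- NF: normal forms of ternary quadratic forms (up to a nonzero scalar). -/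
def NormStmt : Prop := ∀ q : P3, q.IsHomogeneous 2 → q ≠ 0 →
  ∃ M : Matrix (Fin 3) (Fin 3) ℝ, IsUnit M.det ∧ ∃ s : ℝ, s ≠ 0 ∧
    (lsub M q = C s * X 2 ^ 2 ∨ lsub M q = C s * (X 1 ^ 2 + X 2 ^ 2) ∨
      lsub M q = C s * (X 1 * X 2) ∨ lsub M q = C s * (X 0 ^ 2 + X 1 ^ 2 + X 2 ^ 2) ∨
      lsub M q = C s * (X 0 * X 2 - X 1 ^ 2))

/-- C3: step two when `F = m² h`. -/
def FactorStmt : Prop := ∀ (F c m : P3) (n : ℕ) (l : Fin n → P3), m.IsHomogeneous 1 → m ≠ 0 →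
  (∀ k, (l k).IsHomogeneous 1) → F = ∑ k, (m * l k) ^ 2 → Cub F c → c ∈ GLs F

/-- C4: step two when `F = κ (xz - y²)²`. -/
def ConicStmt : Prop := ∀ (c : P3) (κ : ℝ), 0 < κ →
  Cub (C κ * (X 0 * X 2 - X 1 ^ 2) ^ 2) c → c ∈ GLs (C κ * (X 0 * X 2 - X 1 ^ 2) ^ 2)

/-- N: consequences of nonnegativity. -/
def NonnegStmt : Prop := ∀ f : P3, f.totalDegree ≤ 4 → Psd f →
  Psd (homogeneousComponent 4 f) ∧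
    Cub (homogeneousComponent 4 f) (homogeneousComponent 3 f)

end HQ151
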