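import Pool.Agent.R151.HQ2
/-!
Heat flow part for MP_ae0293_ag.
-/
open MvPolynomial
namespace HQ151

theorem SOS.zero : SOS (0 : P3) := ⟨0, fun _ => 0, by simp⟩

theorem SOS.sq (g : P3) : SOS (g ^ 2) := ⟨1, fun _ => g, by simp⟩

theorem SOS.add {p q : P3} (hp : SOS p) (hq : SOS q) : SOS (p + q) := by
  obtain ⟨n, g, rfl⟩ := hp
  obtain ⟨m, h, rfl⟩ := hq
  refine ⟨n + m, Fin.append g h, ?_⟩
  rw [Fin.sum_univ_add]
  simp

theorem SOS.smul {p : P3} (hp : SOS p) {r : ℝ} (hr : 0 ≤ r) : SOS (C r * p) := by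
  obtain ⟨n, g, rfl⟩ := hp
  refine ⟨n, fun i => C (Real.sqrt r) * g i, ?_⟩
  rw [Finset.mul_sum]
  refine Finset.sum_congr rfl (fun i _ => ?_)
  rw [mul_pow, ← C_pow, Real.sq_sqrt hr]

theorem SOS.sum {ι : Type} (s : Finset ι) (f : ι → P3) (h : ∀ i ∈ s, SOS (f i)) :
    SOS (∑ i ∈ s, f i) := by
  refine Finset.sum_induction f SOS (fun _ _ => SOS.add) SOS.zero h

theorem SOS.map {p : P3} (hp : SOS p) (M : Matrix (Fin 3) (Fin 3) ℝ) : SOS (lsub M p) := by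
  obtain ⟨n, g, rfl⟩ := hp
  exact ⟨n, fun i => lsub M (g i), by simp⟩

theorem SOS.of_eq {p q : P3} (hp : SOS p) (h : p = q) : SOS q := h ▸ hp

/-- `u² ≤ K P` in the sum-of-squares order. -/
def Bd (P u : P3) : Prop := ∃ K : ℝ, 0 ≤ K ∧ SOS (C K * P - u ^ 2)

/-- `± r ≤ K P` in the sum-of-squares order -/
def Ab (P r : P3) : Prop := ∃ K : ℝ, 0 ≤ K ∧ SOS (C K * P + r) ∧ SOS (C K * P - r)

theorem Bd.add {P u v : P3} (hu : Bd P u) (hv : Bd P v) : Bd P (u + v) := by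
  obtain ⟨K, hK, h1⟩ := hu
  obtain ⟨L, hL, h2⟩ := hv
  refine ⟨2 * K + 2 * L, by positivity, ?_⟩
  refine (((h1.smul (r := 2) (by norm_num)).add (h2.smul (r := 2) (by norm_num))).add
    (SOS.sq (u - v))).of_eq ?_
  simp only [map_add, map_mul, show (C (2 : ℝ) : P3) = 2 from rfl]
  ring

theorem Bd.smul {P u : P3} (hu : Bd P u) (r : ℝ) : Bd P (C r * u) := by
  obtain ⟨K, hK, h1⟩ := hu
  refine ⟨r ^ 2 * K, by positivity, (h1.smul (r := r ^ 2) (by positivity)).of_eq ?_⟩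
  simp only [map_mul, map_pow]
  ring

theorem Bd.zero (P : P3) : Bd P 0 := ⟨0, le_refl _, by simpa using SOS.zero⟩

theorem Ab.of_mul {P u v : P3} (hu : Bd P u) (hv : Bd P v) : Ab P (u * v) := by
  obtain ⟨K, hK, h1⟩ := hu
  obtain ⟨L, hL, h2⟩ := hv
  have hh : (C (1 / 2 : ℝ) : P3) * 2 = 1 := by
    rw [show (2 : P3) = C 2 from rfl, ← C_mul]; norm_num
  refine ⟨1 / 2 * (K + L), by positivity, ?_, ?_⟩
  · refine (((h1.smul (r := 1 / 2) (by norm_num)).add (h2.smul (r := 1 / 2) (by norm_num))).add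
      ((SOS.sq (u + v)).smul (r := 1 / 2) (by norm_num))).of_eq ?_
    simp only [map_add, map_mul]
    linear_combination (u * v) * hh
  · refine (((h1.smul (r := 1 / 2) (by norm_num)).add (h2.smul (r := 1 / 2) (by norm_num))).add
      ((SOS.sq (u - v)).smul (r := 1 / 2) (by norm_num))).of_eq ?_
    simp only [map_add, map_mul]
    linear_combination (-(u * v)) * hh

theorem Ab.zero (P : P3) : Ab P 0 :=
  ⟨0, le_refl _, by simpa using SOS.zero, by simpa using SOS.zero⟩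

theorem Ab.add {P u v : P3} (hu : Ab P u) (hv : Ab P v) : Ab P (u + v) := by
  obtain ⟨K, hK, h1, h1'⟩ := hu
  obtain ⟨L, hL, h2, h2'⟩ := hv
  refine ⟨K + L, by positivity, (h1.add h2).of_eq ?_, (h1'.add h2').of_eq ?_⟩ <;>
  · simp only [map_add]
    ring

theorem Ab.neg {P u : P3} (hu : Ab P u) : Ab P (-u) := by
  obtain ⟨K, hK, h1, h1'⟩ := hu
  exact ⟨K, hK, h1'.of_eq (by ring), h1.of_eq (by ring)⟩

theorem Ab.smul {P u : P3} (hu : Ab P u) (r : ℝ) : Ab P (C r * u) := by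
  wlog hr : 0 ≤ r generalizing r with H
  · have := (H (-r) (by linarith [not_le.1 hr])).neg
    rwa [map_neg, neg_mul, neg_neg] at this
  obtain ⟨K, hK, h1, h1'⟩ := hu
  refine ⟨r * K, by positivity, (h1.smul hr).of_eq ?_, (h1'.smul hr).of_eq ?_⟩ <;>
  · simp only [map_mul]
    ring

/-- a small multiple of an absorbed polynomial is absorbed by a quarter of `P` -/
theorem Ab.small {P r : P3} (hP : SOS P) (h : Ab P r) :
    ∃ δ : ℝ, 0 < δ ∧ ∀ ε : ℝ, 0 ≤ ε → ε ≤ δ → SOS (C (1 / 4) * P + C ε * r) := by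
  obtain ⟨K, hK, h1, _⟩ := h
  refine ⟨1 / (4 * (K + 1)), by positivity, fun ε hε hε2 => ?_⟩
  have hKε : ε * K ≤ 1 / 4 := by
    calc ε * K ≤ 1 / (4 * (K + 1)) * K := by gcongr
      _ ≤ 1 / 4 := by
        rw [div_mul_eq_mul_div, one_mul, div_le_div_iff₀ (by positivity) (by norm_num)]
        nlinarith
  refine ((h1.smul hε).add (hP.smul (r := 1 / 4 - ε * K) (by linarith))).of_eq ?_
  simp only [map_sub, map_mul]
  ring

/-- Laplacian -/
noncomputable def lap (p : P3) : P3 := ∑ i, pderiv i (pderiv i p)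

/-- heat evolution of `f` at time `t` -/
noncomputable def heat (f : P3) (t : ℝ) : P3 :=
  ∑ k ∈ Finset.range (f.totalDegree + 1), C (t ^ k / (k.factorial : ℝ)) * lap^[k] f

theorem lap_add (p q : P3) : lap (p + q) = lap p + lap q := by
  simp [lap, Finset.sum_add_distrib]

theorem lap_C_mul (r : ℝ) (p : P3) : lap (C r * p) = C r * lap p := by
  simp only [lap, pderiv_C_mul, Finset.mul_sum]

theorem lap_zero : lap 0 = 0 := by simp [lap]

theorem lap_hom {F : P3} {n : ℕ} (h : F.IsHomogeneous n) : (lap F).IsHomogeneous (n - 2) := by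
  unfold lap
  refine IsHomogeneous.sum _ _ _ (fun i _ => ?_)
  have := h.pderiv (i := i)
  exact this.pderiv

theorem hom0_C {F : P3} (h : F.IsHomogeneous 0) : ∃ r : ℝ, F = C r := by
  refine hom_rep h (fun F => ∃ r : ℝ, F = C r) ⟨0, by simp⟩ ?_ ?_
  · rintro _ _ ⟨a, rfl⟩ ⟨b, rfl⟩
    exact ⟨a + b, by simp⟩
  · intro i j k r hijk
    obtain rfl : i = 0 := by omega
    obtain rfl : j = 0 := by omega
    obtain rfl : k = 0 := by omega
    exact ⟨r, by simp⟩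

theorem lap_low {F : P3} {n : ℕ} (h : F.IsHomogeneous n) (hn : n < 2) : lap F = 0 := by
  unfold lap
  refine Finset.sum_eq_zero (fun i _ => ?_)
  have h1 := h.pderiv (i := i)
  rw [show n - 1 = 0 by omega] at h1
  obtain ⟨r, hr⟩ := hom0_C h1
  rw [hr, pderiv_C]

/-- `e^Δ` on polynomials of degree at most 4 -/
noncomputable def ed (p : P3) : P3 := p + lap p + C (1 / 2) * lap (lap p)

theorem ed_add (p q : P3) : ed (p + q) = ed p + ed q := by
  simp only [ed, lap_add]; ring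

theorem ed_C_mul (r : ℝ) (p : P3) : ed (C r * p) = C r * ed p := by
  simp only [ed, lap_C_mul]; ring

theorem ed_zero : ed 0 = 0 := by simp [ed, lap_zero]

theorem ed_sum {ι : Type} (s : Finset ι) (f : ι → P3) : ed (∑ i ∈ s, f i) = ∑ i ∈ s, ed (f i) := by
  classical
  induction s using Finset.induction_on with
  | empty => simp [ed_zero]
  | insert a s ha ih => rw [Finset.sum_insert ha, Finset.sum_insert ha, ed_add, ih]

theorem pd_p2_0 (a : Fin 6 → ℝ) : pderiv 0 (p2 a) = p1 ![2 * a 0, a 1, a 2] := by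
  simp [p2, p1, pderiv_X, show (C (2 : ℝ) : P3) = 2 from rfl]
  ring

theorem pd_p2_1 (a : Fin 6 → ℝ) : pderiv 1 (p2 a) = p1 ![a 1, 2 * a 3, a 4] := by
  simp [p2, p1, pderiv_X, show (C (2 : ℝ) : P3) = 2 from rfl]
  ring

theorem pd_p2_2 (a : Fin 6 → ℝ) : pderiv 2 (p2 a) = p1 ![a 2, a 4, 2 * a 5] := by
  simp [p2, p1, pderiv_X, show (C (2 : ℝ) : P3) = 2 from rfl]
  ring

theorem pd_p1 (a : Fin 3 → ℝ) (i : Fin 3) : pderiv i (p1 a) = C (a i) := by
  fin_cases i <;> simp [p1, pderiv_X]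

theorem pderiv_sq' (i : Fin 3) (p : P3) : pderiv i (p ^ 2) = C 2 * (p * pderiv i p) := by
  rw [pow_two, pderiv_mul, show (C (2 : ℝ) : P3) = 2 from rfl]; ring

theorem pderiv2_sq (i : Fin 3) (p : P3) :
    pderiv i (pderiv i (p ^ 2)) = C 2 * ((pderiv i p) ^ 2 + p * pderiv i (pderiv i p)) := by
  rw [pderiv_sq', pderiv_C_mul, pderiv_mul]; ring

theorem lap_p2 (a : Fin 6 → ℝ) : lap (p2 a) = C (2 * a 0 + 2 * a 3 + 2 * a 5) := by
  simp only [lap, Fin.sum_univ_three, pd_p2_0, pd_p2_1, pd_p2_2, pd_p1, map_add]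
  simp

theorem lap_p1_sq (b : Fin 3 → ℝ) : lap (p1 b ^ 2) = C (2 * (b 0 ^ 2 + b 1 ^ 2 + b 2 ^ 2)) := by
  simp only [lap, Fin.sum_univ_three, pderiv2_sq, pd_p1, pderiv_C, mul_zero, add_zero, map_add,
    map_mul, map_pow]
  ring

theorem lap_p2_sq (a : Fin 6 → ℝ) : lap (p2 a ^ 2) =
    C 2 * (p1 ![2 * a 0, a 1, a 2] ^ 2 + p1 ![a 1, 2 * a 3, a 4] ^ 2 + p1 ![a 2, a 4, 2 * a 5] ^ 2)
      + C (2 * (2 * a 0 + 2 * a 3 + 2 * a 5)) * p2 a := by
  simp only [lap, Fin.sum_univ_three, pderiv2_sq, pd_p2_0, pd_p2_1, pd_p2_2, pd_p1]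
  simp only [Matrix.cons_val_zero, Matrix.cons_val_one, Matrix.cons_val, map_add, map_mul]
  ring

theorem ed_p2_sq (a : Fin 6 → ℝ) : ed (p2 a ^ 2) =
    (p2 a + C (2 * a 0 + 2 * a 3 + 2 * a 5)) ^ 2
    + C 2 * (p1 ![2 * a 0, a 1, a 2] ^ 2 + p1 ![a 1, 2 * a 3, a 4] ^ 2
      + p1 ![a 2, a 4, 2 * a 5] ^ 2)
    + C (2 * (4 * a 0 ^ 2 + 4 * a 3 ^ 2 + 4 * a 5 ^ 2 + 2 * a 1 ^ 2 + 2 * a 2 ^ 2
      + 2 * a 4 ^ 2)) := by
  have hh : (C (1 / 2 : ℝ) : P3) * 2 = 1 := by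
    rw [show (2 : P3) = C 2 from rfl, ← C_mul]; norm_num
  rw [ed, lap_p2_sq, lap_add, lap_C_mul, lap_C_mul, lap_add, lap_add, lap_p1_sq, lap_p1_sq,
    lap_p1_sq, lap_p2]
  simp only [Matrix.cons_val_zero, Matrix.cons_val_one, Matrix.cons_val, map_add, map_mul,
    map_pow, show (C (2 : ℝ) : P3) = 2 from rfl, show (C (4 : ℝ) : P3) = 4 from rfl]
  generalize (C (a 0) : P3) = A0 at *
  generalize (C (a 1) : P3) = A1 at *
  generalize (C (a 2) : P3) = A2 at *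
  generalize (C (a 3) : P3) = A3 at *
  generalize (C (a 4) : P3) = A4 at *
  generalize (C (a 5) : P3) = A5 at *
  linear_combination (2 * ((2 * A0) ^ 2 + A1 ^ 2 + A2 ^ 2 + A1 ^ 2 + (2 * A3) ^ 2 + A4 ^ 2
    + A2 ^ 2 + A4 ^ 2 + (2 * A5) ^ 2) + (2 * A0 + 2 * A3 + 2 * A5) ^ 2) * hh

theorem SOS_const {r : ℝ} (hr : 0 ≤ r) : SOS (C r : P3) := by
  have := (SOS.sq (1 : P3)).smul hr
  simpa using this

theorem SOS_ed_sq (a : Fin 6 → ℝ) : SOS (ed (p2 a ^ 2)) := by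
  rw [ed_p2_sq]
  exact ((SOS.sq _).add ((((SOS.sq _).add (SOS.sq _)).add (SOS.sq _)).smul (by norm_num))).add
    (SOS_const (by positivity))

theorem SOS_ed_of_SosQ {F : P3} (h : SosQ F) : SOS (ed F) := by
  obtain ⟨n, q, hq, rfl⟩ := h
  rw [ed_sum]
  refine SOS.sum _ _ (fun i _ => ?_)
  obtain ⟨a, ha⟩ := hom2_p2 (hq i)
  rw [ha]
  exact SOS_ed_sq a

theorem Bd.of_smul {P u : P3} {K c : ℝ} (hK : 0 ≤ K) (hc : 0 < c)
    (h : SOS (C K * P - C c * u ^ 2)) : Bd P u := by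
  refine ⟨K / c, by positivity, (h.smul (r := 1 / c) (by positivity)).of_eq ?_⟩
  have h1 : (C (1 / c) : P3) * C K = C (K / c) := by rw [← C_mul]; congr 1; ring
  have h2 : (C (1 / c) : P3) * C c = 1 := by rw [← C_mul, one_div_mul_cancel hc.ne', C_1]
  linear_combination P * h1 - u ^ 2 * h2

theorem bd_of_ed {P : P3} {a : Fin 6 → ℝ} {K : ℝ} (hK : 0 ≤ K)
    (h : SOS (C K * P - ed (p2 a ^ 2))) :
    Bd P (p2 a + C (2 * a 0 + 2 * a 3 + 2 * a 5)) ∧ Bd P (p1 ![2 * a 0, a 1, a 2]) ∧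
      Bd P (p1 ![a 1, 2 * a 3, a 4]) ∧ Bd P (p1 ![a 2, a 4, 2 * a 5]) ∧ (a ≠ 0 → Bd P 1) := by
  rw [ed_p2_sq] at h
  set U := p2 a + C (2 * a 0 + 2 * a 3 + 2 * a 5)
  set D0 := p1 ![2 * a 0, a 1, a 2]
  set D1 := p1 ![a 1, 2 * a 3, a 4]
  set D2 := p1 ![a 2, a 4, 2 * a 5]
  set N := 2 * (4 * a 0 ^ 2 + 4 * a 3 ^ 2 + 4 * a 5 ^ 2 + 2 * a 1 ^ 2 + 2 * a 2 ^ 2
      + 2 * a 4 ^ 2) with hN
  have hN0 : 0 ≤ N := by positivity
  have s0 := (SOS.sq D0).smul (r := 2) (by norm_num)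
  have s1 := (SOS.sq D1).smul (r := 2) (by norm_num)
  have s2 := (SOS.sq D2).smul (r := 2) (by norm_num)
  have sU := SOS.sq U
  have sN := SOS_const hN0
  refine ⟨⟨K, hK, ?_⟩, ?_, ?_, ?_, ?_⟩
  · exact ((((h.add s0).add s1).add s2).add sN).of_eq (by ring)
  · exact Bd.of_smul hK (c := 2) (by norm_num) (((((h.add sU).add s1).add s2).add sN).of_eq (by ring))
  · exact Bd.of_smul hK (c := 2) (by norm_num) (((((h.add sU).add s0).add s2).add sN).of_eq (by ring))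
  · exact Bd.of_smul hK (c := 2) (by norm_num) (((((h.add sU).add s0).add s1).add sN).of_eq (by ring))
  · intro ha
    have hNp : 0 < N := by
      obtain ⟨i, hi⟩ := Function.ne_iff.1 ha
      have hi2 : 0 < a i ^ 2 := by
        have : a i ≠ 0 := hi
        positivity
      rw [hN]
      fin_cases i <;> simp only [Fin.zero_eta, Fin.mk_one, Fin.reduceFinMk] at hi2 <;> positivity
    exact Bd.of_smul hK (c := N) hNp (((((h.add sU).add s0).add s1).add s2).of_eq (by ring))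

/-- `F` is not invariant in any direction -/
def NonDeg (F : P3) : Prop := ∀ v : Fin 3 → ℝ, v ≠ 0 → ¬ Inv F v

theorem bd_dom (hH : HilbertStmt) {F q : P3} (hF : F.IsHomogeneous 4) (hP : Psd F)
    (hq : Dom F q) : ∃ K : ℝ, 0 ≤ K ∧ SOS (C K * ed F - ed (q ^ 2)) := by
  obtain ⟨h1, K, hK⟩ := hq
  refine ⟨|K|, abs_nonneg _, ?_⟩
  have hs : SosQ (C |K| * F - q ^ 2) := by
    apply hH
    · exact (hF.C_mul _).sub (by simpa using h1.pow 2)
    · intro x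
      rw [map_sub, map_mul, eval_C, map_pow, sub_nonneg]
      exact (hK x).trans (mul_le_mul_of_nonneg_right (le_abs_self K) (hP x))
  have := SOS_ed_of_SosQ hs
  rw [sub_eq_add_neg, ed_add, ed_C_mul, show -(q ^ 2) = C (-1) * q ^ 2 by simp, ed_C_mul] at this
  exact this.of_eq (by simp; ring)

end HQ151
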