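import Pool.Agent.R151.HQD
open MvPolynomial
namespace HQ151

theorem p1_add (a b : Fin 3 → ℝ) : p1 (a + b) = p1 a + p1 b := by
  simp only [p1, Pi.add_apply, map_add]; ring

theorem p1_smul (r : ℝ) (a : Fin 3 → ℝ) : p1 (r • a) = C r * p1 a := by
  simp only [p1, Pi.smul_apply, smul_eq_mul, map_mul]; ring

theorem p1_zero : p1 0 = 0 := by simp [p1]

/-- the submodule of bounded linear forms -/
noncomputable def W1 (P : P3) : Submodule ℝ (Fin 3 → ℝ) where
  carrier := {b | Bd P (p1 b)}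
  zero_mem' := by
    change Bd P (p1 0)
    rw [p1_zero]; exact Bd.zero P
  add_mem' := by
    intro a b ha hb
    change Bd P (p1 (a + b))
    rw [p1_add]; exact Bd.add ha hb
  smul_mem' := by
    intro r a ha
    change Bd P (p1 (r • a))
    rw [p1_smul]; exact Bd.smul ha r

theorem p2_inv {a : Fin 6 → ℝ} {v : Fin 3 → ℝ}
    (h0 : 2 * a 0 * v 0 + a 1 * v 1 + a 2 * v 2 = 0)
    (h1 : a 1 * v 0 + 2 * a 3 * v 1 + a 4 * v 2 = 0)
    (h2 : a 2 * v 0 + a 4 * v 1 + 2 * a 5 * v 2 = 0) : Inv (p2 a) v := by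
  intro x s
  rw [eval_p2, eval_p2]
  simp only [Pi.add_apply, Pi.smul_apply, smul_eq_mul]
  linear_combination (s * x 0 + s ^ 2 * v 0 / 2) * h0 + (s * x 1 + s ^ 2 * v 1 / 2) * h1
    + (s * x 2 + s ^ 2 * v 2 / 2) * h2

theorem W1_top (hH : HilbertStmt) {F : P3} (hF : F.IsHomogeneous 4) (hP : Psd F)
    (hn : NonDeg F) : W1 (ed F) = ⊤ := by
  by_contra hne
  obtain ⟨f, hf0, hf⟩ := Submodule.exists_le_ker_of_lt_top (W1 (ed F)) (lt_top_iff_ne_top.2 hne)
  set v : Fin 3 → ℝ := fun i => f (Pi.single i 1) with hv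
  have hfv : ∀ b : Fin 3 → ℝ, f b = b 0 * v 0 + b 1 * v 1 + b 2 * v 2 := by
    intro b
    have hb : b = b 0 • Pi.single 0 1 + b 1 • Pi.single 1 1 + b 2 • (Pi.single 2 1 : Fin 3 → ℝ) := by
      funext i
      fin_cases i <;> simp
    conv_lhs => rw [hb]
    simp only [map_add, map_smul, smul_eq_mul, hv]
  have hv0 : v ≠ 0 := by
    intro h
    apply hf0
    refine LinearMap.ext (fun b => ?_)
    rw [hfv, h]; simp
  have hbd : ∀ b : Fin 3 → ℝ, Bd (ed F) (p1 b) → b 0 * v 0 + b 1 * v 1 + b 2 * v 2 = 0 := by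
    intro b hb
    have : b ∈ LinearMap.ker f := hf (show b ∈ W1 (ed F) from hb)
    rw [LinearMap.mem_ker, hfv] at this
    exact this
  apply hn v hv0
  obtain ⟨n, q, hq, hFq⟩ := hH F hF hP
  have hinv : ∀ i, Inv (q i) v := by
    intro i
    obtain ⟨a, ha⟩ := hom2_p2 (hq i)
    have hdom : Dom F (q i) := by
      refine ⟨hq i, 1, fun x => ?_⟩
      rw [hFq, map_sum, one_mul]
      have : (eval x (q i)) ^ 2 = eval x (q i ^ 2) := by rw [map_pow]
      rw [this]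
      exact Finset.single_le_sum (f := fun j => eval x (q j ^ 2))
        (fun j _ => by simp only [map_pow]; positivity) (Finset.mem_univ i)
    obtain ⟨K, hK, hS⟩ := bd_dom hH hF hP hdom
    rw [ha] at hS
    obtain ⟨-, e0, e1, e2, -⟩ := bd_of_ed hK hS
    have e0 := hbd _ e0
    have e1 := hbd _ e1
    have e2 := hbd _ e2
    simp only [Matrix.cons_val_zero, Matrix.cons_val_one, Matrix.cons_val] at e0 e1 e2
    rw [ha]
    exact p2_inv e0 e1 e2
  intro x s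
  rw [hFq, map_sum, map_sum]
  refine Finset.sum_congr rfl (fun i _ => ?_)
  rw [map_pow, map_pow, hinv i x s]

theorem dom_of_sum {F : P3} {n : ℕ} {q : Fin n → P3} (hq : ∀ i, (q i).IsHomogeneous 2)
    (hFq : F = ∑ i, q i ^ 2) (i : Fin n) : Dom F (q i) := by
  refine ⟨hq i, 1, fun x => ?_⟩
  rw [hFq, map_sum, one_mul]
  have : (eval x (q i)) ^ 2 = eval x (q i ^ 2) := by rw [map_pow]
  rw [this]
  exact Finset.single_le_sum (f := fun j => eval x (q j ^ 2))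
    (fun j _ => by simp only [map_pow]; positivity) (Finset.mem_univ i)

theorem bd_lin (hH : HilbertStmt) {F : P3} (hF : F.IsHomogeneous 4) (hP : Psd F)
    (hn : NonDeg F) (b : Fin 3 → ℝ) : Bd (ed F) (p1 b) := by
  have : b ∈ W1 (ed F) := by rw [W1_top hH hF hP hn]; exact Submodule.mem_top
  exact this

theorem bd_one (hH : HilbertStmt) {F : P3} (hF : F.IsHomogeneous 4) (hP : Psd F)
    (hn : NonDeg F) : Bd (ed F) 1 := by
  obtain ⟨n, q, hq, hFq⟩ := hH F hF hP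
  have hex : ∃ i, q i ≠ 0 := by
    by_contra hcon
    push Not at hcon
    have hF0 : F = 0 := by rw [hFq]; simp [hcon]
    refine hn (fun _ => 1) (fun h => by simpa using congrFun h 0) (fun x s => by rw [hF0]; simp)
  obtain ⟨i, hi⟩ := hex
  obtain ⟨K, hK, hS⟩ := bd_dom hH hF hP (dom_of_sum hq hFq i)
  obtain ⟨a, ha⟩ := hom2_p2 (hq i)
  rw [ha] at hS
  refine (bd_of_ed hK hS).2.2.2.2 ?_
  rintro rfl
  apply hi
  rw [ha]; simp [p2]

theorem bd_quad (hH : HilbertStmt) {F q : P3} (hF : F.IsHomogeneous 4) (hP : Psd F)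
    (hn : NonDeg F) (hq : Dom F q) : Bd (ed F) q := by
  obtain ⟨K, hK, hS⟩ := bd_dom hH hF hP hq
  obtain ⟨a, ha⟩ := hom2_p2 hq.1
  rw [ha] at hS
  have h1 := (bd_of_ed hK hS).1
  have h2 := (bd_one hH hF hP hn).smul (-(2 * a 0 + 2 * a 3 + 2 * a 5))
  have := h1.add h2
  rw [ha]
  convert this using 1
  rw [map_neg]; ring

theorem ab_GLs (hH : HilbertStmt) {F c : P3} (hF : F.IsHomogeneous 4) (hP : Psd F)
    (hn : NonDeg F) (hc : c ∈ GLs F) : Ab (ed F) c := by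
  unfold GLs at hc
  induction hc using Submodule.span_induction with
  | mem p hp =>
    obtain ⟨q, l, hq, hl, rfl⟩ := hp
    obtain ⟨b, hb⟩ := hom1_p1 hl
    rw [hb]
    exact Ab.of_mul (bd_quad hH hF hP hn hq) (bd_lin hH hF hP hn b)
  | zero => exact Ab.zero _
  | add p q _ _ hp hq => exact hp.add hq
  | smul a p _ hp => rw [smul_eq_C_mul]; exact hp.smul a

theorem X_eq_p1 (i : Fin 3) : (X i : P3) = p1 (Pi.single i 1) := by
  fin_cases i <;> simp [p1]

theorem ab_hom2 (hH : HilbertStmt) {F c : P3} (hF : F.IsHomogeneous 4) (hP : Psd F)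
    (hn : NonDeg F) (hc : c.IsHomogeneous 2) : Ab (ed F) c := by
  have hX : ∀ i : Fin 3, Bd (ed F) (X i) := fun i => by
    rw [X_eq_p1]; exact bd_lin hH hF hP hn _
  obtain ⟨a, rfl⟩ := hom2_p2 hc
  unfold p2
  simp only [pow_two]
  exact ((((((Ab.of_mul (hX 0) (hX 0)).smul _).add ((Ab.of_mul (hX 0) (hX 1)).smul _)).add
    ((Ab.of_mul (hX 0) (hX 2)).smul _)).add ((Ab.of_mul (hX 1) (hX 1)).smul _)).add
    ((Ab.of_mul (hX 1) (hX 2)).smul _)).add ((Ab.of_mul (hX 2) (hX 2)).smul _)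

theorem ab_hom1 (hH : HilbertStmt) {F c : P3} (hF : F.IsHomogeneous 4) (hP : Psd F)
    (hn : NonDeg F) (hc : c.IsHomogeneous 1) : Ab (ed F) c := by
  obtain ⟨a, rfl⟩ := hom1_p1 hc
  have := Ab.of_mul (bd_lin hH hF hP hn a) (bd_one hH hF hP hn)
  rwa [mul_one] at this

theorem ab_hom0 (hH : HilbertStmt) {F c : P3} (hF : F.IsHomogeneous 4) (hP : Psd F)
    (hn : NonDeg F) (hc : c.IsHomogeneous 0) : Ab (ed F) c := by
  obtain ⟨r, rfl⟩ := hom0_C hc
  have := (Ab.of_mul (bd_one hH hF hP hn) (bd_one hH hF hP hn)).smul r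
  rwa [mul_one, mul_one] at this

/-- main perturbation lemma -/
theorem small_pert (hH : HilbertStmt) {F r3 r2 r1 r0 : P3} (hF : F.IsHomogeneous 4) (hP : Psd F)
    (h3 : Ab (ed F) r3) (h2 : Ab (ed F) r2) (h1 : Ab (ed F) r1) (h0 : Ab (ed F) r0) :
    ∃ δ : ℝ, 0 < δ ∧ ∀ ε : ℝ, 0 < ε → ε ≤ δ →
      SOS (ed F + C ε * r3 + C (ε ^ 2) * r2 + C (ε ^ 3) * r1 + C (ε ^ 4) * r0) := by
  have hS : SOS (ed F) := SOS_ed_of_SosQ (hH F hF hP)
  obtain ⟨d3, hd3, g3⟩ := h3.small hS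
  obtain ⟨d2, hd2, g2⟩ := h2.small hS
  obtain ⟨d1, hd1, g1⟩ := h1.small hS
  obtain ⟨d0, hd0, g0⟩ := h0.small hS
  refine ⟨min 1 (min (min d3 d2) (min d1 d0)), by positivity, fun ε hε hε2 => ?_⟩
  have e1 : ε ≤ 1 := hε2.trans (min_le_left _ _)
  have e2 := hε2.trans (min_le_right _ _)
  have q3 : ε ≤ d3 := e2.trans ((min_le_left _ _).trans (min_le_left _ _))
  have q2 : ε ≤ d2 := e2.trans ((min_le_left _ _).trans (min_le_right _ _))
  have q1 : ε ≤ d1 := e2.trans ((min_le_right _ _).trans (min_le_left _ _))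
  have q0 : ε ≤ d0 := e2.trans ((min_le_right _ _).trans (min_le_right _ _))
  have p2' : ε ^ 2 ≤ ε := by nlinarith
  have p3' : ε ^ 3 ≤ ε := by nlinarith [sq_nonneg ε]
  have p4' : ε ^ 4 ≤ ε := by
    have : ε ^ 4 = ε ^ 3 * ε := by ring
    nlinarith [pow_pos hε 3]
  have hq : (C (1 / 4 : ℝ) : P3) * 4 = 1 := by
    rw [show (4 : P3) = C 4 from rfl, ← C_mul]; norm_num
  refine ((((g3 ε hε.le q3).add (g2 (ε ^ 2) (by positivity) (p2'.trans q2))).add
    (g1 (ε ^ 3) (by positivity) (p3'.trans q1))).add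
    (g0 (ε ^ 4) (by positivity) (p4'.trans q0))).of_eq ?_
  linear_combination (ed F) * hq

end HQ151
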