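import Pool.Agent.R151.HQD2
open MvPolynomial
namespace HQ151

theorem lap_iter_zero (k : ℕ) : lap^[k] (0 : P3) = 0 := by
  induction k with
  | zero => rfl
  | succ k ih => rw [Function.iterate_succ_apply, lap_zero, ih]

theorem lap_iter_add (k : ℕ) (p q : P3) : lap^[k] (p + q) = lap^[k] p + lap^[k] q := by
  induction k generalizing p q with
  | zero => rfl
  | succ k ih => rw [Function.iterate_succ_apply, Function.iterate_succ_apply,
      Function.iterate_succ_apply, lap_add, ih]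

theorem lap_iter_low {F : P3} {n k : ℕ} (h : F.IsHomogeneous n) (hn : n < 2 * k) :
    lap^[k] F = 0 := by
  induction k generalizing F n with
  | zero => omega
  | succ k ih =>
    rw [Function.iterate_succ_apply]
    rcases Nat.lt_or_ge n 2 with h2 | h2
    · rw [lap_low h h2, lap_iter_zero]
    · exact ih (lap_hom h) (by omega)

theorem lap_iter_sum (k : ℕ) {ι : Type} (s : Finset ι) (f : ι → P3) :
    lap^[k] (∑ i ∈ s, f i) = ∑ i ∈ s, lap^[k] (f i) := by
  classical
  induction s using Finset.induction_on with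
  | empty => simp [lap_iter_zero]
  | insert a s ha ih => rw [Finset.sum_insert ha, Finset.sum_insert ha, lap_iter_add, ih]

theorem lap_iter_deg {f : P3} {k : ℕ} (h : f.totalDegree < 2 * k) : lap^[k] f = 0 := by
  rw [← sum_homogeneousComponent f, lap_iter_sum]
  refine Finset.sum_eq_zero (fun i hi => ?_)
  have := Finset.mem_range.1 hi
  exact lap_iter_low (homogeneousComponent_isHomogeneous i f) (by omega)

theorem heat_eq {f : P3} (hf : f.totalDegree ≤ 4) (t : ℝ) :
    heat f t = f + C t * lap f + C (t ^ 2 / 2) * lap (lap f) := by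
  have key : ∀ k ≥ f.totalDegree + 1,
      C (t ^ k / (k.factorial : ℝ)) * lap^[k] f = 0 := by
    intro k hk
    rw [lap_iter_deg (by omega), mul_zero]
  have key2 : ∀ k ≥ 3, C (t ^ k / (k.factorial : ℝ)) * lap^[k] f = 0 := by
    intro k hk
    rw [lap_iter_deg (by omega), mul_zero]
  have h1 : heat f t = ∑ k ∈ Finset.range (f.totalDegree + 1 + 3),
      C (t ^ k / (k.factorial : ℝ)) * lap^[k] f := by
    unfold heat
    rw [Finset.sum_range_add (n := f.totalDegree + 1)]
    rw [Finset.sum_eq_zero (s := Finset.range 3) (fun i _ => key _ (by omega)), add_zero]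
  have h2 : ∑ k ∈ Finset.range (3 + (f.totalDegree + 1)),
      C (t ^ k / (k.factorial : ℝ)) * lap^[k] f = ∑ k ∈ Finset.range 3,
      C (t ^ k / (k.factorial : ℝ)) * lap^[k] f := by
    rw [Finset.sum_range_add (n := 3)]
    rw [Finset.sum_eq_zero (s := Finset.range (f.totalDegree + 1)) (fun i _ => key2 _ (by omega)),
      add_zero]
  rw [h1, add_comm (f.totalDegree + 1) 3, h2]
  simp [Finset.sum_range_succ, Nat.factorial]

theorem decomp {f : P3} (hf : f.totalDegree ≤ 4) :
    f = homogeneousComponent 4 f + homogeneousComponent 3 f + homogeneousComponent 2 f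
      + homogeneousComponent 1 f + homogeneousComponent 0 f := by
  have h1 : ∑ i ∈ Finset.range 5, homogeneousComponent i f = f := by
    conv_rhs => rw [← sum_homogeneousComponent f]
    symm
    refine Finset.sum_subset (fun i hi => ?_) (fun i _ hi => ?_)
    · have := Finset.mem_range.1 hi
      exact Finset.mem_range.2 (by omega)
    · rw [Finset.mem_range, not_lt] at hi
      exact homogeneousComponent_eq_zero i f (by omega)
  conv_lhs => rw [← h1]
  simp only [Finset.sum_range_succ, Finset.sum_range_zero]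
  ring

theorem eval_lsub_scalar (s : ℝ) (F : P3) (x : Fin 3 → ℝ) :
    eval x (lsub (s • (1 : Matrix (Fin 3) (Fin 3) ℝ)) F) = eval (s • x) F := by
  rw [eval_lsub, Matrix.smul_mulVec, Matrix.one_mulVec]

theorem heat_scaled {f4 f3 f2 f1 f0 : P3} (h4 : f4.IsHomogeneous 4) (h3 : f3.IsHomogeneous 3)
    (h2 : f2.IsHomogeneous 2) (h1 : f1.IsHomogeneous 1) (h0 : f0.IsHomogeneous 0)
    {s : ℝ} (hs : 0 < s) :
    lsub (s • (1 : Matrix (Fin 3) (Fin 3) ℝ)) ((f4 + f3 + f2 + f1 + f0)
      + C (s ^ 2) * lap (f4 + f3 + f2 + f1 + f0)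
      + C ((s ^ 2) ^ 2 / 2) * lap (lap (f4 + f3 + f2 + f1 + f0))) =
    C (s ^ 4) * (ed f4 + C s⁻¹ * (f3 + lap f3) + C (s⁻¹ ^ 2) * (f2 + lap f2) + C (s⁻¹ ^ 3) * f1
      + C (s⁻¹ ^ 4) * f0) := by
  apply MvPolynomial.funext
  intro x
  rw [eval_lsub_scalar]
  simp only [lap_add, ed]
  have l1 : lap f1 = 0 := lap_low h1 (by norm_num)
  have l0 : lap f0 = 0 := lap_low h0 (by norm_num)
  have l2 : lap (lap f2) = 0 := lap_low (lap_hom h2) (by norm_num)
  have l3 : lap (lap f3) = 0 := lap_low (lap_hom h3) (by norm_num)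
  rw [l1, l0, l2, l3]
  simp only [lap_zero, add_zero, mul_zero, map_add, map_mul, eval_C]
  rw [eval_smul_hom h4, eval_smul_hom h3, eval_smul_hom h2, eval_smul_hom h1, eval_smul_hom h0,
    eval_smul_hom (lap_hom h4), eval_smul_hom (lap_hom h3), eval_smul_hom (lap_hom h2),
    eval_smul_hom (lap_hom (lap_hom h4))]
  field_simp
  ring

theorem heat_nondeg (hH : HilbertStmt) (hT : StepTwoStmt) {f : P3} (hf : f.totalDegree ≤ 4)
    (hP4 : Psd (homogeneousComponent 4 f))
    (hC : Cub (homogeneousComponent 4 f) (homogeneousComponent 3 f))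
    (hn : NonDeg (homogeneousComponent 4 f)) :
    ∃ T : ℝ, 0 < T ∧ ∀ t : ℝ, T ≤ t → SOS (heat f t) := by
  set f4 := homogeneousComponent 4 f with hf4
  set f3 := homogeneousComponent 3 f with hf3
  set f2 := homogeneousComponent 2 f with hf2
  set f1 := homogeneousComponent 1 f with hf1
  set f0 := homogeneousComponent 0 f with hf0
  have h4 : f4.IsHomogeneous 4 := homogeneousComponent_isHomogeneous 4 f
  have h3 : f3.IsHomogeneous 3 := homogeneousComponent_isHomogeneous 3 f
  have h2 : f2.IsHomogeneous 2 := homogeneousComponent_isHomogeneous 2 f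
  have h1 : f1.IsHomogeneous 1 := homogeneousComponent_isHomogeneous 1 f
  have h0 : f0.IsHomogeneous 0 := homogeneousComponent_isHomogeneous 0 f
  have a3 : Ab (ed f4) (f3 + lap f3) :=
    (ab_GLs hH h4 hP4 hn (hT f4 f3 h4 hP4 hC)).add (ab_hom1 hH h4 hP4 hn (lap_hom h3))
  have a2 : Ab (ed f4) (f2 + lap f2) :=
    (ab_hom2 hH h4 hP4 hn h2).add (ab_hom0 hH h4 hP4 hn (lap_hom h2))
  have a1 : Ab (ed f4) f1 := ab_hom1 hH h4 hP4 hn h1
  have a0 : Ab (ed f4) f0 := ab_hom0 hH h4 hP4 hn h0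
  obtain ⟨δ, hδ, hmain⟩ := small_pert hH h4 hP4 a3 a2 a1 a0
  refine ⟨(1 / δ) ^ 2, by positivity, fun t ht => ?_⟩
  have htpos : 0 < t := lt_of_lt_of_le (by positivity) ht
  set s := Real.sqrt t with hsdef
  have hs : 0 < s := Real.sqrt_pos.2 htpos
  have hs2 : s ^ 2 = t := Real.sq_sqrt htpos.le
  have hsd : 1 / δ ≤ s := by
    rw [hsdef]
    apply Real.le_sqrt_of_sq_le
    exact ht
  have hsi : s⁻¹ ≤ δ := by
    rw [inv_le_comm₀ hs hδ]
    simpa using hsd
  have hS := (hmain s⁻¹ (by positivity) hsi).smul (r := s ^ 4) (by positivity)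
  rw [← heat_scaled h4 h3 h2 h1 h0 hs, ← decomp hf, hs2, ← heat_eq hf t] at hS
  have hS2 := hS.map (s⁻¹ • (1 : Matrix (Fin 3) (Fin 3) ℝ))
  rw [lsub_lsub] at hS2
  have : (s • (1 : Matrix (Fin 3) (Fin 3) ℝ)) * (s⁻¹ • (1 : Matrix (Fin 3) (Fin 3) ℝ)) = 1 := by
    rw [Matrix.smul_mul, Matrix.one_mul, smul_smul, mul_inv_cancel₀ hs.ne', one_smul]
  rwa [this, lsub_one] at hS2

/-- final assembly -/
theorem final_of (hH : HilbertStmt) (hT : StepTwoStmt) (hD : DegStmt) (hN : NonnegStmt) :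
    ∀ f : P3, (∀ x : Fin 3 → ℝ, 0 ≤ eval x f) → ¬ SOS f → f.totalDegree ≤ 4 →
      ∃ T : ℝ, 0 < T ∧ ∀ t : ℝ, T ≤ t → SOS (heat f t) := by
  intro f hP hS hf
  obtain ⟨hP4, hC⟩ := hN f hf hP
  refine heat_nondeg hH hT hf hP4 hC ?_
  intro v hv hinv
  exact hS (hD f hf hP v hv hinv)

end HQ151
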