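import Pool.Agent.R151.HQ2
/-!
HQ-A0: a nonzero nonnegative binary quartic form dominates a nonzero square.
-/
open MvPolynomial
namespace HQ151

namespace A0x

/-- a polynomial which is nonnegative near a zero has no linear term -/
theorem lin_zero {a b c d : ℝ} (h : ∀ t : ℝ, 0 ≤ a * t + b * t ^ 2 + c * t ^ 3 + d * t ^ 4) :
    a = 0 := by
  set p : ℝ → ℝ := fun t => a * t + b * t ^ 2 + c * t ^ 3 + d * t ^ 4 with hp
  have hd : HasDerivAt p (a * 1 + b * ((2 : ℕ) * (0 : ℝ) ^ (2 - 1) * 1) +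
      c * ((3 : ℕ) * (0 : ℝ) ^ (3 - 1) * 1) + d * ((4 : ℕ) * (0 : ℝ) ^ (4 - 1) * 1)) 0 :=
    ((((hasDerivAt_id (0 : ℝ)).const_mul a).add (((hasDerivAt_id (0 : ℝ)).pow 2).const_mul b)).add
      (((hasDerivAt_id (0 : ℝ)).pow 3).const_mul c)).add
      (((hasDerivAt_id (0 : ℝ)).pow 4).const_mul d)
  have hm : IsLocalMin p 0 := by
    refine Filter.Eventually.of_forall fun t => ?_
    have h0 : p 0 = 0 := by simp [hp]
    rw [h0]
    exact h t
  have := hm.hasDerivAt_eq_zero hd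
  norm_num at this
  exact this

/-- positive binary quartic forms -/
theorem circ {h0 h1 h2 h3 h4 : ℝ} (hp : ∀ y z : ℝ, (y ≠ 0 ∨ z ≠ 0) →
    0 < h0 * y ^ 4 + h1 * (y ^ 3 * z) + h2 * (y ^ 2 * z ^ 2) + h3 * (y * z ^ 3) + h4 * z ^ 4) :
    ∃ ε : ℝ, 0 < ε ∧ ∀ y z : ℝ, ε * (y ^ 2 + z ^ 2) ^ 2 ≤
      h0 * y ^ 4 + h1 * (y ^ 3 * z) + h2 * (y ^ 2 * z ^ 2) + h3 * (y * z ^ 3) + h4 * z ^ 4 := by
  set S : Set (ℝ × ℝ) := {p | p.1 ^ 2 + p.2 ^ 2 = 1} with hS
  have hcl : IsClosed S := isClosed_eq (by fun_prop) continuous_const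
  have hb : Bornology.IsBounded S := by
    refine (Metric.isBounded_closedBall (x := (0 : ℝ × ℝ)) (r := 1)).subset fun p hp => ?_
    have hp' : p.1 ^ 2 + p.2 ^ 2 = 1 := hp
    rw [mem_closedBall_zero_iff, Prod.norm_def, max_le_iff, Real.norm_eq_abs, Real.norm_eq_abs,
      abs_le_one_iff_mul_self_le_one, abs_le_one_iff_mul_self_le_one]
    constructor <;> nlinarith [sq_nonneg p.1, sq_nonneg p.2]
  have hc : IsCompact S := Metric.isCompact_of_isClosed_isBounded hcl hb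
  have hne : S.Nonempty := ⟨(1, 0), by simp [hS]⟩
  obtain ⟨p, hpS, hmin⟩ := hc.exists_isMinOn hne (f := fun p : ℝ × ℝ =>
    h0 * p.1 ^ 4 + h1 * (p.1 ^ 3 * p.2) + h2 * (p.1 ^ 2 * p.2 ^ 2) + h3 * (p.1 * p.2 ^ 3)
      + h4 * p.2 ^ 4) (by fun_prop)
  have hp1 : p.1 ^ 2 + p.2 ^ 2 = 1 := hpS
  have hp0 : p.1 ≠ 0 ∨ p.2 ≠ 0 := by
    by_contra hcon
    push Not at hcon
    rw [hcon.1, hcon.2] at hp1
    norm_num at hp1
  refine ⟨_, hp p.1 p.2 hp0, fun y z => ?_⟩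
  by_cases hyz : y = 0 ∧ z = 0
  · rw [hyz.1, hyz.2]
    norm_num
  · have hr : 0 < y ^ 2 + z ^ 2 := by
      rcases not_and_or.1 hyz with hy | hz
      · have : 0 < y ^ 2 := by positivity
        positivity
      · have : 0 < z ^ 2 := by positivity
        positivity
    set r := Real.sqrt (y ^ 2 + z ^ 2) with hrd
    have hr0 : 0 < r := Real.sqrt_pos.2 hr
    have hr2 : r ^ 2 = y ^ 2 + z ^ 2 := Real.sq_sqrt hr.le
    have hin : ((y / r, z / r) : ℝ × ℝ) ∈ S := by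
      show (y / r) ^ 2 + (z / r) ^ 2 = 1
      rw [div_pow, div_pow, ← add_div, hr2, div_self hr.ne']
    have h5 := hmin hin
    simp only [Set.mem_setOf_eq] at h5
    rw [← hr2]
    have h6 := mul_le_mul_of_nonneg_right h5 (by positivity : 0 ≤ r ^ 4)
    have h7 : (h0 * (y / r) ^ 4 + h1 * ((y / r) ^ 3 * (z / r)) + h2 * ((y / r) ^ 2 * (z / r) ^ 2)
        + h3 * ((y / r) * (z / r) ^ 3) + h4 * (z / r) ^ 4) * r ^ 4 =
        h0 * y ^ 4 + h1 * (y ^ 3 * z) + h2 * (y ^ 2 * z ^ 2) + h3 * (y * z ^ 3) + h4 * z ^ 4 := by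
      field_simp
    rw [h7] at h6
    calc _ = (h0 * p.1 ^ 4 + h1 * (p.1 ^ 3 * p.2) + h2 * (p.1 ^ 2 * p.2 ^ 2)
        + h3 * (p.1 * p.2 ^ 3) + h4 * p.2 ^ 4) * r ^ 4 := by ring
      _ ≤ _ := h6

/-- the case of a zero at `(1, 0)` -/
theorem zero_case {h1 h2 h3 h4 : ℝ}
    (hn : ∀ y z : ℝ, 0 ≤ h1 * (y ^ 3 * z) + h2 * (y ^ 2 * z ^ 2) + h3 * (y * z ^ 3) + h4 * z ^ 4)
    (hne : ∃ y z : ℝ, h1 * (y ^ 3 * z) + h2 * (y ^ 2 * z ^ 2) + h3 * (y * z ^ 3)
      + h4 * z ^ 4 ≠ 0) :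
    ∃ a b c : ℝ, (a ≠ 0 ∨ b ≠ 0 ∨ c ≠ 0) ∧ ∀ y z : ℝ, (a * y ^ 2 + b * (y * z) + c * z ^ 2) ^ 2
      ≤ h1 * (y ^ 3 * z) + h2 * (y ^ 2 * z ^ 2) + h3 * (y * z ^ 3) + h4 * z ^ 4 := by
  have e1 : h1 = 0 := by
    refine lin_zero (b := h2) (c := h3) (d := h4) fun t => ?_
    have := hn 1 t
    norm_num at this
    linarith
  subst e1
  have hq : ∀ y : ℝ, 0 ≤ h2 * (y * y) + h3 * y + h4 := by
    intro y
    have := hn y 1
    norm_num at this
    nlinarith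
  have hd := discrim_le_zero hq
  unfold discrim at hd
  have hh4 : 0 ≤ h4 := by
    have := hq 0
    norm_num at this
    exact this
  have hh2 : 0 ≤ h2 := by
    by_contra hcon
    push Not at hcon
    have h5 : h3 ^ 2 ≤ 0 := by nlinarith
    have h6 : h3 = 0 := by
      have := le_antisymm h5 (sq_nonneg _)
      exact pow_eq_zero_iff (two_ne_zero) |>.1 this
    have h7 := hq (1 + h4 / (-h2))
    rw [h6] at h7
    have h8 : 0 ≤ h4 / (-h2) := div_nonneg hh4 (by linarith)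
    have h9 : h4 / (-h2) * (-h2) = h4 := div_mul_cancel₀ _ (by linarith)
    nlinarith
  rcases hh2.lt_or_eq with h5 | h5
  · have s0 : 0 < Real.sqrt h2 := Real.sqrt_pos.2 h5
    have s2 : Real.sqrt h2 ^ 2 = h2 := Real.sq_sqrt hh2
    refine ⟨0, Real.sqrt h2, Real.sqrt h2 * (h3 / (2 * h2)), Or.inr (Or.inl s0.ne'),
      fun y z => ?_⟩
    have e2 : (0 * y ^ 2 + Real.sqrt h2 * (y * z) + Real.sqrt h2 * (h3 / (2 * h2)) * z ^ 2) ^ 2 =
        h2 * (y ^ 2 * z ^ 2) + h3 * (y * z ^ 3) + h3 ^ 2 / (4 * h2) * z ^ 4 := by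
      have : (0 * y ^ 2 + Real.sqrt h2 * (y * z) + Real.sqrt h2 * (h3 / (2 * h2)) * z ^ 2) ^ 2 =
        Real.sqrt h2 ^ 2 * (y * z + (h3 / (2 * h2)) * z ^ 2) ^ 2 := by ring
      rw [this, s2]
      field_simp
      ring
    rw [e2]
    have e3 : h3 ^ 2 / (4 * h2) ≤ h4 := by
      rw [div_le_iff₀ (by positivity)]
      linarith
    have e4 := mul_le_mul_of_nonneg_right e3 (by positivity : 0 ≤ z ^ 4)
    linarith
  · subst h5
    have h6 : h3 = 0 := by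
      have h7 : h3 ^ 2 ≤ 0 := by linarith
      have := le_antisymm h7 (sq_nonneg _)
      exact pow_eq_zero_iff (two_ne_zero) |>.1 this
    subst h6
    have h8 : h4 ≠ 0 := by
      rintro rfl
      obtain ⟨y, z, hyz⟩ := hne
      apply hyz
      ring
    have h9 : 0 < h4 := lt_of_le_of_ne hh4 (Ne.symm h8)
    refine ⟨0, 0, Real.sqrt h4, Or.inr (Or.inr (Real.sqrt_pos.2 h9).ne'), fun y z => ?_⟩
    have s2 : Real.sqrt h4 ^ 2 = h4 := Real.sq_sqrt hh4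
    have : (0 * y ^ 2 + 0 * (y * z) + Real.sqrt h4 * z ^ 2) ^ 2 = Real.sqrt h4 ^ 2 * z ^ 4 := by
      ring
    rw [this, s2]
    linarith

end A0x

open A0x in
theorem binStmt : BinStmt := by
  intro h0 h1 h2 h3 h4 hn hne
  by_cases hpos : ∀ y z : ℝ, (y ≠ 0 ∨ z ≠ 0) →
      0 < h0 * y ^ 4 + h1 * (y ^ 3 * z) + h2 * (y ^ 2 * z ^ 2) + h3 * (y * z ^ 3) + h4 * z ^ 4
  · obtain ⟨ε, hε, hb⟩ := circ hpos
    refine ⟨Real.sqrt ε, 0, Real.sqrt ε, Or.inl (Real.sqrt_pos.2 hε).ne', fun y z => ?_⟩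
    refine le_trans (le_of_eq ?_) (hb y z)
    have : (Real.sqrt ε * y ^ 2 + 0 * (y * z) + Real.sqrt ε * z ^ 2) ^ 2 =
        Real.sqrt ε ^ 2 * (y ^ 2 + z ^ 2) ^ 2 := by ring
    rw [this, Real.sq_sqrt hε.le]
  · push Not at hpos
    obtain ⟨y0, z0, hyz, hle⟩ := hpos
    have hz : h0 * y0 ^ 4 + h1 * (y0 ^ 3 * z0) + h2 * (y0 ^ 2 * z0 ^ 2) + h3 * (y0 * z0 ^ 3)
        + h4 * z0 ^ 4 = 0 := le_antisymm hle (hn y0 z0)
    by_cases hz0 : z0 = 0
    · have hy0 : y0 ≠ 0 := by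
        rcases hyz with h | h
        · exact h
        · exact absurd hz0 h
      have e0 : h0 = 0 := by
        rw [hz0] at hz
        have h5 : h0 * y0 ^ 4 = 0 := by linarith
        rcases mul_eq_zero.1 h5 with h | h
        · exact h
        · exact absurd (pow_eq_zero_iff (by norm_num) |>.1 h) hy0
      subst e0
      obtain ⟨a, b, c, habc, h⟩ := zero_case (h1 := h1) (h2 := h2) (h3 := h3) (h4 := h4)
        (fun y z => by have := hn y z; linarith)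
        (by
          obtain ⟨y, z, h⟩ := hne
          refine ⟨y, z, fun h' => h ?_⟩
          linarith)
      exact ⟨a, b, c, habc, fun y z => by have := h y z; linarith⟩
    · set α := y0 / z0 with hα
      have hy0 : y0 = α * z0 := by rw [hα, div_mul_cancel₀ _ hz0]
      have e0 : h0 * α ^ 4 + h1 * α ^ 3 + h2 * α ^ 2 + h3 * α + h4 = 0 := by
        rw [hy0] at hz
        have h5 : (h0 * α ^ 4 + h1 * α ^ 3 + h2 * α ^ 2 + h3 * α + h4) * z0 ^ 4 = 0 := by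
          linarith
        rcases mul_eq_zero.1 h5 with h | h
        · exact h
        · exact absurd (pow_eq_zero_iff (by norm_num) |>.1 h) hz0
      have key : ∀ Y Z : ℝ, (4 * h0 * α ^ 3 + 3 * h1 * α ^ 2 + 2 * h2 * α + h3) * (Y ^ 3 * Z) +
          (6 * h0 * α ^ 2 + 3 * h1 * α + h2) * (Y ^ 2 * Z ^ 2) + (4 * h0 * α + h1) * (Y * Z ^ 3) +
          h0 * Z ^ 4 = h0 * (Z + α * Y) ^ 4 + h1 * ((Z + α * Y) ^ 3 * Y) +
          h2 * ((Z + α * Y) ^ 2 * Y ^ 2) + h3 * ((Z + α * Y) * Y ^ 3) + h4 * Y ^ 4 := by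
        intro Y Z
        linear_combination (-(Y ^ 4)) * e0
      obtain ⟨a, b, c, habc, h⟩ := zero_case
        (h1 := 4 * h0 * α ^ 3 + 3 * h1 * α ^ 2 + 2 * h2 * α + h3)
        (h2 := 6 * h0 * α ^ 2 + 3 * h1 * α + h2) (h3 := 4 * h0 * α + h1) (h4 := h0)
        (fun Y Z => by rw [key]; exact hn _ _)
        (by
          obtain ⟨y, z, h⟩ := hne
          refine ⟨z, y - α * z, ?_⟩
          rw [key]
          rwa [sub_add_cancel])
      refine ⟨c, b - 2 * α * c, a - α * b + α ^ 2 * c, ?_, fun y z => ?_⟩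
      · by_contra hcon
        push Not at hcon
        obtain ⟨c1, c2, c3⟩ := hcon
        rw [c1] at c2 c3
        have c4 : b = 0 := by linarith
        rw [c4] at c3
        have c5 : a = 0 := by linarith
        rcases habc with h | h | h
        · exact h c5
        · exact h c4
        · exact h c1
      · have h5 := h z (y - α * z)
        rw [key, sub_add_cancel] at h5
        refine le_trans (le_of_eq ?_) h5
        ring

end HQ151
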