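import Pool.Agent.R151.HQ2
/-! HQ-A1: the two-zero case of Choi-Lam (by helper33). -/
namespace HQ151

/-- binary quadratic form -/
def bqf (a b c y z : ℝ) : ℝ := a * y ^ 2 + b * (y * z) + c * z ^ 2

theorem nonneg_of_punct {φ : ℝ → ℝ} (hφ : Continuous φ) (t0 : ℝ)
    (h : ∀ t, t ≠ t0 → 0 ≤ φ t) : 0 ≤ φ t0 := by
  have h1 : closure ({t0}ᶜ : Set ℝ) ⊆ {t | 0 ≤ φ t} :=
    closure_minimal (fun t ht => h t ht) (isClosed_le continuous_const hφ)
  rw [(dense_compl_singleton t0).closure_eq] at h1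
  exact h1 (Set.mem_univ t0)

/-- a continuous positive function on the unit circle is bounded below -/
theorem circle_min {φ : ℝ × ℝ → ℝ} (hφ : Continuous φ)
    (h : ∀ p : ℝ × ℝ, p.1 ^ 2 + p.2 ^ 2 = 1 → 0 < φ p) :
    ∃ m : ℝ, 0 < m ∧ ∀ p : ℝ × ℝ, p.1 ^ 2 + p.2 ^ 2 = 1 → m ≤ φ p := by
  set K : Set (ℝ × ℝ) := {p | p.1 ^ 2 + p.2 ^ 2 = 1} with hK
  have hKc : IsCompact K := by
    apply Metric.isCompact_of_isClosed_isBounded
    · exact isClosed_eq (by fun_prop) continuous_const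
    · rw [Metric.isBounded_iff_subset_closedBall (0 : ℝ × ℝ)]
      refine ⟨1, fun p hp => ?_⟩
      rw [mem_closedBall_zero_iff, Prod.norm_def, max_le_iff, Real.norm_eq_abs, Real.norm_eq_abs]
      have hp' : p.1 ^ 2 + p.2 ^ 2 = 1 := hp
      constructor
      · rw [abs_le_one_iff_mul_self_le_one]; nlinarith [sq_nonneg p.2]
      · rw [abs_le_one_iff_mul_self_le_one]; nlinarith [sq_nonneg p.1]
  have hne : K.Nonempty := ⟨(1, 0), by simp [hK]⟩
  obtain ⟨p0, hp0, hmin⟩ := hKc.exists_isMinOn hne hφ.continuousOn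
  exact ⟨φ p0, h p0 hp0, fun p hp => hmin hp⟩

/-- polar scaling -/
theorem polar {y z : ℝ} (h : y ≠ 0 ∨ z ≠ 0) : ∃ r y' z' : ℝ, 0 < r ∧ y = r * y' ∧ z = r * z' ∧
    y' ^ 2 + z' ^ 2 = 1 ∧ r ^ 2 = y ^ 2 + z ^ 2 := by
  have hpos : 0 < y ^ 2 + z ^ 2 := by
    rcases h with h | h
    · have := sq_pos_of_ne_zero h; nlinarith [sq_nonneg z]
    · have := sq_pos_of_ne_zero h; nlinarith [sq_nonneg y]
  have hr : 0 < √(y ^ 2 + z ^ 2) := Real.sqrt_pos.2 hpos
  have hr2 : √(y ^ 2 + z ^ 2) ^ 2 = y ^ 2 + z ^ 2 := Real.sq_sqrt hpos.le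
  refine ⟨√(y ^ 2 + z ^ 2), y / √(y ^ 2 + z ^ 2), z / √(y ^ 2 + z ^ 2), hr, ?_, ?_, ?_, hr2⟩
  · field_simp
  · field_simp
  · rw [div_pow, div_pow, ← add_div, hr2, div_self hpos.ne']

theorem keyTwoStmt : KeyTwoStmt := by
  intro f0 f1 f2 g0 g1 g2 h0 h1 h2 hf hF
  have f0pos : 0 < f0 := by
    have := hf 1 0 (Or.inl one_ne_zero)
    norm_num at this
    exact this
  have f2pos : 0 < f2 := by
    have := hf 0 1 (Or.inr one_ne_zero)
    norm_num at this
    exact this
  have hdisc : 0 < 4 * f0 * f2 - f1 ^ 2 := by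
    have h := hf (2 * f2) (-f1) (Or.inl (by positivity))
    have e : f0 * (2 * f2) ^ 2 + f1 * (2 * f2 * -f1) + f2 * (-f1) ^ 2
        = f2 * (4 * f0 * f2 - f1 ^ 2) := by ring
    rw [e] at h
    exact (mul_pos_iff_of_pos_left f2pos).1 h
  -- D ≥ 0
  have hDz : ∀ y z : ℝ, z ≠ 0 → 0 ≤ bqf f0 f1 f2 y z * bqf h0 h1 h2 y z - bqf g0 g1 g2 y z ^ 2 := by
    intro y z hz
    have hfp : 0 < bqf f0 f1 f2 y z := hf y z (Or.inr hz)
    have hx := hF (-(z * bqf g0 g1 g2 y z / bqf f0 f1 f2 y z)) y z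
    have e : (-(z * bqf g0 g1 g2 y z / bqf f0 f1 f2 y z)) ^ 2 * (f0 * y ^ 2 + f1 * (y * z) + f2 * z ^ 2)
      + 2 * (-(z * bqf g0 g1 g2 y z / bqf f0 f1 f2 y z) * z) * (g0 * y ^ 2 + g1 * (y * z) + g2 * z ^ 2)
      + z ^ 2 * (h0 * y ^ 2 + h1 * (y * z) + h2 * z ^ 2)
      = z ^ 2 * (bqf f0 f1 f2 y z * bqf h0 h1 h2 y z - bqf g0 g1 g2 y z ^ 2) /
        bqf f0 f1 f2 y z := by
      change (-(z * bqf g0 g1 g2 y z / bqf f0 f1 f2 y z)) ^ 2 * bqf f0 f1 f2 y z
        + 2 * (-(z * bqf g0 g1 g2 y z / bqf f0 f1 f2 y z) * z) * bqf g0 g1 g2 y z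
        + z ^ 2 * bqf h0 h1 h2 y z = _
      field_simp
      ring
    rw [e] at hx
    have h3 : 0 ≤ z ^ 2 * (bqf f0 f1 f2 y z * bqf h0 h1 h2 y z - bqf g0 g1 g2 y z ^ 2) := by
      by_contra hneg
      push Not at hneg
      have := div_neg_of_neg_of_pos hneg hfp
      linarith
    have hz2 : 0 < z ^ 2 := by positivity
    exact (mul_nonneg_iff_of_pos_left hz2).1 h3
  have hD : ∀ y z : ℝ, 0 ≤ bqf f0 f1 f2 y z * bqf h0 h1 h2 y z - bqf g0 g1 g2 y z ^ 2 := by
    intro y z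
    by_cases hz : z = 0
    · subst hz
      refine nonneg_of_punct (φ := fun z => bqf f0 f1 f2 y z * bqf h0 h1 h2 y z
        - bqf g0 g1 g2 y z ^ 2) (by unfold bqf; fun_prop) 0 (fun t ht => hDz y t ht)
    · exact hDz y z hz
  by_cases hcase : ∀ y z : ℝ, (y ≠ 0 ∨ z ≠ 0) →
      0 < bqf f0 f1 f2 y z * bqf h0 h1 h2 y z - bqf g0 g1 g2 y z ^ 2
  · -- case A
    have hne : ∀ p : ℝ × ℝ, p.1 ^ 2 + p.2 ^ 2 = 1 → (p.1 ≠ 0 ∨ p.2 ≠ 0) := by
      intro p hp
      by_contra hcon
      push Not at hcon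
      rw [hcon.1, hcon.2] at hp
      norm_num at hp
    obtain ⟨m, hm, hmin⟩ := circle_min (φ := fun p : ℝ × ℝ =>
      bqf f0 f1 f2 p.1 p.2 * bqf h0 h1 h2 p.1 p.2 - bqf g0 g1 g2 p.1 p.2 ^ 2) (by
          unfold bqf; fun_prop) (fun p hp => hcase p.1 p.2 (hne p hp))
    have hDm : ∀ y z : ℝ, m * (y ^ 2 + z ^ 2) ^ 2 ≤
        bqf f0 f1 f2 y z * bqf h0 h1 h2 y z - bqf g0 g1 g2 y z ^ 2 := by
      intro y z
      by_cases hyz : y ≠ 0 ∨ z ≠ 0
      · obtain ⟨r, y', z', hr, hy, hz, hc, hr2⟩ := polar hyz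
        have h5 := hmin (y', z') hc
        simp only at h5
        have e : bqf f0 f1 f2 y z * bqf h0 h1 h2 y z - bqf g0 g1 g2 y z ^ 2 =
            r ^ 4 * (bqf f0 f1 f2 y' z' * bqf h0 h1 h2 y' z' - bqf g0 g1 g2 y' z' ^ 2) := by
          rw [hy, hz]; unfold bqf; ring
        rw [e, ← hr2]
        have h6 : 0 ≤ r ^ 4 := by positivity
        nlinarith [mul_le_mul_of_nonneg_left h5 h6]
      · push Not at hyz
        rw [hyz.1, hyz.2]
        unfold bqf
        simp
    set M : ℝ := f0 + |f1| + f2 with hM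
    have hMpos : 0 < M := by have := abs_nonneg f1; positivity
    have hfM : ∀ y z : ℝ, bqf f0 f1 f2 y z ≤ M * (y ^ 2 + z ^ 2) := by
      intro y z
      unfold bqf
      have h5 : f1 * (y * z) ≤ |f1| * (y ^ 2 + z ^ 2) := by
        calc f1 * (y * z) ≤ |f1 * (y * z)| := le_abs_self _
          _ = |f1| * |y * z| := abs_mul _ _
          _ ≤ |f1| * (y ^ 2 + z ^ 2) := by
            apply mul_le_mul_of_nonneg_left _ (abs_nonneg _)
            rw [abs_le]
            constructor <;> nlinarith [sq_nonneg (y + z), sq_nonneg (y - z), sq_nonneg y, sq_nonneg z]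
      nlinarith [mul_nonneg f0pos.le (sq_nonneg z), mul_nonneg f2pos.le (sq_nonneg y)]
    refine ⟨![0, 0, 0, 0, 0, √(m / M)], ?_, ?_⟩
    · intro h
      have := congrFun h 5
      have h7 : √(m / M) = 0 := by simpa using this
      have h8 : 0 < √(m / M) := Real.sqrt_pos.2 (by positivity)
      linarith
    · intro x y z
      have hs : √(m / M) ^ 2 = m / M := Real.sq_sqrt (by positivity)
      have e : ((![0, 0, 0, 0, 0, √(m / M)] : Fin 6 → ℝ) 0 * x ^ 2
          + (![0, 0, 0, 0, 0, √(m / M)] : Fin 6 → ℝ) 1 * (x * y)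
          + (![0, 0, 0, 0, 0, √(m / M)] : Fin 6 → ℝ) 2 * (x * z)
          + (![0, 0, 0, 0, 0, √(m / M)] : Fin 6 → ℝ) 3 * y ^ 2
          + (![0, 0, 0, 0, 0, √(m / M)] : Fin 6 → ℝ) 4 * (y * z)
          + (![0, 0, 0, 0, 0, √(m / M)] : Fin 6 → ℝ) 5 * z ^ 2) ^ 2 = m / M * z ^ 4 := by
        simp only [Matrix.cons_val]
        calc _ = √(m / M) ^ 2 * z ^ 4 := by ring
          _ = _ := by rw [hs]
      rw [e]
      change m / M * z ^ 4 ≤ x ^ 2 * bqf f0 f1 f2 y z + 2 * (x * z) * bqf g0 g1 g2 y z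
        + z ^ 2 * bqf h0 h1 h2 y z
      by_cases hyz : y ≠ 0 ∨ z ≠ 0
      · have hfp : 0 < bqf f0 f1 f2 y z := hf y z hyz
        have h5 := hDm y z
        have h6 := hfM y z
        have h7 : bqf f0 f1 f2 y z * (m / M * z ^ 4) ≤ bqf f0 f1 f2 y z *
            (x ^ 2 * bqf f0 f1 f2 y z + 2 * (x * z) * bqf g0 g1 g2 y z
              + z ^ 2 * bqf h0 h1 h2 y z) := by
          have e2 : bqf f0 f1 f2 y z *
            (x ^ 2 * bqf f0 f1 f2 y z + 2 * (x * z) * bqf g0 g1 g2 y z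
              + z ^ 2 * bqf h0 h1 h2 y z) = (x * bqf f0 f1 f2 y z + z * bqf g0 g1 g2 y z) ^ 2
              + z ^ 2 * (bqf f0 f1 f2 y z * bqf h0 h1 h2 y z - bqf g0 g1 g2 y z ^ 2) := by ring
          rw [e2]
          have h8 : bqf f0 f1 f2 y z * (m / M) ≤ m * (y ^ 2 + z ^ 2) := by
            calc bqf f0 f1 f2 y z * (m / M) ≤ M * (y ^ 2 + z ^ 2) * (m / M) := by gcongr
              _ = m * (y ^ 2 + z ^ 2) := by field_simp
          have h9 : bqf f0 f1 f2 y z * (m / M * z ^ 4) ≤ z ^ 2 * (m * (y ^ 2 + z ^ 2) ^ 2) := by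
            calc bqf f0 f1 f2 y z * (m / M * z ^ 4) = bqf f0 f1 f2 y z * (m / M) * z ^ 4 := by ring
              _ ≤ m * (y ^ 2 + z ^ 2) * z ^ 4 := by gcongr
              _ ≤ z ^ 2 * (m * (y ^ 2 + z ^ 2) ^ 2) := by
                have e3 : z ^ 2 * (m * (y ^ 2 + z ^ 2) ^ 2) - m * (y ^ 2 + z ^ 2) * z ^ 4
                  = m * (y ^ 2 + z ^ 2) * z ^ 2 * y ^ 2 := by ring
                have : 0 ≤ m * (y ^ 2 + z ^ 2) * z ^ 2 * y ^ 2 := by positivity
                linarith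
          have h10 : z ^ 2 * (m * (y ^ 2 + z ^ 2) ^ 2) ≤ z ^ 2 *
              (bqf f0 f1 f2 y z * bqf h0 h1 h2 y z - bqf g0 g1 g2 y z ^ 2) :=
            mul_le_mul_of_nonneg_left h5 (sq_nonneg z)
          nlinarith [sq_nonneg (x * bqf f0 f1 f2 y z + z * bqf g0 g1 g2 y z)]
        exact le_of_mul_le_mul_left h7 hfp
      · push Not at hyz
        rw [hyz.1, hyz.2]
        unfold bqf
        simp
  · -- case B
    push Not at hcase
    obtain ⟨y0, z0, hyz0, hD0'⟩ := hcase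
    have hD0 : bqf f0 f1 f2 y0 z0 * bqf h0 h1 h2 y0 z0 - bqf g0 g1 g2 y0 z0 ^ 2 = 0 :=
      le_antisymm hD0' (hD y0 z0)
    have hfp : 0 < bqf f0 f1 f2 y0 z0 := hf y0 z0 hyz0
    have hN : 0 < y0 ^ 2 + z0 ^ 2 := by
      rcases hyz0 with h | h
      · have := sq_pos_of_ne_zero h; nlinarith [sq_nonneg z0]
      · have := sq_pos_of_ne_zero h; nlinarith [sq_nonneg y0]
    set al : ℝ := -(bqf g0 g1 g2 y0 z0 / bqf f0 f1 f2 y0 z0) with hal
    -- coefficients of `g1 = g + al f` and `h1 = h + 2 al g + al² f`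
    obtain ⟨a, ha⟩ : ∃ a, a = g0 + al * f0 := ⟨_, rfl⟩
    obtain ⟨b, hb⟩ : ∃ b, b = g1 + al * f1 := ⟨_, rfl⟩
    obtain ⟨c, hc⟩ : ∃ c, c = g2 + al * f2 := ⟨_, rfl⟩
    obtain ⟨p, hp⟩ : ∃ p, p = h0 + 2 * al * g0 + al ^ 2 * f0 := ⟨_, rfl⟩
    obtain ⟨q, hq⟩ : ∃ q, q = h1 + 2 * al * g1 + al ^ 2 * f1 := ⟨_, rfl⟩
    obtain ⟨r, hr⟩ : ∃ r, r = h2 + 2 * al * g2 + al ^ 2 * f2 := ⟨_, rfl⟩
    have eg : ∀ y z, bqf a b c y z = bqf g0 g1 g2 y z + al * bqf f0 f1 f2 y z := by
      intro y z; rw [ha, hb, hc]; unfold bqf; ring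
    have eh : ∀ y z, bqf p q r y z = bqf h0 h1 h2 y z + 2 * al * bqf g0 g1 g2 y z
        + al ^ 2 * bqf f0 f1 f2 y z := by
      intro y z; rw [hp, hq, hr]; unfold bqf; ring
    have hg10 : bqf a b c y0 z0 = 0 := by
      rw [eg, hal]; field_simp; ring
    have hh10 : bqf p q r y0 z0 = 0 := by
      rw [eh, hal]
      have : bqf h0 h1 h2 y0 z0 = bqf g0 g1 g2 y0 z0 ^ 2 / bqf f0 f1 f2 y0 z0 := by
        rw [eq_div_iff hfp.ne']; linarith
      rw [this]; field_simp; ring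
    have hD1 : ∀ y z, 0 ≤ bqf f0 f1 f2 y z * bqf p q r y z - bqf a b c y z ^ 2 := by
      intro y z
      have := hD y z
      rw [eg, eh]
      nlinarith
    have hh1 : ∀ y z, 0 ≤ bqf p q r y z := by
      intro y z
      by_cases hyz : y ≠ 0 ∨ z ≠ 0
      · have h5 : 0 < bqf f0 f1 f2 y z := hf y z hyz
        have h6 := hD1 y z
        have h7 : 0 ≤ bqf f0 f1 f2 y z * bqf p q r y z := by nlinarith [sq_nonneg (bqf a b c y z)]
        exact (mul_nonneg_iff_of_pos_left h5).1 h7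
      · push Not at hyz
        rw [hyz.1, hyz.2]; unfold bqf; simp
    have hF1 : ∀ x y z : ℝ, x ^ 2 * bqf f0 f1 f2 y z + 2 * (x * z) * bqf g0 g1 g2 y z
        + z ^ 2 * bqf h0 h1 h2 y z = (x - al * z) ^ 2 * bqf f0 f1 f2 y z
        + 2 * ((x - al * z) * z) * bqf a b c y z + z ^ 2 * bqf p q r y z := by
      intro x y z
      rw [eg, eh]; ring
    -- the double zero of `h1`
    have hp0 : 0 ≤ p := by have := hh1 1 0; unfold bqf at this; simpa using this
    have hr0 : 0 ≤ r := by have := hh1 0 1; unfold bqf at this; simpa using this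
    have hq2 : q ^ 2 ≤ 4 * p * r := by
      have h5 := hh1 (-q) (2 * p)
      have h6 := hh1 (2 * r) (-q)
      unfold bqf at h5 h6
      have e1 : p * (-q) ^ 2 + q * (-q * (2 * p)) + r * (2 * p) ^ 2 = p * (4 * p * r - q ^ 2) := by ring
      have e2 : p * (2 * r) ^ 2 + q * (2 * r * -q) + r * (-q) ^ 2 = r * (4 * p * r - q ^ 2) := by ring
      rw [e1] at h5
      rw [e2] at h6
      by_contra hcon
      push Not at hcon
      have hp1 : p = 0 := by
        by_contra hne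
        have : 0 < p := lt_of_le_of_ne hp0 (Ne.symm hne)
        nlinarith
      have hr1 : r = 0 := by
        by_contra hne
        have : 0 < r := lt_of_le_of_ne hr0 (Ne.symm hne)
        nlinarith
      have h7 := hh1 1 (-q)
      unfold bqf at h7
      rw [hp1, hr1] at h7 hcon
      nlinarith
    have hz1 : 2 * p * y0 + q * z0 = 0 := by
      have e : bqf p q r y0 z0 * (4 * p) = (2 * p * y0 + q * z0) ^ 2 + (4 * p * r - q ^ 2) * z0 ^ 2 := by
        unfold bqf; ring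
      rw [hh10, zero_mul] at e
      have h5 : 0 ≤ (4 * p * r - q ^ 2) * z0 ^ 2 := mul_nonneg (by linarith) (sq_nonneg _)
      have h6 : (2 * p * y0 + q * z0) ^ 2 = 0 := by
        have := sq_nonneg (2 * p * y0 + q * z0)
        linarith
      exact pow_eq_zero_iff (two_ne_zero) |>.1 h6
    have hz2 : q * y0 + 2 * r * z0 = 0 := by
      have e : bqf p q r y0 z0 * (4 * r) = (q * y0 + 2 * r * z0) ^ 2 + (4 * p * r - q ^ 2) * y0 ^ 2 := by
        unfold bqf; ring
      rw [hh10, zero_mul] at e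
      have h5 : 0 ≤ (4 * p * r - q ^ 2) * y0 ^ 2 := mul_nonneg (by linarith) (sq_nonneg _)
      have h6 : (q * y0 + 2 * r * z0) ^ 2 = 0 := by
        have := sq_nonneg (q * y0 + 2 * r * z0)
        linarith
      exact pow_eq_zero_iff (two_ne_zero) |>.1 h6
    obtain ⟨N, hNe⟩ : ∃ N, N = y0 ^ 2 + z0 ^ 2 := ⟨_, rfl⟩
    have hN' : 0 < N := by rw [hNe]; exact hN
    obtain ⟨k, hk⟩ : ∃ k, k = (p + r) / N := ⟨_, rfl⟩
    have hkN : k * N = p + r := by rw [hk]; field_simp
    have hpk : p = k * z0 ^ 2 := by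
      have : p * N = k * z0 ^ 2 * N := by
        have e1 : k * z0 ^ 2 * N = (p + r) * z0 ^ 2 := by rw [← hkN]; ring
        rw [e1, hNe]
        linear_combination (y0 / 2) * hz1 - (z0 / 2) * hz2
      exact mul_right_cancel₀ hN'.ne' this
    have hrk : r = k * y0 ^ 2 := by
      have : r * N = k * y0 ^ 2 * N := by
        have e1 : k * y0 ^ 2 * N = (p + r) * y0 ^ 2 := by rw [← hkN]; ring
        rw [e1, hNe]
        linear_combination (z0 / 2) * hz2 - (y0 / 2) * hz1
      exact mul_right_cancel₀ hN'.ne' this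
    have hqk : q = -(2 * k * y0 * z0) := by
      have : q * N = -(2 * k * y0 * z0) * N := by
        have e1 : -(2 * k * y0 * z0) * N = -(2 * y0 * z0) * (p + r) := by rw [← hkN]; ring
        rw [e1, hNe]
        linear_combination z0 * hz1 + y0 * hz2
      exact mul_right_cancel₀ hN'.ne' this
    have hk0 : 0 ≤ k := by rw [hk]; positivity
    have ehk : ∀ y z, bqf p q r y z = k * (z0 * y - y0 * z) ^ 2 := by
      intro y z; rw [hpk, hqk, hrk]; unfold bqf; ring
    -- the linear form `m`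
    obtain ⟨m1, hm1⟩ : ∃ m1, m1 = (z0 * a - y0 * b - z0 * c) / N := ⟨_, rfl⟩
    obtain ⟨m2, hm2⟩ : ∃ m2, m2 = (z0 * b - y0 * c + y0 * a) / N := ⟨_, rfl⟩
    have hm1N : m1 * N = z0 * a - y0 * b - z0 * c := by rw [hm1]; field_simp
    have hm2N : m2 * N = z0 * b - y0 * c + y0 * a := by rw [hm2]; field_simp
    have hg10' : a * y0 ^ 2 + b * (y0 * z0) + c * z0 ^ 2 = 0 := hg10
    have egm : ∀ y z, bqf a b c y z = (z0 * y - y0 * z) * (m1 * y + m2 * z) := by
      intro y z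
      have : bqf a b c y z * N = (z0 * y - y0 * z) * (m1 * y + m2 * z) * N := by
        have e1 : (z0 * y - y0 * z) * (m1 * y + m2 * z) * N =
            (z0 * y - y0 * z) * ((m1 * N) * y + (m2 * N) * z) := by ring
        rw [e1, hm1N, hm2N, hNe]
        unfold bqf
        linear_combination (y ^ 2 + z ^ 2) * hg10'
      exact mul_right_cancel₀ hN'.ne' this
    rcases hk0.eq_or_lt with hk00 | hkpos
    · -- k = 0
      have hg1z : ∀ y z, bqf a b c y z = 0 := by
        intro y z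
        have h5 := hD1 y z
        rw [ehk, ← hk00] at h5
        have h6 : bqf a b c y z ^ 2 = 0 := by
          have := sq_nonneg (bqf a b c y z)
          linarith
        exact pow_eq_zero_iff (two_ne_zero) |>.1 h6
      obtain ⟨de, hde⟩ : ∃ de, de = (4 * f0 * f2 - f1 ^ 2) / (4 * f2) := ⟨_, rfl⟩
      have hdepos : 0 < de := by rw [hde]; positivity
      have hs : √de ^ 2 = de := Real.sq_sqrt hdepos.le
      have hfde : ∀ y z, de * y ^ 2 ≤ bqf f0 f1 f2 y z := by
        intro y z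
        have e : bqf f0 f1 f2 y z - de * y ^ 2 = (2 * f2 * z + f1 * y) ^ 2 / (4 * f2) := by
          rw [hde]; unfold bqf; field_simp; ring
        have : 0 ≤ (2 * f2 * z + f1 * y) ^ 2 / (4 * f2) := by positivity
        linarith
      refine ⟨![0, √de, 0, 0, -(al * √de), 0], ?_, ?_⟩
      · intro h
        have := congrFun h 1
        have h7 : √de = 0 := by simpa using this
        have h8 : 0 < √de := Real.sqrt_pos.2 hdepos
        linarith
      · intro x y z
        have e : ((![0, √de, 0, 0, -(al * √de), 0] : Fin 6 → ℝ) 0 * x ^ 2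
            + (![0, √de, 0, 0, -(al * √de), 0] : Fin 6 → ℝ) 1 * (x * y)
            + (![0, √de, 0, 0, -(al * √de), 0] : Fin 6 → ℝ) 2 * (x * z)
            + (![0, √de, 0, 0, -(al * √de), 0] : Fin 6 → ℝ) 3 * y ^ 2
            + (![0, √de, 0, 0, -(al * √de), 0] : Fin 6 → ℝ) 4 * (y * z)
            + (![0, √de, 0, 0, -(al * √de), 0] : Fin 6 → ℝ) 5 * z ^ 2) ^ 2
            = (x - al * z) ^ 2 * (de * y ^ 2) := by
          simp only [Matrix.cons_val]
          calc _ = (x - al * z) ^ 2 * (√de ^ 2 * y ^ 2) := by ring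
            _ = _ := by rw [hs]
        rw [e]
        change (x - al * z) ^ 2 * (de * y ^ 2) ≤ x ^ 2 * bqf f0 f1 f2 y z
          + 2 * (x * z) * bqf g0 g1 g2 y z + z ^ 2 * bqf h0 h1 h2 y z
        rw [hF1, hg1z, ehk, ← hk00]
        have := mul_le_mul_of_nonneg_left (hfde y z) (sq_nonneg (x - al * z))
        linarith
    · -- k > 0
      have hkm : ∀ y z, (m1 * y + m2 * z) ^ 2 ≤ k * bqf f0 f1 f2 y z := by
        intro y z
        have key : ∀ y z, z0 * y - y0 * z ≠ 0 →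
            0 ≤ k * bqf f0 f1 f2 y z - (m1 * y + m2 * z) ^ 2 := by
          intro y z hL
          have h5 := hD1 y z
          rw [ehk, egm] at h5
          have e : bqf f0 f1 f2 y z * (k * (z0 * y - y0 * z) ^ 2)
              - ((z0 * y - y0 * z) * (m1 * y + m2 * z)) ^ 2
              = (z0 * y - y0 * z) ^ 2 * (k * bqf f0 f1 f2 y z - (m1 * y + m2 * z) ^ 2) := by ring
          rw [e] at h5
          have h6 : 0 < (z0 * y - y0 * z) ^ 2 := by positivity
          exact (mul_nonneg_iff_of_pos_left h6).1 h5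
        by_cases hL : z0 * y - y0 * z = 0
        · have h5 := nonneg_of_punct (φ := fun t => k * bqf f0 f1 f2 (y + t * z0) (z - t * y0)
            - (m1 * (y + t * z0) + m2 * (z - t * y0)) ^ 2) (by unfold bqf; fun_prop) 0 (by
              intro t ht
              apply key
              have e : z0 * (y + t * z0) - y0 * (z - t * y0) = (z0 * y - y0 * z) + t * N := by
                rw [hNe]; ring
              rw [e, hL, zero_add]
              exact mul_ne_zero ht hN'.ne')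
          simp only [zero_mul, add_zero, sub_zero] at h5
          linarith
        · have := key y z hL
          linarith
      obtain ⟨s, hs⟩ : ∃ s, s = √k := ⟨_, rfl⟩
      have hspos : 0 < s := by rw [hs]; exact Real.sqrt_pos.2 hkpos
      have hs2 : s ^ 2 = k := by rw [hs]; exact Real.sq_sqrt hkpos.le
      refine ⟨![0, m1 / s, m2 / s, 0, s * z0 - al * m1 / s, -(s * y0) - al * m2 / s], ?_, ?_⟩
      · intro h
        have h1' := congrFun h 1
        have h2' := congrFun h 2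
        have h4' := congrFun h 4
        have h5' := congrFun h 5
        simp only [Matrix.cons_val, Pi.zero_apply] at h1' h2' h4' h5'
        have hm1' : m1 = 0 := by
          rcases div_eq_zero_iff.1 h1' with h | h
          · exact h
          · exact absurd h hspos.ne'
        have hm2' : m2 = 0 := by
          rcases div_eq_zero_iff.1 h2' with h | h
          · exact h
          · exact absurd h hspos.ne'
        rw [hm1'] at h4'
        rw [hm2'] at h5'
        simp only [mul_zero, zero_div, sub_zero, mul_eq_zero, neg_eq_zero] at h4' h5'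
        have hz00 : z0 = 0 := h4'.resolve_left hspos.ne'
        have hy00 : y0 = 0 := h5'.resolve_left hspos.ne'
        rw [hz00, hy00] at hN
        norm_num at hN
      · intro x y z
        have e : ((![0, m1 / s, m2 / s, 0, s * z0 - al * m1 / s, -(s * y0) - al * m2 / s] : Fin 6 → ℝ) 0 * x ^ 2
            + (![0, m1 / s, m2 / s, 0, s * z0 - al * m1 / s, -(s * y0) - al * m2 / s] : Fin 6 → ℝ) 1 * (x * y)
            + (![0, m1 / s, m2 / s, 0, s * z0 - al * m1 / s, -(s * y0) - al * m2 / s] : Fin 6 → ℝ) 2 * (x * z)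
            + (![0, m1 / s, m2 / s, 0, s * z0 - al * m1 / s, -(s * y0) - al * m2 / s] : Fin 6 → ℝ) 3 * y ^ 2
            + (![0, m1 / s, m2 / s, 0, s * z0 - al * m1 / s, -(s * y0) - al * m2 / s] : Fin 6 → ℝ) 4 * (y * z)
            + (![0, m1 / s, m2 / s, 0, s * z0 - al * m1 / s, -(s * y0) - al * m2 / s] : Fin 6 → ℝ) 5 * z ^ 2) ^ 2
            = (s * z * (z0 * y - y0 * z) + (x - al * z) * (m1 * y + m2 * z) / s) ^ 2 := by
          simp only [Matrix.cons_val]
          congr 1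
          field_simp
          ring
        rw [e]
        change (s * z * (z0 * y - y0 * z) + (x - al * z) * (m1 * y + m2 * z) / s) ^ 2 ≤
          x ^ 2 * bqf f0 f1 f2 y z
          + 2 * (x * z) * bqf g0 g1 g2 y z + z ^ 2 * bqf h0 h1 h2 y z
        rw [hF1, ehk, egm]
        have e2 : (x - al * z) ^ 2 * bqf f0 f1 f2 y z +
            2 * ((x - al * z) * z) * ((z0 * y - y0 * z) * (m1 * y + m2 * z)) +
            z ^ 2 * (k * (z0 * y - y0 * z) ^ 2)
            - (s * z * (z0 * y - y0 * z) + (x - al * z) * (m1 * y + m2 * z) / s) ^ 2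
            = (x - al * z) ^ 2 / k * (k * bqf f0 f1 f2 y z - (m1 * y + m2 * z) ^ 2) := by
          rw [← hs2]
          field_simp
          ring
        have h5 : 0 ≤ (x - al * z) ^ 2 / k * (k * bqf f0 f1 f2 y z - (m1 * y + m2 * z) ^ 2) := by
          apply mul_nonneg (by positivity)
          have := hkm y z
          linarith
        linarith

end HQ151
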