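import Pool.Agent.R151.HQ2
/-!
A3: the case of a zero at `(1,0,0)` (MP_ae0293_ag).
-/
open MvPolynomial
namespace HQ151

namespace A3

theorem quad {a b c : ℝ} (h : ∀ x : ℝ, 0 ≤ x ^ 2 * a + 2 * x * b + c) :
    0 ≤ a ∧ 0 ≤ c ∧ b ^ 2 ≤ a * c := by
  have hc : 0 ≤ c := by have := h 0; simpa using this
  have hd : b ^ 2 ≤ a * c := by
    have := discrim_le_zero (a := a) (b := 2 * b) (c := c) (fun x => by
      have := h x; nlinarith)
    unfold discrim at this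
    nlinarith
  refine ⟨?_, hc, hd⟩
  by_contra ha
  push Not at ha
  have h1 : a * c ≤ 0 := mul_nonpos_of_nonpos_of_nonneg ha.le hc
  have hb : b = 0 := by
    have : b ^ 2 ≤ 0 := hd.trans h1
    nlinarith
  have hc0 : c = 0 := by
    by_contra hne
    have hpos : 0 < c := lt_of_le_of_ne hc (Ne.symm hne)
    have : a * c < 0 := mul_neg_of_neg_of_pos ha hpos
    rw [hb] at hd
    nlinarith
  have := h 1
  rw [hb, hc0] at this
  nlinarith

theorem nonneg_of_dense {P : ℝ → ℝ} (hP : Continuous P) (t0 : ℝ) (h : ∀ t, t ≠ t0 → 0 ≤ P t)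
    (t : ℝ) : 0 ≤ P t := by
  have hcl : IsClosed {t | 0 ≤ P t} := isClosed_le continuous_const hP
  have hd : Dense ({t0}ᶜ : Set ℝ) := dense_compl_singleton t0
  have hsub : ({t0}ᶜ : Set ℝ) ⊆ {t | 0 ≤ P t} := fun t ht => h t ht
  have := hcl.closure_subset_iff.2 hsub
  rw [hd.closure_eq] at this
  exact this (Set.mem_univ t)

theorem lin_zero {A B C' D : ℝ} (h : ∀ t : ℝ, 0 ≤ A * t + B * t ^ 2 + C' * t ^ 3 + D * t ^ 4) :
    A = 0 := by
  have hcont : Continuous (fun t : ℝ => A + B * t + C' * t ^ 2 + D * t ^ 3) := by fun_prop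
  have ht : Filter.Tendsto (fun t : ℝ => A + B * t + C' * t ^ 2 + D * t ^ 3) (nhds 0)
      (nhds A) := by
    have := hcont.tendsto 0
    simpa using this
  apply le_antisymm
  · have h1 := ht.mono_left (nhdsWithin_le_nhds (s := Set.Iio 0))
    refine le_of_tendsto h1 ?_
    filter_upwards [self_mem_nhdsWithin] with t ht'
    have h2 := h t
    have h3 : t < 0 := ht'
    by_contra hc
    push Not at hc
    have := mul_neg_of_neg_of_pos h3 hc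
    nlinarith
  · have h1 := ht.mono_left (nhdsWithin_le_nhds (s := Set.Ioi 0))
    refine ge_of_tendsto h1 ?_
    filter_upwards [self_mem_nhdsWithin] with t ht'
    have h2 := h t
    have h3 : 0 < t := ht'
    by_contra hc
    push Not at hc
    have := mul_neg_of_pos_of_neg h3 hc
    nlinarith

/-- case `f = k (y + β z)²` -/
theorem case2a {k β g0 g1 g2 g3 h0 h1 h2 h3 h4 : ℝ} (hk : 0 < k)
    (hd : ∀ y z : ℝ, (g0 * y ^ 3 + g1 * (y ^ 2 * z) + g2 * (y * z ^ 2) + g3 * z ^ 3) ^ 2 ≤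
      (k * (y + β * z) ^ 2) *
        (h0 * y ^ 4 + h1 * (y ^ 3 * z) + h2 * (y ^ 2 * z ^ 2) + h3 * (y * z ^ 3) + h4 * z ^ 4)) :
    ∃ a : Fin 6 → ℝ, a ≠ 0 ∧ ∀ x y z : ℝ,
    (a 0 * x ^ 2 + a 1 * (x * y) + a 2 * (x * z) + a 3 * y ^ 2 + a 4 * (y * z) + a 5 * z ^ 2) ^ 2
    ≤ x ^ 2 * (k * (y + β * z) ^ 2)
    + 2 * x * (g0 * y ^ 3 + g1 * (y ^ 2 * z) + g2 * (y * z ^ 2) + g3 * z ^ 3)
    + (h0 * y ^ 4 + h1 * (y ^ 3 * z) + h2 * (y ^ 2 * z ^ 2) + h3 * (y * z ^ 3) + h4 * z ^ 4) := by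
  have hg : g3 = β * (g2 - β * (g1 - β * g0)) := by
    have := hd (-β) 1
    have e : (k * (-β + β * 1) ^ 2) = 0 := by ring
    rw [e, zero_mul] at this
    have h2 : (g0 * (-β) ^ 3 + g1 * ((-β) ^ 2 * 1) + g2 * ((-β) * 1 ^ 2) + g3 * 1 ^ 3) = 0 := by
      have h3 : 0 ≤ (g0 * (-β) ^ 3 + g1 * ((-β) ^ 2 * 1) + g2 * ((-β) * 1 ^ 2) + g3 * 1 ^ 3) ^ 2 :=
        sq_nonneg _
      exact pow_eq_zero_iff (two_ne_zero) |>.1 (le_antisymm this h3)
    linarith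
  set u1 := g1 - β * g0 with hu1
  set u2 := g2 - β * u1 with hu2
  have hfac : ∀ y z : ℝ, g0 * y ^ 3 + g1 * (y ^ 2 * z) + g2 * (y * z ^ 2) + g3 * z ^ 3 =
      (y + β * z) * (g0 * y ^ 2 + u1 * (y * z) + u2 * z ^ 2) := by
    intro y z
    rw [hg, hu2, hu1]; ring
  have hkey : ∀ y z : ℝ, 0 ≤ k * (h0 * y ^ 4 + h1 * (y ^ 3 * z) + h2 * (y ^ 2 * z ^ 2)
      + h3 * (y * z ^ 3) + h4 * z ^ 4) - (g0 * y ^ 2 + u1 * (y * z) + u2 * z ^ 2) ^ 2 := by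
    intro y z
    refine nonneg_of_dense (P := fun y => k * (h0 * y ^ 4 + h1 * (y ^ 3 * z) + h2 * (y ^ 2 * z ^ 2)
      + h3 * (y * z ^ 3) + h4 * z ^ 4) - (g0 * y ^ 2 + u1 * (y * z) + u2 * z ^ 2) ^ 2)
      (by fun_prop) (-β * z) ?_ y
    intro t ht
    have hne : t + β * z ≠ 0 := fun hc => ht (by linarith)
    have hpos : 0 < (t + β * z) ^ 2 := by positivity
    have := hd t z
    rw [hfac] at this
    by_contra hc
    push Not at hc
    have h5 := mul_neg_of_pos_of_neg hpos hc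
    nlinarith
  obtain ⟨s, hs, hs2⟩ : ∃ s : ℝ, 0 < s ∧ s ^ 2 = k :=
    ⟨Real.sqrt k, Real.sqrt_pos.2 hk, Real.sq_sqrt hk.le⟩
  refine ⟨![0, s, s * β, g0 / s, u1 / s, u2 / s], ?_, ?_⟩
  · intro hc
    have := congrFun hc 1
    simp at this
    exact hs.ne' this
  · intro x y z
    have e1 : (![0, s, s * β, g0 / s, u1 / s, u2 / s] : Fin 6 → ℝ) 0 * x ^ 2
      + (![0, s, s * β, g0 / s, u1 / s, u2 / s] : Fin 6 → ℝ) 1 * (x * y)
      + (![0, s, s * β, g0 / s, u1 / s, u2 / s] : Fin 6 → ℝ) 2 * (x * z)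
      + (![0, s, s * β, g0 / s, u1 / s, u2 / s] : Fin 6 → ℝ) 3 * y ^ 2
      + (![0, s, s * β, g0 / s, u1 / s, u2 / s] : Fin 6 → ℝ) 4 * (y * z)
      + (![0, s, s * β, g0 / s, u1 / s, u2 / s] : Fin 6 → ℝ) 5 * z ^ 2
      = s * (x * (y + β * z)) + (g0 * y ^ 2 + u1 * (y * z) + u2 * z ^ 2) / s := by
      simp only [Matrix.cons_val]
      ring
    rw [e1, hfac]
    have h6 := hkey y z
    set G := g0 * y ^ 2 + u1 * (y * z) + u2 * z ^ 2 with hG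
    set Hh := h0 * y ^ 4 + h1 * (y ^ 3 * z) + h2 * (y ^ 2 * z ^ 2)
      + h3 * (y * z ^ 3) + h4 * z ^ 4 with hHh
    set Lf := y + β * z with hLf
    have e2 : (s * (x * Lf) + G / s) ^ 2 = x ^ 2 * (k * Lf ^ 2) + 2 * x * (Lf * G) + G ^ 2 / k := by
      rw [← hs2]; field_simp; ring
    rw [e2]
    have h7 : G ^ 2 / k ≤ Hh := by
      rw [div_le_iff₀ hk]; linarith
    linarith

/-- case `f = k z²` -/
theorem case2b {k g0 g1 g2 g3 h0 h1 h2 h3 h4 : ℝ} (hk : 0 < k)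
    (hd : ∀ y z : ℝ, (g0 * y ^ 3 + g1 * (y ^ 2 * z) + g2 * (y * z ^ 2) + g3 * z ^ 3) ^ 2 ≤
      (k * z ^ 2) *
        (h0 * y ^ 4 + h1 * (y ^ 3 * z) + h2 * (y ^ 2 * z ^ 2) + h3 * (y * z ^ 3) + h4 * z ^ 4)) :
    ∃ a : Fin 6 → ℝ, a ≠ 0 ∧ ∀ x y z : ℝ,
    (a 0 * x ^ 2 + a 1 * (x * y) + a 2 * (x * z) + a 3 * y ^ 2 + a 4 * (y * z) + a 5 * z ^ 2) ^ 2
    ≤ x ^ 2 * (k * z ^ 2)
    + 2 * x * (g0 * y ^ 3 + g1 * (y ^ 2 * z) + g2 * (y * z ^ 2) + g3 * z ^ 3)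
    + (h0 * y ^ 4 + h1 * (y ^ 3 * z) + h2 * (y ^ 2 * z ^ 2) + h3 * (y * z ^ 3) + h4 * z ^ 4) := by
  obtain ⟨a, ha, hb⟩ := case2a (k := k) (β := 0) (g0 := g3) (g1 := g2) (g2 := g1) (g3 := g0)
    (h0 := h4) (h1 := h3) (h2 := h2) (h3 := h1) (h4 := h0) hk (by
      intro y z
      have := hd z y
      nlinarith)
  refine ⟨![a 0, a 2, a 1, a 5, a 4, a 3], ?_, ?_⟩
  · intro hc
    apply ha
    have c0 := congrFun hc 0
    have c1 := congrFun hc 1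
    have c2 := congrFun hc 2
    have c3 := congrFun hc 3
    have c4 := congrFun hc 4
    have c5 := congrFun hc 5
    simp at c0 c1 c2 c3 c4 c5
    funext i
    fin_cases i <;> simp [c0, c1, c2, c3, c4, c5]
  · intro x y z
    have := hb x z y
    simp only [Matrix.cons_val]
    nlinarith

theorem ss_zero {y z : ℝ} (h : y ^ 2 + z ^ 2 = 0) : y = 0 ∧ z = 0 := by
  constructor <;> nlinarith [sq_nonneg y, sq_nonneg z]

theorem rot_ne {y0 z0 y z : ℝ} (h01 : y0 ^ 2 + z0 ^ 2 = 1) (hyz : y ≠ 0 ∨ z ≠ 0) :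
    y0 * y - z0 * z ≠ 0 ∨ z0 * y + y0 * z ≠ 0 := by
  by_contra hc
  push Not at hc
  have : y ^ 2 + z ^ 2 = 0 := by
    calc y ^ 2 + z ^ 2 = (y0 ^ 2 + z0 ^ 2) * (y ^ 2 + z ^ 2) := by rw [h01]; ring
      _ = (y0 * y - z0 * z) ^ 2 + (z0 * y + y0 * z) ^ 2 := by ring
      _ = 0 := by rw [hc.1, hc.2]; ring
  rcases hyz with h | h
  · exact h (ss_zero this).1
  · exact h (ss_zero this).2

theorem case3a {f0 f1 f2 g0 g1 g2 g3 h0 h1 h2 h3 h4 : ℝ}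
    (hf : ∀ y z : ℝ, (y ≠ 0 ∨ z ≠ 0) → 0 < f0 * y ^ 2 + f1 * (y * z) + f2 * z ^ 2)
    (hp : ∀ x y z : ℝ, 0 ≤ x ^ 2 * (f0 * y ^ 2 + f1 * (y * z) + f2 * z ^ 2)
      + 2 * x * (g0 * y ^ 3 + g1 * (y ^ 2 * z) + g2 * (y * z ^ 2) + g3 * z ^ 3)
      + (h0 * y ^ 4 + h1 * (y ^ 3 * z) + h2 * (y ^ 2 * z ^ 2) + h3 * (y * z ^ 3) + h4 * z ^ 4))
    (hD : ∀ y z : ℝ, y ^ 2 + z ^ 2 = 1 →
      0 < (f0 * y ^ 2 + f1 * (y * z) + f2 * z ^ 2) *
        (h0 * y ^ 4 + h1 * (y ^ 3 * z) + h2 * (y ^ 2 * z ^ 2) + h3 * (y * z ^ 3) + h4 * z ^ 4)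
        - (g0 * y ^ 3 + g1 * (y ^ 2 * z) + g2 * (y * z ^ 2) + g3 * z ^ 3) ^ 2) :
    ∃ a : Fin 6 → ℝ, a ≠ 0 ∧ ∀ x y z : ℝ,
    (a 0 * x ^ 2 + a 1 * (x * y) + a 2 * (x * z) + a 3 * y ^ 2 + a 4 * (y * z) + a 5 * z ^ 2) ^ 2
    ≤ x ^ 2 * (f0 * y ^ 2 + f1 * (y * z) + f2 * z ^ 2)
    + 2 * x * (g0 * y ^ 3 + g1 * (y ^ 2 * z) + g2 * (y * z ^ 2) + g3 * z ^ 3)
    + (h0 * y ^ 4 + h1 * (y ^ 3 * z) + h2 * (y ^ 2 * z ^ 2) + h3 * (y * z ^ 3) + h4 * z ^ 4) := by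
  -- compactness
  have hcomp : IsCompact {p : ℝ × ℝ | p.1 ^ 2 + p.2 ^ 2 = 1} := by
    apply Metric.isCompact_of_isClosed_isBounded
    · exact isClosed_eq (by fun_prop) continuous_const
    · refine (Metric.isBounded_closedBall (x := ((0, 0) : ℝ × ℝ)) (r := 1)).subset ?_
      rintro ⟨a, b⟩ hab
      have hab' : a ^ 2 + b ^ 2 = 1 := hab
      rw [Metric.mem_closedBall, Prod.dist_eq, max_le_iff, Real.dist_eq, Real.dist_eq]
      simp only [sub_zero]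
      exact ⟨by rw [abs_le]; constructor <;> nlinarith, by rw [abs_le]; constructor <;> nlinarith⟩
  have hne : {p : ℝ × ℝ | p.1 ^ 2 + p.2 ^ 2 = 1}.Nonempty := ⟨(1, 0), by simp⟩
  have hcont : ContinuousOn (fun p : ℝ × ℝ =>
      ((f0 * p.1 ^ 2 + f1 * (p.1 * p.2) + f2 * p.2 ^ 2) *
        (h0 * p.1 ^ 4 + h1 * (p.1 ^ 3 * p.2) + h2 * (p.1 ^ 2 * p.2 ^ 2) + h3 * (p.1 * p.2 ^ 3)
          + h4 * p.2 ^ 4)
        - (g0 * p.1 ^ 3 + g1 * (p.1 ^ 2 * p.2) + g2 * (p.1 * p.2 ^ 2) + g3 * p.2 ^ 3) ^ 2)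
      / (f0 * p.1 ^ 2 + f1 * (p.1 * p.2) + f2 * p.2 ^ 2) ^ 3)
      {p : ℝ × ℝ | p.1 ^ 2 + p.2 ^ 2 = 1} := by
    apply ContinuousOn.div
    · fun_prop
    · fun_prop
    · rintro ⟨a, b⟩ hab
      have hab' : a ^ 2 + b ^ 2 = 1 := hab
      have : a ≠ 0 ∨ b ≠ 0 := by
        by_contra hc
        push Not at hc
        rw [hc.1, hc.2] at hab'
        norm_num at hab'
      exact (pow_pos (hf a b this) 3).ne'
  obtain ⟨⟨y1, z1⟩, h1', hmin⟩ := hcomp.exists_isMinOn hne hcont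
  have h1'' : y1 ^ 2 + z1 ^ 2 = 1 := h1'
  have hyz : y1 ≠ 0 ∨ z1 ≠ 0 := by
    by_contra hc
    push Not at hc
    rw [hc.1, hc.2] at h1''
    norm_num at h1''
  obtain ⟨ε, hε, hεm⟩ : ∃ ε : ℝ, 0 < ε ∧ ∀ y z : ℝ, y ^ 2 + z ^ 2 = 1 →
      ε * (f0 * y ^ 2 + f1 * (y * z) + f2 * z ^ 2) ^ 3 ≤
      (f0 * y ^ 2 + f1 * (y * z) + f2 * z ^ 2) *
        (h0 * y ^ 4 + h1 * (y ^ 3 * z) + h2 * (y ^ 2 * z ^ 2) + h3 * (y * z ^ 3) + h4 * z ^ 4)
        - (g0 * y ^ 3 + g1 * (y ^ 2 * z) + g2 * (y * z ^ 2) + g3 * z ^ 3) ^ 2 := by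
    refine ⟨_, div_pos (hD y1 z1 h1'') (pow_pos (hf y1 z1 hyz) 3), fun y z h => ?_⟩
    have hyz2 : y ≠ 0 ∨ z ≠ 0 := by
      by_contra hc
      push Not at hc
      rw [hc.1, hc.2] at h
      norm_num at h
    have := hmin (show ((y, z) : ℝ × ℝ) ∈ {p : ℝ × ℝ | p.1 ^ 2 + p.2 ^ 2 = 1} from h)
    simp only [Set.mem_ofPred_eq] at this
    exact (le_div_iff₀ (pow_pos (hf y z hyz2) 3)).1 this
  have hall : ∀ y z : ℝ, ε * (f0 * y ^ 2 + f1 * (y * z) + f2 * z ^ 2) ^ 3 ≤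
      (f0 * y ^ 2 + f1 * (y * z) + f2 * z ^ 2) *
        (h0 * y ^ 4 + h1 * (y ^ 3 * z) + h2 * (y ^ 2 * z ^ 2) + h3 * (y * z ^ 3) + h4 * z ^ 4)
        - (g0 * y ^ 3 + g1 * (y ^ 2 * z) + g2 * (y * z ^ 2) + g3 * z ^ 3) ^ 2 := by
    intro y z
    by_cases h0' : y ^ 2 + z ^ 2 = 0
    · have hy : y = 0 := by nlinarith [sq_nonneg y, sq_nonneg z]
      have hz : z = 0 := by nlinarith [sq_nonneg y, sq_nonneg z]
      subst hy; subst hz; simp
    · have hpos : 0 < y ^ 2 + z ^ 2 := lt_of_le_of_ne (by positivity) (Ne.symm h0')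
      obtain ⟨r, hr, hr2⟩ : ∃ r : ℝ, 0 < r ∧ r ^ 2 = y ^ 2 + z ^ 2 :=
        ⟨Real.sqrt (y ^ 2 + z ^ 2), Real.sqrt_pos.2 hpos, Real.sq_sqrt hpos.le⟩
      have hu : (y / r) ^ 2 + (z / r) ^ 2 = 1 := by
        rw [div_pow, div_pow, ← add_div, hr2, div_self h0']
      have := hεm (y / r) (z / r) hu
      obtain ⟨u, hu'⟩ : ∃ u, u = y / r := ⟨_, rfl⟩
      obtain ⟨v, hv'⟩ : ∃ v, v = z / r := ⟨_, rfl⟩
      rw [← hu', ← hv'] at this
      have ey : y = r * u := by rw [hu']; field_simp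
      have ez : z = r * v := by rw [hv']; field_simp
      rw [ey, ez]
      have h6 : 0 < r ^ 6 := by positivity
      have h7 := mul_le_mul_of_nonneg_left this h6.le
      calc _ = r ^ 6 * (ε * (f0 * u ^ 2 + f1 * (u * v) + f2 * v ^ 2) ^ 3) := by ring
        _ ≤ _ := h7
        _ = _ := by ring
  obtain ⟨s, hs, hs2⟩ : ∃ s : ℝ, 0 < s ∧ s ^ 2 = ε :=
    ⟨Real.sqrt ε, Real.sqrt_pos.2 hε, Real.sq_sqrt hε.le⟩
  refine ⟨![0, 0, 0, s * f0, s * f1, s * f2], ?_, ?_⟩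
  · intro hc
    have h3 := congrFun hc 3
    simp at h3
    have := hf 1 0 (Or.inl one_ne_zero)
    rcases h3 with h3 | h3
    · exact hs.ne' h3
    · rw [h3] at this; norm_num at this
  · intro x y z
    simp only [Matrix.cons_val]
    by_cases hyz3 : y ≠ 0 ∨ z ≠ 0
    · have hfp := hf y z hyz3
      have h8 := hall y z
      set f := f0 * y ^ 2 + f1 * (y * z) + f2 * z ^ 2 with hfd
      set g := g0 * y ^ 3 + g1 * (y ^ 2 * z) + g2 * (y * z ^ 2) + g3 * z ^ 3 with hgd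
      set h := h0 * y ^ 4 + h1 * (y ^ 3 * z) + h2 * (y ^ 2 * z ^ 2) + h3 * (y * z ^ 3)
        + h4 * z ^ 4 with hhd
      have e : (0 * x ^ 2 + 0 * (x * y) + 0 * (x * z) + s * f0 * y ^ 2 + s * f1 * (y * z)
          + s * f2 * z ^ 2) ^ 2 = ε * f ^ 2 := by
        rw [← hs2, hfd]; ring
      rw [e]
      have h9 : f * (ε * f ^ 2) ≤ f * (x ^ 2 * f + 2 * x * g + h) := by
        nlinarith [sq_nonneg (x * f + g)]
      exact le_of_mul_le_mul_left h9 hfp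
    · push Not at hyz3
      rw [hyz3.1, hyz3.2]
      simp

/-- the coefficients of a quadratic form are determined by its values -/
theorem form_zero {a : Fin 6 → ℝ} (e : ∀ x y z : ℝ, a 0 * x ^ 2 + a 1 * (x * y) + a 2 * (x * z)
      + a 3 * y ^ 2 + a 4 * (y * z) + a 5 * z ^ 2 = 0) : a = 0 := by
  have h0 := e 1 0 0
  have h3 := e 0 1 0
  have h5 := e 0 0 1
  have h1 := e 1 1 0
  have h2 := e 1 0 1
  have h4 := e 0 1 1
  norm_num at h0 h3 h5 h1 h2 h4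
  funext i
  fin_cases i <;> simp <;> linarith

theorem mon_hom {n : ℕ} (i j k : ℕ) (r : ℝ) (h : i + j + k = n) :
    (C r * (X 0 ^ i * X 1 ^ j * X 2 ^ k) : P3).IsHomogeneous n := by
  have hX : ∀ (i : Fin 3) (m : ℕ), (X i ^ m : P3).IsHomogeneous m := fun i m => by
    simpa using (isHomogeneous_X ℝ i).pow m
  rw [← h]
  exact (((hX 0 i).mul (hX 1 j)).mul (hX 2 k)).C_mul _

theorem qp_hom (a : Fin 15 → ℝ) : (qp a).IsHomogeneous 4 := by
  have t0 : (C (a 0) * X 0 ^ 4 : P3).IsHomogeneous 4 := by simpa using mon_hom 4 0 0 (a 0) rfl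
  have t1 : (C (a 1) * (X 0 ^ 3 * X 1) : P3).IsHomogeneous 4 := by
    simpa using mon_hom 3 1 0 (a 1) rfl
  have t2 : (C (a 2) * (X 0 ^ 3 * X 2) : P3).IsHomogeneous 4 := by
    simpa using mon_hom 3 0 1 (a 2) rfl
  have t3 : (C (a 3) * (X 0 ^ 2 * X 1 ^ 2) : P3).IsHomogeneous 4 := by
    simpa using mon_hom 2 2 0 (a 3) rfl
  have t4 : (C (a 4) * (X 0 ^ 2 * X 1 * X 2) : P3).IsHomogeneous 4 := by
    simpa using mon_hom 2 1 1 (a 4) rfl
  have t5 : (C (a 5) * (X 0 ^ 2 * X 2 ^ 2) : P3).IsHomogeneous 4 := by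
    simpa using mon_hom 2 0 2 (a 5) rfl
  have t6 : (C (a 6) * (X 0 * X 1 ^ 3) : P3).IsHomogeneous 4 := by
    simpa using mon_hom 1 3 0 (a 6) rfl
  have t7 : (C (a 7) * (X 0 * X 1 ^ 2 * X 2) : P3).IsHomogeneous 4 := by
    simpa using mon_hom 1 2 1 (a 7) rfl
  have t8 : (C (a 8) * (X 0 * X 1 * X 2 ^ 2) : P3).IsHomogeneous 4 := by
    simpa using mon_hom 1 1 2 (a 8) rfl
  have t9 : (C (a 9) * (X 0 * X 2 ^ 3) : P3).IsHomogeneous 4 := by
    simpa using mon_hom 1 0 3 (a 9) rfl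
  have t10 : (C (a 10) * X 1 ^ 4 : P3).IsHomogeneous 4 := by
    simpa using mon_hom 0 4 0 (a 10) rfl
  have t11 : (C (a 11) * (X 1 ^ 3 * X 2) : P3).IsHomogeneous 4 := by
    simpa using mon_hom 0 3 1 (a 11) rfl
  have t12 : (C (a 12) * (X 1 ^ 2 * X 2 ^ 2) : P3).IsHomogeneous 4 := by
    simpa using mon_hom 0 2 2 (a 12) rfl
  have t13 : (C (a 13) * (X 1 * X 2 ^ 3) : P3).IsHomogeneous 4 := by
    simpa using mon_hom 0 1 3 (a 13) rfl
  have t14 : (C (a 14) * X 2 ^ 4 : P3).IsHomogeneous 4 := by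
    simpa using mon_hom 0 0 4 (a 14) rfl
  unfold qp
  exact (((((((((((((t0.add t1).add t2).add t3).add t4).add t5).add t6).add t7).add t8).add
    t9).add t10).add t11).add t12).add t13).add t14

theorem case3b (hK : KeyTwoStmt) {f0 f1 f2 g0 g1 g2 g3 h0 h1 h2 h3 h4 : ℝ}
    (hf : ∀ y z : ℝ, (y ≠ 0 ∨ z ≠ 0) → 0 < f0 * y ^ 2 + f1 * (y * z) + f2 * z ^ 2)
    (hp : ∀ x y z : ℝ, 0 ≤ x ^ 2 * (f0 * y ^ 2 + f1 * (y * z) + f2 * z ^ 2)
      + 2 * x * (g0 * y ^ 3 + g1 * (y ^ 2 * z) + g2 * (y * z ^ 2) + g3 * z ^ 3)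
      + (h0 * y ^ 4 + h1 * (y ^ 3 * z) + h2 * (y ^ 2 * z ^ 2) + h3 * (y * z ^ 3) + h4 * z ^ 4))
    {y0 z0 : ℝ} (h01 : y0 ^ 2 + z0 ^ 2 = 1)
    (hD : (f0 * y0 ^ 2 + f1 * (y0 * z0) + f2 * z0 ^ 2) *
        (h0 * y0 ^ 4 + h1 * (y0 ^ 3 * z0) + h2 * (y0 ^ 2 * z0 ^ 2) + h3 * (y0 * z0 ^ 3)
          + h4 * z0 ^ 4)
        - (g0 * y0 ^ 3 + g1 * (y0 ^ 2 * z0) + g2 * (y0 * z0 ^ 2) + g3 * z0 ^ 3) ^ 2 ≤ 0) :
    ∃ a : Fin 6 → ℝ, a ≠ 0 ∧ ∀ x y z : ℝ,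
    (a 0 * x ^ 2 + a 1 * (x * y) + a 2 * (x * z) + a 3 * y ^ 2 + a 4 * (y * z) + a 5 * z ^ 2) ^ 2
    ≤ x ^ 2 * (f0 * y ^ 2 + f1 * (y * z) + f2 * z ^ 2)
    + 2 * x * (g0 * y ^ 3 + g1 * (y ^ 2 * z) + g2 * (y * z ^ 2) + g3 * z ^ 3)
    + (h0 * y ^ 4 + h1 * (y ^ 3 * z) + h2 * (y ^ 2 * z ^ 2) + h3 * (y * z ^ 3) + h4 * z ^ 4) := by
  have hyz0 : y0 ≠ 0 ∨ z0 ≠ 0 := by
    by_contra hc
    push Not at hc
    rw [hc.1, hc.2] at h01
    norm_num at h01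
  have hfp := hf y0 z0 hyz0
  -- the point `x0`
  obtain ⟨x0, hx0⟩ : ∃ x0 : ℝ, x0 ^ 2 * (f0 * y0 ^ 2 + f1 * (y0 * z0) + f2 * z0 ^ 2)
      + 2 * x0 * (g0 * y0 ^ 3 + g1 * (y0 ^ 2 * z0) + g2 * (y0 * z0 ^ 2) + g3 * z0 ^ 3)
      + (h0 * y0 ^ 4 + h1 * (y0 ^ 3 * z0) + h2 * (y0 ^ 2 * z0 ^ 2) + h3 * (y0 * z0 ^ 3)
        + h4 * z0 ^ 4) = 0 := by
    set f := f0 * y0 ^ 2 + f1 * (y0 * z0) + f2 * z0 ^ 2 with hfd
    set g := g0 * y0 ^ 3 + g1 * (y0 ^ 2 * z0) + g2 * (y0 * z0 ^ 2) + g3 * z0 ^ 3 with hgd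
    set h := h0 * y0 ^ 4 + h1 * (y0 ^ 3 * z0) + h2 * (y0 ^ 2 * z0 ^ 2) + h3 * (y0 * z0 ^ 3)
        + h4 * z0 ^ 4 with hhd
    refine ⟨-g / f, ?_⟩
    have h5 := hp (-g / f) y0 z0
    rw [← hfd, ← hgd, ← hhd] at h5
    apply le_antisymm _ h5
    have e : (-g / f) ^ 2 * f + 2 * (-g / f) * g + h = (f * h - g ^ 2) / f := by
      field_simp; ring
    rw [e]
    exact div_nonpos_of_nonpos_of_nonneg hD hfp.le
  set a : Fin 15 → ℝ := ![0, 0, 0, f0, f1, f2, 2 * g0, 2 * g1, 2 * g2, 2 * g3, h0, h1, h2, h3, h4]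
    with ha
  have hqa : ∀ x y z : ℝ, qv a x y z = x ^ 2 * (f0 * y ^ 2 + f1 * (y * z) + f2 * z ^ 2)
    + 2 * x * (g0 * y ^ 3 + g1 * (y ^ 2 * z) + g2 * (y * z ^ 2) + g3 * z ^ 3)
    + (h0 * y ^ 4 + h1 * (y ^ 3 * z) + h2 * (y ^ 2 * z ^ 2) + h3 * (y * z ^ 3)
      + h4 * z ^ 4) := by
    intro x y z
    rw [qv, ha]
    simp only [Matrix.cons_val]
    ring
  -- the substituted form
  have hhom : (qp a).IsHomogeneous 4 := qp_hom a
  set M : Matrix (Fin 3) (Fin 3) ℝ := !![1, x0, 0; 0, y0, -z0; 0, z0, y0] with hM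
  obtain ⟨b, hb⟩ := hom4_rep (lsub_hom M hhom)
  have hval : ∀ x y z : ℝ, qv b x y z = qv a (x + x0 * y) (y0 * y - z0 * z) (z0 * y + y0 * z) := by
    intro x y z
    have e := eval_lsub M (qp a) ![x, y, z]
    rw [hb, eval_qp, eval_qp] at e
    have m0 : M.mulVec ![x, y, z] 0 = x + x0 * y := by
      simp [hM, Matrix.mulVec, dotProduct, Fin.sum_univ_three]
    have m1 : M.mulVec ![x, y, z] 1 = y0 * y - z0 * z := by
      simp [hM, Matrix.mulVec, dotProduct, Fin.sum_univ_three]; ring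
    have m2 : M.mulVec ![x, y, z] 2 = z0 * y + y0 * z := by
      simp [hM, Matrix.mulVec, dotProduct, Fin.sum_univ_three]
    rw [m0, m1, m2] at e
    simpa using e
  have hnn : ∀ x y z : ℝ, 0 ≤ qv b x y z := by
    intro x y z
    rw [hval, hqa]
    exact hp _ _ _
  have b0 : b 0 = 0 := by
    have := hval 1 0 0
    rw [hqa] at this
    simp [qv] at this
    exact this
  have b10 : b 10 = 0 := by
    have := hval 0 1 0
    rw [hqa] at this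
    simp only [qv] at this
    have e : (0 : ℝ) + x0 * 1 = x0 := by ring
    have e2 : y0 * 1 - z0 * 0 = y0 := by ring
    have e3 : z0 * 1 + y0 * 0 = z0 := by ring
    rw [e, e2, e3, hx0] at this
    simpa using this
  have b1 : b 1 = 0 := by
    refine lin_zero (A := b 1) (B := b 3) (C' := b 6) (D := b 10) (fun t => ?_)
    have := hnn 1 t 0
    simp only [qv, b0] at this
    refine this.trans (le_of_eq ?_); ring
  have b2 : b 2 = 0 := by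
    refine lin_zero (A := b 2) (B := b 5) (C' := b 9) (D := b 14) (fun t => ?_)
    have := hnn 1 0 t
    simp only [qv, b0] at this
    refine this.trans (le_of_eq ?_); ring
  have b6 : b 6 = 0 := by
    refine lin_zero (A := b 6) (B := b 3) (C' := b 1) (D := b 0) (fun t => ?_)
    have := hnn t 1 0
    simp only [qv, b10] at this
    refine this.trans (le_of_eq ?_); ring
  have b11 : b 11 = 0 := by
    refine lin_zero (A := b 11) (B := b 12) (C' := b 13) (D := b 14) (fun t => ?_)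
    have := hnn 0 1 t
    simp only [qv, b10] at this
    refine this.trans (le_of_eq ?_); ring
  have hqb : ∀ x y z : ℝ, qv b x y z = x ^ 2 * (b 3 * y ^ 2 + b 4 * (y * z) + b 5 * z ^ 2)
    + 2 * (x * z) * (b 7 / 2 * y ^ 2 + b 8 / 2 * (y * z) + b 9 / 2 * z ^ 2)
    + z ^ 2 * (b 12 * y ^ 2 + b 13 * (y * z) + b 14 * z ^ 2) := by
    intro x y z
    rw [qv, b0, b1, b2, b6, b10, b11]
    ring
  have hpd : ∀ y z : ℝ, (y ≠ 0 ∨ z ≠ 0) → 0 < b 3 * y ^ 2 + b 4 * (y * z) + b 5 * z ^ 2 := by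
    intro y z hyz
    have E0 := hval 0 y z
    have E1 := hval 1 y z
    have E2 := hval (-1) y z
    rw [hqa, hqb] at E0 E1 E2
    have h9 := hf (y0 * y - z0 * z) (z0 * y + y0 * z) (rot_ne h01 hyz)
    have e : b 3 * y ^ 2 + b 4 * (y * z) + b 5 * z ^ 2 =
        f0 * (y0 * y - z0 * z) ^ 2 + f1 * ((y0 * y - z0 * z) * (z0 * y + y0 * z))
        + f2 * (z0 * y + y0 * z) ^ 2 := by
      linear_combination (1/2) * E1 + (1/2) * E2 - E0
    rw [e]; exact h9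
  obtain ⟨c, hc0, hc⟩ := hK (b 3) (b 4) (b 5) (b 7 / 2) (b 8 / 2) (b 9 / 2) (b 12) (b 13) (b 14)
    hpd (fun x y z => by rw [← hqb]; exact hnn x y z)
  -- transform back
  set N : Matrix (Fin 3) (Fin 3) ℝ := !![1, -x0 * y0, -x0 * z0; 0, y0, z0; 0, -z0, y0] with hN
  obtain ⟨d, hd⟩ := hom2_p2 (lsub_hom N (p2_hom c))
  have hdv : ∀ x y z : ℝ, d 0 * x ^ 2 + d 1 * (x * y) + d 2 * (x * z)
      + d 3 * y ^ 2 + d 4 * (y * z) + d 5 * z ^ 2 =
      c 0 * (x - x0 * (y0 * y + z0 * z)) ^ 2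
      + c 1 * ((x - x0 * (y0 * y + z0 * z)) * (y0 * y + z0 * z))
      + c 2 * ((x - x0 * (y0 * y + z0 * z)) * (y0 * z - z0 * y))
      + c 3 * (y0 * y + z0 * z) ^ 2 + c 4 * ((y0 * y + z0 * z) * (y0 * z - z0 * y))
      + c 5 * (y0 * z - z0 * y) ^ 2 := by
    intro x y z
    have e := eval_lsub N (p2 c) ![x, y, z]
    rw [hd, eval_p2, eval_p2] at e
    have m0 : N.mulVec ![x, y, z] 0 = x - x0 * (y0 * y + z0 * z) := by
      simp [hN, Matrix.mulVec, dotProduct, Fin.sum_univ_three]; ring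
    have m1 : N.mulVec ![x, y, z] 1 = y0 * y + z0 * z := by
      simp [hN, Matrix.mulVec, dotProduct, Fin.sum_univ_three]
    have m2 : N.mulVec ![x, y, z] 2 = y0 * z - z0 * y := by
      simp [hN, Matrix.mulVec, dotProduct, Fin.sum_univ_three]; ring
    rw [m0, m1, m2] at e
    simpa using e
  refine ⟨d, ?_, ?_⟩
  · rintro rfl
    apply hc0
    apply form_zero
    intro x y z
    have := hdv (x + x0 * y) (y0 * y - z0 * z) (z0 * y + y0 * z)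
    have r1 : y0 * (y0 * y - z0 * z) + z0 * (z0 * y + y0 * z) = y := by
      linear_combination y * h01
    have r2 : y0 * (z0 * y + y0 * z) - z0 * (y0 * y - z0 * z) = z := by
      linear_combination z * h01
    rw [r1, r2] at this
    have r3 : x + x0 * y - x0 * y = x := by ring
    rw [r3] at this
    simpa using this.symm
  · intro x y z
    rw [hdv]
    refine (hc _ _ _).trans (le_of_eq ?_)
    rw [← hqb, hval, hqa]
    have r1 : y0 * (y0 * y + z0 * z) - z0 * (y0 * z - z0 * y) = y := by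
      linear_combination y * h01
    have r2 : z0 * (y0 * y + z0 * z) + y0 * (y0 * z - z0 * y) = z := by
      linear_combination z * h01
    have r3 : x - x0 * (y0 * y + z0 * z) + x0 * (y0 * y + z0 * z) = x := by ring
    rw [r1, r2, r3]

end A3

open A3 in
theorem oneZero_of (hB : BinStmt) (hK : KeyTwoStmt) : OneZeroStmt := by
  intro f0 f1 f2 g0 g1 g2 g3 h0 h1 h2 h3 h4 hp hne
  have hq : ∀ y z : ℝ, 0 ≤ f0 * y ^ 2 + f1 * (y * z) + f2 * z ^ 2 ∧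
      0 ≤ h0 * y ^ 4 + h1 * (y ^ 3 * z) + h2 * (y ^ 2 * z ^ 2) + h3 * (y * z ^ 3) + h4 * z ^ 4 ∧
      (g0 * y ^ 3 + g1 * (y ^ 2 * z) + g2 * (y * z ^ 2) + g3 * z ^ 3) ^ 2 ≤
      (f0 * y ^ 2 + f1 * (y * z) + f2 * z ^ 2) *
      (h0 * y ^ 4 + h1 * (y ^ 3 * z) + h2 * (y ^ 2 * z ^ 2) + h3 * (y * z ^ 3) + h4 * z ^ 4) :=
    fun y z => quad (fun x => hp x y z)
  have hf0 : 0 ≤ f0 := by have := (hq 1 0).1; nlinarith
  have hf2 : 0 ≤ f2 := by have := (hq 0 1).1; nlinarith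
  rcases hf0.eq_or_lt with hf0' | hf0'
  · -- `f0 = 0`
    have hf0'' : f0 = 0 := hf0'.symm
    have hf1 : f1 = 0 := by
      refine lin_zero (A := f1) (B := f2) (C' := 0) (D := 0) (fun t => ?_)
      have := (hq 1 t).1
      rw [hf0''] at this
      nlinarith
    subst hf0''; subst hf1
    rcases hf2.eq_or_lt with hf2' | hf2'
    · -- `f = 0`
      have hf2'' : f2 = 0 := hf2'.symm
      subst hf2''
      have hg : ∀ y z : ℝ, g0 * y ^ 3 + g1 * (y ^ 2 * z) + g2 * (y * z ^ 2) + g3 * z ^ 3 = 0 := by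
        intro y z
        have h5 := (hq y z).2.2
        have h6 : (g0 * y ^ 3 + g1 * (y ^ 2 * z) + g2 * (y * z ^ 2) + g3 * z ^ 3) ^ 2 ≤ 0 := by
          refine h5.trans (le_of_eq ?_); ring
        exact pow_eq_zero_iff two_ne_zero |>.1 (le_antisymm h6 (sq_nonneg _))
      obtain ⟨x, y, z, hxyz⟩ := hne
      obtain ⟨a, b, c, habc, hle⟩ := hB h0 h1 h2 h3 h4 (fun y z => (hq y z).2.1)
        ⟨y, z, by
          intro hc
          apply hxyz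
          rw [hg, hc]; ring⟩
      refine ⟨![0, 0, 0, a, b, c], ?_, ?_⟩
      · intro hc
        have c3 := congrFun hc 3
        have c4 := congrFun hc 4
        have c5 := congrFun hc 5
        simp at c3 c4 c5
        rcases habc with h | h | h
        · exact h c3
        · exact h c4
        · exact h c5
      · intro x y z
        rw [hg]
        have := hle y z
        simp only [Matrix.cons_val]
        nlinarith
    · -- `f = f2 z²`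
      obtain ⟨a, ha, hb⟩ := case2b (k := f2) (g0 := g0) (g1 := g1) (g2 := g2) (g3 := g3)
        (h0 := h0) (h1 := h1) (h2 := h2) (h3 := h3) (h4 := h4) hf2' (by
          intro y z
          have := (hq y z).2.2
          simpa using this)
      refine ⟨a, ha, fun x y z => ?_⟩
      have := hb x y z
      simpa using this
  · have hΔ : 0 ≤ 4 * f0 * f2 - f1 ^ 2 := by
      have := (hq (-f1) (2 * f0)).1
      have e : f0 * (-f1) ^ 2 + f1 * (-f1 * (2 * f0)) + f2 * (2 * f0) ^ 2 =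
        f0 * (4 * f0 * f2 - f1 ^ 2) := by ring
      rw [e] at this
      exact nonneg_of_mul_nonneg_right this hf0'
    rcases hΔ.eq_or_lt with hΔ' | hΔ'
    · -- `f = f0 (y + β z)²`
      have he : ∀ y z : ℝ, f0 * y ^ 2 + f1 * (y * z) + f2 * z ^ 2 =
          f0 * (y + (f1 / (2 * f0)) * z) ^ 2 := by
        intro y z
        have : f2 = f1 ^ 2 / (4 * f0) := by
          field_simp; linarith
        rw [this]; field_simp; ring
      obtain ⟨a, ha, hb⟩ := case2a (k := f0) (β := f1 / (2 * f0)) (g0 := g0) (g1 := g1) (g2 := g2)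
        (g3 := g3) (h0 := h0) (h1 := h1) (h2 := h2) (h3 := h3) (h4 := h4) hf0' (by
          intro y z
          rw [← he]
          exact (hq y z).2.2)
      refine ⟨a, ha, fun x y z => ?_⟩
      rw [he]
      exact hb x y z
    · -- `f` positive definite
      have hf : ∀ y z : ℝ, (y ≠ 0 ∨ z ≠ 0) → 0 < f0 * y ^ 2 + f1 * (y * z) + f2 * z ^ 2 := by
        intro y z hyz
        have e : 4 * f0 * (f0 * y ^ 2 + f1 * (y * z) + f2 * z ^ 2) =
          (2 * f0 * y + f1 * z) ^ 2 + (4 * f0 * f2 - f1 ^ 2) * z ^ 2 := by ring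
        have h5 : 0 < (2 * f0 * y + f1 * z) ^ 2 + (4 * f0 * f2 - f1 ^ 2) * z ^ 2 := by
          by_cases hz : z = 0
          · subst hz
            have hy : y ≠ 0 := by
              rcases hyz with h | h
              · exact h
              · exact absurd rfl h
            have : 2 * f0 * y + f1 * 0 ≠ 0 := by
              have : 2 * f0 * y ≠ 0 := mul_ne_zero (mul_ne_zero two_ne_zero hf0'.ne') hy
              simpa using this
            positivity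
          · positivity
        rw [← e] at h5
        exact (pos_iff_pos_of_mul_pos h5).1 (by positivity)
      by_cases hD : ∀ y z : ℝ, y ^ 2 + z ^ 2 = 1 →
        0 < (f0 * y ^ 2 + f1 * (y * z) + f2 * z ^ 2) *
          (h0 * y ^ 4 + h1 * (y ^ 3 * z) + h2 * (y ^ 2 * z ^ 2) + h3 * (y * z ^ 3) + h4 * z ^ 4)
          - (g0 * y ^ 3 + g1 * (y ^ 2 * z) + g2 * (y * z ^ 2) + g3 * z ^ 3) ^ 2
      · exact case3a hf hp hD
      · push Not at hD
        obtain ⟨y0, z0, h01, hD0⟩ := hD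
        exact case3b hK hf hp h01 hD0

end HQ151
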