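import Pool.Agent.R151.HQ2
import Pool.Agent.R151.HQ_A0
/-!
HQ-A4: every nonzero nonnegative ternary quartic form dominates a nonzero square, from the case of
a zero at `(1,0,0)`.
-/
open MvPolynomial
namespace HQ151

namespace A4x

theorem nsq_pos {x : Fin 3 → ℝ} (hx : x ≠ 0) : 0 < nsq x := by
  by_contra hcon
  apply hx
  have h0 : nsq x = 0 := le_antisymm (not_lt.1 hcon) (nsq_nonneg x)
  unfold nsq at h0
  have a0 : x 0 = 0 := by nlinarith [sq_nonneg (x 0), sq_nonneg (x 1), sq_nonneg (x 2)]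
  have a1 : x 1 = 0 := by nlinarith [sq_nonneg (x 0), sq_nonneg (x 1), sq_nonneg (x 2)]
  have a2 : x 2 = 0 := by nlinarith [sq_nonneg (x 0), sq_nonneg (x 1), sq_nonneg (x 2)]
  funext i
  fin_cases i
  · exact a0
  · exact a1
  · exact a2

theorem cont_eval (F : P3) : Continuous fun x : Fin 3 → ℝ => eval x F :=
  MvPolynomial.continuous_eval F

/-- positive quartic forms -/
theorem sph {F : P3} (hF : F.IsHomogeneous 4) (hp : ∀ x : Fin 3 → ℝ, x ≠ 0 → 0 < eval x F) :
    ∃ ε : ℝ, 0 < ε ∧ ∀ x : Fin 3 → ℝ, ε * nsq x ^ 2 ≤ eval x F := by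
  set S : Set (Fin 3 → ℝ) := {x | nsq x = 1} with hS
  have hnc : Continuous nsq := by
    unfold nsq
    fun_prop
  have hcl : IsClosed S := isClosed_eq hnc continuous_const
  have hb : Bornology.IsBounded S := by
    refine (Metric.isBounded_closedBall (x := (0 : Fin 3 → ℝ)) (r := 1)).subset fun p hp => ?_
    have hp' : p 0 ^ 2 + p 1 ^ 2 + p 2 ^ 2 = 1 := hp
    rw [mem_closedBall_zero_iff, pi_norm_le_iff_of_nonneg zero_le_one]
    intro i
    rw [Real.norm_eq_abs, abs_le_one_iff_mul_self_le_one]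
    fin_cases i <;> simp <;> nlinarith [sq_nonneg (p 0), sq_nonneg (p 1), sq_nonneg (p 2)]
  have hc : IsCompact S := Metric.isCompact_of_isClosed_isBounded hcl hb
  have hne : S.Nonempty := ⟨![1, 0, 0], by simp [hS, nsq]⟩
  obtain ⟨p, hpS, hmin⟩ := hc.exists_isMinOn hne (cont_eval F).continuousOn
  have hp1 : nsq p = 1 := hpS
  have hp0 : p ≠ 0 := by
    rintro rfl
    unfold nsq at hp1
    norm_num at hp1
  refine ⟨_, hp p hp0, fun x => ?_⟩
  by_cases hx : x = 0
  · subst hx
    have h1 := eval_smul_hom hF 0 (0 : Fin 3 → ℝ)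
    rw [zero_smul] at h1
    rw [h1]
    simp [nsq]
  · have hr := nsq_pos hx
    set r := Real.sqrt (nsq x) with hrd
    have hr0 : 0 < r := Real.sqrt_pos.2 hr
    have hr2 : r ^ 2 = nsq x := Real.sq_sqrt hr.le
    have hin : r⁻¹ • x ∈ S := by
      show nsq (r⁻¹ • x) = 1
      have : nsq (r⁻¹ • x) = r⁻¹ ^ 2 * nsq x := by
        simp only [nsq, Pi.smul_apply, smul_eq_mul]
        ring
      rw [this, ← hr2, ← mul_pow, inv_mul_cancel₀ hr0.ne', one_pow]
    have h5 : eval p F ≤ eval (r⁻¹ • x) F := hmin hin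
    have h6 : eval x F = r ^ 4 * eval (r⁻¹ • x) F := by
      rw [← eval_smul_hom hF, smul_smul, mul_inv_cancel₀ hr0.ne', one_smul]
    rw [h6, ← hr2]
    have h7 := mul_le_mul_of_nonneg_left h5 (by positivity : 0 ≤ r ^ 4)
    calc _ = r ^ 4 * eval p F := by ring
      _ ≤ _ := h7

/-- an invertible matrix with given nonzero first column -/
theorem exists_mat {v : Fin 3 → ℝ} (hv : v ≠ 0) : ∃ M : Matrix (Fin 3) (Fin 3) ℝ,
    IsUnit M.det ∧ M.mulVec ![1, 0, 0] = v := by
  have h1 : v 0 ≠ 0 ∨ v 1 ≠ 0 ∨ v 2 ≠ 0 := by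
    by_contra hcon
    push Not at hcon
    apply hv
    funext i
    fin_cases i
    · exact hcon.1
    · exact hcon.2.1
    · exact hcon.2.2
  rcases h1 with h | h | h
  · refine ⟨!![v 0, 0, 0; v 1, 1, 0; v 2, 0, 1], ?_, ?_⟩
    · rw [Matrix.det_fin_three]
      simpa using h
    · funext i
      fin_cases i <;> simp [Matrix.mulVec, dotProduct, Fin.sum_univ_three]
  · refine ⟨!![v 0, 1, 0; v 1, 0, 0; v 2, 0, 1], ?_, ?_⟩
    · rw [Matrix.det_fin_three]
      simpa using h
    · funext i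
      fin_cases i <;> simp [Matrix.mulVec, dotProduct, Fin.sum_univ_three]
  · refine ⟨!![v 0, 1, 0; v 1, 0, 1; v 2, 0, 0], ?_, ?_⟩
    · rw [Matrix.det_fin_three]
      simpa using h
    · funext i
      fin_cases i <;> simp [Matrix.mulVec, dotProduct, Fin.sum_univ_three]

end A4x

open A4x in
theorem key_of (h : OneZeroStmt) : KeyStmt := by
  intro F hF hF0 hpsd
  by_cases hpos : ∀ x : Fin 3 → ℝ, x ≠ 0 → 0 < eval x F
  · obtain ⟨ε, hε, hb⟩ := sph hF hpos
    refine ⟨p2 ![Real.sqrt ε, 0, 0, Real.sqrt ε, 0, Real.sqrt ε], p2_hom _, ?_, fun x => ?_⟩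
    · intro h0
      have h1 := congrFun (p2_eq_zero h0) 0
      have h2 := (Real.sqrt_pos.2 hε).ne'
      exact h2 (by simpa using h1)
    · refine le_trans (le_of_eq ?_) (hb x)
      rw [eval_p2]
      simp only [Matrix.cons_val_zero, Matrix.cons_val_one, Matrix.cons_val]
      have : (Real.sqrt ε * x 0 ^ 2 + 0 * (x 0 * x 1) + 0 * (x 0 * x 2) + Real.sqrt ε * x 1 ^ 2 +
          0 * (x 1 * x 2) + Real.sqrt ε * x 2 ^ 2) ^ 2 = Real.sqrt ε ^ 2 * nsq x ^ 2 := by
        unfold nsq
        ring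
      rw [this, Real.sq_sqrt hε.le]
  · push Not at hpos
    obtain ⟨v, hv, hle⟩ := hpos
    have hz : eval v F = 0 := le_antisymm hle (hpsd v)
    obtain ⟨M, hM, hMv⟩ := exists_mat hv
    obtain ⟨b, hb⟩ := hom4_rep (lsub_hom M hF)
    have hev : ∀ x y z : ℝ, eval ![x, y, z] (lsub M F) = qv b x y z := by
      intro x y z
      rw [hb, eval_qp]
      rfl
    have hps : ∀ x y z : ℝ, 0 ≤ qv b x y z := fun x y z => by
      rw [← hev]
      exact Psd_lsub M hpsd _
    have b0 : b 0 = 0 := by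
      have h1 := hev 1 0 0
      rw [eval_lsub, hMv, hz] at h1
      simpa [qv] using h1.symm
    have b1 : b 1 = 0 := by
      refine A0x.lin_zero (b := b 3) (c := b 6) (d := b 10) fun t => ?_
      have h1 := hps 1 t 0
      simp only [qv, b0] at h1
      norm_num at h1
      linarith
    have b2 : b 2 = 0 := by
      refine A0x.lin_zero (b := b 5) (c := b 9) (d := b 14) fun t => ?_
      have h1 := hps 1 0 t
      simp only [qv, b0] at h1
      norm_num at h1
      linarith
    have hform : ∀ x y z : ℝ, x ^ 2 * (b 3 * y ^ 2 + b 4 * (y * z) + b 5 * z ^ 2)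
        + 2 * x * (b 6 / 2 * y ^ 3 + b 7 / 2 * (y ^ 2 * z) + b 8 / 2 * (y * z ^ 2)
          + b 9 / 2 * z ^ 3)
        + (b 10 * y ^ 4 + b 11 * (y ^ 3 * z) + b 12 * (y ^ 2 * z ^ 2) + b 13 * (y * z ^ 3)
          + b 14 * z ^ 4) = qv b x y z := by
      intro x y z
      simp only [qv, b0, b1, b2]
      ring
    have hne : ∃ x y z : ℝ, qv b x y z ≠ 0 := by
      by_contra hcon
      push Not at hcon
      apply hF0
      have h1 : lsub M F = 0 := by
        apply MvPolynomial.funext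
        intro x
        have h2 : x = ![x 0, x 1, x 2] := by
          funext i
          fin_cases i <;> rfl
        rw [h2, hev, hcon, map_zero]
      have h3 := lsub_inv' hM F
      rw [h1, map_zero] at h3
      exact h3.symm
    obtain ⟨a, ha, hab⟩ := h (b 3) (b 4) (b 5) (b 6 / 2) (b 7 / 2) (b 8 / 2) (b 9 / 2) (b 10)
      (b 11) (b 12) (b 13) (b 14) (fun x y z => by rw [hform]; exact hps x y z)
      (by
        obtain ⟨x, y, z, hxyz⟩ := hne
        exact ⟨x, y, z, by rw [hform]; exact hxyz⟩)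
    refine ⟨lsub M⁻¹ (p2 a), lsub_hom _ (p2_hom a), ?_, fun x => ?_⟩
    · intro h0
      apply ha
      have h1 := lsub_inv hM (p2 a)
      rw [h0, map_zero] at h1
      exact p2_eq_zero h1.symm
    · have h1 : eval x F = eval (M⁻¹.mulVec x) (lsub M F) := by
        rw [← eval_lsub, lsub_inv' hM]
      rw [eval_lsub, h1]
      set y := M⁻¹.mulVec x with hy
      have h2 : y = ![y 0, y 1, y 2] := by
        funext i
        fin_cases i <;> rfl
      have h3 := hab (y 0) (y 1) (y 2)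
      rw [hform, ← hev, ← h2] at h3
      rw [eval_p2]
      exact h3

end HQ151
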