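import Pool.Agent.R151.HQ

/-!
# MP_ae0293_ag, piece B: Hilbert's theorem on ternary quartics from the key lemma
-/

open MvPolynomial
open scoped MatrixOrder
namespace HQ151

namespace B

/-- the six quadratic monomials -/
def vv (x : Fin 3 → ℝ) : Fin 6 → ℝ :=
  ![x 0 ^ 2, x 0 * x 1, x 0 * x 2, x 1 ^ 2, x 1 * x 2, x 2 ^ 2]

theorem eval_p2_vv (a : Fin 6 → ℝ) (x : Fin 3 → ℝ) : eval x (p2 a) = a ⬝ᵥ vv x := by
  rw [eval_p2]
  simp [vv, dotProduct, Fin.sum_univ_succ]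
  ring

/-- the value of the sum of squares -/
def val (M : Matrix (Fin 6) (Fin 6) ℝ) (x : Fin 3 → ℝ) : ℝ := ∑ i, (M i ⬝ᵥ vv x) ^ 2

theorem val_eq (M : Matrix (Fin 6) (Fin 6) ℝ) (x : Fin 3 → ℝ) :
    val M x = vv x ⬝ᵥ ((M.transpose * M).mulVec (vv x)) := by
  have h1 : val M x = (M.mulVec (vv x)) ⬝ᵥ (M.mulVec (vv x)) := by
    unfold val
    simp only [dotProduct, Matrix.mulVec]
    refine Finset.sum_congr rfl fun i _ => ?_
    rw [sq]
  rw [h1, ← Matrix.mulVec_mulVec, Matrix.dotProduct_mulVec (vv x), Matrix.vecMul_transpose]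

theorem trace_eq (M : Matrix (Fin 6) (Fin 6) ℝ) :
    (M.transpose * M).trace = ∑ i, ∑ j, M i j ^ 2 := by
  simp only [Matrix.trace, Matrix.diag, Matrix.mul_apply, Matrix.transpose_apply]
  rw [Finset.sum_comm]
  refine Finset.sum_congr rfl fun i _ => Finset.sum_congr rfl fun j _ => by rw [sq]

/-- merging one more square -/
theorem merge (M : Matrix (Fin 6) (Fin 6) ℝ) (c : Fin 6 → ℝ) :
    ∃ N : Matrix (Fin 6) (Fin 6) ℝ, (∀ x, val N x = val M x + (c ⬝ᵥ vv x) ^ 2) ∧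
      ∑ i, ∑ j, N i j ^ 2 = (∑ i, ∑ j, M i j ^ 2) + ∑ j, c j ^ 2 := by
  have hpsd : (M.transpose * M + Matrix.vecMulVec c c).PosSemidef := by
    refine Matrix.PosSemidef.add ?_ ?_
    · have := Matrix.posSemidef_conjTranspose_mul_self M
      rwa [Matrix.conjTranspose_eq_transpose_of_trivial] at this
    · have := Matrix.posSemidef_vecMulVec_self_star c
      rwa [star_trivial] at this
  obtain ⟨N, hN⟩ := CStarAlgebra.nonneg_iff_eq_star_mul_self.mp hpsd.nonneg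
  rw [Matrix.star_eq_conjTranspose, Matrix.conjTranspose_eq_transpose_of_trivial] at hN
  refine ⟨N, fun x => ?_, ?_⟩
  · rw [val_eq, val_eq, ← hN, Matrix.add_mulVec, dotProduct_add]
    congr 1
    rw [Matrix.vecMulVec_mulVec, sq]
    simp [dotProduct, Finset.mul_sum, Finset.sum_mul]
    refine Finset.sum_congr rfl fun i _ => Finset.sum_congr rfl fun j _ => by ring
  · rw [← trace_eq, ← trace_eq, ← hN, Matrix.trace_add]
    congr 1
    simp [Matrix.trace, Matrix.vecMulVec_apply, sq]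

/-- the sum of squares as a polynomial -/
noncomputable def pol (M : Fin 6 → Fin 6 → ℝ) : P3 := ∑ i, p2 (M i) ^ 2

theorem eval_pol (M : Fin 6 → Fin 6 → ℝ) (x : Fin 3 → ℝ) : eval x (pol M) = val M x := by
  simp only [pol, map_sum, map_pow, eval_p2_vv, val]

theorem pol_hom (M : Fin 6 → Fin 6 → ℝ) : (pol M).IsHomogeneous 4 :=
  IsHomogeneous.sum _ _ _ fun i _ => (p2_hom (M i)).pow 2

/-- a quadratic form which is small at six points has small coefficients -/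
theorem coeff_bd (a : Fin 6 → ℝ) (R : ℝ) (h1 : |a ⬝ᵥ vv ![1, 0, 0]| ≤ R)
    (h2 : |a ⬝ᵥ vv ![0, 1, 0]| ≤ R) (h3 : |a ⬝ᵥ vv ![0, 0, 1]| ≤ R)
    (h4 : |a ⬝ᵥ vv ![1, 1, 0]| ≤ R) (h5 : |a ⬝ᵥ vv ![1, 0, 1]| ≤ R)
    (h6 : |a ⬝ᵥ vv ![0, 1, 1]| ≤ R) : ∀ j, a j ∈ Set.Icc (-(3 * R)) (3 * R) := by
  rw [← eval_p2_vv, eval_p2, abs_le] at h1 h2 h3 h4 h5 h6
  simp at h1 h2 h3 h4 h5 h6
  obtain ⟨h1, h1'⟩ := h1
  obtain ⟨h2, h2'⟩ := h2
  obtain ⟨h3, h3'⟩ := h3
  obtain ⟨h4, h4'⟩ := h4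
  obtain ⟨h5, h5'⟩ := h5
  obtain ⟨h6, h6'⟩ := h6
  intro j
  rw [Set.mem_Icc]
  fin_cases j <;> simp only [] <;> constructor <;> simp <;> linarith

end B

open B in
theorem hilbert_of (h : KeyStmt) : HilbertStmt := by
  intro F hF hpsd
  -- the compact set
  let K : Set (Fin 6 → Fin 6 → ℝ) := {M | ∀ x, val M x ≤ eval x F}
  have hcont : ∀ x, Continuous fun M : Fin 6 → Fin 6 → ℝ => val M x := by
    intro x
    unfold val dotProduct
    fun_prop
  have hclosed : IsClosed K := by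
    have : K = ⋂ x : Fin 3 → ℝ, {M : Fin 6 → Fin 6 → ℝ | val M x ≤ eval x F} := by
      ext M
      rw [Set.mem_iInter]
      exact Iff.rfl
    rw [this]
    exact isClosed_iInter fun x => isClosed_le (hcont x) continuous_const
  obtain ⟨R, hR⟩ : ∃ R : ℝ, ∀ M ∈ K, ∀ i j, M i j ∈ Set.Icc (-(3 * R)) (3 * R) := by
    let s : (Fin 3 → ℝ) → ℝ := fun x => Real.sqrt (eval x F)
    have hs : ∀ x, 0 ≤ s x := fun x => Real.sqrt_nonneg _
    have hb : ∀ M ∈ K, ∀ i x, |M i ⬝ᵥ vv x| ≤ s x := by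
      intro M hM i x
      apply Real.abs_le_sqrt
      refine le_trans ?_ (hM x)
      exact Finset.single_le_sum (f := fun i => (M i ⬝ᵥ vv x) ^ 2) (fun i _ => sq_nonneg _)
        (Finset.mem_univ i)
    refine ⟨s ![1, 0, 0] + s ![0, 1, 0] + s ![0, 0, 1] + s ![1, 1, 0] + s ![1, 0, 1] +
      s ![0, 1, 1], fun M hM i => ?_⟩
    have e1 := hs ![1, 0, 0]
    have e2 := hs ![0, 1, 0]
    have e3 := hs ![0, 0, 1]
    have e4 := hs ![1, 1, 0]
    have e5 := hs ![1, 0, 1]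
    have e6 := hs ![0, 1, 1]
    refine coeff_bd (M i) _ ?_ ?_ ?_ ?_ ?_ ?_ <;> refine (hb M hM i _).trans ?_ <;> linarith
  have hcomp : IsCompact K := by
    refine IsCompact.of_isClosed_subset (isCompact_univ_pi fun i : Fin 6 =>
      isCompact_univ_pi fun j : Fin 6 => isCompact_Icc (a := -(3 * R)) (b := 3 * R)) hclosed ?_
    intro M hM i _ j _
    exact hR M hM i j
  have hne : K.Nonempty := ⟨0, fun x => by
    simp only [val, Pi.zero_apply, zero_dotProduct]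
    simpa using hpsd x⟩
  obtain ⟨M, hM, hmax⟩ := hcomp.exists_isMaxOn hne
    (f := fun M : Fin 6 → Fin 6 → ℝ => ∑ i, ∑ j, M i j ^ 2) (by fun_prop)
  by_cases h0 : F - pol M = 0
  · refine ⟨6, fun i => p2 (M i), fun i => p2_hom _, ?_⟩
    rw [sub_eq_zero] at h0
    exact h0
  exfalso
  obtain ⟨q, hq, hq0, hq2⟩ := h (F - pol M) (hF.sub (pol_hom M)) h0 (fun x => by
    rw [map_sub, eval_pol, sub_nonneg]; exact hM x)
  obtain ⟨c, rfl⟩ := hom2_p2 hq
  obtain ⟨N, hN1, hN2⟩ := merge M c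
  have hNK : N ∈ K := by
    intro x
    have := hq2 x
    rw [map_sub, eval_pol, eval_p2_vv] at this
    rw [hN1]; linarith
  have hle : ∑ i, ∑ j, N i j ^ 2 ≤ ∑ i, ∑ j, M i j ^ 2 := isMaxOn_iff.1 hmax N hNK
  have hc : c ≠ 0 := by
    rintro rfl
    apply hq0
    simp [p2]
  have hpos : 0 < ∑ j, c j ^ 2 := by
    obtain ⟨j, hj⟩ := Function.ne_iff.1 hc
    refine Finset.sum_pos' (fun i _ => sq_nonneg _) ⟨j, Finset.mem_univ j, ?_⟩
    exact lt_of_le_of_ne (sq_nonneg _) (Ne.symm (pow_ne_zero 2 hj))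
  rw [hN2] at hle
  linarith

end HQ151
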