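import Pool.Agent.R151.HQ2
/-!
MP_ae0293_ag, piece C1: step two, classification of the dominated quadratic forms.
-/
open MvPolynomial
namespace HQ151

theorem Dom_add {F q q' : P3} (h : Dom F q) (h' : Dom F q') : Dom F (q + q') := by
  obtain ⟨h1, K, hK⟩ := h
  obtain ⟨h1', K', hK'⟩ := h'
  refine ⟨h1.add h1', 2 * (K + K'), fun x => ?_⟩
  rw [map_add]
  have e1 := hK x
  have e2 := hK' x
  nlinarith [sq_nonneg (eval x q - eval x q')]

theorem Dom_smul {F q : P3} (s : ℝ) (h : Dom F q) : Dom F (C s * q) := by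
  obtain ⟨h1, K, hK⟩ := h
  refine ⟨h1.C_mul s, s ^ 2 * K, fun x => ?_⟩
  rw [map_mul, eval_C, mul_pow, mul_assoc]
  exact mul_le_mul_of_nonneg_left (hK x) (sq_nonneg s)

theorem Dom_of_smul {F q : P3} {s : ℝ} (hs : s ≠ 0) (h : Dom F (C s * q)) : Dom F q := by
  have h1 := Dom_smul s⁻¹ h
  rwa [← mul_assoc, ← map_mul, inv_mul_cancel₀ hs, map_one, one_mul] at h1

theorem Dom_sum {F : P3} {n : ℕ} {h : Fin n → P3} (hh : ∀ i, (h i).IsHomogeneous 2)
    (hF : F = ∑ i, h i ^ 2) (k : Fin n) : Dom F (h k) := by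
  refine ⟨hh k, 1, fun x => ?_⟩
  rw [one_mul, hF, map_sum]
  have h1 : ∀ i, eval x (h i ^ 2) = (eval x (h i)) ^ 2 := fun i => map_pow _ _ _
  rw [← h1 k]
  exact Finset.single_le_sum (f := fun i => eval x (h i ^ 2))
    (fun i _ => by rw [h1]; exact sq_nonneg _) (Finset.mem_univ k)

theorem Cub_zero {F c : P3} (hF : F = 0) (h : Cub F c) : c = 0 := by
  obtain ⟨-, K, hK⟩ := h
  apply MvPolynomial.funext
  intro x
  have h1 := hK x
  rw [hF, map_zero, zero_mul, mul_zero] at h1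
  rw [map_zero]
  exact pow_eq_zero_iff (two_ne_zero) |>.1 (le_antisymm h1 (sq_nonneg _))

/-- restriction of a quadratic form to a plane -/
theorem quad_plane {q : P3} (h : q.IsHomogeneous 2) (u v : Fin 3 → ℝ) :
    ∃ b : ℝ, ∀ s t : ℝ, eval (s • u + t • v) q =
      eval u q * s ^ 2 + b * (s * t) + eval v q * t ^ 2 := by
  obtain ⟨a, rfl⟩ := hom2_p2 h
  refine ⟨2 * a 0 * (u 0 * v 0) + a 1 * (u 0 * v 1 + u 1 * v 0) + a 2 * (u 0 * v 2 + u 2 * v 0)
    + 2 * a 3 * (u 1 * v 1) + a 4 * (u 1 * v 2 + u 2 * v 1) + 2 * a 5 * (u 2 * v 2),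
    fun s t => ?_⟩
  simp only [eval_p2, Pi.add_apply, Pi.smul_apply, smul_eq_mul]
  ring

theorem quad_bound {q : P3} (h : q.IsHomogeneous 2) :
    ∃ L : ℝ, 0 ≤ L ∧ ∀ x : Fin 3 → ℝ, (eval x q) ^ 2 ≤ L * nsq x ^ 2 := by
  obtain ⟨a, rfl⟩ := hom2_p2 h
  refine ⟨∑ i, a i ^ 2, Finset.sum_nonneg fun i _ => sq_nonneg _, fun x => ?_⟩
  have h1 := Finset.sum_mul_sq_le_sq_mul_sq Finset.univ a
    ![x 0 ^ 2, x 0 * x 1, x 0 * x 2, x 1 ^ 2, x 1 * x 2, x 2 ^ 2]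
  have h2 : ∑ i, a i * (![x 0 ^ 2, x 0 * x 1, x 0 * x 2, x 1 ^ 2, x 1 * x 2, x 2 ^ 2] : Fin 6 → ℝ) i
      = eval x (p2 a) := by
    rw [eval_p2, Fin.sum_univ_six]
    rfl
  have h3 : ∑ i, (![x 0 ^ 2, x 0 * x 1, x 0 * x 2, x 1 ^ 2, x 1 * x 2, x 2 ^ 2] : Fin 6 → ℝ) i ^ 2
      ≤ nsq x ^ 2 := by
    rw [Fin.sum_univ_six]
    change (x 0 ^ 2) ^ 2 + (x 0 * x 1) ^ 2 + (x 0 * x 2) ^ 2 + (x 1 ^ 2) ^ 2 + (x 1 * x 2) ^ 2
      + (x 2 ^ 2) ^ 2 ≤ (x 0 ^ 2 + x 1 ^ 2 + x 2 ^ 2) ^ 2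
    nlinarith [sq_nonneg (x 0 * x 1), sq_nonneg (x 0 * x 2), sq_nonneg (x 1 * x 2)]
  rw [h2] at h1
  exact h1.trans (mul_le_mul_of_nonneg_left h3 (Finset.sum_nonneg fun i _ => sq_nonneg _))

theorem caseA {F c : P3} (hc : Cub F c) (hd : Dom F (X 0 ^ 2 + X 1 ^ 2 + X 2 ^ 2)) :
    c ∈ GLs F := by
  obtain ⟨-, K, hK⟩ := hd
  have hall : ∀ q : P3, q.IsHomogeneous 2 → Dom F q := by
    intro q hq
    obtain ⟨L, hL, hb⟩ := quad_bound hq
    refine ⟨hq, L * K, fun x => (hb x).trans ?_⟩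
    rw [mul_assoc]
    refine mul_le_mul_of_nonneg_left ?_ hL
    have h1 := hK x
    simpa [nsq] using h1
  have hmon : ∀ (i j k : ℕ) (r : ℝ), i + j + k = 2 →
      (C r * (X 0 ^ i * X 1 ^ j * X 2 ^ k) : P3).IsHomogeneous 2 := by
    intro i j k r hijk
    have h1 := (((isHomogeneous_X_pow (R := ℝ) (0 : Fin 3) i).mul
      (isHomogeneous_X_pow (R := ℝ) (1 : Fin 3) j)).mul
      (isHomogeneous_X_pow (R := ℝ) (2 : Fin 3) k)).C_mul r
    rwa [hijk] at h1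
  refine hom_rep hc.1 (fun p => p ∈ GLs F) (Submodule.zero_mem _)
    (fun a b ha hb => Submodule.add_mem _ ha hb) ?_
  intro i j k r hijk
  rcases Nat.eq_zero_or_pos i with hi | hi
  · rcases Nat.eq_zero_or_pos j with hj | hj
    · refine Submodule.subset_span ⟨C r * (X 0 ^ i * X 1 ^ j * X 2 ^ (k - 1)), X 2,
        hall _ (hmon _ _ _ _ (by omega)), isHomogeneous_X _ _, ?_⟩
      obtain ⟨k', rfl⟩ : ∃ k', k = k' + 1 := ⟨k - 1, by omega⟩
      rw [Nat.add_sub_cancel]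
      ring
    · refine Submodule.subset_span ⟨C r * (X 0 ^ i * X 1 ^ (j - 1) * X 2 ^ k), X 1,
        hall _ (hmon _ _ _ _ (by omega)), isHomogeneous_X _ _, ?_⟩
      obtain ⟨j', rfl⟩ : ∃ k', j = k' + 1 := ⟨j - 1, by omega⟩
      rw [Nat.add_sub_cancel]
      ring
  · refine Submodule.subset_span ⟨C r * (X 0 ^ (i - 1) * X 1 ^ j * X 2 ^ k), X 0,
      hall _ (hmon _ _ _ _ (by omega)), isHomogeneous_X _ _, ?_⟩
    obtain ⟨i', rfl⟩ : ∃ k', i = k' + 1 := ⟨i - 1, by omega⟩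
    rw [Nat.add_sub_cancel]
    ring

theorem X_sq_hom (i : Fin 3) : (X i ^ 2 : P3).IsHomogeneous 2 := isHomogeneous_X_pow i 2

theorem caseC (hP : PairStmt) {F c : P3} (h4 : F.IsHomogeneous 4) (hF : Psd F) (hc : Cub F c)
    (hd : Dom F (X 1 ^ 2 + X 2 ^ 2)) : c ∈ GLs F := by
  obtain ⟨-, K, hK⟩ := hd
  have d1 : Dom F (X 1 ^ 2) := ⟨X_sq_hom 1, K, fun x => by
    have h1 := hK x
    simp only [map_add, map_pow, eval_X] at h1 ⊢
    nlinarith [sq_nonneg (x 1), sq_nonneg (x 2), mul_nonneg (sq_nonneg (x 1)) (sq_nonneg (x 2)),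
      sq_nonneg (x 2 ^ 2)]⟩
  have d2 : Dom F (X 2 ^ 2) := ⟨X_sq_hom 2, K, fun x => by
    have h1 := hK x
    simp only [map_add, map_pow, eval_X] at h1 ⊢
    nlinarith [sq_nonneg (x 1), sq_nonneg (x 2), mul_nonneg (sq_nonneg (x 1)) (sq_nonneg (x 2)),
      sq_nonneg (x 1 ^ 2)]⟩
  refine hP F c _ _ h4 hF hc d1 d2 ![0, 1, 0] ![0, 0, 1] ?_ 1 0 0 0 0 1 ?_ ?_ (by norm_num)
  · rw [LinearIndependent.pair_iff]
    intro s t h
    have h1 := congrFun h 1
    have h2 := congrFun h 2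
    simp at h1 h2
    exact ⟨h1, h2⟩
  · intro s t
    simp
  · intro s t
    simp

/-- divisibility by a coordinate -/
theorem factor2 {a : Fin 6 → ℝ} (h0 : a 0 = 0) (h1 : a 1 = 0) (h3 : a 3 = 0) :
    ∃ l : P3, l.IsHomogeneous 1 ∧ p2 a = X 2 * l := by
  refine ⟨p1 ![a 2, a 4, a 5], p1_hom _, ?_⟩
  unfold p1 p2
  rw [h0, h1, h3]
  simp only [map_zero, Matrix.cons_val_zero, Matrix.cons_val_one, Matrix.cons_val]
  ring

theorem factor1 {a : Fin 6 → ℝ} (h0 : a 0 = 0) (h2 : a 2 = 0) (h5 : a 5 = 0) :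
    ∃ l : P3, l.IsHomogeneous 1 ∧ p2 a = X 1 * l := by
  refine ⟨p1 ![a 1, a 3, a 4], p1_hom _, ?_⟩
  unfold p1 p2
  rw [h0, h2, h5]
  simp only [map_zero, Matrix.cons_val_zero, Matrix.cons_val_one, Matrix.cons_val]
  ring

theorem use_factor (hFc : FactorStmt) {F c m : P3} {n : ℕ} {h : Fin n → P3}
    (hm : m.IsHomogeneous 1) (hm0 : m ≠ 0) (hFs : F = ∑ i, h i ^ 2) (hc : Cub F c)
    (hl : ∀ i, ∃ l : P3, l.IsHomogeneous 1 ∧ h i = m * l) : c ∈ GLs F := by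
  choose l hl1 hl2 using hl
  refine hFc F c m n l hm hm0 hl1 ?_ hc
  rw [hFs]
  exact Finset.sum_congr rfl fun i _ => by rw [hl2 i]

theorem caseE (hP : PairStmt) (hFc : FactorStmt) {F c : P3} (h4 : F.IsHomogeneous 4)
    (hF : Psd F) (hc : Cub F c) {n : ℕ} {h : Fin n → P3} (hh : ∀ i, (h i).IsHomogeneous 2)
    (hFs : F = ∑ i, h i ^ 2) (hd : Dom F (X 2 ^ 2)) : c ∈ GLs F := by
  by_cases hex : ∃ q : P3, Dom F q ∧ ∃ p : Fin 3 → ℝ, p 2 = 0 ∧ eval p q ≠ 0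
  · obtain ⟨q, hq, p, hp2, hpq⟩ := hex
    obtain ⟨b, hb⟩ := quad_plane hq.1 p ![0, 0, 1]
    refine hP F c _ _ h4 hF hc hd hq p ![0, 0, 1] ?_ 0 0 1 (eval p q) b (eval ![0, 0, 1] q) ?_ hb ?_
    · rw [LinearIndependent.pair_iff]
      intro s t hst
      have e2 := congrFun hst 2
      simp [hp2] at e2
      refine ⟨?_, e2⟩
      rw [e2, zero_smul, add_zero] at hst
      rcases smul_eq_zero.1 hst with h1 | h1
      · exact h1
      · exfalso
        apply hpq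
        have h2 := eval_smul_hom hq.1 0 p
        rw [zero_smul, zero_pow two_ne_zero, zero_mul] at h2
        rw [h1]
        exact h2
    · intro s t
      have e : (s • p + t • (![0, 0, 1] : Fin 3 → ℝ)) 2 = t := by
        rw [Pi.add_apply, Pi.smul_apply, hp2, smul_zero, zero_add]
        simp
      rw [map_pow, eval_X, e]
      ring
    · have h1 : eval p q ^ 2 ≠ 0 := pow_ne_zero 2 hpq
      intro h2
      apply h1
      linarith
  · push Not at hex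
    refine use_factor hFc (m := X 2) (isHomogeneous_X _ _) (X_ne_zero _) hFs hc fun i => ?_
    have h1 := hex (h i) (Dom_sum hh hFs i)
    obtain ⟨a, ha⟩ := hom2_p2 (hh i)
    rw [ha] at h1 ⊢
    have e1 := h1 ![1, 0, 0] (by simp)
    have e2 := h1 ![0, 1, 0] (by simp)
    have e3 := h1 ![1, 1, 0] (by simp)
    rw [eval_p2] at e1 e2 e3
    simp at e1 e2 e3
    exact factor2 e1 (by linarith) e2

theorem caseD (hP : PairStmt) (hFc : FactorStmt) {F c : P3} (h4 : F.IsHomogeneous 4)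
    (hF : Psd F) (hc : Cub F c) {n : ℕ} {h : Fin n → P3} (hh : ∀ i, (h i).IsHomogeneous 2)
    (hFs : F = ∑ i, h i ^ 2) (hd : Dom F (X 1 * X 2)) : c ∈ GLs F := by
  by_cases hex : ∃ q : P3, Dom F q ∧ (∃ μ : ℝ, eval ![μ, 0, 1] q ≠ 0) ∧
      ∃ κ : ℝ, eval ![κ, 1, 0] q ≠ 0
  · obtain ⟨q, hq, ⟨μ, hμ⟩, κ, hκ⟩ := hex
    obtain ⟨b, hb⟩ := quad_plane hq.1 ![μ, 0, 1] ![κ, 1, 0]
    refine hP F c _ _ h4 hF hc hd hq ![μ, 0, 1] ![κ, 1, 0] ?_ 0 1 0 (eval ![μ, 0, 1] q) b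
      (eval ![κ, 1, 0] q) ?_ hb ?_
    · rw [LinearIndependent.pair_iff]
      intro s t hst
      have e1 := congrFun hst 1
      have e2 := congrFun hst 2
      simp at e1 e2
      exact ⟨e2, e1⟩
    · intro s t
      simp
      ring
    · have h1 : eval ![μ, 0, 1] q * eval ![κ, 1, 0] q ≠ 0 := mul_ne_zero hμ hκ
      intro h2
      apply h1
      linarith
  · have hAB : ∀ q, Dom F q → (∀ μ : ℝ, eval ![μ, 0, 1] q = 0) ∨
        ∀ κ : ℝ, eval ![κ, 1, 0] q = 0 := by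
      intro q hq
      by_contra hcon
      push Not at hcon
      exact hex ⟨q, hq, hcon.1, hcon.2⟩
    have hor : (∀ q, Dom F q → ∀ μ : ℝ, eval ![μ, 0, 1] q = 0) ∨
        ∀ q, Dom F q → ∀ κ : ℝ, eval ![κ, 1, 0] q = 0 := by
      by_contra hcon
      push Not at hcon
      obtain ⟨⟨q1, hq1, μ, hμ⟩, q2, hq2, κ, hκ⟩ := hcon
      have h1 := (hAB q1 hq1).resolve_left (fun h => hμ (h μ))
      have h2 := (hAB q2 hq2).resolve_right (fun h => hκ (h κ))
      rcases hAB (q1 + q2) (Dom_add hq1 hq2) with h3 | h3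
      · have h4 := h3 μ
        rw [map_add, h2 μ, add_zero] at h4
        exact hμ h4
      · have h4 := h3 κ
        rw [map_add, h1 κ, zero_add] at h4
        exact hκ h4
    rcases hor with hA | hB
    · refine use_factor hFc (m := X 1) (isHomogeneous_X _ _) (X_ne_zero _) hFs hc fun i => ?_
      have h1 := hA (h i) (Dom_sum hh hFs i)
      obtain ⟨a, ha⟩ := hom2_p2 (hh i)
      rw [ha] at h1 ⊢
      have e1 := h1 0
      have e2 := h1 1
      have e3 := h1 (-1)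
      rw [eval_p2] at e1 e2 e3
      simp at e1 e2 e3
      exact factor1 (by linarith) (by linarith) e1
    · refine use_factor hFc (m := X 2) (isHomogeneous_X _ _) (X_ne_zero _) hFs hc fun i => ?_
      have h1 := hB (h i) (Dom_sum hh hFs i)
      obtain ⟨a, ha⟩ := hom2_p2 (hh i)
      rw [ha] at h1 ⊢
      have e1 := h1 0
      have e2 := h1 1
      have e3 := h1 (-1)
      rw [eval_p2] at e1 e2 e3
      simp at e1 e2 e3
      exact factor2 (by linarith) (by linarith) e1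

/-- a quadratic form which vanishes on the conic is a multiple of its equation; otherwise there
are two points of the conic where it does not vanish -/
theorem conic_points {q : P3} (h : q.IsHomogeneous 2)
    (hne : ¬ ∃ r : ℝ, q = C r * (X 0 * X 2 - X 1 ^ 2)) :
    ∃ t₁ t₂ : ℝ, t₁ ≠ t₂ ∧ eval ![1, t₁, t₁ ^ 2] q ≠ 0 ∧ eval ![1, t₂, t₂ ^ 2] q ≠ 0 := by
  obtain ⟨a, rfl⟩ := hom2_p2 h
  let p : Polynomial ℝ := Polynomial.C (a 0) + Polynomial.C (a 1) * Polynomial.X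
    + Polynomial.C (a 2 + a 3) * Polynomial.X ^ 2 + Polynomial.C (a 4) * Polynomial.X ^ 3
    + Polynomial.C (a 5) * Polynomial.X ^ 4
  have hev : ∀ t : ℝ, p.eval t = eval ![1, t, t ^ 2] (p2 a) := by
    intro t
    rw [eval_p2]
    simp [p]
    ring
  have hp : p ≠ 0 := by
    intro hp0
    have h1 : ∀ t : ℝ, a 0 + a 1 * t + (a 2 + a 3) * t ^ 2 + a 4 * t ^ 3 + a 5 * t ^ 4 = 0 := by
      intro t
      have h2 : p.eval t = 0 := by rw [hp0, Polynomial.eval_zero]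
      simpa [p] using h2
    have e0 := h1 0
    have e1 := h1 1
    have e2 := h1 (-1)
    have e3 := h1 2
    have e4 := h1 (-2)
    norm_num at e0 e1 e2 e3 e4
    have c0 : a 0 = 0 := e0
    have c5 : a 5 = 0 := by linarith
    have c4 : a 4 = 0 := by linarith
    have c1 : a 1 = 0 := by linarith
    have c3 : a 3 = -a 2 := by linarith
    apply hne
    refine ⟨a 2, ?_⟩
    unfold p2
    rw [c0, c5, c4, c1, c3]
    simp only [map_zero, map_neg]
    ring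
  have hinf : {t : ℝ | p.IsRoot t}ᶜ.Infinite := (Polynomial.finite_setOfPred_isRoot hp).infinite_compl
  obtain ⟨t₁, h1, t₂, h2, hne'⟩ := hinf.nontrivial
  refine ⟨t₁, t₂, hne', ?_, ?_⟩
  · rw [← hev]
    exact h1
  · rw [← hev]
    exact h2

theorem caseB (hP : PairStmt) (hC : ConicStmt) {F c : P3} (h4 : F.IsHomogeneous 4)
    (hF : Psd F) (hc : Cub F c) {n : ℕ} {h : Fin n → P3} (hh : ∀ i, (h i).IsHomogeneous 2)
    (hFs : F = ∑ i, h i ^ 2) (hd : Dom F (X 0 * X 2 - X 1 ^ 2)) : c ∈ GLs F := by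
  by_cases hex : ∀ i, ∃ r : ℝ, h i = C r * (X 0 * X 2 - X 1 ^ 2)
  · choose r hr using hex
    have hF' : F = C (∑ i, r i ^ 2) * (X 0 * X 2 - X 1 ^ 2) ^ 2 := by
      rw [hFs, map_sum, Finset.sum_mul]
      refine Finset.sum_congr rfl fun i _ => ?_
      rw [hr i, mul_pow, map_pow]
    rcases (Finset.sum_nonneg fun i (_ : i ∈ Finset.univ) => sq_nonneg (r i)).lt_or_eq with h0 | h0
    · rw [hF'] at hc ⊢
      exact hC c _ h0 hc
    · rw [← h0, map_zero, zero_mul] at hF'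
      rw [Cub_zero hF' hc]
      exact Submodule.zero_mem _
  · push Not at hex
    obtain ⟨i, hi⟩ := hex
    obtain ⟨t₁, t₂, hne, h1, h2⟩ := conic_points (hh i) (fun ⟨r, hr⟩ => hi r hr)
    obtain ⟨b, hb⟩ := quad_plane (hh i) ![1, t₁, t₁ ^ 2] ![1, t₂, t₂ ^ 2]
    refine hP F c _ _ h4 hF hc hd (Dom_sum hh hFs i) ![1, t₁, t₁ ^ 2] ![1, t₂, t₂ ^ 2] ?_
      0 ((t₁ - t₂) ^ 2) 0 (eval ![1, t₁, t₁ ^ 2] (h i)) b (eval ![1, t₂, t₂ ^ 2] (h i)) ?_ hb ?_
    · rw [LinearIndependent.pair_iff]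
      intro s t hst
      have e0 := congrFun hst 0
      have e1 := congrFun hst 1
      simp at e0 e1
      have h3 : s * (t₁ - t₂) = 0 := by linear_combination e1 - t₂ * e0
      rcases mul_eq_zero.1 h3 with h4 | h4
      · exact ⟨h4, by rw [h4, zero_add] at e0; exact e0⟩
      · exact absurd (sub_eq_zero.1 h4) hne
    · intro s t
      simp
      ring
    · have h3 : (t₁ - t₂) ^ 2 ≠ 0 := pow_ne_zero 2 (sub_ne_zero.2 hne)
      have h5 : eval ![1, t₁, t₁ ^ 2] (h i) * eval ![1, t₂, t₂ ^ 2] (h i) *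
          ((t₁ - t₂) ^ 2 * (t₁ - t₂) ^ 2) ≠ 0 := mul_ne_zero (mul_ne_zero h1 h2) (mul_ne_zero h3 h3)
      intro h6
      apply h5
      linear_combination h6

theorem stepTwo_of (hP : PairStmt) (hH : HilbertStmt) (hFc : FactorStmt) (hC : ConicStmt)
    (hN : NormStmt) : StepTwoStmt := by
  intro F c h4 hF hc
  obtain ⟨n, h, hh, hFs⟩ := hH F h4 hF
  by_cases hz : ∀ i, h i = 0
  · have hF0 : F = 0 := by
      rw [hFs]
      exact Finset.sum_eq_zero fun i _ => by rw [hz i, zero_pow two_ne_zero]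
    rw [Cub_zero hF0 hc]
    exact Submodule.zero_mem _
  · push Not at hz
    obtain ⟨k, hk⟩ := hz
    obtain ⟨M, hM, s, hs, hcase⟩ := hN (h k) (hh k) hk
    apply GLs_of_lsub hM
    have h4' := lsub_hom M h4
    have hF' := Psd_lsub M hF
    have hc' := Cub_lsub M hF hc
    have hh' : ∀ i, (lsub M (h i)).IsHomogeneous 2 := fun i => lsub_hom M (hh i)
    have hFs' : lsub M F = ∑ i, (lsub M (h i)) ^ 2 := by
      rw [hFs, map_sum]
      exact Finset.sum_congr rfl fun i _ => map_pow _ _ _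
    have hd := Dom_sum hh' hFs' k
    rcases hcase with h1 | h1 | h1 | h1 | h1 <;> rw [h1] at hd <;> have hd' := Dom_of_smul hs hd
    · exact caseE hP hFc h4' hF' hc' hh' hFs' hd'
    · exact caseC hP h4' hF' hc' hd'
    · exact caseD hP hFc h4' hF' hc' hh' hFs' hd'
    · exact caseA hc' hd'
    · exact caseB hP hC h4' hF' hc' hh' hFs' hd'

end HQ151
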