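import Pool.Agent.R151.HQ2
/-!
C2 (pair lemma) for MP_ae0293_ag.
-/
open MvPolynomial
namespace HQ151

theorem isCompact_sph : IsCompact {x : Fin 3 → ℝ | nsq x = 1} := by
  have hc : Continuous (fun x : Fin 3 → ℝ => nsq x) := by unfold nsq; fun_prop
  refine Metric.isCompact_of_isClosed_isBounded (isClosed_singleton.preimage hc) ?_
  refine (Metric.isBounded_closedBall (x := (0 : Fin 3 → ℝ)) (r := 1)).subset ?_
  intro x hx
  have hx' : nsq x = 1 := hx
  unfold nsq at hx'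
  rw [mem_closedBall_zero_iff, pi_norm_le_iff_of_nonneg zero_le_one]
  intro i
  rw [Real.norm_eq_abs, abs_le_one_iff_mul_self_le_one]
  fin_cases i <;> simp <;> nlinarith [sq_nonneg (x 0), sq_nonneg (x 1), sq_nonneg (x 2)]

theorem eval_zero_hom {F : P3} {n : ℕ} (hn : n ≠ 0) (h : F.IsHomogeneous n) :
    eval (0 : Fin 3 → ℝ) F = 0 := by
  have := eval_smul_hom h 0 0
  rw [zero_pow hn, zero_mul, smul_zero] at this
  exact this

/-- a bound on the unit sphere suffices -/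
theorem dom_of_sph {F q : P3} (hF : F.IsHomogeneous 4) (hq : q.IsHomogeneous 2) (K : ℝ)
    (h : ∀ x : Fin 3 → ℝ, nsq x = 1 → (eval x q) ^ 2 ≤ K * eval x F) : Dom F q := by
  refine ⟨hq, K, fun x => ?_⟩
  rcases eq_or_ne x 0 with rfl | hx
  · rw [eval_zero_hom two_ne_zero hq, eval_zero_hom four_ne_zero hF]; simp
  · have hpos : 0 < nsq x := by
      rcases (nsq_nonneg x).lt_or_eq with h0 | h0
      · exact h0
      · exfalso
        apply hx
        unfold nsq at h0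
        funext i
        fin_cases i <;> simp <;> nlinarith [sq_nonneg (x 0), sq_nonneg (x 1), sq_nonneg (x 2)]
    set t := Real.sqrt (nsq x) with ht
    have htp : 0 < t := Real.sqrt_pos.2 hpos
    have ht2 : t ^ 2 = nsq x := Real.sq_sqrt hpos.le
    have hxt : x = t • (t⁻¹ • x) := by rw [smul_smul, mul_inv_cancel₀ htp.ne', one_smul]
    have hu : nsq (t⁻¹ • x) = 1 := by
      have : nsq (t⁻¹ • x) = (t⁻¹) ^ 2 * nsq x := by
        simp only [nsq, Pi.smul_apply, smul_eq_mul]; ring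
      rw [this, ← ht2, ← mul_pow, inv_mul_cancel₀ htp.ne', one_pow]
    rw [hxt, eval_smul_hom hq, eval_smul_hom hF]
    calc (t ^ 2 * eval (t⁻¹ • x) q) ^ 2 = t ^ 4 * (eval (t⁻¹ • x) q) ^ 2 := by ring
      _ ≤ t ^ 4 * (K * eval (t⁻¹ • x) F) :=
          mul_le_mul_of_nonneg_left (h _ hu) (by positivity)
      _ = K * (t ^ 4 * eval (t⁻¹ • x) F) := by ring

/-- if `F > 0` on the plane `z = 0` (off the origin) and `(z q)² ≤ K F |x|²`, then `q` is
dominated by `F` -/
theorem dom_of_plane {F q : P3} (hF : F.IsHomogeneous 4) (hP : Psd F) (hq : q.IsHomogeneous 2)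
    (K : ℝ) (h : ∀ x : Fin 3 → ℝ, (x 2 * eval x q) ^ 2 ≤ K * (eval x F * nsq x))
    (hpos : ∀ x : Fin 3 → ℝ, nsq x = 1 → x 2 = 0 → eval x F ≠ 0) : Dom F q := by
  have hne : ({x : Fin 3 → ℝ | nsq x = 1}).Nonempty := ⟨![1, 0, 0], by simp [nsq]⟩
  have hcF : Continuous (fun x : Fin 3 → ℝ => eval x F) := continuous_eval F
  have hcq : Continuous (fun x : Fin 3 → ℝ => eval x q) := continuous_eval q
  obtain ⟨x0, hx0, hmin⟩ := isCompact_sph.exists_isMinOn hne
    (f := fun x : Fin 3 → ℝ => eval x F + x 2 ^ 2) (by fun_prop)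
  obtain ⟨x1, hx1, hmax⟩ := isCompact_sph.exists_isMaxOn hne
    (f := fun x : Fin 3 → ℝ => (eval x q) ^ 2) (by fun_prop)
  set ε := eval x0 F + x0 2 ^ 2 with hε
  set M := (eval x1 q) ^ 2 with hM
  have hεp : 0 < ε := by
    have h1 := hP x0
    have h2 := sq_nonneg (x0 2)
    rcases (add_nonneg h1 h2).lt_or_eq with h3 | h3
    · exact h3
    · exfalso
      have h4 : x0 2 ^ 2 = 0 := by linarith
      have h5 : eval x0 F = 0 := by linarith
      exact hpos x0 hx0 (pow_eq_zero_iff two_ne_zero |>.1 h4) h5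
  refine dom_of_sph hF hq ((M + K) / ε) (fun x hx => ?_)
  have e1 : ε ≤ eval x F + x 2 ^ 2 := hmin hx
  have e2 : (eval x q) ^ 2 ≤ M := hmax hx
  have e3 := h x
  rw [hx, mul_one] at e3
  have e4 := hP x
  rw [div_mul_eq_mul_div, le_div_iff₀ hεp]
  calc (eval x q) ^ 2 * ε ≤ (eval x q) ^ 2 * (eval x F + x 2 ^ 2) :=
        mul_le_mul_of_nonneg_left e1 (sq_nonneg _)
    _ = (eval x q) ^ 2 * eval x F + (x 2 * eval x q) ^ 2 := by ring
    _ ≤ M * eval x F + K * eval x F := add_le_add (mul_le_mul_of_nonneg_right e2 e4) e3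
    _ = (M + K) * eval x F := by ring

/-- Sylvester system -/
theorem sylv (a b c a' b' c' : ℝ)
    (hR : (a * c' - a' * c) ^ 2 - (a * b' - a' * b) * (b * c' - b' * c) ≠ 0) (e0 e1 e2 e3 : ℝ) :
    ∃ m0 m1 n0 n1 : ℝ, a * m0 + a' * n0 = e0 ∧ b * m0 + a * m1 + b' * n0 + a' * n1 = e1 ∧
      c * m0 + b * m1 + c' * n0 + b' * n1 = e2 ∧ c * m1 + c' * n1 = e3 := by
  set R := (a * c' - a' * c) ^ 2 - (a * b' - a' * b) * (b * c' - b' * c) with hRdef
  set D01 := a * b' - a' * b with h01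
  set D02 := a * c' - a' * c with h02
  set D12 := b * c' - b' * c with h12
  -- R x³ = (c' D02 - b' D12) x q1 - (c D02 - b D12) x q2 - D12 y (c' q1 - c q2)
  -- R x² y = D02 y B - D12 x A, B = c' q1 - c q2, A = a q2 - a' q1
  -- R x y² = D02 x A - D01 y B
  -- R y³ = (a D02 - b D01) y q2 - (a' D02 - b' D01) y q1 - D01 x (a q2 - a' q1)
  refine ⟨(e0 * (c' * D02 - b' * D12) + e1 * (D12 * a') + e2 * (-(D02 * a')) + e3 * (D01 * a')) / R,
    (e0 * (-(D12 * c')) + e1 * (D02 * c') + e2 * (-(D01 * c')) + e3 * (-(a' * D02 - b' * D01))) / R,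
    (e0 * (-(c * D02 - b * D12)) + e1 * (-(D12 * a)) + e2 * (D02 * a) + e3 * (-(D01 * a))) / R,
    (e0 * (D12 * c) + e1 * (-(D02 * c)) + e2 * (D01 * c) + e3 * (a * D02 - b * D01)) / R,
    ?_, ?_, ?_, ?_⟩
  · field_simp
    rw [hRdef, h01, h02, h12]; ring
  · field_simp
    rw [hRdef, h01, h02, h12]; ring
  · field_simp
    rw [hRdef, h01, h02, h12]; ring
  · field_simp
    rw [hRdef, h01, h02, h12]; ring

theorem pair0 {F c : P3} (α β : Fin 6 → ℝ) (hF : F.IsHomogeneous 4) (hP : Psd F)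
    (hc : Cub F c) (h1 : Dom F (p2 α)) (h2 : Dom F (p2 β))
    (hR : (α 0 * β 3 - β 0 * α 3) ^ 2
      - (α 0 * β 1 - β 0 * α 1) * (α 1 * β 3 - β 1 * α 3) ≠ 0) : c ∈ GLs F := by
  obtain ⟨hc1, K, hK⟩ := hc
  obtain ⟨e, he⟩ := hom3_rep hc1
  obtain ⟨m0, m1, n0, n1, E0, E1, E2, E3⟩ := sylv _ _ _ _ _ _ hR (e 0) (e 1) (e 3) (e 6)
  obtain ⟨-, C1, hC1⟩ := id h1
  obtain ⟨-, C2, hC2⟩ := id h2
  -- the remainder
  set δ : Fin 6 → ℝ := ![e 2 - α 2 * m0 - β 2 * n0, e 4 - α 2 * m1 - α 4 * m0 - β 2 * n1 - β 4 * n0,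
    e 5 - α 5 * m0 - β 5 * n0, e 7 - α 4 * m1 - β 4 * n1, e 8 - α 5 * m1 - β 5 * n1, e 9] with hδ
  have hdec : c = p2 α * p1 ![m0, m1, 0] + p2 β * p1 ![n0, n1, 0] + p2 δ * X 2 := by
    apply MvPolynomial.funext
    intro x
    rw [he]
    simp only [map_add, map_mul, map_pow, eval_C, eval_X, eval_p1, eval_p2]
    simp only [hδ, Matrix.cons_val]
    linear_combination (-(x 0 ^ 3)) * E0 - (x 0 ^ 2 * x 1) * E1 - (x 0 * x 1 ^ 2) * E2
      - (x 1 ^ 3) * E3
  have hmem1 : p2 α * p1 ![m0, m1, 0] ∈ GLs F :=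
    Submodule.subset_span ⟨_, _, h1, p1_hom _, rfl⟩
  have hmem2 : p2 β * p1 ![n0, n1, 0] ∈ GLs F :=
    Submodule.subset_span ⟨_, _, h2, p1_hom _, rfl⟩
  have hD : Dom F (p2 δ) := by
    have hlin : ∀ (u v : ℝ) (x : Fin 3 → ℝ), (u * x 0 + v * x 1) ^ 2 ≤ (u ^ 2 + v ^ 2) * nsq x := by
      intro u v x
      unfold nsq
      nlinarith [sq_nonneg (u * x 1 - v * x 0), sq_nonneg (u * x 2), sq_nonneg (v * x 2)]
    refine dom_of_plane hF hP (p2_hom _)
      (3 * K + 3 * (|C1| * (m0 ^ 2 + m1 ^ 2)) + 3 * (|C2| * (n0 ^ 2 + n1 ^ 2))) (fun x => ?_) ?_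
    · have hx : x 2 * eval x (p2 δ) = eval x c - eval x (p2 α) * (m0 * x 0 + m1 * x 1)
          - eval x (p2 β) * (n0 * x 0 + n1 * x 1) := by
        rw [hdec]
        simp only [map_add, map_mul, eval_X, eval_p1]
        simp
        ring
      have hN := nsq_nonneg x
      have hFx := hP x
      have t1 : (eval x (p2 α) * (m0 * x 0 + m1 * x 1)) ^ 2
          ≤ |C1| * (m0 ^ 2 + m1 ^ 2) * (eval x F * nsq x) := by
        rw [mul_pow]
        calc (eval x (p2 α)) ^ 2 * (m0 * x 0 + m1 * x 1) ^ 2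
            ≤ (|C1| * eval x F) * ((m0 ^ 2 + m1 ^ 2) * nsq x) := by
              refine mul_le_mul ((hC1 x).trans (mul_le_mul_of_nonneg_right (le_abs_self _) hFx))
                (hlin _ _ _) (sq_nonneg _) (by positivity)
          _ = _ := by ring
      have t2 : (eval x (p2 β) * (n0 * x 0 + n1 * x 1)) ^ 2
          ≤ |C2| * (n0 ^ 2 + n1 ^ 2) * (eval x F * nsq x) := by
        rw [mul_pow]
        calc (eval x (p2 β)) ^ 2 * (n0 * x 0 + n1 * x 1) ^ 2
            ≤ (|C2| * eval x F) * ((n0 ^ 2 + n1 ^ 2) * nsq x) := by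
              refine mul_le_mul ((hC2 x).trans (mul_le_mul_of_nonneg_right (le_abs_self _) hFx))
                (hlin _ _ _) (sq_nonneg _) (by positivity)
          _ = _ := by ring
      have t0 := hK x
      rw [hx]
      set A := eval x c
      set B := eval x (p2 α) * (m0 * x 0 + m1 * x 1)
      set D := eval x (p2 β) * (n0 * x 0 + n1 * x 1)
      have : (A - B - D) ^ 2 ≤ 3 * A ^ 2 + 3 * B ^ 2 + 3 * D ^ 2 := by
        nlinarith [sq_nonneg (A + B), sq_nonneg (A + D), sq_nonneg (B - D)]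
      linarith
    · intro x hx hx2 hFx
      have q1 : eval x (p2 α) = 0 := by
        have := hC1 x
        rw [hFx, mul_zero] at this
        exact pow_eq_zero_iff two_ne_zero |>.1 (le_antisymm this (sq_nonneg _))
      have q2 : eval x (p2 β) = 0 := by
        have := hC2 x
        rw [hFx, mul_zero] at this
        exact pow_eq_zero_iff two_ne_zero |>.1 (le_antisymm this (sq_nonneg _))
      rw [eval_p2, hx2] at q1 q2
      have hx0 : x 0 = 0 := by
        obtain ⟨m0, m1, n0, n1, E0, E1, E2, E3⟩ := sylv _ _ _ _ _ _ hR 1 0 0 0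
        have : x 0 ^ 3 = 0 := by
          linear_combination (m0 * x 0 + m1 * x 1) * q1 + (n0 * x 0 + n1 * x 1) * q2
            - (x 0 ^ 3) * E0 - (x 0 ^ 2 * x 1) * E1 - (x 0 * x 1 ^ 2) * E2 - (x 1 ^ 3) * E3
        exact pow_eq_zero_iff three_ne_zero |>.1 this
      have hx1 : x 1 = 0 := by
        obtain ⟨m0, m1, n0, n1, E0, E1, E2, E3⟩ := sylv _ _ _ _ _ _ hR 0 0 0 1
        have : x 1 ^ 3 = 0 := by
          linear_combination (m0 * x 0 + m1 * x 1) * q1 + (n0 * x 0 + n1 * x 1) * q2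
            - (x 0 ^ 3) * E0 - (x 0 ^ 2 * x 1) * E1 - (x 0 * x 1 ^ 2) * E2 - (x 1 ^ 3) * E3
        exact pow_eq_zero_iff three_ne_zero |>.1 this
      unfold nsq at hx
      rw [hx0, hx1, hx2] at hx
      norm_num at hx
  rw [hdec]
  exact Submodule.add_mem _ (Submodule.add_mem _ hmem1 hmem2)
    (Submodule.subset_span ⟨_, _, hD, isHomogeneous_X ℝ 2, rfl⟩)

/-- two linearly independent vectors are the first two columns of an invertible matrix -/
theorem exists_cols {u v : Fin 3 → ℝ} (h : LinearIndependent ℝ ![u, v]) :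
    ∃ M : Matrix (Fin 3) (Fin 3) ℝ, IsUnit M.det ∧
      ∀ s t : ℝ, M.mulVec ![s, t, 0] = s • u + t • v := by
  let w : Fin 3 → ℝ := ![u 1 * v 2 - u 2 * v 1, u 2 * v 0 - u 0 * v 2, u 0 * v 1 - u 1 * v 0]
  refine ⟨!![u 0, v 0, w 0; u 1, v 1, w 1; u 2, v 2, w 2], ?_, ?_⟩
  · rw [isUnit_iff_ne_zero]
    intro h0
    have hw : w 0 ^ 2 + w 1 ^ 2 + w 2 ^ 2 = 0 := by
      rw [← h0, Matrix.det_fin_three]
      simp only [Matrix.of_apply, Matrix.cons_val, w]
      ring
    have hw0 : u 1 * v 2 - u 2 * v 1 = 0 := by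
      have : w 0 = 0 := by nlinarith [sq_nonneg (w 0), sq_nonneg (w 1), sq_nonneg (w 2)]
      simpa [w] using this
    have hw1 : u 2 * v 0 - u 0 * v 2 = 0 := by
      have : w 1 = 0 := by nlinarith [sq_nonneg (w 0), sq_nonneg (w 1), sq_nonneg (w 2)]
      simpa [w] using this
    have hw2 : u 0 * v 1 - u 1 * v 0 = 0 := by
      have : w 2 = 0 := by nlinarith [sq_nonneg (w 0), sq_nonneg (w 1), sq_nonneg (w 2)]
      simpa [w] using this
    rw [LinearIndependent.pair_iff] at h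
    have hu0 : ∀ i : Fin 3, u i = 0 := by
      intro i
      have := (h (v i) (-(u i)) (by
        funext j
        simp only [Pi.add_apply, Pi.smul_apply, smul_eq_mul, Pi.zero_apply]
        fin_cases i <;> fin_cases j <;> simp <;> linarith)).2
      simpa using this
    have := (h 1 0 (by funext j; simp [hu0 j])).1
    exact one_ne_zero this
  · intro s t
    funext i
    fin_cases i <;> simp [Matrix.mulVec, dotProduct, Fin.sum_univ_three] <;> ring

theorem pairStmt : PairStmt := by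
  intro F c q₁ q₂ hF hP hc h1 h2 u v huv a₁ b₁ c₁ a₂ b₂ c₂ he1 he2 hR
  obtain ⟨M, hM, hMv⟩ := exists_cols huv
  refine GLs_of_lsub hM ?_
  have H1 := Dom_lsub M h1
  have H2 := Dom_lsub M h2
  obtain ⟨α, hα⟩ := hom2_p2 H1.1
  obtain ⟨β, hβ⟩ := hom2_p2 H2.1
  have A : ∀ s t : ℝ, α 0 * s ^ 2 + α 1 * (s * t) + α 3 * t ^ 2
      = a₁ * s ^ 2 + b₁ * (s * t) + c₁ * t ^ 2 := by
    intro s t
    have := he1 s t
    rw [← hMv, ← eval_lsub, hα, eval_p2] at this
    simpa using this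
  have B : ∀ s t : ℝ, β 0 * s ^ 2 + β 1 * (s * t) + β 3 * t ^ 2
      = a₂ * s ^ 2 + b₂ * (s * t) + c₂ * t ^ 2 := by
    intro s t
    have := he2 s t
    rw [← hMv, ← eval_lsub, hβ, eval_p2] at this
    simpa using this
  have A0 : α 0 = a₁ := by have := A 1 0; norm_num at this; exact this
  have A3 : α 3 = c₁ := by have := A 0 1; norm_num at this; exact this
  have A1 : α 1 = b₁ := by have := A 1 1; norm_num at this; linarith
  have B0 : β 0 = a₂ := by have := B 1 0; norm_num at this; exact this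
  have B3 : β 3 = c₂ := by have := B 0 1; norm_num at this; exact this
  have B1 : β 1 = b₂ := by have := B 1 1; norm_num at this; linarith
  refine pair0 α β (lsub_hom M hF) (Psd_lsub M hP) (Cub_lsub M hP hc) (hα ▸ H1) (hβ ▸ H2) ?_
  rw [A0, A1, A3, B0, B1, B3]
  exact hR

end HQ151
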