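import Pool.Agent.R151.HQ2

/-! HQ-C3 (MP_ae0293_ag): step two for `F = m² h`. -/

open MvPolynomial
namespace HQ151

theorem dom_of_le {F m : P3} {h : P3} (hm : m.IsHomogeneous 1)
    (hF : ∀ x : Fin 3 → ℝ, eval x F = (eval x m) ^ 2 * eval x h) (i : Fin 3) (K : ℝ)
    (hi : ∀ x : Fin 3 → ℝ, (x i) ^ 2 ≤ K * eval x h) : Dom F (m * X i) := by
  refine ⟨hm.mul (isHomogeneous_X ℝ i), K, fun x => ?_⟩
  rw [map_mul, eval_X, hF, mul_pow]
  have := mul_le_mul_of_nonneg_left (hi x) (sq_nonneg (eval x m))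
  linarith

theorem mem_GLs {F q l : P3} (h : Dom F q) (hl : l.IsHomogeneous 1) : q * l ∈ GLs F :=
  Submodule.subset_span ⟨q, l, h, hl, rfl⟩

theorem core_factor (hN : NormStmt) (F m c2 h : P3) (n : ℕ) (l : Fin n → P3)
    (hm : m.IsHomogeneous 1) (hl : ∀ k, (l k).IsHomogeneous 1) (hh : h = ∑ k, l k ^ 2)
    (hF : ∀ x : Fin 3 → ℝ, eval x F = (eval x m) ^ 2 * eval x h) (hc2 : c2.IsHomogeneous 2)
    (K : ℝ) (hK : ∀ x : Fin 3 → ℝ, (eval x c2) ^ 2 ≤ K * (eval x h * nsq x)) : m * c2 ∈ GLs F := by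
  have hhom : h.IsHomogeneous 2 := by
    rw [hh]
    exact IsHomogeneous.sum _ _ _ fun k _ => by simpa using (hl k).pow 2
  have hpsd : Psd h := by
    intro x
    rw [hh, map_sum]
    exact Finset.sum_nonneg fun k _ => by rw [map_pow]; positivity
  by_cases h0 : h = 0
  · have : c2 = 0 := by
      apply MvPolynomial.funext
      intro x
      have := hK x
      rw [h0, map_zero, zero_mul, mul_zero] at this
      rw [map_zero]
      exact pow_eq_zero_iff (two_ne_zero) |>.1 (le_antisymm this (sq_nonneg _))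
    rw [this, mul_zero]
    exact Submodule.zero_mem _
  obtain ⟨M, hM, s, hs, hcases⟩ := hN h hhom h0
  apply GLs_of_lsub hM
  rw [map_mul]
  set m' := lsub M m with hm'
  have hm'h : m'.IsHomogeneous 1 := lsub_hom M hm
  obtain ⟨a, ha⟩ := hom2_p2 (lsub_hom M hc2)
  rw [ha]
  obtain ⟨L, hL0, hL⟩ := nsq_mulVec M
  have hF' : ∀ x : Fin 3 → ℝ, eval x (lsub M F) = (eval x m') ^ 2 * eval x (lsub M h) := by
    intro x
    rw [hm', eval_lsub, eval_lsub, eval_lsub, hF]
  have hpsd' : Psd (lsub M h) := Psd_lsub M hpsd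
  have hK' : ∀ x : Fin 3 → ℝ, (eval x (p2 a)) ^ 2 ≤ |K| * L * (eval x (lsub M h) * nsq x) := by
    intro x
    rw [← ha, eval_lsub, eval_lsub]
    have e1 := hK (M.mulVec x)
    have e2 := hL x
    have e3 := hpsd (M.mulVec x)
    have e5 := nsq_nonneg (M.mulVec x)
    calc (eval (M.mulVec x) c2) ^ 2 ≤ K * (eval (M.mulVec x) h * nsq (M.mulVec x)) := e1
      _ ≤ |K| * (eval (M.mulVec x) h * nsq (M.mulVec x)) :=
          mul_le_mul_of_nonneg_right (le_abs_self K) (mul_nonneg e3 e5)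
      _ ≤ |K| * (eval (M.mulVec x) h * (L * nsq x)) := by gcongr
      _ = |K| * L * (eval (M.mulVec x) h * nsq x) := by ring
  -- linear forms
  have hlin : ∀ b0 b1 b2 : ℝ, (C b0 * X 0 + C b1 * X 1 + C b2 * X 2 : P3).IsHomogeneous 1 :=
    fun b0 b1 b2 => p1_hom ![b0, b1, b2]
  rcases hcases with h1 | h1 | h1 | h1 | h1
  · -- `s z²`
    have hs0 : 0 < s := by
      have := hpsd' ![0, 0, 1]
      rw [h1] at this
      simp at this
      exact lt_of_le_of_ne this (Ne.symm hs)
    have hz : ∀ x y : ℝ, a 0 * x ^ 2 + a 1 * (x * y) + a 3 * y ^ 2 = 0 := by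
      intro x y
      have := hK' ![x, y, 0]
      rw [h1, eval_p2] at this
      simp at this
      exact this
    have e0 : a 0 = 0 := by have := hz 1 0; simpa using this
    have e3 : a 3 = 0 := by have := hz 0 1; simpa using this
    have e1 : a 1 = 0 := by have := hz 1 1; rw [e0, e3] at this; simpa using this
    have hd2 : Dom (lsub M F) (m' * X 2) := dom_of_le hm'h hF' 2 (1 / s) fun x => by
      rw [h1]; simp; field_simp; exact le_rfl
    have : m' * p2 a = m' * X 2 * (C (a 2) * X 0 + C (a 4) * X 1 + C (a 5) * X 2) := by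
      unfold p2; rw [e0, e1, e3]; simp; ring
    rw [this]
    exact mem_GLs hd2 (hlin _ _ _)
  · -- `s (y² + z²)`
    have hs0 : 0 < s := by
      have := hpsd' ![0, 0, 1]
      rw [h1] at this
      simp at this
      exact lt_of_le_of_ne this (Ne.symm hs)
    have e0 : a 0 = 0 := by
      have := hK' ![1, 0, 0]
      rw [h1, eval_p2] at this
      simp at this
      exact this
    have hd1 : Dom (lsub M F) (m' * X 1) := dom_of_le hm'h hF' 1 (1 / s) fun x => by
      rw [h1]; simp; field_simp; nlinarith [sq_nonneg (x 2)]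
    have hd2 : Dom (lsub M F) (m' * X 2) := dom_of_le hm'h hF' 2 (1 / s) fun x => by
      rw [h1]; simp; field_simp; nlinarith [sq_nonneg (x 1)]
    have : m' * p2 a = m' * X 1 * (C (a 1) * X 0 + C (a 3) * X 1 + C 0 * X 2) +
        m' * X 2 * (C (a 2) * X 0 + C (a 4) * X 1 + C (a 5) * X 2) := by
      unfold p2; rw [e0]; simp; ring
    rw [this]
    exact Submodule.add_mem _ (mem_GLs hd1 (hlin _ _ _)) (mem_GLs hd2 (hlin _ _ _))
  · exfalso
    have g1 := hpsd' ![0, 1, 1]
    have g2 := hpsd' ![0, 1, -1]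
    rw [h1] at g1 g2
    simp at g1 g2
    exact hs (le_antisymm g2 g1)
  · have hs0 : 0 < s := by
      have := hpsd' ![0, 0, 1]
      rw [h1] at this
      simp at this
      exact lt_of_le_of_ne this (Ne.symm hs)
    have hd0 : Dom (lsub M F) (m' * X 0) := dom_of_le hm'h hF' 0 (1 / s) fun x => by
      rw [h1]; simp; field_simp; nlinarith [sq_nonneg (x 1), sq_nonneg (x 2)]
    have hd1 : Dom (lsub M F) (m' * X 1) := dom_of_le hm'h hF' 1 (1 / s) fun x => by
      rw [h1]; simp; field_simp; nlinarith [sq_nonneg (x 0), sq_nonneg (x 2)]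
    have hd2 : Dom (lsub M F) (m' * X 2) := dom_of_le hm'h hF' 2 (1 / s) fun x => by
      rw [h1]; simp; field_simp; nlinarith [sq_nonneg (x 0), sq_nonneg (x 1)]
    have : m' * p2 a = m' * X 0 * (C (a 0) * X 0 + C 0 * X 1 + C 0 * X 2) +
        m' * X 1 * (C (a 1) * X 0 + C (a 3) * X 1 + C 0 * X 2) +
        m' * X 2 * (C (a 2) * X 0 + C (a 4) * X 1 + C (a 5) * X 2) := by
      unfold p2; simp; ring
    rw [this]
    exact Submodule.add_mem _ (Submodule.add_mem _ (mem_GLs hd0 (hlin _ _ _))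
      (mem_GLs hd1 (hlin _ _ _))) (mem_GLs hd2 (hlin _ _ _))
  · exfalso
    have g1 := hpsd' ![1, 0, 1]
    have g2 := hpsd' ![0, 1, 0]
    rw [h1] at g1 g2
    simp at g1 g2
    exact hs (le_antisymm g2 g1)

theorem div_X2 (c h : P3) (hc : c.IsHomogeneous 3) (K : ℝ)
    (hK : ∀ x : Fin 3 → ℝ, (eval x c) ^ 2 ≤ K * ((x 2) ^ 2 * eval x h * nsq x)) :
    ∃ c2 : P3, c2.IsHomogeneous 2 ∧ c = X 2 * c2 ∧
      ∀ x : Fin 3 → ℝ, (eval x c2) ^ 2 ≤ K * (eval x h * nsq x) := by
  obtain ⟨a, ha⟩ := hom3_rep hc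
  have hz : ∀ x y : ℝ, a 0 * x ^ 3 + a 1 * (x ^ 2 * y) + a 3 * (x * y ^ 2) + a 6 * y ^ 3 = 0 := by
    intro x y
    have := hK ![x, y, 0]
    rw [ha] at this
    simp at this
    exact this
  have e0 : a 0 = 0 := by have := hz 1 0; simpa using this
  have e6 : a 6 = 0 := by have := hz 0 1; simpa using this
  have e13 : a 1 + a 3 = 0 := by have := hz 1 1; rw [e0, e6] at this; simpa using this
  have e13' : a 1 * 4 + a 3 * 2 = 0 := by
    have := hz 2 1
    rw [e0, e6] at this
    norm_num at this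
    linarith
  have e1 : a 1 = 0 := by linarith
  have e3 : a 3 = 0 := by linarith
  have hcc : c = X 2 * p2 ![a 2, a 4, a 5, a 7, a 8, a 9] := by
    rw [ha, e0, e1, e3, e6]
    unfold p2
    simp
    ring
  refine ⟨p2 ![a 2, a 4, a 5, a 7, a 8, a 9], p2_hom _, hcc, ?_⟩
  set c2 := p2 ![a 2, a 4, a 5, a 7, a 8, a 9] with hc2
  have hne : ∀ x : Fin 3 → ℝ, x 2 ≠ 0 → (eval x c2) ^ 2 ≤ K * (eval x h * nsq x) := by
    intro x hx
    have h1 := hK x
    rw [hcc, map_mul, eval_X, mul_pow] at h1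
    have h2 : 0 < (x 2) ^ 2 := by positivity
    have h3 : (x 2) ^ 2 * (eval x c2) ^ 2 ≤ (x 2) ^ 2 * (K * (eval x h * nsq x)) := by linarith
    exact le_of_mul_le_mul_left h3 h2
  intro x
  by_cases hx : x 2 = 0
  · -- continuity
    have hcont : Continuous (fun t : ℝ => K * (eval (x + t • ![0, 0, 1]) h * nsq (x + t • ![0, 0, 1])) -
        (eval (x + t • ![0, 0, 1]) c2) ^ 2) := by
      have hl : Continuous (fun t : ℝ => x + t • (![0, 0, 1] : Fin 3 → ℝ)) := by fun_prop
      have hn : Continuous nsq := by unfold nsq; fun_prop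
      exact (continuous_const.mul (((continuous_eval h).comp hl).mul (hn.comp hl))).sub
        (((continuous_eval c2).comp hl).pow 2)
    have htend := (hcont.tendsto 0).mono_left (nhdsWithin_le_nhds (s := {0}ᶜ))
    have hge := ge_of_tendsto htend (b := 0) (by
      filter_upwards [self_mem_nhdsWithin] with t ht
      have h1 := hne (x + t • ![0, 0, 1]) (by
        simp [hx]
        exact ht)
      linarith)
    simp at hge
    linarith
  · exact hne x hx

/-- a substitution which sends a given linear form to `X 2` -/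
theorem exists_sub (m : P3) (hm : m.IsHomogeneous 1) (hm0 : m ≠ 0) :
    ∃ M : Matrix (Fin 3) (Fin 3) ℝ, IsUnit M.det ∧ lsub M m = X 2 := by
  obtain ⟨a, ha⟩ := hom1_p1 hm
  have key : ∀ B : Matrix (Fin 3) (Fin 3) ℝ, IsUnit B.det → (∀ j, B 2 j = a j) →
      ∃ M : Matrix (Fin 3) (Fin 3) ℝ, IsUnit M.det ∧ lsub M m = X 2 := by
    intro B hB hrow
    have hdet : IsUnit B⁻¹.det := by
      rw [Matrix.det_nonsing_inv]
      exact hB.ringInverse
    refine ⟨B⁻¹, hdet, ?_⟩
    have h1 : lsub B (X 2) = m := by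
      apply MvPolynomial.funext
      intro x
      rw [eval_lsub, eval_X, ha, eval_p1]
      simp only [Matrix.mulVec, dotProduct, Fin.sum_univ_three, hrow]
    rw [← h1]
    exact lsub_inv' hB _
  by_cases h2 : a 2 = 0
  · by_cases h1 : a 1 = 0
    · by_cases h0 : a 0 = 0
      · exfalso
        apply hm0
        rw [ha]
        unfold p1
        rw [h0, h1, h2]
        simp
      · refine key !![0, 1, 0; 0, 0, 1; a 0, a 1, a 2] ?_ (fun j => by fin_cases j <;> simp)
        rw [Matrix.det_fin_three]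
        simp
        exact h0
    · refine key !![1, 0, 0; 0, 0, 1; a 0, a 1, a 2] ?_ (fun j => by fin_cases j <;> simp)
      rw [Matrix.det_fin_three]
      simp
      exact h1
  · refine key !![1, 0, 0; 0, 1, 0; a 0, a 1, a 2] ?_ (fun j => by fin_cases j <;> simp)
    rw [Matrix.det_fin_three]
    simp
    exact h2

theorem factor_of (hN : NormStmt) : FactorStmt := by
  intro F c m n l hm hm0 hl hF hcub
  obtain ⟨M, hM, hMm⟩ := exists_sub m hm hm0
  have hpsd : Psd F := by
    intro x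
    rw [hF, map_sum]
    exact Finset.sum_nonneg fun k _ => by rw [map_pow]; positivity
  apply GLs_of_lsub hM
  obtain ⟨hc1, K, hK⟩ := Cub_lsub M hpsd hcub
  set h : P3 := ∑ k, (lsub M (l k)) ^ 2 with hh
  have hF1 : ∀ x : Fin 3 → ℝ, eval x (lsub M F) = (eval x (X 2 : P3)) ^ 2 * eval x h := by
    intro x
    rw [hF, map_sum, map_sum, hh, map_sum, Finset.mul_sum]
    refine Finset.sum_congr rfl fun k _ => ?_
    rw [map_pow, map_mul, hMm, map_pow, map_mul, map_pow, mul_pow]
  obtain ⟨c2, hc2, hcc, hK2⟩ := div_X2 (lsub M c) h hc1 K (fun x => by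
    have := hK x
    rw [hF1, eval_X] at this
    exact this)
  rw [hcc]
  exact core_factor hN (lsub M F) (X 2) c2 h n (fun k => lsub M (l k)) (isHomogeneous_X ℝ 2)
    (fun k => lsub_hom M (hl k)) hh hF1 hc2 K hK2

end HQ151
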