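import Pool.Agent.R151.HQ2
/-!
HQ-C4: step two for `F = κ (xz - y²)²`.
-/
open MvPolynomial
namespace HQ151

theorem conicStmt : ConicStmt := by
  intro c κ hκ hc
  obtain ⟨h3, K, hK⟩ := hc
  obtain ⟨a, ha⟩ := hom3_rep h3
  have ev : ∀ t : ℝ, a 0 + a 1 * t + (a 2 + a 3) * t ^ 2 + (a 4 + a 6) * t ^ 3
      + (a 5 + a 7) * t ^ 4 + a 8 * t ^ 5 + a 9 * t ^ 6 = 0 := by
    intro t
    have h1 := hK ![1, t, t ^ 2]
    have h2 : eval ![1, t, t ^ 2] (C κ * (X 0 * X 2 - X 1 ^ 2) ^ 2 : P3) = 0 := by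
      simp
    rw [h2, zero_mul, mul_zero] at h1
    have h4 : eval ![1, t, t ^ 2] c = 0 := by
      have h5 := le_antisymm h1 (sq_nonneg _)
      exact pow_eq_zero_iff (two_ne_zero) |>.1 h5
    rw [ha] at h4
    simp at h4
    linarith
  have e0 := ev 0
  have e1 := ev 1
  have e2 := ev (-1)
  have e3 := ev 2
  have e4 := ev (-2)
  have e5 := ev 3
  have e6 := ev (-3)
  norm_num at e0 e1 e2 e3 e4 e5 e6
  have z0 : a 0 = 0 := e0
  have z1 : a 1 = 0 := by linarith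
  have z2 : a 3 = -a 2 := by linarith
  have z3 : a 6 = -a 4 := by linarith
  have z4 : a 7 = -a 5 := by linarith
  have z5 : a 8 = 0 := by linarith
  have z6 : a 9 = 0 := by linarith
  have hq : (X 0 * X 2 - X 1 ^ 2 : P3).IsHomogeneous 2 :=
    ((isHomogeneous_X ℝ 0).mul (isHomogeneous_X ℝ 2)).sub ((isHomogeneous_X ℝ 1).pow 2)
  refine Submodule.subset_span ⟨X 0 * X 2 - X 1 ^ 2, p1 ![a 2, a 4, a 5], ⟨hq, 1 / κ, fun x => ?_⟩,
    p1_hom _, ?_⟩
  · rw [map_mul, eval_C, map_pow, ← mul_assoc, one_div, inv_mul_cancel₀ hκ.ne', one_mul]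
  · rw [ha, z0, z1, z2, z3, z4, z5, z6]
    simp only [p1, map_neg, map_zero, Matrix.cons_val_zero, Matrix.cons_val_one, Matrix.cons_val]
    ring

end HQ151
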