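import Pool.Agent.R151.HQ_A3
/-!
E: if the top form is invariant in some direction, then `f` is a sum of squares (MP_ae0293_ag).
-/
open MvPolynomial
namespace HQ151

namespace E

theorem sos_add {F G : P3} (hF : SOS F) (hG : SOS G) : SOS (F + G) := by
  obtain ⟨n, f, rfl⟩ := hF
  obtain ⟨m, g, rfl⟩ := hG
  refine ⟨n + m, Fin.append f g, ?_⟩
  rw [Fin.sum_univ_add]
  simp

theorem sos_sq (p : P3) : SOS (p ^ 2) := ⟨1, fun _ => p, by simp⟩

theorem sos_lsub {F : P3} (M : Matrix (Fin 3) (Fin 3) ℝ) (h : SOS F) : SOS (lsub M F) := by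
  obtain ⟨n, f, rfl⟩ := h
  exact ⟨n, fun i => lsub M (f i), by simp⟩

theorem exM {v : Fin 3 → ℝ} (hv : v ≠ 0) : ∃ M : Matrix (Fin 3) (Fin 3) ℝ, IsUnit M.det ∧
    ∀ x y z : ℝ, M.mulVec ![x, y, z] = M.mulVec ![x, y, 0] + z • v := by
  by_cases h2 : v 2 ≠ 0
  · refine ⟨!![1, 0, v 0; 0, 1, v 1; 0, 0, v 2], ?_, ?_⟩
    · rw [Matrix.det_fin_three]; simpa using h2
    · intro x y z
      funext i
      fin_cases i <;> simp [Matrix.mulVec, dotProduct, Fin.sum_univ_three] <;> ring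
  by_cases h1 : v 1 ≠ 0
  · refine ⟨!![1, 0, v 0; 0, 0, v 1; 0, 1, v 2], ?_, ?_⟩
    · rw [Matrix.det_fin_three]; simpa using h1
    · intro x y z
      funext i
      fin_cases i <;> simp [Matrix.mulVec, dotProduct, Fin.sum_univ_three] <;> ring
  by_cases h0 : v 0 ≠ 0
  · refine ⟨!![0, 0, v 0; 1, 0, v 1; 0, 1, v 2], ?_, ?_⟩
    · rw [Matrix.det_fin_three]; simpa using h0
    · intro x y z
      funext i
      fin_cases i <;> simp [Matrix.mulVec, dotProduct, Fin.sum_univ_three] <;> ring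
  · exfalso
    push Not at h0 h1 h2
    apply hv
    funext i
    fin_cases i <;> simp [h0, h1, h2]

theorem cub_zero {α β γ δ : ℝ} (h : ∀ z : ℝ, 0 ≤ α * z ^ 3 + β * z ^ 2 + γ * z + δ) : α = 0 := by
  refine A3.lin_zero (A := α) (B := β) (C' := γ) (D := δ) (fun t => ?_)
  by_cases ht : t = 0
  · subst ht; simp
  · have h1 := h (1 / t)
    have h2 : 0 ≤ t ^ 4 := by positivity
    have h3 := mul_nonneg h2 h1
    refine h3.trans (le_of_eq ?_)
    field_simp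

theorem aff_zero {p q : ℝ} (h : ∀ x : ℝ, 0 ≤ p * x + q) : p = 0 := by
  by_contra hp
  have := h (-(q + 1) / p)
  have e : p * (-(q + 1) / p) + q = -1 := by field_simp; ring
  rw [e] at this
  norm_num at this

theorem eval_sub1 (F : P3) (x : Fin 3 → ℝ) :
    eval x (aeval (![X 0, X 1, 1] : Fin 3 → P3) F) = eval ![x 0, x 1, 1] F := by
  induction F using MvPolynomial.induction_on with
  | C a => simp
  | add p q hp hq => simp only [map_add, hp, hq]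
  | mul_X p i hp =>
    simp only [map_mul, hp, aeval_X, eval_X]
    fin_cases i <;> simp

theorem biv (hH : HilbertStmt) (a : Fin 15 → ℝ) (h : ∀ x y : ℝ, 0 ≤ qv a x y 1) :
    ∃ (n : ℕ) (q : Fin n → P3), ∀ x : Fin 3 → ℝ,
      qv a (x 0) (x 1) 1 = ∑ i, (eval x (q i)) ^ 2 := by
  have hpsd : Psd (qp a) := by
    intro x
    rw [eval_qp]
    refine A3.nonneg_of_dense (P := fun t => qv a (x 0) (x 1) t) (by unfold qv; fun_prop) 0
      (fun t ht => ?_) (x 2)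
    have h1 := h (x 0 / t) (x 1 / t)
    have h2 : 0 ≤ t ^ 4 := by positivity
    have h3 := mul_nonneg h2 h1
    refine h3.trans (le_of_eq ?_)
    simp only [qv]
    field_simp
  obtain ⟨n, q, hq, hsum⟩ := hH (qp a) (A3.qp_hom a) hpsd
  refine ⟨n, fun i => aeval (![X 0, X 1, 1] : Fin 3 → P3) (q i), fun x => ?_⟩
  have h4 := eval_qp a ![x 0, x 1, 1]
  rw [hsum] at h4
  simp only [map_sum, map_pow] at h4
  simp only [eval_sub1]
  rw [h4]
  simp

theorem decomp {f : P3} (hf : f.totalDegree ≤ 4) :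
    f = homogeneousComponent 4 f + homogeneousComponent 3 f + homogeneousComponent 2 f
      + homogeneousComponent 1 f + homogeneousComponent 0 f := by
  have h1 := sum_homogeneousComponent f
  have h2 : ∑ i ∈ Finset.range (f.totalDegree + 1), homogeneousComponent i f =
      ∑ i ∈ Finset.range 5, homogeneousComponent i f := by
    apply Finset.sum_subset
    · intro i hi
      simp only [Finset.mem_range] at hi ⊢
      omega
    · intro i _ hi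
      simp only [Finset.mem_range, not_lt] at hi
      exact homogeneousComponent_eq_zero _ _ (by omega)
  rw [h2] at h1
  conv_lhs => rw [← h1]
  simp only [Finset.sum_range_succ, Finset.sum_range_zero]
  ring

end E

open E in
theorem deg_of (hH : HilbertStmt) : DegStmt := by
  intro f hdeg hpsd v hv hinv
  obtain ⟨M, hM, hMv⟩ := exM hv
  suffices hs : SOS (lsub M f) by
    have := sos_lsub M⁻¹ hs
    rwa [lsub_inv' hM] at this
  obtain ⟨a, ha⟩ := hom4_rep (lsub_hom M (homogeneousComponent_isHomogeneous 4 f))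
  obtain ⟨b, hb⟩ := hom3_rep (lsub_hom M (homogeneousComponent_isHomogeneous 3 f))
  obtain ⟨c, hc⟩ := hom2_p2 (lsub_hom M (homogeneousComponent_isHomogeneous 2 f))
  obtain ⟨d, hd⟩ := hom1_p1 (lsub_hom M (homogeneousComponent_isHomogeneous 1 f))
  obtain ⟨e, he⟩ : ∃ e : ℝ, homogeneousComponent 0 f = C e := ⟨_, homogeneousComponent_zero f⟩
  have hinv2 : ∀ x y z : ℝ, qv a x y z = qv a x y 0 := by
    intro x y z
    have e1 := eval_lsub M (homogeneousComponent 4 f) ![x, y, z]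
    have e2 := eval_lsub M (homogeneousComponent 4 f) ![x, y, 0]
    rw [ha, eval_qp, hMv, hinv] at e1
    rw [ha, eval_qp] at e2
    simpa using e1.trans e2.symm
  have hG : ∀ x : Fin 3 → ℝ, eval x (lsub M f) =
      b 9 * x 2 ^ 3 + (b 5 * x 0 + b 8 * x 1 + c 5) * x 2 ^ 2
      + (b 2 * x 0 ^ 2 + b 4 * (x 0 * x 1) + b 7 * x 1 ^ 2 + c 2 * x 0 + c 4 * x 1 + d 2) * x 2
      + (a 0 * x 0 ^ 4 + a 1 * (x 0 ^ 3 * x 1) + a 3 * (x 0 ^ 2 * x 1 ^ 2) + a 6 * (x 0 * x 1 ^ 3)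
        + a 10 * x 1 ^ 4
        + b 0 * x 0 ^ 3 + b 1 * (x 0 ^ 2 * x 1) + b 3 * (x 0 * x 1 ^ 2) + b 6 * x 1 ^ 3
        + c 0 * x 0 ^ 2 + c 1 * (x 0 * x 1) + c 3 * x 1 ^ 2 + d 0 * x 0 + d 1 * x 1 + e) := by
    intro x
    have e1 : lsub M f = qp a + (C (b 0) * X 0 ^ 3 + C (b 1) * (X 0 ^ 2 * X 1)
      + C (b 2) * (X 0 ^ 2 * X 2)
      + C (b 3) * (X 0 * X 1 ^ 2) + C (b 4) * (X 0 * X 1 * X 2) + C (b 5) * (X 0 * X 2 ^ 2)
      + C (b 6) * X 1 ^ 3 + C (b 7) * (X 1 ^ 2 * X 2) + C (b 8) * (X 1 * X 2 ^ 2)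
      + C (b 9) * X 2 ^ 3) + p2 c + p1 d + C e := by
      conv_lhs => rw [decomp hdeg]
      simp only [map_add]
      rw [ha, hb, hc, hd, he]
      simp [lsub]
    rw [e1]
    simp only [map_add]
    rw [eval_qp, eval_p2, eval_p1, hinv2]
    simp only [qv, map_mul, map_pow, eval_C, eval_X]
    ring
  have hpos : ∀ x y z : ℝ, 0 ≤ b 9 * z ^ 3 + (b 5 * x + b 8 * y + c 5) * z ^ 2
      + (b 2 * x ^ 2 + b 4 * (x * y) + b 7 * y ^ 2 + c 2 * x + c 4 * y + d 2) * z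
      + (a 0 * x ^ 4 + a 1 * (x ^ 3 * y) + a 3 * (x ^ 2 * y ^ 2) + a 6 * (x * y ^ 3)
        + a 10 * y ^ 4
        + b 0 * x ^ 3 + b 1 * (x ^ 2 * y) + b 3 * (x * y ^ 2) + b 6 * y ^ 3
        + c 0 * x ^ 2 + c 1 * (x * y) + c 3 * y ^ 2 + d 0 * x + d 1 * y + e) := by
    intro x y z
    have e1 := hG ![x, y, z]
    have e2 := Psd_lsub M hpsd ![x, y, z]
    rw [e1] at e2
    simpa using e2
  have hb9 : b 9 = 0 := cub_zero (hpos 0 0)
  have hquad : ∀ x y : ℝ, 0 ≤ b 5 * x + b 8 * y + c 5 ∧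
      ((b 2 * x ^ 2 + b 4 * (x * y) + b 7 * y ^ 2 + c 2 * x + c 4 * y + d 2) / 2) ^ 2 ≤
      (b 5 * x + b 8 * y + c 5) *
      (a 0 * x ^ 4 + a 1 * (x ^ 3 * y) + a 3 * (x ^ 2 * y ^ 2) + a 6 * (x * y ^ 3)
        + a 10 * y ^ 4
        + b 0 * x ^ 3 + b 1 * (x ^ 2 * y) + b 3 * (x * y ^ 2) + b 6 * y ^ 3
        + c 0 * x ^ 2 + c 1 * (x * y) + c 3 * y ^ 2 + d 0 * x + d 1 * y + e) := by
    intro x y
    have h1 := A3.quad (a := b 5 * x + b 8 * y + c 5)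
      (b := (b 2 * x ^ 2 + b 4 * (x * y) + b 7 * y ^ 2 + c 2 * x + c 4 * y + d 2) / 2)
      (c := a 0 * x ^ 4 + a 1 * (x ^ 3 * y) + a 3 * (x ^ 2 * y ^ 2) + a 6 * (x * y ^ 3)
        + a 10 * y ^ 4
        + b 0 * x ^ 3 + b 1 * (x ^ 2 * y) + b 3 * (x * y ^ 2) + b 6 * y ^ 3
        + c 0 * x ^ 2 + c 1 * (x * y) + c 3 * y ^ 2 + d 0 * x + d 1 * y + e) (fun z => by
        have h2 := hpos x y z
        rw [hb9] at h2
        refine h2.trans (le_of_eq ?_)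
        ring)
    exact ⟨h1.1, h1.2.2⟩
  have hb5 : b 5 = 0 := aff_zero (q := c 5) (fun x => by
    have := (hquad x 0).1; simpa using this)
  have hb8 : b 8 = 0 := aff_zero (q := c 5) (fun y => by
    have := (hquad 0 y).1; simpa using this)
  have hc5 : 0 ≤ c 5 := by have := (hquad 0 0).1; simpa using this
  -- the remaining bivariate polynomial
  set κ : ℝ := 1 / (4 * c 5) with hκ
  set a' : Fin 15 → ℝ := ![a 0 - κ * b 2 ^ 2, a 1 - κ * (2 * b 2 * b 4),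
    b 0 - κ * (2 * b 2 * c 2), a 3 - κ * (b 4 ^ 2 + 2 * b 2 * b 7),
    b 1 - κ * (2 * b 2 * c 4 + 2 * b 4 * c 2), c 0 - κ * (2 * b 2 * d 2 + c 2 ^ 2),
    a 6 - κ * (2 * b 4 * b 7), b 3 - κ * (2 * b 4 * c 4 + 2 * b 7 * c 2),
    c 1 - κ * (2 * b 4 * d 2 + 2 * c 2 * c 4), d 0 - κ * (2 * c 2 * d 2),
    a 10 - κ * b 7 ^ 2, b 6 - κ * (2 * b 7 * c 4), c 3 - κ * (2 * b 7 * d 2 + c 4 ^ 2),
    d 1 - κ * (2 * c 4 * d 2), e - κ * d 2 ^ 2] with ha'
  have hqa' : ∀ x y : ℝ, qv a' x y 1 =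
      (a 0 * x ^ 4 + a 1 * (x ^ 3 * y) + a 3 * (x ^ 2 * y ^ 2) + a 6 * (x * y ^ 3)
        + a 10 * y ^ 4
        + b 0 * x ^ 3 + b 1 * (x ^ 2 * y) + b 3 * (x * y ^ 2) + b 6 * y ^ 3
        + c 0 * x ^ 2 + c 1 * (x * y) + c 3 * y ^ 2 + d 0 * x + d 1 * y + e)
      - κ * (b 2 * x ^ 2 + b 4 * (x * y) + b 7 * y ^ 2 + c 2 * x + c 4 * y + d 2) ^ 2 := by
    intro x y
    rw [qv, ha']
    simp only [Matrix.cons_val]
    ring
  have hid : ∀ x y z : ℝ, b 9 * z ^ 3 + (b 5 * x + b 8 * y + c 5) * z ^ 2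
      + (b 2 * x ^ 2 + b 4 * (x * y) + b 7 * y ^ 2 + c 2 * x + c 4 * y + d 2) * z
      + (a 0 * x ^ 4 + a 1 * (x ^ 3 * y) + a 3 * (x ^ 2 * y ^ 2) + a 6 * (x * y ^ 3)
        + a 10 * y ^ 4
        + b 0 * x ^ 3 + b 1 * (x ^ 2 * y) + b 3 * (x * y ^ 2) + b 6 * y ^ 3
        + c 0 * x ^ 2 + c 1 * (x * y) + c 3 * y ^ 2 + d 0 * x + d 1 * y + e) =
      (Real.sqrt (c 5) * (z + 2 * κ * (b 2 * x ^ 2 + b 4 * (x * y) + b 7 * y ^ 2 + c 2 * x
        + c 4 * y + d 2))) ^ 2 + qv a' x y 1 := by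
    intro x y z
    rw [hqa', hb9, hb5, hb8, mul_pow, Real.sq_sqrt hc5]
    by_cases h0 : c 5 = 0
    · have h1 := (hquad x y).2
      rw [hb5, hb8, h0] at h1
      have h2 : (b 2 * x ^ 2 + b 4 * (x * y) + b 7 * y ^ 2 + c 2 * x + c 4 * y + d 2) = 0 := by
        have h3 : ((b 2 * x ^ 2 + b 4 * (x * y) + b 7 * y ^ 2 + c 2 * x + c 4 * y + d 2) / 2) ^ 2
            ≤ 0 := by
          refine h1.trans (le_of_eq ?_); ring
        have h4 := pow_eq_zero_iff two_ne_zero |>.1 (le_antisymm h3 (sq_nonneg _))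
        linarith
      rw [h2, h0]; ring
    · have hk : κ * (4 * c 5) = 1 := by rw [hκ]; field_simp
      obtain ⟨γ, hγ⟩ : ∃ γ, γ = b 2 * x ^ 2 + b 4 * (x * y) + b 7 * y ^ 2 + c 2 * x + c 4 * y
        + d 2 := ⟨_, rfl⟩
      rw [← hγ]
      linear_combination (-(z * γ) - κ * γ ^ 2) * hk
  obtain ⟨n, q, hq⟩ := biv hH a' (fun x y => by
    by_cases h0 : c 5 = 0
    · have h1 := hpos x y 0
      have hk : κ = 0 := by rw [hκ, h0]; simp
      rw [hqa', hk]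
      refine h1.trans (le_of_eq ?_); ring
    · have h1 := hpos x y (-(2 * κ * (b 2 * x ^ 2 + b 4 * (x * y) + b 7 * y ^ 2 + c 2 * x
        + c 4 * y + d 2)))
      rw [hid] at h1
      refine h1.trans (le_of_eq ?_); ring)
  have hfin : lsub M f = (C (Real.sqrt (c 5)) * (X 2 + C (2 * κ) * (C (b 2) * X 0 ^ 2
      + C (b 4) * (X 0 * X 1) + C (b 7) * X 1 ^ 2 + C (c 2) * X 0
        + C (c 4) * X 1 + C (d 2)))) ^ 2 + ∑ i, q i ^ 2 := by
    apply MvPolynomial.funext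
    intro x
    rw [hG, hid, hq]
    simp only [map_add, map_mul, map_pow, eval_C, eval_X, map_sum]
  rw [hfin]
  exact sos_add (sos_sq _) ⟨n, q, rfl⟩

end HQ151
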