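import Pool.Agent.R151.HQ2

/-! HQ-N (MP_ae0293_ag): consequences of nonnegativity. -/

open MvPolynomial
namespace HQ151

theorem eval_smul_quartic {f : P3} (hf : f.totalDegree ≤ 4) (s : ℝ) (x : Fin 3 → ℝ) :
    eval (s • x) f = s ^ 4 * eval x (homogeneousComponent 4 f) +
      s ^ 3 * eval x (homogeneousComponent 3 f) + s ^ 2 * eval x (homogeneousComponent 2 f) +
      s * eval x (homogeneousComponent 1 f) + eval x (homogeneousComponent 0 f) := by
  have h1 : f = ∑ i ∈ Finset.range 5, homogeneousComponent i f := by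
    conv_lhs => rw [← sum_homogeneousComponent f]
    apply Finset.sum_subset
    · intro i hi
      have := Finset.mem_range.1 hi
      exact Finset.mem_range.2 (by omega)
    · intro i _ hi
      have : f.totalDegree < i := by
        by_contra h
        exact hi (Finset.mem_range.2 (by omega))
      exact homogeneousComponent_eq_zero _ _ this
  have h2 : eval (s • x) f = ∑ i ∈ Finset.range 5, s ^ i * eval x (homogeneousComponent i f) := by
    conv_lhs => rw [h1]
    rw [map_sum]
    exact Finset.sum_congr rfl fun i _ =>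
      eval_smul_hom (homogeneousComponent_isHomogeneous i f) s x
  rw [h2]
  simp only [Finset.sum_range_succ, Finset.sum_range_zero]
  ring

theorem top_nonneg {a b d e g : ℝ} (h : ∀ s : ℝ, 0 ≤ s ^ 4 * a + s ^ 3 * b + s ^ 2 * d + s * e + g) :
    0 ≤ a := by
  by_contra ha
  push Not at ha
  set S := |b| + |d| + |e| + |g| with hS
  have hS0 : 0 ≤ S := by positivity
  set s := S / (-a) + 1 with hs
  have ha' : 0 < -a := by linarith
  have hs1 : 1 ≤ s := by rw [hs]; have := div_nonneg hS0 ha'.le; linarith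
  have hsa : s * (-a) = S + (-a) := by
    rw [hs, add_mul, div_mul_cancel₀ _ ha'.ne', one_mul]
  have h1 := h s
  have h2 : s ^ 3 * b ≤ s ^ 3 * |b| := mul_le_mul_of_nonneg_left (le_abs_self b) (by positivity)
  have h3 : s ^ 2 * d ≤ s ^ 3 * |d| := by
    calc s ^ 2 * d ≤ s ^ 2 * |d| := mul_le_mul_of_nonneg_left (le_abs_self d) (by positivity)
      _ ≤ s ^ 3 * |d| := mul_le_mul_of_nonneg_right (pow_le_pow_right₀ hs1 (by norm_num)) (abs_nonneg d)
  have h4 : s * e ≤ s ^ 3 * |e| := by
    calc s * e ≤ s * |e| := mul_le_mul_of_nonneg_left (le_abs_self e) (by positivity)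
      _ ≤ s ^ 3 * |e| := mul_le_mul_of_nonneg_right (by nlinarith [pow_le_pow_right₀ hs1 (show 1 ≤ 3 by norm_num)]) (abs_nonneg e)
  have h5 : g ≤ s ^ 3 * |g| := by
    calc g ≤ |g| := le_abs_self g
      _ ≤ s ^ 3 * |g| := le_mul_of_one_le_left (abs_nonneg g) (one_le_pow₀ hs1)
  have h6 : s ^ 3 * (s * a + S) = s ^ 4 * a + s ^ 3 * |b| + s ^ 3 * |d| + s ^ 3 * |e| + s ^ 3 * |g| := by
    rw [hS]; ring
  have h7 : s * a + S = a := by linarith
  rw [h7] at h6
  have h8 : s ^ 3 * a < 0 := mul_neg_of_pos_of_neg (by positivity) ha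
  linarith

theorem sq_bound {a b d e g M : ℝ} (ha : 0 ≤ a) (hb : |b| ≤ M) (hd : |d| ≤ M) (he : |e| ≤ M)
    (hg : |g| ≤ M) (h : ∀ s : ℝ, 0 ≤ s ^ 4 * a + s ^ 3 * b + s ^ 2 * d + s * e + g) :
    b ^ 2 ≤ 12 * M * a := by
  have hM : 0 ≤ M := (abs_nonneg b).trans hb
  have key : ∀ s : ℝ, 0 ≤ a * (s * s) + b * s + 3 * M := by
    intro s
    rcases le_total 1 |s| with hs | hs
    · have h1 := h s
      have hs2 : 1 ≤ s ^ 2 := by rw [← sq_abs]; nlinarith
      have h2 : s ^ 2 * d ≤ s ^ 2 * M :=
        mul_le_mul_of_nonneg_left ((le_abs_self d).trans hd) (by positivity)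
      have h3 : s * e ≤ s ^ 2 * M := by
        calc s * e ≤ |s * e| := le_abs_self _
          _ = |s| * |e| := abs_mul _ _
          _ ≤ |s| * M := mul_le_mul_of_nonneg_left he (abs_nonneg s)
          _ ≤ s ^ 2 * M := mul_le_mul_of_nonneg_right (by rw [← sq_abs]; nlinarith) hM
      have h4 : g ≤ s ^ 2 * M := by
        calc g ≤ M := (le_abs_self g).trans hg
          _ ≤ s ^ 2 * M := le_mul_of_one_le_left hM hs2
      have h5 : 0 ≤ s ^ 2 * (a * (s * s) + b * s + 3 * M) := by nlinarith
      exact nonneg_of_mul_nonneg_right h5 (by linarith)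
    · have h1 : -M ≤ b * s := by
        have : |b * s| ≤ M := by
          rw [abs_mul]
          calc |b| * |s| ≤ M * 1 := mul_le_mul hb hs (abs_nonneg s) hM
            _ = M := mul_one M
        exact (abs_le.1 this).1
      have h2 : 0 ≤ a * (s * s) := mul_nonneg ha (mul_self_nonneg s)
      linarith
  have := discrim_le_zero key
  unfold discrim at this
  linarith

theorem nonnegStmt : NonnegStmt := by
  intro f hf hpsd
  have hrep : ∀ (x : Fin 3 → ℝ) (s : ℝ), 0 ≤ s ^ 4 * eval x (homogeneousComponent 4 f) +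
      s ^ 3 * eval x (homogeneousComponent 3 f) + s ^ 2 * eval x (homogeneousComponent 2 f) +
      s * eval x (homogeneousComponent 1 f) + eval x (homogeneousComponent 0 f) := by
    intro x s
    rw [← eval_smul_quartic hf]
    exact hpsd _
  have h4 : Psd (homogeneousComponent 4 f) := fun x => top_nonneg (hrep x)
  refine ⟨h4, homogeneousComponent_isHomogeneous 3 f, ?_⟩
  -- bounds on the unit ball
  have hb : ∀ i : ℕ, ∃ M : ℝ, ∀ x ∈ Metric.closedBall (0 : Fin 3 → ℝ) 1,
      ‖eval x (homogeneousComponent i f)‖ ≤ M := fun i =>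
    (isCompact_closedBall (0 : Fin 3 → ℝ) 1).exists_bound_of_continuousOn
      (continuous_eval _).continuousOn
  choose Mi hMi using hb
  set M := |Mi 0| + |Mi 1| + |Mi 2| + |Mi 3| with hM
  have hsph : ∀ x : Fin 3 → ℝ, nsq x = 1 →
      (eval x (homogeneousComponent 3 f)) ^ 2 ≤ 12 * M * eval x (homogeneousComponent 4 f) := by
    intro x hx
    have hxb : x ∈ Metric.closedBall (0 : Fin 3 → ℝ) 1 := by
      rw [mem_closedBall_zero_iff, pi_norm_le_iff_of_nonneg zero_le_one]
      intro i
      rw [Real.norm_eq_abs]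
      unfold nsq at hx
      have : (x i) ^ 2 ≤ 1 := by
        fin_cases i
        · show (x 0) ^ 2 ≤ 1
          nlinarith [sq_nonneg (x 1), sq_nonneg (x 2)]
        · show (x 1) ^ 2 ≤ 1
          nlinarith [sq_nonneg (x 0), sq_nonneg (x 2)]
        · show (x 2) ^ 2 ≤ 1
          nlinarith [sq_nonneg (x 0), sq_nonneg (x 1)]
      exact abs_le_of_sq_le_sq (by simpa using this) zero_le_one |> fun h => h
    have hbd : ∀ i, |eval x (homogeneousComponent i f)| ≤ |Mi i| := fun i =>
      (hMi i x hxb).trans (le_abs_self _)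
    have n0 := abs_nonneg (Mi 0)
    have n1 := abs_nonneg (Mi 1)
    have n2 := abs_nonneg (Mi 2)
    have n3 := abs_nonneg (Mi 3)
    exact sq_bound (h4 x) ((hbd 3).trans (by rw [hM]; linarith)) ((hbd 2).trans (by rw [hM]; linarith))
      ((hbd 1).trans (by rw [hM]; linarith)) ((hbd 0).trans (by rw [hM]; linarith)) (hrep x)
  refine ⟨12 * M, fun x => ?_⟩
  by_cases hx : nsq x = 0
  · have hx0 : x = 0 := by
      unfold nsq at hx
      funext i
      fin_cases i
      · show x 0 = 0
        nlinarith [sq_nonneg (x 0), sq_nonneg (x 1), sq_nonneg (x 2)]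
      · show x 1 = 0
        nlinarith [sq_nonneg (x 0), sq_nonneg (x 1), sq_nonneg (x 2)]
      · show x 2 = 0
        nlinarith [sq_nonneg (x 0), sq_nonneg (x 1), sq_nonneg (x 2)]
    have h3 : eval x (homogeneousComponent 3 f) = 0 := by
      have := eval_smul_hom (homogeneousComponent_isHomogeneous 3 f) 0 x
      rw [hx0, smul_zero] at this
      rw [hx0, this]; ring
    rw [h3, hx]; simp
  · have hpos : 0 < nsq x := lt_of_le_of_ne (nsq_nonneg x) (Ne.symm hx)
    set r := Real.sqrt (nsq x) with hr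
    have hr0 : 0 < r := Real.sqrt_pos.2 hpos
    have hr2 : r ^ 2 = nsq x := Real.sq_sqrt hpos.le
    set y : Fin 3 → ℝ := r⁻¹ • x with hy
    have hxy : x = r • y := by rw [hy, smul_smul, mul_inv_cancel₀ hr0.ne', one_smul]
    have hny : nsq y = 1 := by
      have : nsq y = (r⁻¹) ^ 2 * nsq x := by
        rw [hy]; unfold nsq; simp only [Pi.smul_apply, smul_eq_mul]; ring
      rw [this, ← hr2]
      field_simp
    have h1 := hsph y hny
    have e3 : eval x (homogeneousComponent 3 f) = r ^ 3 * eval y (homogeneousComponent 3 f) := by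
      conv_lhs => rw [hxy]
      exact eval_smul_hom (homogeneousComponent_isHomogeneous 3 f) r y
    have e4 : eval x (homogeneousComponent 4 f) = r ^ 4 * eval y (homogeneousComponent 4 f) := by
      conv_lhs => rw [hxy]
      exact eval_smul_hom (homogeneousComponent_isHomogeneous 4 f) r y
    rw [e3, e4, ← hr2]
    calc (r ^ 3 * eval y (homogeneousComponent 3 f)) ^ 2
        = r ^ 6 * (eval y (homogeneousComponent 3 f)) ^ 2 := by ring
      _ ≤ r ^ 6 * (12 * M * eval y (homogeneousComponent 4 f)) :=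
          mul_le_mul_of_nonneg_left h1 (by positivity)
      _ = _ := by ring

end HQ151
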