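import Pool.Agent.R151.HQ2
/-!
NF: normal forms of ternary quadratic forms (`NormStmt`), for MP_ae0293_ag.
-/
open MvPolynomial
namespace HQ151

/-- the property to be proved in `NormStmt` -/
def NFGood (q : P3) : Prop :=
  ∃ M : Matrix (Fin 3) (Fin 3) ℝ, IsUnit M.det ∧ ∃ s : ℝ, s ≠ 0 ∧
    (lsub M q = C s * X 2 ^ 2 ∨ lsub M q = C s * (X 1 ^ 2 + X 2 ^ 2) ∨
      lsub M q = C s * (X 1 * X 2) ∨ lsub M q = C s * (X 0 ^ 2 + X 1 ^ 2 + X 2 ^ 2) ∨
      lsub M q = C s * (X 0 * X 2 - X 1 ^ 2))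

/-- diagonal form -/
noncomputable def NFD (a b c : ℝ) : P3 := C a * X 0 ^ 2 + C b * X 1 ^ 2 + C c * X 2 ^ 2

theorem eval_NFD (a b c : ℝ) (x : Fin 3 → ℝ) :
    eval x (NFD a b c) = a * x 0 ^ 2 + b * x 1 ^ 2 + c * x 2 ^ 2 := by simp [NFD]

theorem NFGood_of_lsub {q : P3} (N : Matrix (Fin 3) (Fin 3) ℝ) (hN : IsUnit N.det)
    (h : NFGood (lsub N q)) : NFGood q := by
  obtain ⟨M, hM, s, hs, h⟩ := h
  rw [lsub_lsub] at h
  exact ⟨N * M, by rw [Matrix.det_mul]; exact hN.mul hM, s, hs, h⟩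

theorem NFGood_scale {q : P3} (t : ℝ) (ht : t ≠ 0) (h : NFGood (C t * q)) : NFGood q := by
  obtain ⟨M, hM, s, hs, h⟩ := h
  have e : lsub M (C t * q) = C t * lsub M q := by
    rw [map_mul]; congr 1; simp [lsub]
  have key : ∀ r : P3, lsub M (C t * q) = C s * r → lsub M q = C (t⁻¹ * s) * r := by
    intro r hr
    rw [e] at hr
    have : C t⁻¹ * (C t * lsub M q) = C t⁻¹ * (C s * r) := by rw [hr]
    rw [← mul_assoc, ← mul_assoc, ← C_mul, ← C_mul, inv_mul_cancel₀ ht, C_1, one_mul] at this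
    exact this
  refine ⟨M, hM, t⁻¹ * s, mul_ne_zero (inv_ne_zero ht) hs, ?_⟩
  rcases h with h | h | h | h | h
  · exact Or.inl (key _ h)
  · exact Or.inr (Or.inl (key _ h))
  · exact Or.inr (Or.inr (Or.inl (key _ h)))
  · exact Or.inr (Or.inr (Or.inr (Or.inl (key _ h))))
  · exact Or.inr (Or.inr (Or.inr (Or.inr (key _ h))))

theorem NFD_lsub_of (a b c a' b' c' : ℝ) (N : Matrix (Fin 3) (Fin 3) ℝ)
    (h : ∀ x : Fin 3 → ℝ, a * (N.mulVec x 0) ^ 2 + b * (N.mulVec x 1) ^ 2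
      + c * (N.mulVec x 2) ^ 2 = a' * x 0 ^ 2 + b' * x 1 ^ 2 + c' * x 2 ^ 2) :
    lsub N (NFD a b c) = NFD a' b' c' := by
  apply MvPolynomial.funext
  intro x
  rw [eval_lsub, eval_NFD, eval_NFD, h x]

theorem NF_swap01 {a b c : ℝ} (h : NFGood (NFD b a c)) : NFGood (NFD a b c) := by
  refine NFGood_of_lsub !![0, 1, 0; 1, 0, 0; 0, 0, 1] (by simp [Matrix.det_fin_three]) ?_
  rw [NFD_lsub_of a b c b a c]
  · exact h
  · intro x
    simp [Matrix.mulVec, dotProduct, Fin.sum_univ_three]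
    ring

theorem NF_swap12 {a b c : ℝ} (h : NFGood (NFD a c b)) : NFGood (NFD a b c) := by
  refine NFGood_of_lsub !![1, 0, 0; 0, 0, 1; 0, 1, 0] (by simp [Matrix.det_fin_three]) ?_
  rw [NFD_lsub_of a b c a c b]
  · exact h
  · intro x
    simp [Matrix.mulVec, dotProduct, Fin.sum_univ_three]
    ring

theorem NF_neg {a b c : ℝ} (h : NFGood (NFD (-a) (-b) (-c))) : NFGood (NFD a b c) := by
  refine NFGood_scale (-1) (by norm_num) ?_
  have : C (-1 : ℝ) * NFD a b c = NFD (-a) (-b) (-c) := by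
    simp only [NFD, map_neg, C_1]; ring
  rwa [this]

/-- scaling -/
theorem NF_sign {a b c : ℝ}
    (h : NFGood (NFD (SignType.sign a : ℝ) (SignType.sign b : ℝ) (SignType.sign c : ℝ))) :
    NFGood (NFD a b c) := by
  have key : ∀ t : ℝ, ∃ u : ℝ, u ≠ 0 ∧ t * u ^ 2 = (SignType.sign t : ℝ) := by
    intro t
    rcases lt_trichotomy t 0 with ht | ht | ht
    · refine ⟨(Real.sqrt (-t))⁻¹, inv_ne_zero (Real.sqrt_ne_zero'.2 (by linarith)), ?_⟩
      rw [inv_pow, Real.sq_sqrt (by linarith), sign_neg ht]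
      simp only [SignType.coe_neg, SignType.coe_one]
      have h3 : t ≠ 0 := ht.ne
      field_simp
    · exact ⟨1, one_ne_zero, by simp [ht]⟩
    · refine ⟨(Real.sqrt t)⁻¹, inv_ne_zero (Real.sqrt_ne_zero'.2 ht), ?_⟩
      rw [inv_pow, Real.sq_sqrt ht.le, sign_pos ht]
      simp only [SignType.coe_one]
      field_simp
  obtain ⟨u, hu, hu2⟩ := key a
  obtain ⟨v, hv, hv2⟩ := key b
  obtain ⟨w, hw, hw2⟩ := key c
  refine NFGood_of_lsub !![u, 0, 0; 0, v, 0; 0, 0, w] ?_ ?_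
  · simp [Matrix.det_fin_three, hu, hv, hw]
  · rw [NFD_lsub_of a b c (SignType.sign a : ℝ) (SignType.sign b : ℝ) (SignType.sign c : ℝ)]
    · exact h
    · intro x
      rw [← hu2, ← hv2, ← hw2]
      simp [Matrix.mulVec, dotProduct, Fin.sum_univ_three]
      ring

theorem NF_001 : NFGood (NFD 0 0 1) :=
  ⟨1, by simp, 1, one_ne_zero, Or.inl (by rw [lsub_one]; simp [NFD])⟩

theorem NF_011 : NFGood (NFD 0 1 1) :=
  ⟨1, by simp, 1, one_ne_zero, Or.inr (Or.inl (by rw [lsub_one]; simp [NFD]))⟩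

theorem NF_111 : NFGood (NFD 1 1 1) :=
  ⟨1, by simp, 1, one_ne_zero, Or.inr (Or.inr (Or.inr (Or.inl (by rw [lsub_one]; simp [NFD]))))⟩

theorem NF_01m : NFGood (NFD 0 1 (-1)) := by
  refine ⟨!![1, 0, 0; 0, 1, 1; 0, 1, -1], ?_, 4, by norm_num, Or.inr (Or.inr (Or.inl ?_))⟩
  · simp [Matrix.det_fin_three]; norm_num
  · apply MvPolynomial.funext
    intro x
    rw [eval_lsub, eval_NFD]
    simp [Matrix.mulVec, dotProduct, Fin.sum_univ_three]
    ring

theorem NF_11m : NFGood (NFD 1 1 (-1)) := by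
  refine ⟨!![0, 2, 0; 1, 0, -1; 1, 0, 1], ?_, -4, by norm_num, Or.inr (Or.inr (Or.inr (Or.inr ?_)))⟩
  · simp [Matrix.det_fin_three]
  · apply MvPolynomial.funext
    intro x
    rw [eval_lsub, eval_NFD]
    simp [Matrix.mulVec, dotProduct, Fin.sum_univ_three]
    ring

theorem NF_00m : NFGood (NFD 0 0 (-1)) := NF_neg (by simpa using NF_001)

theorem NF_0mm : NFGood (NFD 0 (-1) (-1)) := NF_neg (by simpa using NF_011)

theorem NF_mmm : NFGood (NFD (-1) (-1) (-1)) := NF_neg (by simpa using NF_111)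

theorem NF_mm1 : NFGood (NFD (-1) (-1) 1) := NF_neg (by simpa using NF_11m)

theorem NF_base (u v w : ℝ) (hu : u = -1 ∨ u = 0 ∨ u = 1) (hv : v = -1 ∨ v = 0 ∨ v = 1)
    (hw : w = -1 ∨ w = 0 ∨ w = 1) (h : u ≠ 0 ∨ v ≠ 0 ∨ w ≠ 0) : NFGood (NFD u v w) := by
  rcases hu with rfl | rfl | rfl <;> rcases hv with rfl | rfl | rfl <;>
    rcases hw with rfl | rfl | rfl
  · exact NF_mmm
  · exact NF_swap12 (NF_swap01 NF_0mm)
  · exact NF_mm1
  · exact NF_swap01 NF_0mm
  · exact NF_swap01 (NF_swap12 NF_00m)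
  · exact NF_swap01 (NF_swap12 NF_01m)
  · exact NF_swap12 NF_mm1
  · exact NF_swap01 (NF_swap12 (NF_swap01 NF_01m))
  · exact NF_swap01 (NF_swap12 NF_11m)
  · exact NF_0mm
  · exact NF_swap12 NF_00m
  · exact NF_swap12 NF_01m
  · exact NF_00m
  · exact absurd h (by simp)
  · exact NF_001
  · exact NF_01m
  · exact NF_swap12 NF_001
  · exact NF_011
  · exact NF_swap01 (NF_swap12 NF_mm1)
  · exact NF_swap12 (NF_swap01 NF_01m)
  · exact NF_swap12 NF_11m
  · exact NF_swap01 NF_01m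
  · exact NF_swap01 (NF_swap12 NF_001)
  · exact NF_swap01 NF_011
  · exact NF_11m
  · exact NF_swap12 (NF_swap01 NF_011)
  · exact NF_111

theorem NF_sgn (t : ℝ) : (SignType.sign t : ℝ) = -1 ∨ (SignType.sign t : ℝ) = 0 ∨
    (SignType.sign t : ℝ) = 1 := by
  rcases lt_trichotomy t 0 with ht | ht | ht
  · left; simp [sign_neg ht]
  · right; left; simp [ht]
  · right; right; simp [sign_pos ht]

theorem NF_diag {a b c : ℝ} (h : a ≠ 0 ∨ b ≠ 0 ∨ c ≠ 0) : NFGood (NFD a b c) := by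
  apply NF_sign
  have key : ∀ t : ℝ, t ≠ 0 → (SignType.sign t : ℝ) ≠ 0 := by
    intro t ht h0
    rcases lt_or_gt_of_ne ht with h | h
    · simp [sign_neg h] at h0
    · simp [sign_pos h] at h0
  refine NF_base _ _ _ (NF_sgn a) (NF_sgn b) (NF_sgn c) ?_
  rcases h with h | h | h
  · exact Or.inl (key _ h)
  · exact Or.inr (Or.inl (key _ h))
  · exact Or.inr (Or.inr (key _ h))

theorem normStmt : NormStmt := by
  intro q hq hq0
  obtain ⟨a, rfl⟩ := hom2_p2 hq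
  change NFGood (p2 a)
  set S : Matrix (Fin 3) (Fin 3) ℝ :=
    !![a 0, a 1 / 2, a 2 / 2; a 1 / 2, a 3, a 4 / 2; a 2 / 2, a 4 / 2, a 5] with hS
  have hherm : S.IsHermitian := by
    ext i j
    fin_cases i <;> fin_cases j <;> simp [hS, Matrix.conjTranspose]
  have hval : ∀ x : Fin 3 → ℝ, eval x (p2 a) = x ⬝ᵥ S.mulVec x := by
    intro x
    rw [eval_p2]
    simp [hS, Matrix.mulVec, dotProduct, Fin.sum_univ_three]
    ring
  set U : Matrix (Fin 3) (Fin 3) ℝ := (hherm.eigenvectorUnitary : Matrix (Fin 3) (Fin 3) ℝ) with hU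
  have hUU : star U * U = 1 := by
    have := hherm.eigenvectorUnitary.2
    exact (Matrix.mem_unitaryGroup_iff'.1 this)
  have hdet : IsUnit U.det := by
    have := congrArg Matrix.det hUU
    rw [Matrix.det_mul, Matrix.det_one] at this
    exact IsUnit.of_mul_eq_one _ (by rw [mul_comm]; exact this)
  have hspec := hherm.spectral_theorem
  have hspec2 : star U * S * U = Matrix.diagonal hherm.eigenvalues := by
    have h1 := hherm.conjStarAlgAut_star_eigenvectorUnitary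
    rw [Unitary.conjStarAlgAut_star_apply] at h1
    simpa [hU] using h1
  have hl : lsub U (p2 a) = NFD (hherm.eigenvalues 0) (hherm.eigenvalues 1)
      (hherm.eigenvalues 2) := by
    apply MvPolynomial.funext
    intro x
    rw [eval_lsub, hval, eval_NFD]
    have : (U.mulVec x) ⬝ᵥ S.mulVec (U.mulVec x) = x ⬝ᵥ (star U * S * U).mulVec x := by
      rw [Matrix.mulVec_mulVec, Matrix.dotProduct_mulVec, Matrix.vecMul_mulVec]
      rw [Matrix.mul_assoc, Matrix.dotProduct_mulVec]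
      rfl
    rw [this, hspec2]
    simp [Matrix.mulVec, dotProduct, Fin.sum_univ_three, Matrix.diagonal]
    ring
  apply NFGood_of_lsub U hdet
  rw [hl]
  apply NF_diag
  by_contra hcon
  push Not at hcon
  obtain ⟨e0, e1, e2⟩ := hcon
  rw [e0, e1, e2] at hl
  have : lsub U (p2 a) = 0 := by rw [hl]; simp [NFD]
  have h2 := lsub_inv' hdet (p2 a)
  rw [this, map_zero] at h2
  exact hq0 h2.symm

end HQ151
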