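import Mathlib

/-!
# Selectively highly divergent spaces: Cantor cube and Σ-product
-/

open Filter Topology

namespace Pool.Agent.R151.SHD

universe u

/-- Selectively highly divergent spaces. -/
def SHD (X : Type u) [TopologicalSpace X] : Prop :=
  ∀ U : ℕ → Set X, (∀ n, IsOpen (U n) ∧ (U n).Nonempty) →
    ∃ x : ℕ → X, (∀ n, x n ∈ U n) ∧
      ∀ φ : ℕ → ℕ, StrictMono φ → ∀ a : X, ¬ Tendsto (x ∘ φ) atTop (𝓝 a)

/-- The index set, of cardinality continuum. -/
abbrev T : Type := (ℕ → ℕ) × ℝ

/-- The Cantor cube of weight continuum. -/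
abbrev K : Type := T → Bool

/-- The Σ-product: points with countable support. -/
def D : Set K := {x | {t | x t = true}.Countable}

open Classical in
/-- restriction of the support of a point to a set -/
noncomputable def rho (A : Set T) (x : K) : K := fun t => if t ∈ A then x t else false

theorem rho_mem {A : Set T} (hA : A.Countable) (x : K) : rho A x ∈ D := by
  refine hA.mono ?_
  intro t ht
  by_contra h
  simp [rho, h] at ht

theorem continuous_rho (A : Set T) : Continuous (rho A) := by
  refine continuous_pi fun t => ?_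
  by_cases h : t ∈ A
  · simp only [rho, h, if_true]; exact continuous_apply t
  · simp only [rho, h, if_false]; exact continuous_const

theorem dense_D : Dense D := by
  classical
  intro x
  have h : Tendsto (fun F : Finset T => rho (F : Set T) x) atTop (𝓝 x) := by
    rw [tendsto_pi_nhds]
    intro t
    apply tendsto_const_nhds.congr'
    filter_upwards [eventually_ge_atTop ({t} : Finset T)] with F hF
    have : t ∈ F := hF (Finset.mem_singleton_self t)
    simp [rho, this]
  exact mem_closure_of_tendsto h (Eventually.of_forall fun F => rho_mem F.countable_toSet x)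

/-- The Σ-product is sequentially compact. -/
theorem exists_subseq (x : ℕ → K) {A : Set T} (hA : A.Countable)
    (hx : ∀ n t, x n t = true → t ∈ A) :
    ∃ φ : ℕ → ℕ, StrictMono φ ∧ ∃ a : K, (∀ t, a t = true → t ∈ A) ∧
      Tendsto (x ∘ φ) atTop (𝓝 a) := by
  classical
  have : Countable A := hA.to_subtype
  obtain ⟨b, φ, hφ, hb⟩ := SeqCompactSpace.tendsto_subseq (fun n (t : A) => x n t)
  refine ⟨φ, hφ, fun t => if h : t ∈ A then b ⟨t, h⟩ else false, ?_, ?_⟩
  · intro t ht
    by_contra h
    simp [h] at ht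
  · rw [tendsto_pi_nhds]
    intro t
    by_cases h : t ∈ A
    · simp only [h, dif_pos]
      exact (tendsto_pi_nhds.1 hb) ⟨t, h⟩
    · simp only [h, dif_neg, not_false_eq_true]
      apply tendsto_const_nhds.congr
      intro n
      have : x (φ n) t ≠ true := fun h' => h (hx _ _ h')
      simpa using this.symm

theorem countable_iUnion_supp (x : ℕ → D) :
    (⋃ n, {t | (x n : K) t = true}).Countable :=
  Set.countable_iUnion fun n => (x n).2

theorem seqCompact_D (x : ℕ → D) :
    ∃ φ : ℕ → ℕ, StrictMono φ ∧ ∃ a : D, Tendsto (x ∘ φ) atTop (𝓝 a) := by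
  obtain ⟨φ, hφ, a, ha, hlim⟩ := exists_subseq (fun n => (x n : K)) (countable_iUnion_supp x)
    (fun n t h => Set.mem_iUnion.2 ⟨n, h⟩)
  refine ⟨φ, hφ, ⟨a, (countable_iUnion_supp x).mono ha⟩, ?_⟩
  rw [tendsto_subtype_rng]
  exact hlim

theorem not_SHD_D : ¬ SHD D := by
  intro h
  obtain ⟨x, -, hx⟩ := h (fun _ => Set.univ) (fun n => ⟨isOpen_univ, ⟨⟨rho ∅ (fun _ => true),
    rho_mem Set.countable_empty _⟩, trivial⟩⟩)
  obtain ⟨φ, hφ, a, ha⟩ := seqCompact_D x
  exact hx φ hφ a ha

theorem SHD_K : SHD K := by
  classical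
  intro U hU
  have h1 : ∀ n, ∃ (p : K) (F : Finset T), ∀ y : K, (∀ t ∈ F, y t = p t) → y ∈ U n := by
    intro n
    obtain ⟨p, hp⟩ := (hU n).2
    obtain ⟨F, u, hu, hsub⟩ := isOpen_pi_iff.1 (hU n).1 p hp
    refine ⟨p, F, fun y hy => hsub ?_⟩
    intro t ht
    rw [hy t ht]
    exact (hu t ht).2
  choose p F hF using h1
  let x : ℕ → K := fun n t => if t ∈ F n then p n t else decide (∃ k, Even k ∧ t.1 k = n)
  refine ⟨x, fun n => hF n _ (fun t ht => by simp [x, ht]), ?_⟩
  intro φ hφ a ha
  -- choose a real avoiding the second coordinates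
  have hC : (Prod.snd '' (⋃ n, (F n : Set T))).Countable :=
    (Set.countable_iUnion fun n => (F n).countable_toSet).image _
  obtain ⟨r, hr⟩ : ∃ r : ℝ, r ∉ Prod.snd '' (⋃ n, (F n : Set T)) := by
    by_contra h
    push Not at h
    have : (Set.univ : Set ℝ).Countable := hC.mono fun r _ => h r
    exact Set.not_countable_univ this
  have hval : ∀ k, x (φ k) (φ, r) = decide (Even k) := by
    intro k
    have hnot : (φ, r) ∉ F (φ k) := by
      intro h
      exact hr ⟨(φ, r), Set.mem_iUnion.2 ⟨φ k, h⟩, rfl⟩
    simp only [x, hnot, if_false]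
    congr 1
    apply propext
    constructor
    · rintro ⟨j, hj, hjk⟩
      rw [← hφ.injective hjk]
      exact hj
    · intro h
      exact ⟨k, h, rfl⟩
  have hlim := (tendsto_pi_nhds.1 ha) (φ, r)
  have hlim' : Tendsto (fun k : ℕ => decide (Even k)) atTop (𝓝 (a (φ, r))) := by
    refine hlim.congr ?_
    intro k
    exact hval k
  rw [nhds_discrete, tendsto_pure] at hlim'
  obtain ⟨N, hN⟩ := eventually_atTop.1 hlim'
  have h2 := hN (2 * N) (by omega)
  have h3 := hN (2 * N + 1) (by omega)
  rw [← h2] at h3
  have h4 : ¬ Even (2 * N + 1) := by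
    rw [Nat.not_even_iff_odd]; exact odd_two_mul_add_one N
  have h5 : Even (2 * N) := even_two_mul N
  simp [h4, h5] at h3

/-- Being SHD is invariant under homeomorphisms. -/
theorem SHD.of_homeomorph {X Y : Type*} [TopologicalSpace X] [TopologicalSpace Y]
    (e : X ≃ₜ Y) (h : SHD Y) : SHD X := by
  intro U hU
  obtain ⟨y, hy, hd⟩ := h (fun n => e.symm ⁻¹' U n) (fun n =>
    ⟨(hU n).1.preimage e.symm.continuous, by
      obtain ⟨p, hp⟩ := (hU n).2
      exact ⟨e p, by simpa using hp⟩⟩)
  refine ⟨fun n => e.symm (y n), hy, ?_⟩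
  intro φ hφ a ha
  apply hd φ hφ (e a)
  have := (e.continuous.tendsto a).comp ha
  refine this.congr ?_
  intro n
  simp

/-! ## The Stone–Čech compactification of the Σ-product is the cube -/

/-- For every `ε` a continuous real function on the Σ-product depends, up to `ε`, on countably
many coordinates only. -/
theorem exists_countable_eps (f : D → ℝ) (hf : Continuous f) (ε : ℝ) (hε : 0 < ε) :
    ∃ (A : Set T) (hA : A.Countable), ∀ x : D,
      |f x - f ⟨rho A x, rho_mem hA x⟩| ≤ ε := by
  classical
  by_contra hcon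
  push Not at hcon
  choose c hc using hcon
  -- the countable sets
  let S : ℕ → {A : Set T // A.Countable} := fun n =>
    Nat.rec ⟨∅, Set.countable_empty⟩
      (fun _ A => ⟨A.1 ∪ {t | (c A.1 A.2).1 t = true}, A.2.union (c A.1 A.2).2⟩) n
  have hS : ∀ n, (S (n + 1)).1 = (S n).1 ∪ {t | (c (S n).1 (S n).2).1 t = true} :=
    fun n => rfl
  have hmono : ∀ n m, n ≤ m → (S n).1 ⊆ (S m).1 := by
    intro n m h
    induction h with
    | refl => exact subset_rfl
    | step _ ih => exact ih.trans (by rw [hS]; exact Set.subset_union_left)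
  let x : ℕ → D := fun n => c (S n).1 (S n).2
  let y : ℕ → D := fun n => ⟨rho (S n).1 (x n), rho_mem (S n).2 _⟩
  have hxy : ∀ n, ε < |f (x n) - f (y n)| := fun n => hc (S n).1 (S n).2
  obtain ⟨φ, hφ, a, ha⟩ := seqCompact_D x
  have hy : Tendsto (y ∘ φ) atTop (𝓝 a) := by
    rw [tendsto_subtype_rng, tendsto_pi_nhds] at *
    intro t
    by_cases ht : ∃ m, t ∈ (S m).1
    · obtain ⟨m, hm⟩ := ht
      refine (ha t).congr' ?_
      filter_upwards [eventually_ge_atTop m] with n hn
      have h1 : t ∈ (S (φ n)).1 := hmono m (φ n) (hn.trans (hφ.id_le n)) hm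
      simp [y, rho, h1]
    · push Not at ht
      have h1 : ∀ n, (x n : K) t = false := by
        intro n
        by_contra h
        apply ht (n + 1)
        rw [hS]
        right
        simpa using h
      refine (ha t).congr ?_
      intro n
      simp [y, rho, h1]
  have h2 : Tendsto (fun n => f (x (φ n)) - f (y (φ n))) atTop (𝓝 (f a - f a)) :=
    ((hf.tendsto a).comp ha).sub ((hf.tendsto a).comp hy)
  rw [sub_self] at h2
  have h3 := (h2.abs)
  rw [abs_zero] at h3
  obtain ⟨n, hn⟩ := (h3.eventually (gt_mem_nhds hε)).exists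
  exact absurd hn (not_lt.2 (hxy (φ n)).le)

theorem rho_rho {A B : Set T} (h : B ⊆ A) (x : K) : rho B (rho A x) = rho B x := by
  funext t
  by_cases hB : t ∈ B
  · simp [rho, hB, h hB]
  · simp [rho, hB]

/-- A continuous real function on the Σ-product depends on countably many coordinates. -/
theorem exists_countable (f : D → ℝ) (hf : Continuous f) :
    ∃ (A : Set T) (hA : A.Countable), ∀ x : D, f x = f ⟨rho A x, rho_mem hA x⟩ := by
  have h := fun n : ℕ => exists_countable_eps f hf (1 / ((n : ℝ) + 1)) (by positivity)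
  choose A hA hAf using h
  have hU : (⋃ n, A n).Countable := Set.countable_iUnion hA
  refine ⟨⋃ n, A n, hU, ?_⟩
  intro x
  have hle : ∀ n : ℕ, |f x - f ⟨rho (⋃ n, A n) x, rho_mem hU x⟩| ≤ 2 * (1 / ((n : ℝ) + 1)) := by
    intro n
    have h1 := hAf n x
    have h2 := hAf n ⟨rho (⋃ n, A n) x, rho_mem hU x⟩
    have h3 : (⟨rho (A n) (rho (⋃ n, A n) (x : K)), rho_mem (hA n) _⟩ : D) =
        ⟨rho (A n) x, rho_mem (hA n) _⟩ := by
      apply Subtype.ext
      exact rho_rho (Set.subset_iUnion A n) _
    simp only at h2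
    rw [h3] at h2
    rw [abs_le] at *
    constructor <;> linarith [h1.1, h1.2, h2.1, h2.2]
  have hlim : Tendsto (fun n : ℕ => 2 * (1 / ((n : ℝ) + 1))) atTop (𝓝 0) := by
    have := (tendsto_one_div_add_atTop_nhds_zero_nat (𝕜 := ℝ)).const_mul 2
    rwa [mul_zero] at this
  have h0 := ge_of_tendsto' hlim hle
  have h1 := abs_eq_zero.1 (le_antisymm h0 (abs_nonneg _))
  linarith

/-- Continuous real functions extend from the Σ-product to the cube. -/
theorem exists_extension (f : D → ℝ) (hf : Continuous f) :
    ∃ F : K → ℝ, Continuous F ∧ ∀ x : D, F x = f x := by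
  obtain ⟨A, hA, hfA⟩ := exists_countable f hf
  refine ⟨fun x => f ⟨rho A x, rho_mem hA x⟩, ?_, fun x => (hfA x).symm⟩
  exact hf.comp ((continuous_rho A).subtype_mk _)

/-- The canonical map from the Stone–Čech compactification. -/
noncomputable def ext : StoneCech D → K :=
  stoneCechExtend (g := (Subtype.val : D → K)) continuous_subtype_val

theorem continuous_ext : Continuous ext := continuous_stoneCechExtend _

theorem ext_unit (x : D) : ext (stoneCechUnit x) = x := stoneCechExtend_stoneCechUnit _ x

theorem ext_injective : Function.Injective ext := by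
  intro p q hpq
  by_contra hne
  obtain ⟨g, hg, hgpq⟩ := separatesPoints_continuous_of_t35Space (X := StoneCech D) hne
  have hg' : Continuous g := hg
  obtain ⟨F, hF, hFf⟩ := exists_extension (g ∘ stoneCechUnit)
    (hg'.comp continuous_stoneCechUnit)
  have heq : F ∘ ext = g := by
    apply denseRange_stoneCechUnit.equalizer (hF.comp continuous_ext) hg'
    funext x
    simp only [Function.comp_apply, ext_unit, hFf]
  apply hgpq
  rw [← heq]
  simp [hpq]

theorem ext_surjective : Function.Surjective ext := by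
  intro y
  have h1 : IsClosed (Set.range ext) := (isCompact_range continuous_ext).isClosed
  have h2 : D ⊆ Set.range ext := fun x hx => ⟨stoneCechUnit ⟨x, hx⟩, ext_unit ⟨x, hx⟩⟩
  have h3 : closure D ⊆ Set.range ext := h1.closure_subset_iff.2 h2
  exact h3 (dense_D y)

/-- The Stone–Čech compactification of the Σ-product is the cube. -/
noncomputable def homeo : StoneCech D ≃ₜ K :=
  Continuous.homeoOfEquivCompactToT2 (f := Equiv.ofBijective ext ⟨ext_injective, ext_surjective⟩)
    continuous_ext

theorem SHD_stoneCech : SHD (StoneCech D) := SHD.of_homeomorph homeo SHD_K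

theorem not_compact_D : ¬ CompactSpace D := by
  intro h
  have h1 : IsClosed D := (isCompact_iff_compactSpace.2 h).isClosed
  have h2 : D = Set.univ := by
    rw [← h1.closure_eq]; exact dense_D.closure_eq
  have h3 : (fun _ => true : K) ∈ D := by rw [h2]; trivial
  have h4 : (Set.univ : Set T).Countable := by
    refine Set.Countable.mono ?_ h3
    intro t _
    rfl
  have h5 : (Set.univ : Set ℝ).Countable := by
    refine (h4.image Prod.snd).mono ?_
    intro r _
    exact ⟨(id, r), trivial, rfl⟩
  exact Set.not_countable_univ h5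

end Pool.Agent.R151.SHD
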