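import Mathlib

/-!
# The combinatorics of the spiral in the order-`k` triangular tiling

Vertices are numbered `0, 1, 2, …` along the spiral.  The outer neighbours of the vertex `j` are
`A j, A j + 1, …, A (j+1)`, and `o j` is the number of the other neighbours of `j`.
-/

namespace Pool.Agent.R151.Spiral

/-- the number of the non-outer neighbours of `j`, given the set of the special vertices -/
def oidx (S : Finset ℕ) (j : ℕ) : ℕ :=
  if j = 0 then 0 else if j = 1 then 2 else if j ∈ S then 4 else 3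

/-- the recursion -/
def st (k : ℕ) : ℕ → ℕ × Finset ℕ
  | 0 => (1, ∅)
  | j + 1 => ((st k j).1 + (k - 1 - oidx (st k j).2 j),
      insert ((st k j).1 + (k - 1 - oidx (st k j).2 j)) (st k j).2)

/-- the first outer neighbour of `j` -/
def A (k j : ℕ) : ℕ := (st k j).1

/-- the number of the non-outer neighbours of `j` -/
def o (k j : ℕ) : ℕ := oidx (st k j).2 j

lemma A_zero (k : ℕ) : A k 0 = 1 := rfl

lemma A_succ (k j : ℕ) : A k (j + 1) = A k j + (k - 1 - o k j) := rfl

lemma o_zero (k : ℕ) : o k 0 = 0 := by simp [o, oidx]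

lemma o_one (k : ℕ) : o k 1 = 2 := by simp [o, oidx]

lemma o_le (k j : ℕ) : o k j ≤ 4 := by
  unfold o oidx; split_ifs <;> omega

lemma mem_st (k j b : ℕ) : b ∈ (st k j).2 ↔ ∃ i < j, A k (i + 1) = b := by
  induction j with
  | zero => simp [st]
  | succ j ih =>
    rw [show (st k (j + 1)).2 = insert (A k (j + 1)) (st k j).2 from rfl, Finset.mem_insert, ih]
    constructor
    · rintro (h | ⟨i, hi, h⟩)
      · exact ⟨j, by omega, h.symm⟩
      · exact ⟨i, by omega, h⟩
    · rintro ⟨i, hi, h⟩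
      rcases Nat.lt_succ_iff_lt_or_eq.mp hi with h' | h'
      · exact Or.inr ⟨i, h', h⟩
      · subst h'; exact Or.inl h.symm

lemma A_lb {k : ℕ} (hk : 7 ≤ k) (j : ℕ) : 2 * j + 1 ≤ A k j := by
  induction j with
  | zero => simp [A_zero]
  | succ j ih => rw [A_succ]; have := o_le k j; omega

lemma A_lt_succ {k : ℕ} (hk : 7 ≤ k) (j : ℕ) : A k j + 2 ≤ A k (j + 1) := by
  rw [A_succ]; have := o_le k j; omega

lemma A_strictMono {k : ℕ} (hk : 7 ≤ k) : StrictMono (A k) :=
  strictMono_nat_of_lt_succ fun j => by have := A_lt_succ hk j; omega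

lemma A_one {k : ℕ} (hk : 7 ≤ k) : A k 1 = k := by
  rw [A_succ, A_zero, o_zero]; omega

/-- `b` completes a vertex -/
def Is (k b : ℕ) : Prop := ∃ i, A k (i + 1) = b

lemma o_eq_four {k : ℕ} (hk : 7 ≤ k) {b : ℕ} (h : Is k b) : o k b = 4 := by
  obtain ⟨i, hi⟩ := h
  have h1 := A_lb hk (i + 1)
  have hb : b ≠ 0 := by omega
  have hb1 : b ≠ 1 := by omega
  have hmem : b ∈ (st k b).2 := (mem_st k b b).2 ⟨i, by omega, hi⟩
  simp [o, oidx, hb, hb1, hmem]

lemma o_eq_three {k b : ℕ} (hb : 2 ≤ b) (h : ¬ Is k b) : o k b = 3 := by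
  have hmem : b ∉ (st k b).2 := fun hm => by
    obtain ⟨i, _, hi⟩ := (mem_st k b b).1 hm
    exact h ⟨i, hi⟩
  have hb0 : b ≠ 0 := by omega
  have hb1 : b ≠ 1 := by omega
  simp [o, oidx, hb0, hb1, hmem]

lemma not_is_of_between {k : ℕ} (hk : 7 ≤ k) {j b : ℕ} (h1 : A k j < b) (h2 : b < A k (j + 1)) :
    ¬ Is k b := by
  rintro ⟨i, rfl⟩
  have h3 : j < i + 1 := (A_strictMono hk).lt_iff_lt.1 h1
  have h4 : i + 1 < j + 1 := (A_strictMono hk).lt_iff_lt.1 h2
  omega

open Classical in
/-- the pivot -/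
noncomputable def q (k : ℕ) : ℕ → ℕ
  | 0 => 0
  | b + 1 => q k b + (if Is k (b + 1) then 1 else 0)

lemma q_spec {k : ℕ} (hk : 7 ≤ k) {b : ℕ} (hb : 1 ≤ b) :
    A k (q k b) ≤ b ∧ b < A k (q k b + 1) := by
  induction b with
  | zero => omega
  | succ b ih =>
    rcases Nat.eq_zero_or_pos b with rfl | hb'
    · have h1 : ¬ Is k 1 := by
        rintro ⟨i, hi⟩
        have := A_lb hk (i + 1); omega
      have h0 : q k (0 + 1) = 0 := by simp [q, h1]
      rw [h0]
      have := A_one hk
      rw [A_zero, zero_add, this]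
      omega
    · obtain ⟨h1, h2⟩ := ih hb'
      by_cases hs : Is k (b + 1)
      · have hq : q k (b + 1) = q k b + 1 := by simp [q, hs]
        have he : A k (q k b + 1) = b + 1 := by
          by_contra hne
          exact not_is_of_between hk (by omega : A k (q k b) < b + 1) (by omega) hs
        rw [hq, he]
        have := A_lt_succ hk (q k b + 1)
        omega
      · have hq : q k (b + 1) = q k b := by simp [q, hs]
        rw [hq]
        refine ⟨by omega, ?_⟩
        rcases Nat.lt_or_ge (b + 1) (A k (q k b + 1)) with h | h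
        · exact h
        · exact absurd ⟨q k b, by omega⟩ hs

lemma q_unique {k : ℕ} (hk : 7 ≤ k) {b j : ℕ} (hb : 1 ≤ b) (h1 : A k j ≤ b) (h2 : b < A k (j + 1)) :
    q k b = j := by
  obtain ⟨h3, h4⟩ := q_spec hk hb
  have h5 : q k b < j + 1 := (A_strictMono hk).lt_iff_lt.1 (by omega)
  have h6 : j < q k b + 1 := (A_strictMono hk).lt_iff_lt.1 (by omega)
  omega

lemma q_lt {k : ℕ} (hk : 7 ≤ k) {b : ℕ} (hb : 1 ≤ b) : 2 * q k b + 1 ≤ b := by
  have h1 := (q_spec hk hb).1
  have h2 := A_lb hk (q k b)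
  omega

/-- the formula for `A` -/
lemma A_formula {k : ℕ} (hk : 7 ≤ k) (i : ℕ) :
    A k (i + 2) + q k (i + 1) = (k - 4) * (i + 2) + 5 := by
  induction i with
  | zero =>
    have h1 : q k 1 = 0 := q_unique hk le_rfl (by rw [A_zero]) (by rw [A_one hk]; omega)
    rw [h1, A_succ, A_one hk, o_one]
    omega
  | succ i ih =>
    rw [A_succ]
    by_cases hs : Is k (i + 2)
    · have hq : q k (i + 2) = q k (i + 1) + 1 := by simp [q, hs]
      rw [show i + 1 + 1 = i + 2 by omega, o_eq_four hk hs, hq]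
      have : (k - 4) * (i + 1 + 2) = (k - 4) * (i + 2) + (k - 4) := by ring
      rw [this]; omega
    · have hq : q k (i + 2) = q k (i + 1) := by simp [q, hs]
      rw [show i + 1 + 1 = i + 2 by omega, o_eq_three (by omega) hs, hq]
      have : (k - 4) * (i + 1 + 2) = (k - 4) * (i + 2) + (k - 4) := by ring
      rw [this]; omega

/-- the symmetric quadratic form -/
def G (k n i : ℤ) : ℤ := n ^ 2 + i ^ 2 - (k - 4) * n * i - 6 * (n + i) + k + 6

lemma G_neg {k : ℕ} (hk : 7 ≤ k) {b : ℕ} (hb : 1 ≤ b) :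
    G k (b + 1) (q k b + 1) < 0 := by
  induction b using Nat.strong_induction_on with
  | _ b ih =>
    rcases Nat.eq_zero_or_pos (q k b) with h0 | hpos
    · obtain ⟨_, h2⟩ := q_spec hk hb
      rw [h0, zero_add, A_one hk] at h2
      rw [h0]
      have e : G k (b + 1) ((0 : ℕ) + 1) = (b : ℤ) * (b - k) := by
        simp only [G]; push_cast; ring
      rw [e]
      have h3 : (b : ℤ) < k := by exact_mod_cast h2
      have h4 : (1 : ℤ) ≤ b := by exact_mod_cast hb
      nlinarith
    · obtain ⟨h1, h2⟩ := q_spec hk hb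
      obtain ⟨i, hi⟩ : ∃ i, q k b = i + 1 := ⟨q k b - 1, by omega⟩
      have hlt := q_lt hk hb
      have hih := ih (q k b) (by omega) hpos
      have hform := A_formula hk i
      rw [hi] at h2 hih hlt ⊢
      have hqi : q k (i + 1) ≤ i := by
        have := q_lt hk (b := i + 1) (by omega); omega
      -- cast everything to the integers
      have f1 : (A k (i + 2) : ℤ) + q k (i + 1) = (k - 4) * (i + 2) + 5 := by
        have : ((k - 4 : ℕ) : ℤ) = (k : ℤ) - 4 := by omega
        rw [← this]; exact_mod_cast hform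
      have f2 : (b : ℤ) < A k (i + 2) := by exact_mod_cast h2
      have f3 : (q k (i + 1) : ℤ) ≤ i := by exact_mod_cast hqi
      have f4 : 2 * ((i : ℤ) + 1) + 1 ≤ b := by exact_mod_cast hlt
      simp only [G] at hih ⊢
      push_cast at hih ⊢
      have f5 : (b : ℤ) + 1 + q k (i + 1) ≤ (k - 4) * (i + 2) + 5 := by linarith
      nlinarith [mul_nonneg (by linarith : (0 : ℤ) ≤ b - q k (i + 1))
        (by linarith : (0 : ℤ) ≤ (k - 4) * (i + 2) + 5 - (b + 1 + q k (i + 1)))]

end Pool.Agent.R151.Spiral
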