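import Mathlib
import Pool.Agent.R151.SpiralSeq

/-!
# The developing map of the spiral into a group with the relations of the triangle group
-/

namespace Pool.Agent.R151.Spiral

variable {H : Type*} [Group H]

/-- The frame at the `m`-th vertex of the spiral. -/
def frame (k : ℕ) (R F : H) : ℕ → H
  | 0 => 1
  | m + 1 => frame k R F m * F * (R⁻¹) ^ (o k (m + 1) - 1)

variable {k : ℕ} {R F : H}

lemma rel_aux (hR3 : F * R⁻¹ * F * R⁻¹ = R * F) (x : H) : x * F * R⁻¹ * F * R⁻¹ = x * R * F := by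
  have : x * F * R⁻¹ * F * R⁻¹ = x * (F * R⁻¹ * F * R⁻¹) := by group
  rw [this, hR3]; group

lemma frame_flip_zero (m : ℕ) :
    frame k R F m * F = frame k R F (m + 1) * R ^ (o k (m + 1) - 1) := by
  rw [frame]
  simp [mul_assoc]

lemma frame_flip_back (hF : F * F = 1) (m : ℕ) :
    frame k R F (m + 1) * R ^ (o k (m + 1) - 1) * F = frame k R F m := by
  rw [← frame_flip_zero, mul_assoc, hF, mul_one]

/-- main relation, one block -/
lemma frame_block (hk : 7 ≤ k) (hR3 : F * R⁻¹ * F * R⁻¹ = R * F) {j : ℕ}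
    (h0 : frame k R F (A k j) * R = frame k R F j * R ^ (o k j) * F) (t : ℕ)
    (ht : t < k - 1 - o k j) :
    frame k R F (A k j + t) * R = frame k R F j * R ^ (o k j + t) * F := by
  induction t with
  | zero => simpa using h0
  | succ t ih =>
    have ih' := ih (by omega)
    have hlt : A k j + t + 1 < A k (j + 1) := by rw [A_succ]; omega
    have hns : ¬ Is k (A k j + t + 1) := not_is_of_between hk (by omega) hlt
    have hA := A_lb hk j
    have ho : o k (A k j + t + 1) = 3 := o_eq_three (by omega) hns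
    have e : frame k R F (A k j + t) = frame k R F j * R ^ (o k j + t) * F * R⁻¹ := by
      rw [← ih']; group
    rw [show A k j + (t + 1) = (A k j + t) + 1 by omega, frame, ho, e]
    rw [show (R⁻¹) ^ (3 - 1) = R⁻¹ * R⁻¹ by rw [show 3 - 1 = 2 by norm_num, pow_two]]
    have := rel_aux hR3 (frame k R F j * R ^ (o k j + t))
    calc frame k R F j * R ^ (o k j + t) * F * R⁻¹ * F * (R⁻¹ * R⁻¹) * R
        = frame k R F j * R ^ (o k j + t) * F * R⁻¹ * F * R⁻¹ := by group
      _ = frame k R F j * R ^ (o k j + t) * R * F := this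
      _ = frame k R F j * R ^ (o k j + (t + 1)) * F := by
          rw [← add_assoc, pow_succ R (o k j + t)]; group

lemma frame_last (hk : 7 ≤ k) (hR3 : F * R⁻¹ * F * R⁻¹ = R * F) {j : ℕ}
    (h0 : frame k R F (A k j) * R = frame k R F j * R ^ (o k j) * F) :
    frame k R F (A k (j + 1)) * R ^ 2 = frame k R F j * R ^ (k - 1) * F := by
  have ho4 := o_le k j
  obtain ⟨t, ht⟩ : ∃ t, k - 1 - o k j = t + 1 := ⟨k - 1 - o k j - 1, by omega⟩
  have ih' := frame_block hk hR3 h0 t (by omega)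
  have e : frame k R F (A k j + t) = frame k R F j * R ^ (o k j + t) * F * R⁻¹ := by
    rw [← ih']; group
  have hA : A k (j + 1) = A k j + t + 1 := by rw [A_succ, ht]; omega
  have ho : o k (A k j + t + 1) = 4 := o_eq_four hk ⟨j, hA⟩
  rw [hA, frame, ho, e]
  rw [show (R⁻¹) ^ (4 - 1) = R⁻¹ * R⁻¹ * R⁻¹ by rw [show 4 - 1 = 3 by norm_num, pow_succ, pow_two]]
  have := rel_aux hR3 (frame k R F j * R ^ (o k j + t))
  calc frame k R F j * R ^ (o k j + t) * F * R⁻¹ * F * (R⁻¹ * R⁻¹ * R⁻¹) * R ^ 2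
      = frame k R F j * R ^ (o k j + t) * F * R⁻¹ * F * R⁻¹ := by group
    _ = frame k R F j * R ^ (o k j + t) * R * F := this
    _ = frame k R F j * R ^ (k - 1) * F := by
        rw [show k - 1 = o k j + t + 1 by omega, pow_succ R (o k j + t)]; group

lemma o_succ_ge {k : ℕ} (j : ℕ) : 2 ≤ o k (j + 1) := by
  unfold o oidx
  rw [if_neg (by omega)]
  split_ifs <;> omega

/-- the relation at the first outer neighbour -/
lemma frame_first (hk : 7 ≤ k) (hF : F * F = 1) (hRk : R ^ k = 1)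
    (hR3 : F * R⁻¹ * F * R⁻¹ = R * F) (j : ℕ) :
    frame k R F (A k j) * R = frame k R F j * R ^ (o k j) * F := by
  induction j with
  | zero =>
    rw [A_zero, o_zero]
    have h1 := frame_flip_zero (k := k) (R := R) (F := F) 0
    rw [zero_add, o_one] at h1
    rw [pow_zero, mul_one, h1]
    norm_num
  | succ j ih =>
    have h1 := frame_last hk hR3 ih
    have hRk' : R ^ (k - 1) = R⁻¹ := by
      have : R ^ (k - 1) * R = 1 := by rw [← pow_succ]; rwa [show k - 1 + 1 = k by omega]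
      exact eq_inv_of_mul_eq_one_left this
    have h2 : frame k R F (A k (j + 1)) * R = frame k R F j * R⁻¹ * F * R⁻¹ := by
      have : frame k R F (A k (j + 1)) * R = frame k R F (A k (j + 1)) * R ^ 2 * R⁻¹ := by group
      rw [this, h1, hRk']
    rw [h2, ← frame_flip_back (k := k) (R := R) hF j]
    have := rel_aux hR3 (frame k R F (j + 1) * R ^ (o k (j + 1) - 1))
    rw [this]
    have ho := o_succ_ge (k := k) j
    rw [show o k (j + 1) = o k (j + 1) - 1 + 1 by omega, pow_succ]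
    simp [mul_assoc]

/-- The relation for all outer neighbours but the last one. -/
lemma frame_outer (hk : 7 ≤ k) (hF : F * F = 1) (hRk : R ^ k = 1)
    (hR3 : F * R⁻¹ * F * R⁻¹ = R * F) (j t : ℕ) (ht : t < k - 1 - o k j) :
    frame k R F (A k j + t) * R = frame k R F j * R ^ (o k j + t) * F :=
  frame_block hk hR3 (frame_first hk hF hRk hR3 j) t ht

/-- The relation for the last outer neighbour. -/
lemma frame_outer_last (hk : 7 ≤ k) (hF : F * F = 1) (hRk : R ^ k = 1)
    (hR3 : F * R⁻¹ * F * R⁻¹ = R * F) (j : ℕ) :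
    frame k R F (A k (j + 1)) * R ^ 2 = frame k R F j * R ^ (k - 1) * F :=
  frame_last hk hR3 (frame_first hk hF hRk hR3 j)

/-! ### Darts -/

/-- The flip of a dart `(m, i)`. -/
noncomputable def flip (k : ℕ) (D : ℕ × ℕ) : ℕ × ℕ :=
  if D.2 = 0 then (D.1 + 1, o k (D.1 + 1) - 1)
  else if D.1 ≠ 0 ∧ D.2 = o k D.1 - 1 then (D.1 - 1, 0)
  else if o k D.1 ≤ D.2 then
    (if D.2 = k - 1 then (A k (D.1 + 1), 2) else (A k D.1 + (D.2 - o k D.1), 1))
  else if D.2 = 1 then (q k D.1, o k (q k D.1) + (D.1 - A k (q k D.1)))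
  else (q k D.1 - 1, k - 1)

lemma flip_zero (m : ℕ) : flip k (m, 0) = (m + 1, o k (m + 1) - 1) := by simp [flip]

lemma flip_prev (m : ℕ) : flip k (m + 1, o k (m + 1) - 1) = (m, 0) := by
  have := o_succ_ge (k := k) m
  simp only [flip]
  rw [if_neg (by omega), if_pos (by simp)]
  simp

lemma flip_outer_last (hk : 7 ≤ k) (m : ℕ) : flip k (m, k - 1) = (A k (m + 1), 2) := by
  have := o_le k m
  simp only [flip]
  rw [if_neg (by omega), if_neg (by omega), if_pos (by omega), if_true]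

lemma flip_outer (hk : 7 ≤ k) (m t : ℕ) (ht : t < k - 1 - o k m) (hm : m = 0 → t ≠ 0) :
    flip k (m, o k m + t) = (A k m + t, 1) := by
  have ho := o_le k m
  simp only [flip]
  have h1 : ¬ (o k m + t = 0) := by
    rcases Nat.eq_zero_or_pos m with rfl | h
    · have := hm rfl; omega
    · obtain ⟨m', rfl⟩ : ∃ m', m = m' + 1 := ⟨m - 1, by omega⟩
      have := o_succ_ge (k := k) m'; omega
  rw [if_neg h1, if_neg (by omega), if_pos (by omega), if_neg (by omega)]
  congr 1; omega

lemma flip_down_one (hk : 7 ≤ k) {b : ℕ} (hb : 2 ≤ b) :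
    flip k (b, 1) = (q k b, o k (q k b) + (b - A k (q k b))) := by
  have h3 : 3 ≤ o k b := by
    by_cases hs : Is k b
    · rw [o_eq_four hk hs]; norm_num
    · rw [o_eq_three hb hs]
  simp only [flip]
  rw [if_neg (by omega), if_neg (by omega), if_neg (by omega), if_true]

lemma flip_down_two (hk : 7 ≤ k) {b : ℕ} (hs : Is k b) :
    flip k (b, 2) = (q k b - 1, k - 1) := by
  have h4 := o_eq_four hk hs
  simp only [flip]
  rw [if_neg (by omega), if_neg (by omega), if_neg (by omega), if_neg (by omega)]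

/-- case analysis on darts -/
lemma dart_cases (hk : 7 ≤ k) (D : ℕ × ℕ) (hD : D.2 < k) :
    (∃ m, D = (m, 0)) ∨ (∃ m, D = (m + 1, o k (m + 1) - 1)) ∨ (∃ m, D = (m, k - 1)) ∨
    (∃ m t, t < k - 1 - o k m ∧ (m = 0 → t ≠ 0) ∧ D = (m, o k m + t)) ∨
    (∃ m t, t < k - 1 - o k m ∧ 2 ≤ A k m + t ∧ D = (A k m + t, 1)) ∨
    (∃ m, D = (A k (m + 1), 2)) := by
  obtain ⟨b, i⟩ := D
  simp only at hD
  rcases Nat.eq_zero_or_pos i with rfl | hi
  · exact Or.inl ⟨b, rfl⟩
  by_cases hlast : i = k - 1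
  · exact Or.inr (Or.inr (Or.inl ⟨b, by rw [hlast]⟩))
  by_cases hout : o k b ≤ i
  · refine Or.inr (Or.inr (Or.inr (Or.inl ⟨b, i - o k b, by omega, ?_, ?_⟩)))
    · rintro rfl; rw [o_zero]; omega
    · rw [show o k b + (i - o k b) = i by omega]
  · have hb0 : b ≠ 0 := by rintro rfl; rw [o_zero] at hout; omega
    obtain ⟨m, rfl⟩ : ∃ m, b = m + 1 := ⟨b - 1, by omega⟩
    by_cases hprev : i = o k (m + 1) - 1
    · exact Or.inr (Or.inl ⟨m, by rw [hprev]⟩)
    · have hm : m ≠ 0 := by rintro rfl; rw [zero_add, o_one] at hout hprev; omega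
      obtain ⟨h1, h2⟩ := q_spec hk (b := m + 1) (by omega)
      by_cases hi1 : i = 1
      · refine Or.inr (Or.inr (Or.inr (Or.inr (Or.inl ⟨q k (m + 1), m + 1 - A k (q k (m + 1)),
          ?_, ?_, ?_⟩))))
        · rw [A_succ] at h2; omega
        · omega
        · rw [hi1, show A k (q k (m + 1)) + (m + 1 - A k (q k (m + 1))) = m + 1 by omega]
      · have hs : Is k (m + 1) := by
          by_contra hns
          rw [o_eq_three (by omega) hns] at hout hprev
          omega
        rw [o_eq_four hk hs] at hout hprev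
        obtain ⟨j, hj⟩ := hs
        refine Or.inr (Or.inr (Or.inr (Or.inr (Or.inr ⟨j, ?_⟩))))
        rw [hj, show i = 2 by omega]

lemma q_A_add (hk : 7 ≤ k) (m t : ℕ) (ht : t < k - 1 - o k m) : q k (A k m + t) = m := by
  have := A_lb hk m
  apply q_unique hk (by omega) (by omega)
  rw [A_succ]; omega

lemma flip_flip (hk : 7 ≤ k) (D : ℕ × ℕ) (hD : D.2 < k) :
    flip k (flip k D) = D ∧ (flip k D).2 < k := by
  rcases dart_cases hk D hD with ⟨m, rfl⟩ | ⟨m, rfl⟩ | ⟨m, rfl⟩ | ⟨m, t, ht, hm, rfl⟩ |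
    ⟨m, t, ht, hb, rfl⟩ | ⟨m, rfl⟩
  · rw [flip_zero, flip_prev]
    have := o_le k (m + 1)
    exact ⟨rfl, by simp only; omega⟩
  · rw [flip_prev, flip_zero]; exact ⟨rfl, by simp only; omega⟩
  · rw [flip_outer_last hk]
    refine ⟨?_, by simp only; omega⟩
    rw [flip_down_two hk ⟨m, rfl⟩]
    have : q k (A k (m + 1)) = m + 1 := by
      have := q_A_add hk (m + 1) 0 (by have := o_le k (m + 1); omega)
      simpa using this
    rw [this]; simp
  · rw [flip_outer hk m t ht hm]
    refine ⟨?_, by simp only; omega⟩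
    by_cases hA1 : A k m + t = 1
    · have := A_lb hk m
      have hm0 : m = 0 := by omega
      exact absurd (show t = 0 by omega) (hm hm0)
    · have := A_lb hk m
      rw [flip_down_one hk (by omega), q_A_add hk m t ht]
      simp
  · rw [flip_down_one hk hb, q_A_add hk m t ht]
    simp only [Nat.add_sub_cancel_left]
    refine ⟨?_, by omega⟩
    rw [flip_outer hk m t ht ?_]
    rintro rfl
    rw [A_zero] at hb; omega
  · have h4 : Is k (A k (m + 1)) := ⟨m, rfl⟩
    rw [flip_down_two hk h4]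
    have : q k (A k (m + 1)) = m + 1 := by
      have := q_A_add hk (m + 1) 0 (by have := o_le k (m + 1); omega)
      simpa using this
    rw [this]
    simp only [Nat.add_sub_cancel]
    rw [flip_outer_last hk]
    exact ⟨rfl, by omega⟩

/-- The frame of a dart. -/
def dframe (k : ℕ) (R F : H) (D : ℕ × ℕ) : H := frame k R F D.1 * R ^ D.2

lemma dframe_flip (hk : 7 ≤ k) (hF : F * F = 1) (hRk : R ^ k = 1)
    (hR3 : F * R⁻¹ * F * R⁻¹ = R * F) (D : ℕ × ℕ) (hD : D.2 < k) :
    dframe k R F (flip k D) = dframe k R F D * F := by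
  have hinv : ∀ D E : ℕ × ℕ, flip k D = E → dframe k R F E = dframe k R F D * F →
      dframe k R F (flip k D) = dframe k R F D * F := fun D E h h' => by rw [h, h']
  rcases dart_cases hk D hD with ⟨m, rfl⟩ | ⟨m, rfl⟩ | ⟨m, rfl⟩ | ⟨m, t, ht, hm, rfl⟩ |
    ⟨m, t, ht, hb, rfl⟩ | ⟨m, rfl⟩
  · rw [flip_zero]
    simp only [dframe, pow_zero, mul_one]
    rw [frame_flip_zero]
  · rw [flip_prev]
    simp only [dframe, pow_zero, mul_one]
    rw [frame_flip_back hF]
  · rw [flip_outer_last hk]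
    simp only [dframe]
    rw [frame_outer_last hk hF hRk hR3]
  · rw [flip_outer hk m t ht hm]
    simp only [dframe, pow_one]
    rw [frame_outer hk hF hRk hR3 m t ht]
  · rw [flip_down_one hk hb, q_A_add hk m t ht]
    simp only [dframe, pow_one, Nat.add_sub_cancel_left]
    rw [frame_outer hk hF hRk hR3 m t ht, mul_assoc, hF, mul_one]
  · rw [flip_down_two hk ⟨m, rfl⟩]
    have : q k (A k (m + 1)) = m + 1 := by
      have := q_A_add hk (m + 1) 0 (by have := o_le k (m + 1); omega)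
      simpa using this
    rw [this]
    simp only [dframe, Nat.add_sub_cancel]
    rw [frame_outer_last hk hF hRk hR3, mul_assoc, hF, mul_one]

/-! ### The permutations of the darts -/

/-- Darts. -/
abbrev Dart (k : ℕ) : Type := {D : ℕ × ℕ // D.2 < k}

/-- the flip as a permutation -/
noncomputable def flipPerm (hk : 7 ≤ k) : Equiv.Perm (Dart k) where
  toFun D := ⟨flip k D.1, (flip_flip hk D.1 D.2).2⟩
  invFun D := ⟨flip k D.1, (flip_flip hk D.1 D.2).2⟩
  left_inv D := Subtype.ext (flip_flip hk D.1 D.2).1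
  right_inv D := Subtype.ext (flip_flip hk D.1 D.2).1

/-- the rotation as a permutation -/
def rotPerm (hk : 7 ≤ k) : Equiv.Perm (Dart k) where
  toFun D := ⟨(D.1.1, (D.1.2 + 1) % k), Nat.mod_lt _ (by omega)⟩
  invFun D := ⟨(D.1.1, (D.1.2 + (k - 1)) % k), Nat.mod_lt _ (by omega)⟩
  left_inv D := by
    obtain ⟨⟨m, i⟩, hi⟩ := D
    apply Subtype.ext
    simp only at hi
    simp only [Prod.mk.injEq, true_and, Nat.mod_add_mod]
    rw [show i + 1 + (k - 1) = i + k by omega, Nat.add_mod_right, Nat.mod_eq_of_lt hi]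
  right_inv D := by
    obtain ⟨⟨m, i⟩, hi⟩ := D
    apply Subtype.ext
    simp only at hi
    simp only [Prod.mk.injEq, true_and, Nat.mod_add_mod]
    rw [show i + (k - 1) + 1 = i + k by omega, Nat.add_mod_right, Nat.mod_eq_of_lt hi]

lemma exists_perm (hk : 7 ≤ k) (hF : F * F = 1) (hRk : R ^ k = 1)
    (hR3 : F * R⁻¹ * F * R⁻¹ = R * F) {g : H} (hg : g ∈ Subgroup.closure ({R, F} : Set H)) :
    ∃ σ : Equiv.Perm (Dart k), ∀ D : Dart k,
      dframe k R F (σ D).1 = dframe k R F D.1 * g := by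
  induction hg using Subgroup.closure_induction with
  | mem x hx =>
    rcases hx with rfl | hx
    · refine ⟨rotPerm hk, fun D => ?_⟩
      obtain ⟨⟨m, i⟩, hi⟩ := D
      have e : (rotPerm hk ⟨(m, i), hi⟩).1 = (m, (i + 1) % k) := rfl
      rw [e]
      simp only [dframe]
      rw [mul_assoc, ← pow_succ, ← pow_eq_pow_mod (i + 1) hRk]
    · rw [Set.mem_singleton_iff] at hx
      subst hx
      exact ⟨flipPerm hk, fun D => dframe_flip hk hF hRk hR3 D.1 D.2⟩
  | one => exact ⟨1, fun D => by simp⟩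
  | mul x y _ _ hx hy =>
    obtain ⟨σ, hσ⟩ := hx
    obtain ⟨τ, hτ⟩ := hy
    exact ⟨τ * σ, fun D => by rw [Equiv.Perm.mul_apply, hτ, hσ, mul_assoc]⟩
  | inv x _ hx =>
    obtain ⟨σ, hσ⟩ := hx
    refine ⟨σ⁻¹, fun D => ?_⟩
    have := hσ (σ⁻¹ D)
    rw [show σ (σ⁻¹ D) = D from σ.apply_symm_apply D] at this
    rw [this]; group

lemma frame_mem (m : ℕ) : frame k R F m ∈ Subgroup.closure ({R, F} : Set H) := by
  have hRm : R ∈ Subgroup.closure ({R, F} : Set H) := Subgroup.subset_closure (by simp)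
  have hFm : F ∈ Subgroup.closure ({R, F} : Set H) := Subgroup.subset_closure (by simp)
  induction m with
  | zero => exact Subgroup.one_mem _
  | succ m ih =>
    rw [frame]
    exact Subgroup.mul_mem _ (Subgroup.mul_mem _ ih hFm)
      (Subgroup.pow_mem _ (Subgroup.inv_mem _ hRm) _)

lemma dframe_mem (D : ℕ × ℕ) : dframe k R F D ∈ Subgroup.closure ({R, F} : Set H) :=
  Subgroup.mul_mem _ (frame_mem _) (Subgroup.pow_mem _ (Subgroup.subset_closure (by simp)) _)

/-- every element of the group is the frame of a dart -/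
lemma exists_dart (hk : 7 ≤ k) (hF : F * F = 1) (hRk : R ^ k = 1)
    (hR3 : F * R⁻¹ * F * R⁻¹ = R * F) {g : H} (hg : g ∈ Subgroup.closure ({R, F} : Set H)) :
    ∃ D : Dart k, g = dframe k R F D.1 := by
  obtain ⟨σ, hσ⟩ := exists_perm hk hF hRk hR3 hg
  refine ⟨σ ⟨(0, 0), by simp only; omega⟩, ?_⟩
  rw [hσ]
  simp [dframe, frame]

/-- injectivity of the frames of the darts, provided the fibre over `1` is trivial -/
lemma dframe_injective (hk : 7 ≤ k) (hF : F * F = 1) (hRk : R ^ k = 1)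
    (hR3 : F * R⁻¹ * F * R⁻¹ = R * F)
    (h1 : ∀ D : Dart k, dframe k R F D.1 = 1 → D.1 = (0, 0)) {D E : Dart k}
    (h : dframe k R F D.1 = dframe k R F E.1) : D = E := by
  obtain ⟨σ, hσ⟩ := exists_perm hk hF hRk hR3
    (Subgroup.inv_mem _ (dframe_mem (k := k) (R := R) (F := F) D.1))
  have hD : (σ D).1 = (0, 0) := h1 _ (by rw [hσ]; group)
  have hE : (σ E).1 = (0, 0) := h1 _ (by rw [hσ, ← h]; group)
  have : σ D = σ E := Subtype.ext (hD.trans hE.symm)
  exact σ.injective this

end Pool.Agent.R151.Spiral
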