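import Mathlib
import Pool.Agent.R151.SpiralGroup

/-!
# The spiral in the hyperboloid model
-/

namespace Pool.Agent.R151.Spiral

/-- Lorentz space -/
abbrev V3 : Type := ℝ × ℝ × ℝ

/-- the Lorentz form -/
def B (x y : V3) : ℝ := x.1 * y.1 - x.2.1 * y.2.1 - x.2.2 * y.2.2

/-- the base point -/
def e0 : V3 := (1, 0, 0)

/-- the rotation around the base point -/
noncomputable def rot (a : ℝ) : Equiv.Perm V3 where
  toFun x := (x.1, Real.cos a * x.2.1 - Real.sin a * x.2.2, Real.sin a * x.2.1 + Real.cos a * x.2.2)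
  invFun x := (x.1, Real.cos a * x.2.1 + Real.sin a * x.2.2, -Real.sin a * x.2.1 + Real.cos a * x.2.2)
  left_inv x := by
    obtain ⟨f, u, v⟩ := x
    have h := Real.sin_sq_add_cos_sq a
    ext
    · rfl
    · simp only; linear_combination u * h
    · simp only; linear_combination v * h
  right_inv x := by
    obtain ⟨f, u, v⟩ := x
    have h := Real.sin_sq_add_cos_sq a
    ext
    · rfl
    · simp only; linear_combination u * h
    · simp only; linear_combination v * h

/-- the half turn around the midpoint of the base edge -/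
def half (C S : ℝ) (h : C ^ 2 - S ^ 2 = 1) : Equiv.Perm V3 where
  toFun x := (C * x.1 - S * x.2.1, S * x.1 - C * x.2.1, -x.2.2)
  invFun x := (C * x.1 - S * x.2.1, S * x.1 - C * x.2.1, -x.2.2)
  left_inv x := by
    obtain ⟨f, u, v⟩ := x
    ext
    · simp only; linear_combination f * h
    · simp only; linear_combination u * h
    · simp
  right_inv x := by
    obtain ⟨f, u, v⟩ := x
    ext
    · simp only; linear_combination f * h
    · simp only; linear_combination u * h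
    · simp

lemma rot_apply (a f u v : ℝ) : rot a (f, u, v) =
    (f, Real.cos a * u - Real.sin a * v, Real.sin a * u + Real.cos a * v) := rfl

lemma rot_inv_apply (a f u v : ℝ) : (rot a)⁻¹ (f, u, v) =
    (f, Real.cos a * u + Real.sin a * v, -Real.sin a * u + Real.cos a * v) := rfl

lemma half_apply (C S : ℝ) (h : C ^ 2 - S ^ 2 = 1) (f u v : ℝ) : half C S h (f, u, v) =
    (C * f - S * u, S * f - C * u, -v) := rfl

lemma half_mul_self (C S : ℝ) (h : C ^ 2 - S ^ 2 = 1) : half C S h * half C S h = 1 :=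
  Equiv.ext fun x => (half C S h).left_inv x

lemma rot_pow_apply (a : ℝ) (n : ℕ) (f u v : ℝ) : (rot a ^ n) (f, u, v) =
    (f, Real.cos (n * a) * u - Real.sin (n * a) * v,
      Real.sin (n * a) * u + Real.cos (n * a) * v) := by
  induction n with
  | zero => simp
  | succ n ih =>
    rw [pow_succ', Equiv.Perm.mul_apply, ih, rot_apply]
    have e : ((n + 1 : ℕ) : ℝ) * a = n * a + a := by push_cast; ring
    rw [e, Real.cos_add, Real.sin_add]
    ext
    · rfl
    · simp only; ring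
    · simp only; ring

lemma rot_inv_pow_apply (a : ℝ) (n : ℕ) (f u v : ℝ) : ((rot a)⁻¹ ^ n) (f, u, v) =
    (f, Real.cos (n * a) * u + Real.sin (n * a) * v,
      -Real.sin (n * a) * u + Real.cos (n * a) * v) := by
  induction n with
  | zero => simp
  | succ n ih =>
    rw [pow_succ', Equiv.Perm.mul_apply, ih, rot_inv_apply]
    have e : ((n + 1 : ℕ) : ℝ) * a = n * a + a := by push_cast; ring
    rw [e, Real.cos_add, Real.sin_add]
    ext
    · rfl
    · simp only; ring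
    · simp only; ring

lemma rot_pow_k {k : ℕ} (hk : 0 < k) : rot (2 * Real.pi / k) ^ k = 1 := by
  apply Equiv.ext
  rintro ⟨f, u, v⟩
  rw [rot_pow_apply]
  have : (k : ℝ) * (2 * Real.pi / k) = 2 * Real.pi := by
    have : (k : ℝ) ≠ 0 := by positivity
    field_simp
  rw [this, Real.cos_two_pi, Real.sin_two_pi]
  simp

lemma rel3 (a C S : ℝ) (h : C ^ 2 - S ^ 2 = 1) (hc : Real.cos a * (1 + C) = C) :
    half C S h * (rot a)⁻¹ * half C S h * (rot a)⁻¹ = rot a * half C S h := by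
  apply Equiv.ext
  rintro ⟨f, u, v⟩
  have h2 := Real.sin_sq_add_cos_sq a
  simp only [Equiv.Perm.mul_apply, rot_apply, rot_inv_apply, half_apply]
  set c := Real.cos a
  set s := Real.sin a
  ext
  · simp only
    linear_combination (f * (1 - C) + (c * u + s * v) * S) * hc + (f * c) * h - (S * u) * h2
  · simp only
    linear_combination (-S * f + (c * u + s * v) * C + u) * hc + (c * u + s * v) * h - (C * u) * h2
  · simp only
    linear_combination (-s * u + v * (c + 1)) * hc - (C * v) * h2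

/-! ### The data -/

/-- The constants attached to `k`. -/
structure Data (k : ℕ) where
  C : ℝ
  S : ℝ
  hC : 1 < C
  hS : 0 < S
  hCS : C ^ 2 - S ^ 2 = 1
  hc : Real.cos (2 * Real.pi / k) * (1 + C) = C

variable {k : ℕ}

/-- rotation -/
noncomputable def Rm (k : ℕ) : Equiv.Perm V3 := rot (2 * Real.pi / k)

/-- half turn -/
noncomputable def Fm (T : Data k) : Equiv.Perm V3 := half T.C T.S T.hCS

/-- the frames -/
noncomputable def fr (T : Data k) (m : ℕ) : Equiv.Perm V3 := frame k (Rm k) (Fm T) m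

/-- the base point seen from the frames -/
noncomputable def y (T : Data k) (m : ℕ) : V3 := (fr T m)⁻¹ e0

lemma Fm_mul_self (T : Data k) : Fm T * Fm T = 1 := half_mul_self _ _ _

lemma Fm_inv (T : Data k) : (Fm T)⁻¹ = Fm T := inv_eq_of_mul_eq_one_left (Fm_mul_self T)

lemma Rm_pow (hk : 7 ≤ k) : Rm k ^ k = 1 := rot_pow_k (by omega)

lemma Rm_rel (T : Data k) : Fm T * (Rm k)⁻¹ * Fm T * (Rm k)⁻¹ = Rm k * Fm T :=
  rel3 _ _ _ T.hCS T.hc

lemma y_zero (T : Data k) : y T 0 = e0 := by simp [y, fr, frame]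

lemma y_succ (T : Data k) (m : ℕ) : y T (m + 1) = (Rm k ^ (o k (m + 1) - 1)) (Fm T (y T m)) := by
  simp only [y, fr, frame]
  rw [mul_inv_rev, mul_inv_rev, Fm_inv, inv_pow, inv_inv]
  rfl

lemma y_outer (hk : 7 ≤ k) (T : Data k) (j t : ℕ) (ht : t < k - 1 - o k j) :
    y T (A k j + t) = Rm k (Fm T (((Rm k)⁻¹ ^ (o k j + t)) (y T j))) := by
  have h := frame_outer hk (Fm_mul_self T) (Rm_pow hk) (Rm_rel T) j t ht
  have e : frame k (Rm k) (Fm T) (A k j + t) =
      frame k (Rm k) (Fm T) j * Rm k ^ (o k j + t) * Fm T * (Rm k)⁻¹ := by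
    rw [← h]; group
  simp only [y, fr, e]
  rw [mul_inv_rev, mul_inv_rev, mul_inv_rev, Fm_inv, inv_inv, inv_pow]
  rfl

/-! ### Trigonometric facts -/

lemma cos_le_of_mem {a x : ℝ} (h0 : 0 ≤ a) (h1 : a ≤ x) (h2 : x ≤ 2 * Real.pi - a) :
    Real.cos x ≤ Real.cos a := by
  rcases le_total x Real.pi with h | h
  · exact Real.cos_le_cos_of_nonneg_of_le_pi h0 h h1
  · rw [← Real.cos_two_pi_sub x]
    exact Real.cos_le_cos_of_nonneg_of_le_pi h0 (by linarith) (by linarith)

lemma k_alpha (hk : 7 ≤ k) : (k : ℝ) * (2 * Real.pi / k) = 2 * Real.pi := by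
  have : (k : ℝ) ≠ 0 := by
    have : 0 < k := by omega
    positivity
  field_simp

lemma alpha_pos (hk : 7 ≤ k) : 0 < 2 * Real.pi / (k : ℝ) := by
  have : (0 : ℝ) < k := by exact_mod_cast (by omega : 0 < k)
  have := Real.pi_pos
  positivity

lemma alpha_le (hk : 7 ≤ k) : 2 * Real.pi / (k : ℝ) ≤ 2 * Real.pi / 7 := by
  have h7 : (7 : ℝ) ≤ k := by exact_mod_cast hk
  have := Real.pi_pos
  gcongr

/-- key inequality 1: the height of the outer neighbours -/
lemma key_height {C S f ρ c x : ℝ} (hC : 1 < C) (hS : 0 < S) (hCS : C ^ 2 - S ^ 2 = 1)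
    (hc : c * (1 + C) = C) (hf : C ≤ f) (hρ : 0 ≤ ρ) (hρ2 : ρ ^ 2 = f ^ 2 - 1) (hx : x ≤ c) :
    C ≤ C * f - S * ρ * x := by
  have h1 : S * ρ * x ≤ S * ρ * c := mul_le_mul_of_nonneg_left hx (by positivity)
  have h2 : S * ρ * c ≤ C * (f - 1) := by
    have hcpos : 0 < c := by
      by_contra hcon
      push Not at hcon
      nlinarith
    apply le_of_sq_le_sq _ (by nlinarith)
    · have e : (S * ρ * c) ^ 2 = (C ^ 2 - 1) * (f ^ 2 - 1) * c ^ 2 := by
        rw [mul_pow, mul_pow, hρ2]; rw [show S ^ 2 = C ^ 2 - 1 by linarith]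
      rw [e]
      have hc2 : c ^ 2 * (1 + C) ^ 2 = C ^ 2 := by rw [← mul_pow, hc]
      have h3 : (C ^ 2 - 1) * (f ^ 2 - 1) * c ^ 2 * (1 + C) ^ 2 ≤ (C * (f - 1)) ^ 2 * (1 + C) ^ 2 := by
        have e2 : (C ^ 2 - 1) * (f ^ 2 - 1) * c ^ 2 * (1 + C) ^ 2 = (C ^ 2 - 1) * (f ^ 2 - 1) * C ^ 2 := by
          rw [← hc2]; ring
        rw [e2]
        have e3 : (C * (f - 1)) ^ 2 * (1 + C) ^ 2 - (C ^ 2 - 1) * (f ^ 2 - 1) * C ^ 2 =
            C ^ 2 * ((f - 1) * (1 + C)) * (2 * (f - C)) := by ring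
        have h4 : 0 ≤ C ^ 2 * ((f - 1) * (1 + C)) * (2 * (f - C)) := by
          apply mul_nonneg
          · apply mul_nonneg (by positivity)
            apply mul_nonneg <;> linarith
          · linarith
        linarith
      exact le_of_mul_le_mul_right h3 (by positivity)
  nlinarith

/-- key inequality 2: the base point stays on the inner side of the new edges -/
lemma key_side {C S f ρ c s ψ β : ℝ} (hC : 1 < C) (hS : 0 < S) (hCS : C ^ 2 - S ^ 2 = 1)
    (hβ0 : 0 < β) (hβ1 : β ≤ Real.pi / 7) (hcβ : c = Real.cos (2 * β)) (hsβ : s = Real.sin (2 * β))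
    (hc : c * (1 + C) = C) (hf : C ≤ f) (hρ : 0 ≤ ρ) (hρ2 : ρ ^ 2 = f ^ 2 - 1)
    (hψ1 : 2 * β ≤ ψ) (hψ2 : ψ ≤ 2 * Real.pi - 4 * β) :
    0 ≤ s * (S * f - C * ρ * Real.cos ψ) + c * (ρ * Real.sin ψ) := by
  have hpi := Real.pi_pos
  have hsin : 0 < Real.sin β := Real.sin_pos_of_pos_of_lt_pi hβ0 (by linarith)
  have hs : 0 < s := by rw [hsβ]; exact Real.sin_pos_of_pos_of_lt_pi (by linarith) (by linarith)
  have hcpos : 0 < c := by
    by_contra hcon
    push Not at hcon
    nlinarith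
  have hc1 : c < 1 := by nlinarith
  -- T sin β = c cos (ψ + β)
  have hcos2 : c = 1 - 2 * Real.sin β ^ 2 := by
    rw [hcβ, Real.cos_two_mul]; linarith [Real.sin_sq_add_cos_sq β]
  have hsin2 : s = 2 * Real.sin β * Real.cos β := by rw [hsβ, Real.sin_two_mul]
  have hCc : C * (1 - c) = c := by linarith
  have hT : ∀ x, (s * C * Real.cos x - c * Real.sin x) * Real.sin β = c * Real.cos (x + β) := by
    intro x
    have h2 : C * (2 * Real.sin β ^ 2) = c := by rw [← hCc]; rw [hcos2]; ring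
    rw [Real.cos_add, hsin2]
    linear_combination (Real.cos β * Real.cos x) * h2
  have hTle : s * C * Real.cos ψ - c * Real.sin ψ ≤ c * s * (C - 1) := by
    have h1 : (s * C * Real.cos ψ - c * Real.sin ψ) * Real.sin β ≤
        (s * C * Real.cos (2 * β) - c * Real.sin (2 * β)) * Real.sin β := by
      rw [hT, hT]
      apply mul_le_mul_of_nonneg_left _ hcpos.le
      apply cos_le_of_mem <;> linarith
    have h2 := le_of_mul_le_mul_right h1 hsin
    rw [← hcβ, ← hsβ] at h2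
    linarith
  have h3 : c * (C - 1) ≤ S := by
    apply le_of_sq_le_sq _ hS.le
    nlinarith [mul_pos (sub_pos.2 hC) (sub_pos.2 hc1), mul_pos hcpos (sub_pos.2 hC)]
  have hρf : ρ ≤ f := by
    apply le_of_sq_le_sq _ (by linarith)
    linarith
  have h4 : ρ * (s * C * Real.cos ψ - c * Real.sin ψ) ≤ s * (S * f) := by
    calc ρ * (s * C * Real.cos ψ - c * Real.sin ψ) ≤ ρ * (c * s * (C - 1)) :=
          mul_le_mul_of_nonneg_left hTle hρ
      _ = s * ((c * (C - 1)) * ρ) := by ring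
      _ ≤ s * (S * f) := by
          apply mul_le_mul_of_nonneg_left _ hs.le
          apply mul_le_mul h3 hρf hρ hS.le
  nlinarith

/-- The sector condition at a vertex. -/
def Sector (T : Data k) (j : ℕ) : Prop :=
  ∃ f ρ θ : ℝ, T.C ≤ f ∧ 0 ≤ ρ ∧ ρ ^ 2 = f ^ 2 - 1 ∧ 0 ≤ θ ∧
    θ ≤ ((o k j : ℝ) - 1) * (2 * Real.pi / k) ∧ y T j = (f, ρ * Real.cos θ, ρ * Real.sin θ)

lemma B_rot (a : ℝ) (x z : V3) : B (rot a x) (rot a z) = B x z := by
  obtain ⟨f, u, v⟩ := x
  obtain ⟨f', u', v'⟩ := z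
  simp only [rot_apply, B]
  have h := Real.sin_sq_add_cos_sq a
  linear_combination (-(u * u') - v * v') * h

lemma B_half (C S : ℝ) (h : C ^ 2 - S ^ 2 = 1) (x z : V3) :
    B (half C S h x) (half C S h z) = B x z := by
  obtain ⟨f, u, v⟩ := x
  obtain ⟨f', u', v'⟩ := z
  simp only [half_apply, B]
  linear_combination (f * f' - u * u') * h

lemma B_of_mem (T : Data k) {g : Equiv.Perm V3}
    (hg : g ∈ Subgroup.closure ({Rm k, Fm T} : Set (Equiv.Perm V3))) :
    ∀ x z : V3, B (g x) (g z) = B x z := by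
  induction hg using Subgroup.closure_induction with
  | mem x hx =>
    rcases hx with rfl | hx
    · exact B_rot _
    · rw [Set.mem_singleton_iff] at hx; subst hx; exact B_half _ _ _
  | one => intro x z; rfl
  | mul x y _ _ hx hy =>
    intro a b
    rw [Equiv.Perm.mul_apply, Equiv.Perm.mul_apply, hx, hy]
  | inv x _ hx =>
    intro a b
    rw [← hx (x⁻¹ a) (x⁻¹ b), show x (x⁻¹ a) = a from x.apply_symm_apply a,
      show x (x⁻¹ b) = b from x.apply_symm_apply b]

lemma y_norm (T : Data k) (m : ℕ) : (y T m).1 ^ 2 - (y T m).2.1 ^ 2 - (y T m).2.2 ^ 2 = 1 := by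
  have h := B_of_mem T (Subgroup.inv_mem _ (frame_mem (k := k) (R := Rm k) (F := Fm T) m)) e0 e0
  have e : B e0 e0 = 1 := by simp [B, e0]
  rw [e] at h
  have : B (y T m) (y T m) = 1 := h
  simp only [B] at this
  linarith

lemma sector_of (hk : 7 ≤ k) (T : Data k) (j : ℕ) (h1 : 0 ≤ (y T j).2.2)
    (h2 : T.C ≤ (y T (j + 1)).1) (h3 : 0 ≤ (y T (j + 1)).2.2) : Sector T (j + 1) := by
  have hn := y_norm T (j + 1)
  have hs := y_succ T j
  obtain ⟨f, u, v, hy⟩ : ∃ f u v, y T (j + 1) = (f, u, v) := ⟨_, _, _, rfl⟩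
  rw [hy] at h2 h3 hn hs
  simp only at h2 h3 hn
  have hC := T.hC
  set ρ := √(f ^ 2 - 1) with hρ
  have hρ2 : ρ ^ 2 = f ^ 2 - 1 := Real.sq_sqrt (by nlinarith)
  have hρpos : 0 < ρ := Real.sqrt_pos.2 (by nlinarith)
  have huv : u ^ 2 + v ^ 2 = ρ ^ 2 := by rw [hρ2]; linarith
  have hu1 : -1 ≤ u / ρ := by
    rw [le_div_iff₀ hρpos]; nlinarith
  have hu2 : u / ρ ≤ 1 := by
    rw [div_le_one hρpos]; nlinarith
  set θ := Real.arccos (u / ρ) with hθ
  have hcosθ : ρ * Real.cos θ = u := by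
    rw [hθ, Real.cos_arccos hu1 hu2]; field_simp
  have hsinθ : ρ * Real.sin θ = v := by
    have h4 : 0 ≤ Real.sin θ := Real.sin_nonneg_of_mem_Icc ⟨Real.arccos_nonneg _, Real.arccos_le_pi _⟩
    have h5 : (ρ * Real.sin θ) ^ 2 = v ^ 2 := by
      have := Real.sin_sq_add_cos_sq θ
      have e : (ρ * Real.sin θ) ^ 2 = ρ ^ 2 - (ρ * Real.cos θ) ^ 2 := by
        linear_combination ρ ^ 2 * this
      rw [e, hcosθ]; linarith
    exact (sq_eq_sq₀ (by positivity) h3).1 h5
  refine ⟨f, ρ, θ, h2, hρpos.le, hρ2, Real.arccos_nonneg _, ?_, by rw [hcosθ, hsinθ, hy]⟩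
  -- the upper bound for θ
  by_contra hcon
  push Not at hcon
  have ho2 := o_succ_ge (k := k) j
  have ho4 := o_le k (j + 1)
  obtain ⟨f', u', v', hy'⟩ : ∃ f' u' v', y T j = (f', u', v') := ⟨_, _, _, rfl⟩
  rw [hy'] at h1 hs
  simp only at h1
  have hFy : Fm T (f', u', v') = (T.C * f' - T.S * u', T.S * f' - T.C * u', -v') := rfl
  rw [hFy] at hs
  set i := o k (j + 1) - 1 with hi
  have hcast : ((o k (j + 1) : ℝ) - 1) = (i : ℝ) := by
    rw [hi]; push_cast [show 1 ≤ o k (j + 1) by omega]; ring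
  rw [hcast] at hcon
  have hinv : ((Rm k)⁻¹ ^ i) (f, u, v) = (T.C * f' - T.S * u', T.S * f' - T.C * u', -v') := by
    rw [hs, ← Equiv.Perm.mul_apply, inv_pow, inv_mul_cancel]; rfl
  rw [show Rm k = rot (2 * Real.pi / k) from rfl, rot_inv_pow_apply] at hinv
  have hv := congrArg (fun x : V3 => x.2.2) hinv
  simp only at hv
  have hsin : ρ * Real.sin (θ - i * (2 * Real.pi / k)) = -v' := by
    rw [Real.sin_sub, ← hv, ← hcosθ, ← hsinθ]; ring
  have hapos := alpha_pos hk
  have hpos : 0 < Real.sin (θ - i * (2 * Real.pi / k)) := by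
    apply Real.sin_pos_of_pos_of_lt_pi
    · linarith
    · have h6 : θ ≤ Real.pi := Real.arccos_le_pi _
      have h7 : (1 : ℝ) ≤ i := by exact_mod_cast (by omega : 1 ≤ i)
      nlinarith
  have := mul_pos hρpos hpos
  linarith

lemma step (hk : 7 ≤ k) (T : Data k) (j t : ℕ) (ht : t < k - 1 - o k j) (hsec : Sector T j) :
    T.C ≤ (y T (A k j + t)).1 ∧ 0 ≤ (y T (A k j + t)).2.2 := by
  obtain ⟨f, ρ, θ, hf, hρ, hρ2, hθ0, hθ1, hy⟩ := hsec
  rw [y_outer hk T j t ht, hy]
  rw [show Rm k = rot (2 * Real.pi / k) from rfl, rot_inv_pow_apply]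
  set a := 2 * Real.pi / (k : ℝ) with ha
  set ψ := ((o k j + t : ℕ) : ℝ) * a - θ with hψ
  have hapos : 0 < a := alpha_pos hk
  have hale : a ≤ 2 * Real.pi / 7 := alpha_le hk
  have hka : (k : ℝ) * a = 2 * Real.pi := k_alpha hk
  have e1 : Real.cos (((o k j + t : ℕ) : ℝ) * a) * (ρ * Real.cos θ) +
      Real.sin (((o k j + t : ℕ) : ℝ) * a) * (ρ * Real.sin θ) = ρ * Real.cos ψ := by
    rw [hψ, Real.cos_sub]; ring
  have e2 : -Real.sin (((o k j + t : ℕ) : ℝ) * a) * (ρ * Real.cos θ) +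
      Real.cos (((o k j + t : ℕ) : ℝ) * a) * (ρ * Real.sin θ) = -(ρ * Real.sin ψ) := by
    rw [hψ, Real.sin_sub]; ring
  rw [e1, e2]
  have hψ1 : a ≤ ψ := by
    rw [hψ]; push_cast
    have : (0 : ℝ) ≤ t := Nat.cast_nonneg _
    nlinarith
  have hψ2 : ψ ≤ 2 * Real.pi - 2 * a := by
    have h1 : ((o k j + t : ℕ) : ℝ) + 2 ≤ k := by exact_mod_cast (by omega : o k j + t + 2 ≤ k)
    rw [hψ]
    nlinarith
  rw [show Fm T = half T.C T.S T.hCS from rfl, half_apply, rot_apply]
  simp only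
  constructor
  · have := key_height (x := Real.cos ψ) T.hC T.hS T.hCS T.hc hf hρ hρ2
      (cos_le_of_mem hapos.le hψ1 (by linarith))
    linarith
  · have := key_side (c := Real.cos a) (s := Real.sin a) (β := a / 2) (ψ := ψ) T.hC T.hS T.hCS
      (by linarith) (by linarith) (by congr 1; ring) (by congr 1; ring) T.hc hf hρ hρ2
      (by linarith) (by linarith)
    linarith

lemma step_zero (hk : 7 ≤ k) (T : Data k) (t : ℕ) (ht : t < k - 1 - o k 0) :
    T.C ≤ (y T (A k 0 + t)).1 ∧ 0 ≤ (y T (A k 0 + t)).2.2 := by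
  rw [y_outer hk T 0 t ht, y_zero]
  rw [show Rm k = rot (2 * Real.pi / k) from rfl, e0, rot_inv_pow_apply]
  rw [show Fm T = half T.C T.S T.hCS from rfl, half_apply, rot_apply]
  have hapos := alpha_pos hk
  have hale := alpha_le hk
  have hpi := Real.pi_pos
  have hs : 0 ≤ Real.sin (2 * Real.pi / k) := Real.sin_nonneg_of_nonneg_of_le_pi hapos.le (by linarith)
  have hS := T.hS
  constructor
  · simp
  · simp only [mul_zero, add_zero, sub_zero, mul_one, neg_zero]
    positivity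

/-- the heights of the vertices -/
lemma heights (hk : 7 ≤ k) (T : Data k) (b : ℕ) (hb : 1 ≤ b) :
    T.C ≤ (y T b).1 ∧ 0 ≤ (y T b).2.2 := by
  induction b using Nat.strong_induction_on with
  | _ b ih =>
    obtain ⟨h1, h2⟩ := q_spec hk hb
    have hq := q_lt hk hb
    obtain ⟨j, hj⟩ : ∃ j, q k b = j := ⟨_, rfl⟩
    rw [hj] at h1 h2 hq
    obtain ⟨t, rfl⟩ : ∃ t, b = A k j + t := ⟨b - A k j, by omega⟩
    rw [A_succ] at h2
    rcases j with _ | j
    · exact step_zero hk T t (by omega)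
    · apply step hk T (j + 1) t (by omega)
      have h3 := ih (j + 1) (by omega) (by omega)
      apply sector_of hk T j _ h3.1 h3.2
      rcases Nat.eq_zero_or_pos j with rfl | hj'
      · rw [y_zero]; simp [e0]
      · exact (ih j (by omega) hj').2

/-! ### Points, distances, injectivity -/

/-- the points of the spiral -/
noncomputable def pt (T : Data k) (m : ℕ) : V3 := fr T m e0

lemma B_pt_of_mem (T : Data k) {g : Equiv.Perm V3}
    (hg : g ∈ Subgroup.closure ({Rm k, Fm T} : Set (Equiv.Perm V3))) :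
    B e0 (g e0) = (g⁻¹ e0).1 := by
  rw [← B_of_mem T (Subgroup.inv_mem _ hg) e0 (g e0)]
  rw [show g⁻¹ (g e0) = e0 from g.symm_apply_apply e0]
  simp [B, e0]

lemma rot_pow_e0 (a : ℝ) (n : ℕ) : (rot a ^ n) e0 = e0 := by
  rw [e0, rot_pow_apply]; simp

lemma fibre_one (hk : 7 ≤ k) (T : Data k) (D : Dart k) (h : dframe k (Rm k) (Fm T) D.1 = 1) :
    D.1 = (0, 0) := by
  obtain ⟨⟨m, i⟩, hi⟩ := D
  simp only at hi
  simp only [dframe] at h
  have hm : m = 0 := by
    by_contra hne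
    have h1 := (heights hk T m (by omega)).1
    have h2 : (fr T m)⁻¹ = Rm k ^ i := inv_eq_of_mul_eq_one_right h
    have h3 : y T m = e0 := by
      rw [y, h2]; exact rot_pow_e0 _ _
    rw [h3] at h1
    have := T.hC
    simp only [e0] at h1
    linarith
  subst hm
  have h2 : Rm k ^ i = 1 := by simpa [frame] using h
  have h3 : (Rm k ^ i) (0, 1, 0) = ((0 : ℝ), (1 : ℝ), (0 : ℝ)) := by rw [h2]; rfl
  rw [show Rm k = rot (2 * Real.pi / k) from rfl, rot_pow_apply] at h3
  have h4 := congrArg (fun x : V3 => x.2.1) h3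
  simp only [mul_one, mul_zero, sub_zero] at h4
  have hapos := alpha_pos hk
  have hka := k_alpha hk
  have hi' : (i : ℝ) < k := by exact_mod_cast hi
  have h0 : (0 : ℝ) ≤ i := Nat.cast_nonneg _
  have h5 := (Real.cos_eq_one_iff_of_lt_of_lt (x := i * (2 * Real.pi / k))
    (by nlinarith [Real.pi_pos]) (by nlinarith)).1 h4
  have h6 : (i : ℝ) = 0 := by
    rcases mul_eq_zero.1 h5 with h | h
    · exact h
    · exact absurd h hapos.ne'
  have : i = 0 := by exact_mod_cast h6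
  simp [this]

/-- pairwise distances -/
lemma B_pt (hk : 7 ≤ k) (T : Data k) {a b : ℕ} (hab : a ≠ b) : T.C ≤ B (pt T a) (pt T b) := by
  have ha := frame_mem (k := k) (R := Rm k) (F := Fm T) a
  have hb := frame_mem (k := k) (R := Rm k) (F := Fm T) b
  have hg := Subgroup.mul_mem _ (Subgroup.inv_mem _ ha) hb
  have e : B (pt T a) (pt T b) = B e0 (((fr T a)⁻¹ * fr T b) e0) := by
    rw [← B_of_mem T (Subgroup.inv_mem _ ha) (pt T a) (pt T b), Equiv.Perm.mul_apply]
    congr 1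
    exact (fr T a).symm_apply_apply e0
  obtain ⟨D, hD⟩ := exists_dart hk (Fm_mul_self T) (Rm_pow hk) (Rm_rel T) hg
  obtain ⟨⟨m, i⟩, hi⟩ := D
  simp only [dframe] at hD
  have hD' : (fr T a)⁻¹ * fr T b = fr T m * Rm k ^ i := hD
  have e2 : (((fr T a)⁻¹ * fr T b) e0) = fr T m e0 := by
    rw [hD', Equiv.Perm.mul_apply, show (Rm k ^ i) e0 = e0 from rot_pow_e0 _ _]
  rw [e, e2, show B e0 (fr T m e0) = ((fr T m)⁻¹ e0).1 from B_pt_of_mem T (frame_mem m)]
  rcases Nat.eq_zero_or_pos m with rfl | hm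
  · exfalso
    have h1 : fr T b = fr T a * Rm k ^ i := by
      have : fr T 0 = 1 := rfl
      rw [this, one_mul] at hD'
      rw [← hD']; group
    have h2 : (⟨(b, 0), by simp only; omega⟩ : Dart k) = ⟨(a, i), hi⟩ := by
      apply dframe_injective hk (Fm_mul_self T) (Rm_pow hk) (Rm_rel T) (fibre_one hk T)
      simp only [dframe, pow_zero, mul_one]
      exact h1
    have h3 := congrArg (fun D : Dart k => D.1.1) h2
    exact hab h3.symm
  · exact (heights hk T m hm).1

lemma pt_norm (T : Data k) (m : ℕ) : B (pt T m) (pt T m) = 1 := by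
  rw [pt, fr, B_of_mem T (frame_mem m)]
  simp [B, e0]

lemma pt_pos (hk : 7 ≤ k) (T : Data k) (m : ℕ) : 0 < (pt T m).1 := by
  have e : (pt T m).1 = B e0 (pt T m) := by simp [B, e0]
  rw [e]
  have := T.hC
  rcases Nat.eq_zero_or_pos m with rfl | hm
  · have : pt T 0 = e0 := rfl
    rw [this]; simp [B, e0]
  · rw [pt, fr, B_pt_of_mem T (frame_mem m)]
    have := (heights hk T m hm).1
    simp only [y, fr] at this
    linarith

/-- adjacent vertices -/
lemma B_pt_adj (T : Data k) {a b i i' : ℕ}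
    (h : frame k (Rm k) (Fm T) b * Rm k ^ i' = frame k (Rm k) (Fm T) a * Rm k ^ i * Fm T) :
    B (pt T a) (pt T b) = T.C := by
  have e1 : pt T b = (fr T a * Rm k ^ i * Fm T) e0 := by
    rw [show fr T a * Rm k ^ i * Fm T = fr T b * Rm k ^ i' from h.symm, Equiv.Perm.mul_apply,
      show (Rm k ^ i') e0 = e0 from rot_pow_e0 _ _]
    rfl
  have e2 : pt T a = (fr T a * Rm k ^ i) e0 := by
    rw [Equiv.Perm.mul_apply, show (Rm k ^ i) e0 = e0 from rot_pow_e0 _ _]; rfl
  rw [e1, e2, show (fr T a * Rm k ^ i * Fm T) e0 = (fr T a * Rm k ^ i) (Fm T e0) from rfl]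
  rw [B_of_mem T (show fr T a * Rm k ^ i ∈ _ from Subgroup.mul_mem _ (frame_mem a)
    (Subgroup.pow_mem _ (Subgroup.subset_closure (by simp)) i))]
  rw [show Fm T = half T.C T.S T.hCS from rfl, e0, half_apply]
  simp [B]

lemma adj_prev (T : Data k) (m : ℕ) : B (pt T m) (pt T (m + 1)) = T.C := by
  apply B_pt_adj T (i := 0) (i' := o k (m + 1) - 1)
  rw [pow_zero, mul_one, frame_flip_zero]

lemma adj_q (hk : 7 ≤ k) (T : Data k) {b : ℕ} (hb : 1 ≤ b) :
    B (pt T (q k b)) (pt T b) = T.C := by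
  obtain ⟨h1, h2⟩ := q_spec hk hb
  obtain ⟨j, hj⟩ : ∃ j, q k b = j := ⟨_, rfl⟩
  rw [hj] at h1 h2 ⊢
  obtain ⟨t, rfl⟩ : ∃ t, b = A k j + t := ⟨b - A k j, by omega⟩
  rw [A_succ] at h2
  apply B_pt_adj T (i := o k j + t) (i' := 1)
  rw [pow_one]
  exact frame_outer hk (Fm_mul_self T) (Rm_pow hk) (Rm_rel T) j t (by omega)

lemma adj_last (hk : 7 ≤ k) (T : Data k) (j : ℕ) :
    B (pt T j) (pt T (A k (j + 1))) = T.C := by
  apply B_pt_adj T (i := k - 1) (i' := 2)
  exact frame_outer_last hk (Fm_mul_self T) (Rm_pow hk) (Rm_rel T) j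

end Pool.Agent.R151.Spiral
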