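import Mathlib
import Pool.Agent.R151.SpiralGeom

/-!
# The spiral in the upper half plane and the number of its touching pairs
-/

namespace Pool.Agent.R151.Spiral

open UpperHalfPlane

/-! ### From the hyperboloid to the upper half plane -/

lemma sub_pos_of_norm {x : V3} (h1 : B x x = 1) (h2 : 0 < x.1) : 0 < x.1 - x.2.1 := by
  simp only [B] at h1
  by_contra hcon
  push Not at hcon
  nlinarith [sq_nonneg x.2.2]

/-- the point of the upper half plane attached to a point of the hyperboloid -/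
noncomputable def toH (x : V3) (h1 : B x x = 1) (h2 : 0 < x.1) : ℍ :=
  ⟨⟨x.2.2 / (x.1 - x.2.1), 1 / (x.1 - x.2.1)⟩, by
    simp only
    exact one_div_pos.2 (sub_pos_of_norm h1 h2)⟩

lemma cosh_dist_toH (x x' : V3) (h1 : B x x = 1) (h2 : 0 < x.1) (h1' : B x' x' = 1)
    (h2' : 0 < x'.1) : Real.cosh (dist (toH x h1 h2) (toH x' h1' h2')) = B x x' := by
  rw [UpperHalfPlane.cosh_dist]
  have hp := sub_pos_of_norm h1 h2
  have hp' := sub_pos_of_norm h1' h2'
  have e1 : ((toH x h1 h2 : ℍ) : ℂ) = ⟨x.2.2 / (x.1 - x.2.1), 1 / (x.1 - x.2.1)⟩ := rfl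
  have e2 : ((toH x' h1' h2' : ℍ) : ℂ) = ⟨x'.2.2 / (x'.1 - x'.2.1), 1 / (x'.1 - x'.2.1)⟩ := rfl
  have e3 : (toH x h1 h2).im = 1 / (x.1 - x.2.1) := rfl
  have e4 : (toH x' h1' h2').im = 1 / (x'.1 - x'.2.1) := rfl
  rw [Complex.dist_eq_re_im, e1, e2, e3, e4, Real.sq_sqrt (by positivity)]
  obtain ⟨f, u, v⟩ := x
  obtain ⟨f', u', v'⟩ := x'
  simp only [B] at *
  have hpn : f - u ≠ 0 := hp.ne'
  have hpn' : f' - u' ≠ 0 := hp'.ne'
  field_simp
  have h1c : f * f - u * u - v * v = 1 := h1
  have h1c' : f' * f' - u' * u' - v' * v' = 1 := h1'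
  have h3 : v ^ 2 + 1 = (f - u) * (f + u) := by linarith
  have h3' : v' ^ 2 + 1 = (f' - u') * (f' + u') := by linarith
  linear_combination ((f' - u') ^ 2) * h3 + ((f - u) ^ 2) * h3'

/-- the points of the spiral in the upper half plane -/
noncomputable def zpt {k : ℕ} (hk : 7 ≤ k) (T : Data k) (m : ℕ) : ℍ :=
  toH (pt T m) (pt_norm T m) (pt_pos hk T m)

lemma cosh_dist_zpt {k : ℕ} (hk : 7 ≤ k) (T : Data k) (a b : ℕ) :
    Real.cosh (dist (zpt hk T a) (zpt hk T b)) = B (pt T a) (pt T b) :=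
  cosh_dist_toH _ _ _ _ _ _

lemma dist_zpt_ge {k : ℕ} (hk : 7 ≤ k) (T : Data k) {d : ℝ} (hd : 0 < d) (hT : T.C = Real.cosh d)
    {a b : ℕ} (hab : a ≠ b) : d ≤ dist (zpt hk T a) (zpt hk T b) := by
  have h := B_pt hk T hab
  rw [← cosh_dist_zpt hk, hT, Real.cosh_le_cosh, abs_of_pos hd, abs_of_nonneg dist_nonneg] at h
  exact h

lemma dist_zpt_eq {k : ℕ} (hk : 7 ≤ k) (T : Data k) {d : ℝ} (hd : 0 < d) (hT : T.C = Real.cosh d)
    {a b : ℕ} (h : B (pt T a) (pt T b) = T.C) : dist (zpt hk T a) (zpt hk T b) = d := by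
  rw [← cosh_dist_zpt hk, hT] at h
  have h1 := Real.cosh_le_cosh.1 h.le
  have h2 := Real.cosh_le_cosh.1 h.ge
  rw [abs_of_pos hd, abs_of_nonneg dist_nonneg] at h1 h2
  exact le_antisymm h1 h2

/-! ### Counting -/

/-- The pairwise distances of the points of `P` are at least `d`. -/
def IsPacking (d : ℝ) (P : Finset ℍ) : Prop :=
  ∀ p ∈ P, ∀ q ∈ P, p ≠ q → d ≤ dist p q

open scoped Classical in
/-- The touching pairs: the two-element subsets of `P` whose points have distance `d`. -/
noncomputable def touchingPairs (d : ℝ) (P : Finset ℍ) : Finset (Finset ℍ) :=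
  {s ∈ P.powersetCard 2 | ∃ p r : ℍ, s = {p, r} ∧ dist p r = d}

/-- `e_d(n)`: the largest number of touching pairs among `n` points with pairwise distances at
least `d`. -/
noncomputable def maxTouching (d : ℝ) (n : ℕ) : ℕ :=
  sSup {m | ∃ P : Finset ℍ, P.card = n ∧ IsPacking d P ∧ (touchingPairs d P).card = m}

lemma card_touchingPairs_le (d : ℝ) (P : Finset ℍ) : (touchingPairs d P).card ≤ P.card.choose 2 := by
  classical
  rw [← Finset.card_powersetCard]
  exact Finset.card_le_card fun s hs => (Finset.mem_filter.1 hs).1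

lemma le_maxTouching {d : ℝ} {n : ℕ} (P : Finset ℍ) (h1 : P.card = n) (h2 : IsPacking d P) :
    (touchingPairs d P).card ≤ maxTouching d n := by
  apply le_csSup
  · refine ⟨n.choose 2, ?_⟩
    rintro m ⟨Q, hQ, _, rfl⟩
    rw [← hQ]; exact card_touchingPairs_le d Q
  · exact ⟨P, h1, h2, rfl⟩

open Classical in
/-- the edges among the first `n` vertices -/
noncomputable def edges {k : ℕ} (hk : 7 ≤ k) (T : Data k) (d : ℝ) (n : ℕ) : Finset (ℕ × ℕ) :=
  (Finset.range n ×ˢ Finset.range n).filter fun p =>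
    p.1 < p.2 ∧ dist (zpt hk T p.1) (zpt hk T p.2) = d

lemma mem_edges {k : ℕ} (hk : 7 ≤ k) (T : Data k) (d : ℝ) (n : ℕ) (p : ℕ × ℕ) :
    p ∈ edges hk T d n ↔ p.1 < p.2 ∧ p.2 < n ∧ dist (zpt hk T p.1) (zpt hk T p.2) = d := by
  simp only [edges, Finset.mem_filter, Finset.mem_product, Finset.mem_range]
  constructor
  · rintro ⟨⟨h1, h2⟩, h3, h4⟩; exact ⟨h3, h2, h4⟩
  · rintro ⟨h1, h2, h3⟩; exact ⟨⟨by omega, h2⟩, h1, h3⟩

open Classical in
lemma card_edges_succ {k : ℕ} (hk : 7 ≤ k) (T : Data k) (d : ℝ) (n : ℕ) (D : Finset ℕ)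
    (hD : ∀ a ∈ D, a < n ∧ dist (zpt hk T a) (zpt hk T n) = d) :
    (edges hk T d n).card + D.card ≤ (edges hk T d (n + 1)).card := by
  have hinj : Function.Injective (fun a : ℕ => (a, n)) := fun a b h => (Prod.mk.inj h).1
  rw [← Finset.card_image_of_injective D hinj, ← Finset.card_union_of_disjoint]
  · apply Finset.card_le_card
    intro p hp
    rcases Finset.mem_union.1 hp with h | h
    · rw [mem_edges] at h ⊢
      exact ⟨h.1, by omega, h.2.2⟩
    · obtain ⟨a, ha, rfl⟩ := Finset.mem_image.1 h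
      rw [mem_edges]
      exact ⟨(hD a ha).1, by simp, (hD a ha).2⟩
  · rw [Finset.disjoint_left]
    intro p hp hp'
    obtain ⟨a, ha, rfl⟩ := Finset.mem_image.1 hp'
    rw [mem_edges] at hp
    simp at hp

lemma card_edges {k : ℕ} (hk : 7 ≤ k) (T : Data k) {d : ℝ} (hd : 0 < d) (hT : T.C = Real.cosh d)
    (n : ℕ) : 2 * (n + 2) - 3 + q k (n + 1) ≤ (edges hk T d (n + 2)).card := by
  induction n with
  | zero =>
    have h1 : q k 1 = 0 := q_unique hk le_rfl (by rw [A_zero]) (by rw [A_one hk]; omega)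
    rw [zero_add, h1]
    have h2 := card_edges_succ hk T d 1 {0} (by
      intro a ha
      rw [Finset.mem_singleton] at ha
      subst ha
      exact ⟨by norm_num, dist_zpt_eq hk T hd hT (adj_prev T 0)⟩)
    rw [Finset.card_singleton] at h2
    have e : edges hk T d (0 + 2) = edges hk T d (1 + 1) := rfl
    rw [e]
    omega
  | succ n ih =>
    have hb : 1 ≤ n + 2 := by omega
    have hq := q_lt hk hb
    have a1 : dist (zpt hk T (n + 1)) (zpt hk T (n + 2)) = d :=
      dist_zpt_eq hk T hd hT (adj_prev T (n + 1))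
    have a2 : dist (zpt hk T (q k (n + 2))) (zpt hk T (n + 2)) = d :=
      dist_zpt_eq hk T hd hT (adj_q hk T hb)
    by_cases hs : Is k (n + 2)
    · have hqq : q k (n + 2) = q k (n + 1) + 1 := by simp [q, hs]
      obtain ⟨j, hj⟩ := hs
      have hqj : q k (n + 2) = j + 1 := by
        apply q_unique hk hb (by omega)
        rw [← hj]; exact A_strictMono hk (by omega)
      have a3 : dist (zpt hk T j) (zpt hk T (n + 2)) = d := by
        apply dist_zpt_eq hk T hd hT
        rw [← hj]; exact adj_last hk T j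
      have h2 := card_edges_succ hk T d (n + 2) {n + 1, q k (n + 2), j} (by
        intro a ha
        simp only [Finset.mem_insert, Finset.mem_singleton] at ha
        rcases ha with rfl | rfl | rfl
        · exact ⟨by omega, a1⟩
        · exact ⟨by omega, a2⟩
        · exact ⟨by omega, a3⟩)
      have hcard : ({n + 1, q k (n + 2), j} : Finset ℕ).card = 3 := by
        rw [Finset.card_insert_of_notMem, Finset.card_insert_of_notMem, Finset.card_singleton]
        · simp only [Finset.mem_singleton]; omega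
        · simp only [Finset.mem_insert, Finset.mem_singleton]; omega
      rw [hcard] at h2
      rw [show n + 1 + 1 = n + 2 by omega, show n + 1 + 2 = n + 2 + 1 by omega]
      omega
    · have hqq : q k (n + 2) = q k (n + 1) := by simp [q, hs]
      have h2 := card_edges_succ hk T d (n + 2) {n + 1, q k (n + 2)} (by
        intro a ha
        simp only [Finset.mem_insert, Finset.mem_singleton] at ha
        rcases ha with rfl | rfl
        · exact ⟨by omega, a1⟩
        · exact ⟨by omega, a2⟩)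
      have hcard : ({n + 1, q k (n + 2)} : Finset ℕ).card = 2 := by
        rw [Finset.card_insert_of_notMem, Finset.card_singleton]
        simp only [Finset.mem_singleton]; omega
      rw [hcard] at h2
      rw [show n + 1 + 1 = n + 2 by omega, show n + 1 + 2 = n + 2 + 1 by omega]
      omega

lemma zpt_injective {k : ℕ} (hk : 7 ≤ k) (T : Data k) {d : ℝ} (hd : 0 < d)
    (hT : T.C = Real.cosh d) : Function.Injective (zpt hk T) := by
  intro a b h
  by_contra hne
  have := dist_zpt_ge hk T hd hT hne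
  rw [h, dist_self] at this
  linarith

open Classical in
lemma card_edges_le {k : ℕ} (hk : 7 ≤ k) (T : Data k) {d : ℝ} (hd : 0 < d)
    (hT : T.C = Real.cosh d) (n : ℕ) :
    (edges hk T d n).card ≤ maxTouching d n := by
  have hinj := zpt_injective hk T hd hT
  set P : Finset ℍ := (Finset.range n).image (zpt hk T) with hP
  have hcard : P.card = n := by
    rw [hP, Finset.card_image_of_injective _ hinj, Finset.card_range]
  have hpack : IsPacking d P := by
    intro p hp r hr hne
    obtain ⟨a, _, rfl⟩ := Finset.mem_image.1 hp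
    obtain ⟨b, _, rfl⟩ := Finset.mem_image.1 hr
    exact dist_zpt_ge hk T hd hT (fun h => hne (by rw [h]))
  refine le_trans ?_ (le_maxTouching P hcard hpack)
  apply Finset.card_le_card_of_injOn (fun p : ℕ × ℕ => ({zpt hk T p.1, zpt hk T p.2} : Finset ℍ))
  · intro p hp
    have hp' := (mem_edges hk T d n p).1 hp
    simp only [touchingPairs, Finset.coe_filter, Set.mem_ofPred_eq, Finset.mem_powersetCard]
    refine ⟨⟨?_, ?_⟩, _, _, rfl, hp'.2.2⟩
    · intro x hx
      simp only [Finset.mem_insert, Finset.mem_singleton] at hx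
      rcases hx with rfl | rfl
      · exact Finset.mem_image_of_mem _ (Finset.mem_range.2 (by omega))
      · exact Finset.mem_image_of_mem _ (Finset.mem_range.2 (by omega))
    · rw [Finset.card_pair]
      intro h
      have := hinj h
      omega
  · intro p hp r hr hpr
    have hp' := (mem_edges hk T d n p).1 hp
    have hr' := (mem_edges hk T d n r).1 hr
    simp only at hpr
    have m1 : zpt hk T p.1 ∈ ({zpt hk T r.1, zpt hk T r.2} : Finset ℍ) := by rw [← hpr]; simp
    have m2 : zpt hk T p.2 ∈ ({zpt hk T r.1, zpt hk T r.2} : Finset ℍ) := by rw [← hpr]; simp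
    simp only [Finset.mem_insert, Finset.mem_singleton] at m1 m2
    rcases m1 with m1 | m1 <;> rcases m2 with m2 | m2 <;>
      have e1 := hinj m1 <;> have e2 := hinj m2
    · omega
    · exact Prod.ext e1 e2
    · omega
    · omega

/-! ### The angle and the bound -/

/-- The angle of the equilateral hyperbolic triangle of side `d`. -/
noncomputable def triAngle (d : ℝ) : ℝ := Real.arccos (Real.tanh (d / 2) / Real.tanh d)

/-- The bound `U_d(n)`. -/
noncomputable def U (d : ℝ) (n : ℕ) : ℝ :=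
  Real.pi / triAngle d * n - √((Real.pi / triAngle d - 1) * (Real.pi / triAngle d - 3) * n ^ 2 +
    6 * (Real.pi / triAngle d - 1) * n - 2 * Real.pi / triAngle d + 3)

lemma tanh_ratio {d : ℝ} (hd : 0 < d) :
    Real.tanh (d / 2) / Real.tanh d = Real.cosh d / (1 + Real.cosh d) := by
  have hc : 0 < Real.cosh (d / 2) := Real.cosh_pos _
  have hs : 0 < Real.sinh (d / 2) := Real.sinh_pos_iff.2 (by linarith)
  have hc' : 0 < Real.cosh d := Real.cosh_pos _
  have hs' : 0 < Real.sinh d := Real.sinh_pos_iff.2 hd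
  have e1 : Real.sinh d = 2 * Real.sinh (d / 2) * Real.cosh (d / 2) := by
    rw [← Real.sinh_two_mul]; congr 1; ring
  have e2 : Real.cosh d = 2 * Real.cosh (d / 2) ^ 2 - 1 := by
    have := Real.cosh_two_mul (d / 2)
    rw [show 2 * (d / 2) = d by ring] at this
    have h3 := Real.cosh_sq (d / 2)
    linarith
  rw [Real.tanh_eq_sinh_div_cosh, Real.tanh_eq_sinh_div_cosh, div_div_div_eq,
    div_eq_div_iff (by positivity) (by positivity)]
  rw [e1]
  linear_combination (Real.sinh (d / 2) * Real.cosh d) * e2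

/-- the data attached to `d(k)` -/
noncomputable def dataOf {k : ℕ} {d : ℝ} (hd : 0 < d) (h : triAngle d = 2 * Real.pi / k) :
    Data k where
  C := Real.cosh d
  S := Real.sinh d
  hC := by rw [Real.one_lt_cosh]; exact hd.ne'
  hS := Real.sinh_pos_iff.2 hd
  hCS := by have := Real.cosh_sq d; linarith
  hc := by
    have hc' : 0 < Real.cosh d := Real.cosh_pos _
    rw [← h, triAngle, tanh_ratio hd, Real.cos_arccos]
    · field_simp
    · have : 0 ≤ Real.cosh d / (1 + Real.cosh d) := by positivity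
      linarith
    · rw [div_le_one (by positivity)]; linarith

lemma floor_le {k : ℕ} (hk : 7 ≤ k) {d : ℝ} (h : triAngle d = 2 * Real.pi / k) (b : ℕ)
    (hb : 1 ≤ b) : ⌊U d (b + 1)⌋ ≤ 2 * ((b : ℤ) + 1) - 3 + q k b := by
  have hG := G_neg hk hb
  have hpi := Real.pi_pos
  have hk0 : (0 : ℝ) < k := by exact_mod_cast (by omega : 0 < k)
  have e1 : Real.pi / triAngle d = k / 2 := by rw [h]; field_simp
  have e2 : 2 * Real.pi / triAngle d = k := by rw [h]; field_simp
  have hG' : ((b : ℝ) + 1) ^ 2 + ((q k b : ℝ) + 1) ^ 2 - (k - 4) * ((b : ℝ) + 1) * ((q k b : ℝ) + 1) -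
      6 * (((b : ℝ) + 1) + ((q k b : ℝ) + 1)) + k + 6 < 0 := by
    have : ((G k (b + 1) (q k b + 1) : ℤ) : ℝ) < 0 := by exact_mod_cast hG
    simp only [G] at this
    push_cast at this
    exact this
  have hlt : U d (b + 1) < (2 * ((b : ℤ) + 1) - 3 + q k b : ℤ) + 1 := by
    simp only [U]
    rw [e1, e2]
    push_cast
    have hsq : ((k : ℝ) / 2 * (b + 1) - (2 * ((b : ℝ) + 1) - 3 + q k b + 1)) ^ 2 <
        ((k : ℝ) / 2 - 1) * (k / 2 - 3) * ((b : ℝ) + 1) ^ 2 + 6 * (k / 2 - 1) * ((b : ℝ) + 1) - k + 3 := by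
      nlinarith
    have := Real.lt_sqrt_of_sq_lt hsq
    linarith
  have hlt' : U d (b + 1) < ((2 * ((b : ℤ) + 1) - 3 + q k b + 1 : ℤ) : ℝ) := by
    rw [Int.cast_add, Int.cast_one]; exact hlt
  have := Int.floor_lt.2 hlt'
  omega

/-- **Main theorem on the spiral**: `⌊U_{d(k)}(n)⌋ ≤ e_{d(k)}(n)`. -/
theorem floor_U_le {k : ℕ} (hk : 7 ≤ k) {d : ℝ} (hd : 0 < d) (h : triAngle d = 2 * Real.pi / k)
    {n : ℕ} (hn : 1 ≤ n) : ⌊U d n⌋ ≤ (maxTouching d n : ℤ) := by
  rcases Nat.eq_or_lt_of_le hn with rfl | hn'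
  · have hpi := Real.pi_pos
    have hk0 : (0 : ℝ) < k := by exact_mod_cast (by omega : 0 < k)
    have e1 : Real.pi / triAngle d = k / 2 := by rw [h]; field_simp
    have e2 : 2 * Real.pi / triAngle d = k := by rw [h]; field_simp
    have hU : U d 1 = 0 := by
      simp only [U]
      rw [e1, e2]
      have : ((k : ℝ) / 2 - 1) * (k / 2 - 3) * ((1 : ℕ) : ℝ) ^ 2 + 6 * (k / 2 - 1) * ((1 : ℕ) : ℝ) - k + 3 =
          (k / 2) ^ 2 := by push_cast; ring
      rw [this, Real.sqrt_sq (by positivity)]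
      simp
    rw [hU, Int.floor_zero]
    exact Int.natCast_nonneg _
  · obtain ⟨b, rfl⟩ : ∃ b, n = b + 2 := ⟨n - 2, by omega⟩
    have h1 := floor_le hk h (b + 1) (by omega)
    have h2 := card_edges hk (dataOf hd h) hd rfl b
    have h3 := card_edges_le hk (dataOf hd h) hd rfl (b + 2)
    have h4 : 2 * (b + 2) - 3 + q k (b + 1) ≤ maxTouching d (b + 2) := le_trans h2 h3
    have e : U d (b + 1 + 1) = U d (b + 2) := rfl
    rw [show ((b + 1 : ℕ) : ℤ) + 1 = (b : ℤ) + 2 by push_cast; ring] at h1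
    have h5 : ⌊U d (b + 2)⌋ ≤ 2 * ((b : ℤ) + 2) - 3 + q k (b + 1) := h1
    have h6 : ((2 * (b + 2) - 3 + q k (b + 1) : ℕ) : ℤ) = 2 * ((b : ℤ) + 2) - 3 + q k (b + 1) := by
      rw [Nat.cast_add, Nat.cast_sub (by omega)]; push_cast; ring
    calc ⌊U d (b + 2)⌋ ≤ 2 * ((b : ℤ) + 2) - 3 + q k (b + 1) := h5
      _ = ((2 * (b + 2) - 3 + q k (b + 1) : ℕ) : ℤ) := h6.symm
      _ ≤ _ := by exact_mod_cast h4

/-! ### Existence and uniqueness of `d(k)` -/

lemma triAngle_eq_iff {k : ℕ} (hk : 7 ≤ k) {d : ℝ} (hd : 0 < d) :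
    triAngle d = 2 * Real.pi / k ↔
      Real.cosh d * (1 - Real.cos (2 * Real.pi / k)) = Real.cos (2 * Real.pi / k) := by
  have hc' : 0 < Real.cosh d := Real.cosh_pos _
  have hle : Real.cosh d / (1 + Real.cosh d) ≤ 1 := by
    rw [div_le_one (by positivity)]; linarith
  have hge : 0 ≤ Real.cosh d / (1 + Real.cosh d) := by positivity
  have h0 := alpha_pos hk
  have h1 := alpha_le hk
  have hpi := Real.pi_pos
  constructor
  · intro h
    have h2 : Real.cos (2 * Real.pi / k) = Real.cosh d / (1 + Real.cosh d) := by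
      rw [← h, triAngle, tanh_ratio hd, Real.cos_arccos (by linarith) hle]
    rw [h2]
    field_simp
    ring
  · intro h
    have h2 : Real.cosh d / (1 + Real.cosh d) = Real.cos (2 * Real.pi / k) := by
      rw [div_eq_iff (by positivity)]; linarith
    rw [triAngle, tanh_ratio hd, h2, Real.arccos_cos h0.le (by linarith)]

lemma existsUnique_side {k : ℕ} (hk : 7 ≤ k) :
    ∃! d : ℝ, 0 < d ∧ triAngle d = 2 * Real.pi / k := by
  have h0 := alpha_pos hk
  have h1 := alpha_le hk
  have hpi := Real.pi_pos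
  have hhalf : 1 / 2 < Real.cos (2 * Real.pi / k) := by
    rw [← Real.cos_pi_div_three]
    apply Real.cos_lt_cos_of_nonneg_of_le_pi <;> linarith
  have hone : Real.cos (2 * Real.pi / k) < 1 := by
    rw [← Real.cos_zero]
    apply Real.cos_lt_cos_of_nonneg_of_le_pi <;> linarith
  set c := Real.cos (2 * Real.pi / k) with hc
  have hC : 1 < c / (1 - c) := by rw [lt_div_iff₀ (by linarith)]; linarith
  obtain ⟨d, hd0, hd⟩ : ∃ d : ℝ, 0 ≤ d ∧ Real.cosh d = c / (1 - c) := by
    refine ⟨Real.arcosh (c / (1 - c)), Real.arcosh_nonneg hC.le, Real.cosh_arcosh hC.le⟩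
  have hd' : 0 < d := by
    rcases hd0.lt_or_eq with h | h
    · exact h
    · rw [← h, Real.cosh_zero] at hd; linarith
  refine ⟨d, ⟨hd', ?_⟩, ?_⟩
  · rw [triAngle_eq_iff hk hd', hd, ← hc]
    have : 1 - c ≠ 0 := by linarith
    field_simp
  · rintro e ⟨he, hea⟩
    rw [triAngle_eq_iff hk he, ← hc] at hea
    have h2 : Real.cosh e = Real.cosh d := by
      rw [hd, eq_div_iff (by linarith)]; exact hea
    have h3 := Real.cosh_le_cosh.1 h2.le
    have h4 := Real.cosh_le_cosh.1 h2.ge
    rw [abs_of_pos he, abs_of_pos hd'] at h3 h4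
    exact le_antisymm h3 h4

end Pool.Agent.R151.Spiral
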