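import Mathlib

/-!
# The topology `t₁^Z` on `C(Y,Z)` need not be regular

`Y` is a countable Tychonoff space with exactly one non-isolated point, `Z` is the two-point
discrete space.
-/

open Set TopologicalSpace

namespace Pool.Agent.R151.T1Z

universe u v

section Defs

variable (Y : Type u) (Z : Type v) [TopologicalSpace Y] [TopologicalSpace Z]

/-- The open sets of the form `f⁻¹(U)`, `f : Y → Z` continuous and `U` open in `Z`. -/
def OZ : Set (Opens Y) := {W | ∃ (f : C(Y, Z)) (U : Opens Z), W = Opens.comap f U}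

/-- `Z`-Scott open families of open sets of `Y`. -/
def ZScottOpen (H : Set (Opens Y)) : Prop :=
  (∀ W ∈ H, W ∈ OZ Y Z → ∀ V : Opens Y, W ≤ V → V ∈ H) ∧
    ∀ S ⊆ OZ Y Z, sSup S ∈ H → ∃ F ⊆ S, F.Finite ∧ sSup F ∈ H

/-- The set `(ℍ,U)` of all continuous maps with `f⁻¹(U) ∈ ℍ`. -/
def HU {Y : Type u} {Z : Type v} [TopologicalSpace Y] [TopologicalSpace Z]
    (H : Set (Opens Y)) (U : Opens Z) : Set C(Y, Z) := {f | Opens.comap f U ∈ H}

/-- The topology `t₁^Z` on `C(Y,Z)`. -/
@[instance_reducible]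
def t1Z : TopologicalSpace C(Y, Z) :=
  generateFrom {S | ∃ (H : Set (Opens Y)) (U : Opens Z), ZScottOpen Y Z H ∧ S = HU H U}

end Defs

/-! ## The space -/

/-- The points of the space. -/
inductive P : Type
  | inf : P
  | pt : List ℕ → ℕ → P

open P

/-- The initial segment of length `n` of the sequence `x`. -/
def pre (x : ℕ → ℕ) (n : ℕ) : List ℕ := (List.range n).map x

theorem length_pre (x : ℕ → ℕ) (n : ℕ) : (pre x n).length = n := by simp [pre]

/-- The column of `s`. -/
def A (s : List ℕ) : Set P := {p | ∃ m, p = pt s m}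

/-- The set associated with a branch. -/
def M (x : ℕ → ℕ) : Set P := {p | ∃ n m, p = pt (pre x n) m ∧ m ≠ x n}

/-- The ideal. -/
def Small (N : Set P) : Prop :=
  ∃ (T : Set (List ℕ)) (X : Set (ℕ → ℕ)), T.Finite ∧ X.Finite ∧
    N ⊆ (⋃ s ∈ T, A s) ∪ ⋃ x ∈ X, M x

theorem Small.mono {N N' : Set P} (h : Small N) (hN : N' ⊆ N) : Small N' := by
  obtain ⟨T, X, hT, hX, h⟩ := h
  exact ⟨T, X, hT, hX, hN.trans h⟩

theorem Small.union {N N' : Set P} (h : Small N) (h' : Small N') : Small (N ∪ N') := by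
  obtain ⟨T, X, hT, hX, h⟩ := h
  obtain ⟨T', X', hT', hX', h'⟩ := h'
  refine ⟨T ∪ T', X ∪ X', hT.union hT', hX.union hX', ?_⟩
  rw [biUnion_union, biUnion_union]
  rintro p (hp | hp)
  · rcases h hp with h | h
    · exact Or.inl (Or.inl h)
    · exact Or.inr (Or.inl h)
  · rcases h' hp with h | h
    · exact Or.inl (Or.inr h)
    · exact Or.inr (Or.inr h)

theorem small_empty : Small ∅ := ⟨∅, ∅, finite_empty, finite_empty, empty_subset _⟩

theorem small_A (s : List ℕ) : Small (A s) :=
  ⟨{s}, ∅, finite_singleton s, finite_empty, by simp⟩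

theorem small_M (x : ℕ → ℕ) : Small (M x) :=
  ⟨∅, {x}, finite_empty, finite_singleton x, by simp⟩

theorem small_pt (s : List ℕ) (m : ℕ) : Small {pt s m} :=
  (small_A s).mono (by rintro _ rfl; exact ⟨m, rfl⟩)

theorem inf_notMem_A (s : List ℕ) : inf ∉ A s := by
  rintro ⟨m, h⟩
  cases h

theorem inf_notMem_M (x : ℕ → ℕ) : inf ∉ M x := by
  rintro ⟨n, m, h, _⟩
  cases h

instance : TopologicalSpace P where
  IsOpen U := inf ∈ U → Small Uᶜ
  isOpen_univ := fun _ => by rw [compl_univ]; exact small_empty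
  isOpen_inter := by
    intro U V hU hV h
    rw [compl_inter]
    exact (hU h.1).union (hV h.2)
  isOpen_sUnion := by
    rintro S hS ⟨U, hU, h⟩
    exact (hS U hU h).mono (compl_subset_compl.2 (subset_sUnion_of_mem hU))

theorem isOpen_P {U : Set P} : IsOpen U ↔ (inf ∈ U → Small Uᶜ) := Iff.rfl

theorem isOpen_of_notMem {U : Set P} (h : inf ∉ U) : IsOpen U := fun h' => absurd h' h

theorem isClopen_compl {N : Set P} (hN : Small N) (h : inf ∉ N) : IsClopen (Nᶜ : Set P) :=
  ⟨isClosed_compl_iff.2 (isOpen_of_notMem h), fun _ => by rwa [compl_compl]⟩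

theorem isClopen_pt (s : List ℕ) (m : ℕ) : IsClopen ({pt s m} : Set P) := by
  rw [← isClopen_compl_iff]
  exact isClopen_compl (small_pt s m) (by simp)

/-- A small set contains only finitely many columns. -/
theorem finite_columns {N : Set P} (hN : Small N) : {s | A s ⊆ N}.Finite := by
  classical
  obtain ⟨T, X, hT, hX, h⟩ := hN
  -- two different elements of `X` split at a bounded level
  have h1 : ∃ L, ∀ x ∈ X, ∀ y ∈ X, x ≠ y → ∀ n, L ≤ n → pre x n ≠ pre y n := by
    have h2 : ∀ p ∈ X ×ˢ X, ∃ L, p.1 ≠ p.2 → ∀ n, L ≤ n → pre p.1 n ≠ pre p.2 n := by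
      rintro ⟨x, y⟩ _
      by_cases hxy : x = y
      · exact ⟨0, fun h => absurd hxy h⟩
      · obtain ⟨k, hk⟩ := Function.ne_iff.1 hxy
        refine ⟨k + 1, fun _ n hn h => hk ?_⟩
        have h3 := congrArg (fun l => l[k]?) h
        simpa [pre, List.getElem?_map, List.getElem?_range (show k < n by omega)] using h3
    choose! L hL using h2
    obtain ⟨B, hB⟩ := ((hX.prod hX).image L).bddAbove
    refine ⟨B, fun x hx y hy hxy n hn => ?_⟩
    exact hL (x, y) ⟨hx, hy⟩ hxy n ((hB ⟨(x, y), ⟨hx, hy⟩, rfl⟩).trans hn)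
  obtain ⟨B, hB⟩ := h1
  refine (hT.union ((hX.prod (finite_Iio B)).image fun q => pre q.1 q.2)).subset ?_
  intro s hs
  by_contra hcon
  rw [mem_union, not_or] at hcon
  obtain ⟨hsT, hsX⟩ := hcon
  -- all points of the column of `s` are in sets `M x` with `s = pre x s.length`
  have h4 : ∀ m, ∃ x ∈ X, s = pre x s.length ∧ m ≠ x s.length := by
    intro m
    rcases h (hs ⟨m, rfl⟩) with h5 | h5
    · obtain ⟨s', hs', m', h6⟩ := mem_iUnion₂.1 h5
      injection h6 with h7 h8
      exact absurd (h7 ▸ hs') hsT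
    · obtain ⟨x, hx, n, m', h6, h7⟩ := mem_iUnion₂.1 h5
      injection h6 with h8 h9
      have h10 : s.length = n := by rw [h8, length_pre]
      refine ⟨x, hx, ?_, ?_⟩
      · rw [h10]; exact h8
      · rw [h10, h9]; exact h7
  obtain ⟨x, hx, hsx, _⟩ := h4 0
  have hlen : B ≤ s.length := by
    by_contra hlt
    exact hsX ⟨(x, s.length), ⟨hx, not_le.1 hlt⟩, hsx.symm⟩
  obtain ⟨y, hy, hsy, hne⟩ := h4 (x s.length)
  have hxy : x ≠ y := by
    rintro rfl
    exact hne rfl
  exact hB x hx y hy hxy s.length hlen (hsx.symm.trans hsy)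

/-! ## Characteristic functions -/

open Classical in
/-- The characteristic function of a clopen set. -/
noncomputable def chi (V : Set P) (hV : IsClopen V) : C(P, Bool) where
  toFun p := if p ∈ V then true else false
  continuous_toFun := by
    rw [continuous_discrete_rng]
    intro b
    cases b
    · have : (fun p => if p ∈ V then true else false) ⁻¹' {false} = Vᶜ := by
        ext p
        by_cases h : p ∈ V <;> simp [h]
      rw [this]
      exact hV.compl.2
    · have : (fun p => if p ∈ V then true else false) ⁻¹' {true} = V := by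
        ext p
        by_cases h : p ∈ V <;> simp [h]
      rw [this]
      exact hV.2

theorem chi_of_mem {V : Set P} {hV : IsClopen V} {p : P} (h : p ∈ V) : chi V hV p = true := by
  simp [chi, h]

theorem chi_of_notMem {V : Set P} {hV : IsClopen V} {p : P} (h : p ∉ V) :
    chi V hV p = false := by
  simp [chi, h]

/-- The open set `{true}`. -/
def T : Opens Bool := ⟨{true}, isOpen_discrete _⟩

/-- Clopen sets belong to `OZ`. -/
theorem mem_OZ {V : Set P} (hV : IsClopen V) : (⟨V, hV.2⟩ : Opens P) ∈ OZ P Bool := by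
  refine ⟨chi V hV, T, ?_⟩
  ext p
  change p ∈ V ↔ chi V hV p ∈ ({true} : Set Bool)
  by_cases h : p ∈ V
  · simp [h, chi_of_mem h]
  · simp [h, chi_of_notMem (hV := hV) h]

theorem isClopen_of_mem_OZ {W : Opens P} (h : W ∈ OZ P Bool) : IsClopen (W : Set P) := by
  obtain ⟨f, U, rfl⟩ := h
  exact (isClopen_discrete (U : Set Bool)).preimage f.continuous

/-- In a `Z`-Scott open family upward closure holds from all clopen sets. -/
theorem up {H : Set (Opens P)} (hH : ZScottOpen P Bool H) {W V : Opens P} (hW : W ∈ H)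
    (hc : IsClopen (W : Set P)) (h : W ≤ V) : V ∈ H := hH.1 W hW (mem_OZ hc) V h

theorem isClopen_sSup {F : Set (Opens P)} (hF : F.Finite) (h : ∀ W ∈ F, IsClopen (W : Set P)) :
    IsClopen ((sSup F : Opens P) : Set P) := by
  rw [Opens.coe_sSup]
  exact hF.isClopen_biUnion h

/-- Compactness of `Z`-Scott open families for covers of a clopen set by a clopen set and
points. -/
theorem finite_sub {H : Set (Opens P)} (hH : ZScottOpen P Bool H) {W B : Set P}
    (hW : IsClopen W) (hB : inf ∉ B) (hWB : IsOpen (W ∪ B)) (h : (⟨W ∪ B, hWB⟩ : Opens P) ∈ H) :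
    ∃ E : Set P, E.Finite ∧ E ⊆ B ∧ ∀ V : Opens P, W ∪ E ⊆ V → V ∈ H := by
  classical
  have hpt : ∀ p : B, IsClopen ({p.1} : Set P) := by
    rintro ⟨p, hp⟩
    cases p with
    | inf => exact absurd hp hB
    | pt s m => exact isClopen_pt s m
  let w : Opens P := ⟨W, hW.2⟩
  let q : B → Opens P := fun p => ⟨{p.1}, (hpt p).2⟩
  have hsup : sSup (insert w (range q)) = ⟨W ∪ B, hWB⟩ := by
    ext p
    rw [Opens.coe_sSup]
    simp only [mem_iUnion, exists_prop]
    constructor
    · rintro ⟨V, rfl | ⟨b, rfl⟩, hp⟩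
      · exact Or.inl hp
      · have : p = b.1 := hp
        rw [this]
        exact Or.inr b.2
    · rintro (hp | hp)
      · exact ⟨w, mem_insert _ _, hp⟩
      · exact ⟨q ⟨p, hp⟩, mem_insert_of_mem _ ⟨_, rfl⟩, rfl⟩
  obtain ⟨F, hFS, hFfin, hFH⟩ := hH.2 (insert w (range q)) (by
    rintro V (rfl | ⟨b, rfl⟩)
    · exact mem_OZ hW
    · exact mem_OZ (hpt b)) (by rw [hsup]; exact h)
  have hclop : ∀ V ∈ F, IsClopen (V : Set P) := by
    intro V hV
    rcases hFS hV with rfl | ⟨b, rfl⟩
    · exact hW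
    · exact hpt b
  refine ⟨{p | ∃ hp : p ∈ B, q ⟨p, hp⟩ ∈ F}, ?_, ?_, ?_⟩
  · -- finiteness
    have hinj : Function.Injective q := by
      intro a b hab
      have h1 : ({a.1} : Set P) = {b.1} := congrArg (fun V : Opens P => (V : Set P)) hab
      exact Subtype.ext (singleton_eq_singleton_iff.1 h1)
    have h1 : {b : B | q b ∈ F}.Finite := hFfin.preimage hinj.injOn
    refine (h1.image Subtype.val).subset ?_
    rintro p ⟨hp, hpF⟩
    exact ⟨⟨p, hp⟩, hpF, rfl⟩
  · rintro p ⟨hp, _⟩
    exact hp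
  · intro V hV
    refine up hH hFH (isClopen_sSup hFfin hclop) ?_
    intro p hp
    obtain ⟨W', hW', hpW'⟩ := Opens.mem_sSup.1 hp
    apply hV
    rcases hFS hW' with rfl | ⟨b, rfl⟩
    · exact Or.inl hpW'
    · right
      have : p = b.1 := hpW'
      rw [this]
      exact ⟨b.2, hW'⟩

/-! ## The open set -/

/-- The compact family. -/
def G : Set (Opens P) := {V | inf ∈ V ∧ ∀ s, ∃ m, pt s m ∈ V}

theorem zScottOpen_G : ZScottOpen P Bool G := by
  classical
  refine ⟨fun W hW _ V h => ⟨h hW.1, fun s => ?_⟩, fun S hS h => ?_⟩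
  · obtain ⟨m, hm⟩ := hW.2 s
    exact ⟨m, h hm⟩
  · obtain ⟨W₀, hW₀, hinf⟩ := Opens.mem_sSup.1 h.1
    have hsmall : Small ((W₀ : Set P)ᶜ) := isOpen_P.1 W₀.isOpen hinf
    have hfin := finite_columns hsmall
    have h1 : ∀ s, ∃ W ∈ S, ∃ m, pt s m ∈ W := by
      intro s
      obtain ⟨m, hm⟩ := h.2 s
      obtain ⟨W, hW, hWm⟩ := Opens.mem_sSup.1 hm
      exact ⟨W, hW, m, hWm⟩
    choose W hWS m hm using h1
    refine ⟨insert W₀ (W '' {s | A s ⊆ ((W₀ : Set P)ᶜ)}), ?_, (hfin.image W).insert _, ?_, ?_⟩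
    · rintro V (rfl | ⟨s, _, rfl⟩)
      · exact hW₀
      · exact hWS s
    · exact Opens.mem_sSup.2 ⟨W₀, mem_insert _ _, hinf⟩
    · intro s
      by_cases hs : A s ⊆ ((W₀ : Set P)ᶜ)
      · exact ⟨m s, Opens.mem_sSup.2 ⟨W s, mem_insert_of_mem _ ⟨s, hs, rfl⟩, hm s⟩⟩
      · obtain ⟨p, ⟨k, rfl⟩, hp⟩ := Set.not_subset.1 hs
        exact ⟨k, Opens.mem_sSup.2 ⟨W₀, mem_insert _ _, not_notMem.1 hp⟩⟩

/-! ## Neighbourhoods of two kinds of functions -/

/-- The constant map with value `true`. -/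
def one : C(P, Bool) := ContinuousMap.const P true

theorem nhds_one {N : Set C(P, Bool)} (hN : @IsOpen _ (t1Z P Bool) N) (h1 : one ∈ N) {W : Set P}
    (hW : IsClopen W) (hinf : inf ∈ W) :
    ∃ E : Set P, E.Finite ∧ ∀ (V : Set P) (hV : IsClopen V), W ∪ E ⊆ V → chi V hV ∈ N := by
  induction hN with
  | basic S hS =>
    obtain ⟨H, U, hH, rfl⟩ := hS
    have h2 : Opens.comap one U ∈ H := h1
    by_cases ht : true ∈ U
    · have h3 : Opens.comap one U = ⟨W ∪ Wᶜ, by rw [union_compl_self]; exact isOpen_univ⟩ := by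
        ext p
        simp only [union_compl_self]
        exact ⟨fun _ => trivial, fun _ => ht⟩
      rw [h3] at h2
      obtain ⟨E, hE, _, hEV⟩ := finite_sub hH hW (fun h : inf ∈ Wᶜ => h hinf) _ h2
      refine ⟨E, hE, fun V hV hVE => hEV _ ?_⟩
      intro p hp
      change chi V hV p ∈ U
      rw [chi_of_mem (hVE hp)]
      exact ht
    · refine ⟨∅, finite_empty, fun V hV _ => up hH h2 ?_ ?_⟩
      · exact (isClopen_discrete (U : Set Bool)).preimage one.continuous
      · intro p hp
        exact absurd hp ht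
  | univ => exact ⟨∅, finite_empty, fun _ _ _ => trivial⟩
  | inter s t _ _ hs ht =>
    obtain ⟨E, hE, hE'⟩ := hs h1.1
    obtain ⟨E', hE₂, hE₂'⟩ := ht h1.2
    refine ⟨E ∪ E', hE.union hE₂, fun V hV h => ⟨hE' V hV ?_, hE₂' V hV ?_⟩⟩
    · exact (union_subset_union_right W subset_union_left).trans h
    · exact (union_subset_union_right W subset_union_right).trans h
  | sUnion 𝒮 _ h𝒮 =>
    obtain ⟨S, hS, hS1⟩ := h1
    obtain ⟨E, hE, hE'⟩ := h𝒮 S hS hS1
    exact ⟨E, hE, fun V hV h => ⟨S, hS, hE' V hV h⟩⟩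

/-- The complement of a column. -/
theorem isClopen_Ac (s : List ℕ) : IsClopen ((A s)ᶜ : Set P) :=
  isClopen_compl (small_A s) (inf_notMem_A s)

theorem isClopen_Ac' (s : List ℕ) (m : ℕ) : IsClopen ((A s \ {pt s m})ᶜ : Set P) :=
  isClopen_compl ((small_A s).mono sdiff_subset) fun h => inf_notMem_A s h.1

theorem nhds_column {s : List ℕ} {N : Set C(P, Bool)} (hN : @IsOpen _ (t1Z P Bool) N)
    (h1 : chi _ (isClopen_Ac s) ∈ N) :
    ∃ m₀, ∀ m, m₀ ≤ m → chi _ (isClopen_Ac' s m) ∈ N := by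
  induction hN with
  | basic S hS =>
    obtain ⟨H, U, hH, rfl⟩ := hS
    have h2 : Opens.comap (chi _ (isClopen_Ac s)) U ∈ H := h1
    have hclop : IsClopen ((Opens.comap (chi _ (isClopen_Ac s)) U : Opens P) : Set P) :=
      (isClopen_discrete (U : Set Bool)).preimage (chi _ (isClopen_Ac s)).continuous
    by_cases ht : true ∈ U
    · -- the preimages increase
      refine ⟨0, fun m _ => up hH h2 hclop ?_⟩
      intro p hp
      change chi _ (isClopen_Ac' s m) p ∈ U
      by_cases hp' : p ∈ ((A s \ {pt s m})ᶜ : Set P)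
      · rw [chi_of_mem hp']
        exact ht
      · rw [chi_of_notMem hp']
        have h3 : p ∉ ((A s)ᶜ : Set P) := fun h => hp' fun h' => h h'.1
        have h4 : chi _ (isClopen_Ac s) p ∈ U := hp
        rwa [chi_of_notMem h3] at h4
    · by_cases hf : false ∈ U
      · have h3 : Opens.comap (chi _ (isClopen_Ac s)) U =
            ⟨∅ ∪ A s, by rw [empty_union]; exact isOpen_of_notMem (inf_notMem_A s)⟩ := by
          ext p
          simp only [empty_union]
          change chi _ (isClopen_Ac s) p ∈ U ↔ p ∈ A s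
          by_cases hp : p ∈ A s
          · rw [chi_of_notMem (show p ∉ ((A s)ᶜ : Set P) from fun h => h hp)]
            exact ⟨fun _ => hp, fun _ => hf⟩
          · rw [chi_of_mem (show p ∈ ((A s)ᶜ : Set P) from hp)]
            exact ⟨fun h => absurd h ht, fun h => absurd h hp⟩
        rw [h3] at h2
        obtain ⟨E, hE, hEA, hEV⟩ := finite_sub hH isClopen_empty (inf_notMem_A s) _ h2
        -- choose `m` beyond `E`
        have h4 : {m | pt s m ∈ E}.Finite := hE.preimage (f := fun m => pt s m) (by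
          intro a _ b _ hab
          injection hab)
        obtain ⟨B, hB⟩ := h4.bddAbove
        refine ⟨B + 1, fun m hm => hEV _ ?_⟩
        intro p hp
        rw [empty_union] at hp
        change chi _ (isClopen_Ac' s m) p ∈ U
        rw [chi_of_notMem]
        · exact hf
        · intro h5
          apply h5
          refine ⟨hEA hp, ?_⟩
          rintro rfl
          have h6 : m ≤ B := hB hp
          omega
      · refine ⟨0, fun m _ => up hH h2 hclop ?_⟩
        intro p hp
        have h4 : chi _ (isClopen_Ac s) p ∈ U := hp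
        cases hb : chi _ (isClopen_Ac s) p
        · rw [hb] at h4; exact absurd h4 hf
        · rw [hb] at h4; exact absurd h4 ht
  | univ => exact ⟨0, fun _ _ => trivial⟩
  | inter s t _ _ hs ht =>
    obtain ⟨a, ha⟩ := hs h1.1
    obtain ⟨b, hb⟩ := ht h1.2
    exact ⟨max a b, fun m hm => ⟨ha m ((le_max_left _ _).trans hm),
      hb m ((le_max_right _ _).trans hm)⟩⟩
  | sUnion 𝒮 _ h𝒮 =>
    obtain ⟨S, hS, hS1⟩ := h1
    obtain ⟨a, ha⟩ := h𝒮 S hS hS1
    exact ⟨a, fun m hm => ⟨S, hS, ha m hm⟩⟩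

/-! ## The main argument -/

/-- The branch through the tree prescribed by `g`. -/
def seg (g : List ℕ → ℕ) : ℕ → List ℕ
  | 0 => []
  | k + 1 => seg g k ++ [g (seg g k)]

theorem exists_branch (g : List ℕ → ℕ) : ∃ x : ℕ → ℕ, ∀ k, x k = g (pre x k) := by
  refine ⟨fun k => g (seg g k), fun k => ?_⟩
  have h : ∀ k, pre (fun k => g (seg g k)) k = seg g k := by
    intro k
    induction k with
    | zero => rfl
    | succ k ih =>
      simp only [pre] at ih ⊢
      rw [List.range_succ, List.map_append, ih]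
      rfl
  rw [h k]

theorem not_regular : ¬ @RegularSpace C(P, Bool) (t1Z P Bool) := by
  intro hreg
  let τ : TopologicalSpace C(P, Bool) := t1Z P Bool
  have hopen : IsOpen (HU G T) := isOpen_generateFrom_of_mem ⟨G, T, zScottOpen_G, rfl⟩
  have hone : one ∈ HU G T := by
    refine ⟨rfl, fun s => ⟨0, rfl⟩⟩
  obtain ⟨C, hC, hCc, hCsub⟩ := @exists_mem_nhds_isClosed_subset _ τ hreg one
    (HU G T) (hopen.mem_nhds hone)
  obtain ⟨N, hNC, hN, hNone⟩ := mem_nhds_iff.1 hC
  -- the complements of the columns are not in `C`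
  have h1 : ∀ s, ∃ m₀, ∀ m, m₀ ≤ m → chi _ (isClopen_Ac' s m) ∉ N := by
    intro s
    have h2 : chi _ (isClopen_Ac s) ∈ Cᶜ := by
      intro h
      obtain ⟨m, hm⟩ := (hCsub h).2 s
      have h3 : chi _ (isClopen_Ac s) (pt s m) = true := hm
      rw [chi_of_notMem (show pt s m ∉ ((A s)ᶜ : Set P) from fun h => h ⟨m, rfl⟩)] at h3
      cases h3
    obtain ⟨m₀, hm₀⟩ := nhds_column hCc.isOpen_compl h2
    exact ⟨m₀, fun m hm h => hm₀ m hm (hNC h)⟩
  choose g hg using h1
  obtain ⟨x, hx⟩ := exists_branch g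
  obtain ⟨E, hE, hEV⟩ := nhds_one hN hNone (isClopen_compl (small_M x) (inf_notMem_M x))
    (inf_notMem_M x)
  -- a level not met by `E`
  have hlev : ∃ k, ∀ m, pt (pre x k) m ∉ E := by
    let len : P → ℕ := fun p => match p with
      | inf => 0
      | pt s _ => s.length
    obtain ⟨B, hB⟩ := (hE.image len).bddAbove
    refine ⟨B + 1, fun m hm => ?_⟩
    have h2 : len (pt (pre x (B + 1)) m) ≤ B := hB ⟨_, hm, rfl⟩
    have h3 : len (pt (pre x (B + 1)) m) = B + 1 := length_pre x (B + 1)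
    omega
  obtain ⟨k, hk⟩ := hlev
  refine hg (pre x k) (x k) (hx k).ge (hEV _ _ ?_)
  rintro p (hp | hp)
  · rintro ⟨⟨m, rfl⟩, hm⟩
    apply hp
    exact ⟨k, m, rfl, fun h => hm (by rw [h]; rfl)⟩
  · rintro ⟨⟨m, rfl⟩, _⟩
    exact hk m hp

/-! ## Separation properties of the space -/

instance : T2Space P := by
  refine ⟨fun p q hpq => ?_⟩
  have key : ∀ s m (q : P), pt s m ≠ q → ∃ u v : Set P, IsOpen u ∧ IsOpen v ∧ pt s m ∈ u ∧
      q ∈ v ∧ Disjoint u v := by
    intro s m q hq
    exact ⟨{pt s m}, {pt s m}ᶜ, (isClopen_pt s m).2, (isClopen_pt s m).compl.2, rfl,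
      fun h => hq h.symm, disjoint_compl_right⟩
  cases p with
  | pt s m => exact key s m q hpq
  | inf =>
    cases q with
    | inf => exact absurd rfl hpq
    | pt s m =>
      obtain ⟨u, v, hu, hv, h1, h2, h3⟩ := key s m inf hpq.symm
      exact ⟨v, u, hv, hu, h2, h1, h3.symm⟩

theorem completelyRegular_of_clopen {X : Type*} [TopologicalSpace X]
    (h : ∀ (x : X) (K : Set X), IsClosed K → x ∉ K → ∃ V : Set X, IsClopen V ∧ x ∈ V ∧
      Disjoint V K) : CompletelyRegularSpace X := by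
  classical
  refine ⟨fun x K hK hx => ?_⟩
  obtain ⟨V, hV, hxV, hVK⟩ := h x K hK hx
  refine ⟨fun p => if p ∈ V then 0 else 1, ?_, by simp [hxV], fun p hp => ?_⟩
  · refine continuous_const.if ?_ continuous_const
    intro a ha
    have : frontier {p | p ∈ V} = ∅ := hV.frontier_eq
    rw [this] at ha
    exact absurd ha (notMem_empty _)
  · have : p ∉ V := fun h => Set.disjoint_left.1 hVK h hp
    simp [this]

instance : CompletelyRegularSpace P := by
  apply completelyRegular_of_clopen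
  intro x K hK hx
  cases x with
  | pt s m =>
    exact ⟨{pt s m}, isClopen_pt s m, rfl, by
      rw [Set.disjoint_singleton_left]
      exact hx⟩
  | inf =>
    refine ⟨Kᶜ, ⟨?_, hK.isOpen_compl⟩, hx, disjoint_compl_left⟩
    exact isClosed_compl_iff.2 (isOpen_of_notMem hx)

instance : Countable P := by
  have : Function.Surjective (fun o : Option (List ℕ × ℕ) => match o with
    | none => inf
    | some (s, m) => pt s m) := by
    intro p
    cases p with
    | inf => exact ⟨none, rfl⟩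
    | pt s m => exact ⟨some (s, m), rfl⟩
  exact this.countable

end Pool.Agent.R151.T1Z
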